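import Pool.Agent.KS6_19.DA.L.Helper203.DS.Defs3

open Metric Set Filter Topology

noncomputable section

namespace Pool.Agent.Helper203.DS

theorem cay_ic (a w : ℂ) (ha : ‖a‖ = 1) (hw : w + 1 ≠ 0) : Cay a (ic a w) = w := by
  have ha0 : a ≠ 0 := by rintro rfl; norm_num at ha
  have h1 : a - a * (w - 1) / (w + 1) = 2 * a / (w + 1) := by field_simp; ring
  have h2 : a + a * (w - 1) / (w + 1) = 2 * a * w / (w + 1) := by field_simp; ring
  unfold Cay ic
  rw [h1, h2]
  field_simp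

theorem ic_cay (a z : ℂ) (ha : ‖a‖ = 1) (hz : z ≠ a) : ic a (Cay a z) = z := by
  have ha0 : a ≠ 0 := by rintro rfl; norm_num at ha
  have hz' : a - z ≠ 0 := sub_ne_zero.2 hz.symm
  have h1 : (a + z) / (a - z) - 1 = 2 * z / (a - z) := by field_simp; ring
  have h2 : (a + z) / (a - z) + 1 = 2 * a / (a - z) := by field_simp; ring
  unfold Cay ic
  rw [h1, h2]
  field_simp

theorem ic_norm (a w : ℂ) (ha : ‖a‖ = 1) (hw : 0 < w.re) : ‖ic a w‖ < 1 := by
  have h0 : w + 1 ≠ 0 := by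
    intro h
    have := congrArg Complex.re h
    simp at this
    linarith
  have h1 : ‖w - 1‖ < ‖w + 1‖ := by
    rw [← sq_lt_sq₀ (norm_nonneg _) (norm_nonneg _), Complex.sq_norm, Complex.sq_norm,
      Complex.normSq_apply, Complex.normSq_apply]
    simp
    nlinarith
  unfold ic
  rw [norm_div, norm_mul, ha, one_mul, div_lt_one (norm_pos_iff.2 h0)]
  exact h1

theorem ic_sub (a w : ℂ) (ha : ‖a‖ = 1) (hw : w + 1 ≠ 0) : ‖ic a w - a‖ = 2 / ‖w + 1‖ := by
  have h1 : ic a w - a = -(2 * a) / (w + 1) := by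
    unfold ic
    field_simp
    ring
  rw [h1, norm_div, norm_neg, norm_mul, ha, mul_one]
  norm_num

theorem cay_re (a z : ℂ) (ha : ‖a‖ = 1) (hz : z ≠ a) :
    (Cay a z).re = (1 - ‖z‖ ^ 2) / ‖a - z‖ ^ 2 := by
  have h1 : (1 : ℝ) = ‖a‖ ^ 2 := by rw [ha]; norm_num
  unfold Cay
  rw [h1, Complex.div_re, Complex.sq_norm, Complex.sq_norm, Complex.sq_norm, ← add_div]
  congr 1
  rw [Complex.normSq_apply, Complex.normSq_apply]
  simp
  ring

end Pool.Agent.Helper203.DS
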