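import Pool.Agent.KS6_19.DA.L.Helper203.DS.Defs2

open Metric Set Filter Topology

noncomputable section

namespace Pool.Agent.Helper203.DS

theorem crit2_aux {A : Type*} [Ring A] (R T y : A) (hR : R * (y - T) = 1) (hc : Commute T y)
    (n : ℕ) : ∑ i ∈ Finset.range n, T ^ i * y ^ (n - 1 - i) = R * (y ^ n - T ^ n) := by
  have hg := hc.mul_geom_sum₂ n
  have h1 : (y - T) * ∑ i ∈ Finset.range n, T ^ i * y ^ (n - 1 - i) = y ^ n - T ^ n := by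
    rw [← neg_sub T y, neg_mul, hg, neg_sub]
  rw [← h1, ← mul_assoc, hR, one_mul]

theorem crit2_alg (l : ℂ) (k : ℕ) (Q : DA) :
    ((algebraMap ℂ (DA →L[ℂ] DA) l) ^ k) Q = l ^ k • Q := by
  rw [← map_pow, ContinuousLinearMap.algebraMap_apply]

theorem crit2_mul (A B : DA →L[ℂ] DA) (Q : DA) : (A * B) Q = A (B Q) := rfl

theorem crit2 {T : DA →L[ℂ] DA} {Φ : Pt → Pt} (h : IsComp T Φ) (l : ℂ) (hl : l ∉ spectrum ℂ T) :
    ∃ C : ℝ, 0 < C ∧ ∀ (P : DA) (N : ℕ) (y : Pt),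
      ‖∑ j ∈ Finset.range (N + 1), l ^ (N - j) * P.1 (Φ^[j] y)‖ ≤
        C * (‖(T ^ (N + 1)) P‖ + ‖l‖ ^ (N + 1) * ‖P‖) := by
  rw [spectrum.notMem_iff] at hl
  obtain ⟨R, hR⟩ := hl.exists_left_inv
  refine ⟨‖R‖ + 1, by positivity, fun P N y => ?_⟩
  have h1 := crit2_aux R T (algebraMap ℂ (DA →L[ℂ] DA) l) hR (Algebra.commutes l T).symm (N + 1)
  have h2 : ((∑ i ∈ Finset.range (N + 1), T ^ i *
      (algebraMap ℂ (DA →L[ℂ] DA) l) ^ (N + 1 - 1 - i)) P).1 y =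
      ∑ j ∈ Finset.range (N + 1), l ^ (N - j) * P.1 (Φ^[j] y) := by
    rw [ContinuousLinearMap.sum_apply, sum_apply]
    refine Finset.sum_congr rfl fun j _ => ?_
    rw [crit2_mul, crit2_alg, map_smul, smul_apply, h.pow,
      Nat.add_sub_cancel]
  rw [← h2, h1]
  refine (norm_apply_le _ y).trans ?_
  rw [crit2_mul, ContinuousLinearMap.sub_apply, crit2_alg]
  refine (R.le_opNorm _).trans ?_
  have e3 : ‖l ^ (N + 1) • P - (T ^ (N + 1)) P‖ ≤ ‖(T ^ (N + 1)) P‖ + ‖l‖ ^ (N + 1) * ‖P‖ := by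
    refine (norm_sub_le _ _).trans ?_
    rw [norm_smul, norm_pow, add_comm]
  have e4 := norm_nonneg R
  have e5 := norm_nonneg (l ^ (N + 1) • P - (T ^ (N + 1)) P)
  nlinarith

end Pool.Agent.Helper203.DS
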