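import Pool.Agent.KS6_19.DA.L.Helper203.DS.Defs2

open Metric Set Filter Topology

noncomputable section

namespace Pool.Agent.Helper203.DS

theorem ip_factor (z w : ℂ) (hz : 0 < z.re) (hw : 0 < w.re) :
    |z.re - w.re| / (z.re + w.re) ≤ ‖1 - 2 * (w.re : ℂ) * (1 / (z + (starRingEnd ℂ) w))‖ := by
  have hne : z + (starRingEnd ℂ) w ≠ 0 := by
    intro h
    have := congrArg Complex.re h
    simp at this
    linarith
  have e1 : 1 - 2 * (w.re : ℂ) * (1 / (z + (starRingEnd ℂ) w)) =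
      (z - w) / (z + (starRingEnd ℂ) w) := by
    field_simp
    have : (2 * (w.re : ℂ)) = w + (starRingEnd ℂ) w := by
      rw [Complex.add_conj]
      push_cast
      ring
    rw [this]
    ring
  rw [e1, norm_div]
  have hpos : 0 < ‖z + (starRingEnd ℂ) w‖ := norm_pos_iff.2 hne
  have hsum : 0 < z.re + w.re := by linarith
  rw [div_le_div_iff₀ hsum hpos]
  apply le_of_sq_le_sq _ (by positivity)
  have n1 : ‖z + (starRingEnd ℂ) w‖ ^ 2 = (z.re + w.re) ^ 2 + (z.im - w.im) ^ 2 := by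
    rw [← Complex.normSq_eq_norm_sq, Complex.normSq_apply]
    simp
    ring
  have n2 : ‖z - w‖ ^ 2 = (z.re - w.re) ^ 2 + (z.im - w.im) ^ 2 := by
    rw [← Complex.normSq_eq_norm_sq, Complex.normSq_apply]
    simp
    ring
  rw [mul_pow, mul_pow, n1, n2, sq_abs]
  nlinarith [mul_nonneg (sq_nonneg (z.im - w.im)) (mul_pos hz hw).le]

theorem ip_small (u p q : ℝ) (hu0 : 0 < u) (hu1 : u < 1) (hp : 0 < p) (hq : 0 < q)
    (hpq : p ≤ u * q) : (1 - u) ^ 2 ≤ |p - q| / (p + q) := by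
  have h1 : p ≤ q := by nlinarith
  rw [abs_of_nonpos (by linarith), le_div_iff₀ (by linarith)]
  have h2 : 0 ≤ (u * q - p) * (1 + (1 - u) ^ 2) := mul_nonneg (by linarith) (by positivity)
  have h3 : 0 ≤ q * u ^ 2 * (1 - u) := mul_nonneg (by positivity) (by linarith)
  nlinarith

theorem ip_exp (β u : ℝ) (hβ : 1 < β) (hu0 : 0 < u) (hu1 : u ≤ β⁻¹) :
    Real.exp (-(2 * (β / (β - 1)) * u)) ≤ (1 - u) ^ 2 := by
  have hb : β⁻¹ < 1 := inv_lt_one_of_one_lt₀ hβ
  have h1 : 0 < 1 - u := by linarith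
  have h2 : Real.exp (-(β / (β - 1) * u)) ≤ 1 - u := by
    have h3 : 1 / (1 - u) ≤ Real.exp (u / (1 - u)) := by
      have := Real.add_one_le_exp (u / (1 - u))
      have e : u / (1 - u) + 1 = 1 / (1 - u) := by
        field_simp
        ring
      rw [e] at this
      exact this
    have h4 : Real.exp (-(u / (1 - u))) ≤ 1 - u := by
      rw [Real.exp_neg]
      rw [inv_le_comm₀ (Real.exp_pos _) h1]
      rw [← one_div]
      exact h3
    refine le_trans (Real.exp_le_exp.2 ?_) h4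
    rw [neg_le_neg_iff, div_le_iff₀ h1]
    have hb1 : 0 < β - 1 := by linarith
    have h5 : 1 ≤ β / (β - 1) * (1 - u) := by
      rw [div_mul_eq_mul_div, le_div_iff₀ hb1]
      have : β * u ≤ 1 := by
        have := mul_le_mul_of_nonneg_left hu1 (by linarith : (0 : ℝ) ≤ β)
        rwa [mul_inv_cancel₀ (by linarith)] at this
      nlinarith
    nlinarith
  have h6 : Real.exp (-(2 * (β / (β - 1)) * u)) = Real.exp (-(β / (β - 1) * u)) ^ 2 := by
    rw [← Real.exp_nat_mul]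
    congr 1
    push_cast
    ring
  rw [h6]
  exact pow_le_pow_left₀ (Real.exp_pos _).le h2 2

theorem ip_geom (β : ℝ) (hβ : 1 < β) (n : ℕ) :
    ∑ i ∈ Finset.range n, (β⁻¹) ^ (i + 1) ≤ 1 / (β - 1) := by
  have hb0 : 0 < β⁻¹ := by positivity
  have hb : β⁻¹ < 1 := inv_lt_one_of_one_lt₀ hβ
  have h1 : ∑ i ∈ Finset.range n, (β⁻¹) ^ (i + 1) = (1 - (β⁻¹) ^ n) / (β - 1) := by
    have hb1 : β - 1 ≠ 0 := by linarith
    have hβ0 : β ≠ 0 := by linarith
    induction n with
    | zero => simp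
    | succ n ih =>
      rw [Finset.sum_range_succ, ih]
      rw [pow_succ]
      field_simp
      ring
  rw [h1]
  apply div_le_div_of_nonneg_right _ (by linarith)
  have : 0 ≤ (β⁻¹) ^ n := by positivity
  linarith

theorem interp_prod (β : ℝ) (hβ : 1 < β) (N : ℕ) (x : ℕ → ℂ) (h0 : ∀ j ≤ N, 0 < (x j).re)
    (h : ∀ j < N, β * (x j).re ≤ (x (j + 1)).re) :
    ∀ j ≤ N, Real.exp (-(4 * β / (β - 1) ^ 2)) ≤
      ∏ k ∈ (Finset.range (N + 1)).erase j,
        ‖1 - 2 * ((x k).re : ℂ) * (1 / (x j + (starRingEnd ℂ) (x k)))‖ := by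
  intro j hj
  have hb0 : 0 < β⁻¹ := by positivity
  have hb : β⁻¹ < 1 := inv_lt_one_of_one_lt₀ hβ
  have hβ0 : 0 < β := by linarith
  have hgrow : ∀ i m, i + m ≤ N → (x i).re ≤ (β⁻¹) ^ m * (x (i + m)).re := by
    intro i m
    induction m with
    | zero => intro _; simp
    | succ m ih =>
      intro hm
      have h1 := ih (by omega)
      have h2 := h (i + m) (by omega)
      have h3 : (x (i + m)).re ≤ β⁻¹ * (x (i + (m + 1))).re := by
        rw [← div_eq_inv_mul, le_div_iff₀ hβ0, mul_comm]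
        exact h2
      calc (x i).re ≤ (β⁻¹) ^ m * (x (i + m)).re := h1
        _ ≤ (β⁻¹) ^ m * (β⁻¹ * (x (i + (m + 1))).re) :=
            mul_le_mul_of_nonneg_left h3 (by positivity)
        _ = (β⁻¹) ^ (m + 1) * (x (i + (m + 1))).re := by ring
  have hset : (Finset.range (N + 1)).erase j = Finset.range j ∪ Finset.Ico (j + 1) (N + 1) := by
    ext k
    simp only [Finset.mem_erase, Finset.mem_range, Finset.mem_union, Finset.mem_Ico]
    omega
  have hd : Disjoint (Finset.range j) (Finset.Ico (j + 1) (N + 1)) := by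
    rw [Finset.disjoint_left]
    intro k
    simp only [Finset.mem_range, Finset.mem_Ico]
    omega
  set c : ℝ := 2 * (β / (β - 1)) with hc
  have hc0 : 0 ≤ c := by
    have : 0 < β - 1 := by linarith
    positivity
  rw [hset, Finset.prod_union hd]
  have hm1 : ∀ m : ℕ, (β⁻¹) ^ (m + 1) ≤ β⁻¹ := by
    intro m
    rw [pow_succ]
    have : (β⁻¹) ^ m ≤ 1 := pow_le_one₀ hb0.le hb.le
    nlinarith
  have hA : Real.exp (-(c * (1 / (β - 1)))) ≤ ∏ k ∈ Finset.range j,
        ‖1 - 2 * ((x k).re : ℂ) * (1 / (x j + (starRingEnd ℂ) (x k)))‖ := by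
    have e1 : ∏ k ∈ Finset.range j,
        ‖1 - 2 * ((x k).re : ℂ) * (1 / (x j + (starRingEnd ℂ) (x k)))‖ =
        ∏ i ∈ Finset.range j, ‖1 - 2 * ((x (j - 1 - i)).re : ℂ) *
          (1 / (x j + (starRingEnd ℂ) (x (j - 1 - i))))‖ :=
      (Finset.prod_range_reflect (fun k =>
        ‖1 - 2 * ((x k).re : ℂ) * (1 / (x j + (starRingEnd ℂ) (x k)))‖) j).symm
    rw [e1]
    have e2 : Real.exp (-(c * (1 / (β - 1)))) ≤
        ∏ i ∈ Finset.range j, Real.exp (-(c * (β⁻¹) ^ (i + 1))) := by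
      rw [← Real.exp_sum]
      apply Real.exp_le_exp.2
      rw [Finset.sum_neg_distrib, ← Finset.mul_sum, neg_le_neg_iff]
      exact mul_le_mul_of_nonneg_left (ip_geom β hβ j) hc0
    refine e2.trans (Finset.prod_le_prod (fun _ _ => (Real.exp_pos _).le) ?_)
    intro i hi
    rw [Finset.mem_range] at hi
    have hk : j - 1 - i + (i + 1) = j := by omega
    have hg := hgrow (j - 1 - i) (i + 1) (by omega)
    rw [hk] at hg
    have h1 := ip_factor (x j) (x (j - 1 - i)) (h0 j hj) (h0 _ (by omega))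
    have h2 := ip_small ((β⁻¹) ^ (i + 1)) (x (j - 1 - i)).re (x j).re (by positivity)
      (lt_of_le_of_lt (hm1 i) hb) (h0 _ (by omega)) (h0 j hj) hg
    have h3 := ip_exp β ((β⁻¹) ^ (i + 1)) hβ (by positivity) (hm1 i)
    rw [abs_sub_comm, add_comm (x (j - 1 - i)).re] at h2
    exact h3.trans (h2.trans h1)
  have hB : Real.exp (-(c * (1 / (β - 1)))) ≤ ∏ k ∈ Finset.Ico (j + 1) (N + 1),
        ‖1 - 2 * ((x k).re : ℂ) * (1 / (x j + (starRingEnd ℂ) (x k)))‖ := by
    rw [Finset.prod_Ico_eq_prod_range]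
    have e2 : Real.exp (-(c * (1 / (β - 1)))) ≤
        ∏ i ∈ Finset.range (N + 1 - (j + 1)), Real.exp (-(c * (β⁻¹) ^ (i + 1))) := by
      rw [← Real.exp_sum]
      apply Real.exp_le_exp.2
      rw [Finset.sum_neg_distrib, ← Finset.mul_sum, neg_le_neg_iff]
      exact mul_le_mul_of_nonneg_left (ip_geom β hβ _) hc0
    refine e2.trans (Finset.prod_le_prod (fun _ _ => (Real.exp_pos _).le) ?_)
    intro i hi
    rw [Finset.mem_range] at hi
    have hk : j + 1 + i = j + (i + 1) := by omega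
    have hg := hgrow j (i + 1) (by omega)
    rw [hk]
    have h1 := ip_factor (x j) (x (j + (i + 1))) (h0 j hj) (h0 _ (by omega))
    have h2 := ip_small ((β⁻¹) ^ (i + 1)) (x j).re (x (j + (i + 1))).re (by positivity)
      (lt_of_le_of_lt (hm1 i) hb) (h0 j hj) (h0 _ (by omega)) hg
    have h3 := ip_exp β ((β⁻¹) ^ (i + 1)) hβ (by positivity) (hm1 i)
    exact h3.trans (h2.trans h1)
  have hfin : Real.exp (-(4 * β / (β - 1) ^ 2)) =
      Real.exp (-(c * (1 / (β - 1)))) * Real.exp (-(c * (1 / (β - 1)))) := by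
    rw [← Real.exp_add]
    congr 1
    rw [hc]
    have : β - 1 ≠ 0 := by linarith
    field_simp
    ring
  rw [hfin]
  exact mul_le_mul hA hB (Real.exp_pos _).le (le_trans (Real.exp_pos _).le hA)

end Pool.Agent.Helper203.DS
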