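import Pool.Agent.KS6_19.DA.L.Helper203.DS.Defs2
import Pool.Agent.KS6_19.DA.L.Helper203.DS.IExp
import Pool.Agent.KS6_19.DA.L.Helper203.DS.IProd

open Metric Set Filter Topology

noncomputable section

namespace Pool.Agent.Helper203.DS

/-- the kernel -/
def kap (a x z : ℂ) : ℂ := (a - z) / ((a + z) + (starRingEnd ℂ) x * (a - z))

theorem kap_id (a x z : ℂ) (ha : ‖a‖ = 1) :
    ((a - z) * (starRingEnd ℂ) ((a + z) + (starRingEnd ℂ) x * (a - z))).re =
      (1 - ‖z‖ ^ 2) + x.re * ‖a - z‖ ^ 2 := by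
  have h1 : a.re * a.re + a.im * a.im = 1 := by
    rw [← Complex.normSq_apply, ← Complex.sq_norm, ha, one_pow]
  rw [Complex.sq_norm, Complex.sq_norm, Complex.normSq_apply, Complex.normSq_apply]
  simp only [Complex.mul_re, Complex.mul_im, Complex.add_re, Complex.add_im, Complex.sub_re,
    Complex.sub_im, Complex.conj_re, Complex.conj_im]
  linear_combination h1

theorem kap_pos (a x z : ℂ) (ha : ‖a‖ = 1) (hz : ‖z‖ ≤ 1) :
    x.re * ‖kap a x z‖ ^ 2 ≤ (kap a x z).re := by
  have h0 := kap_id a x z ha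
  unfold kap
  set D : ℂ := (a + z) + (starRingEnd ℂ) x * (a - z) with hD
  have h1 : ((a - z) / D).re = ((a - z) * (starRingEnd ℂ) D).re / ‖D‖ ^ 2 := by
    rw [Complex.div_re, Complex.sq_norm, Complex.mul_re, Complex.conj_re, Complex.conj_im]
    ring
  rw [h1, h0, norm_div, div_pow, ← mul_div_assoc]
  apply div_le_div_of_nonneg_right _ (by positivity)
  have : ‖z‖ ^ 2 ≤ 1 := by
    have := norm_nonneg z
    nlinarith
  linarith

theorem kap_ne (a x z : ℂ) (ha : ‖a‖ = 1) (hz : ‖z‖ ≤ 1) (hx : 0 < x.re) :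
    (a + z) + (starRingEnd ℂ) x * (a - z) ≠ 0 := by
  intro h
  have h0 := kap_id a x z ha
  rw [h, map_zero, mul_zero, Complex.zero_re] at h0
  have h1 : ‖z‖ ^ 2 ≤ 1 := by
    have := norm_nonneg z
    nlinarith
  have h2 : 0 ≤ x.re * ‖a - z‖ ^ 2 := by positivity
  have h3 : x.re * ‖a - z‖ ^ 2 = 0 := by linarith
  have h4 : ‖a - z‖ ^ 2 = 0 := by
    rcases mul_eq_zero.mp h3 with h | h
    · exact absurd h hx.ne'
    · exact h
  have h5 : a - z = 0 := by
    rw [← norm_eq_zero]
    exact pow_eq_zero_iff (two_ne_zero) |>.mp h4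
  rw [h5, mul_zero, add_zero] at h
  have h6 : z = a := (sub_eq_zero.mp h5).symm
  rw [h6] at h
  have h7 : a = 0 := by
    have : (2 : ℂ) * a = 0 := by rw [two_mul]; exact h
    rcases mul_eq_zero.mp this with h | h
    · exact absurd h two_ne_zero
    · exact h
  rw [h7, norm_zero] at ha
  exact zero_ne_one ha

theorem kap_at (a x w : ℂ) (hw : a ≠ w) :
    kap a x w = 1 / ((a + w) / (a - w) + (starRingEnd ℂ) x) := by
  have h : a - w ≠ 0 := sub_ne_zero.mpr hw
  unfold kap
  have h1 : (a + w) + (starRingEnd ℂ) x * (a - w) =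
      (a - w) * ((a + w) / (a - w) + (starRingEnd ℂ) x) := by
    field_simp
  rw [h1, div_mul_eq_div_div, div_self h]

theorem xx_re (a w : ℂ) (ha : ‖a‖ = 1) : ((a + w) / (a - w)).re = hh a w := by
  have h1 : a.re * a.re + a.im * a.im = 1 := by
    rw [← Complex.normSq_apply, ← Complex.sq_norm, ha, one_pow]
  unfold hh
  rw [Complex.div_re, Complex.sq_norm, Complex.sq_norm, Complex.normSq_apply w, ← add_div]
  congr 1
  simp only [Complex.add_re, Complex.add_im, Complex.sub_re, Complex.sub_im]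
  linear_combination h1

theorem kap_one (r : ℝ) (hr : 0 ≤ r) (κ : ℂ) (h : r * ‖κ‖ ^ 2 ≤ κ.re) :
    ‖1 - 2 * (r : ℂ) * κ‖ ≤ 1 := by
  rw [← sq_le_one_iff₀ (norm_nonneg _), Complex.sq_norm, Complex.normSq_apply]
  rw [Complex.sq_norm, Complex.normSq_apply] at h
  have e1 : (1 - 2 * (r : ℂ) * κ).re = 1 - 2 * r * κ.re := by
    simp
  have e2 : (1 - 2 * (r : ℂ) * κ).im = - (2 * r * κ.im) := by
    simp
  rw [e1, e2]
  nlinarith [mul_le_mul_of_nonneg_left h hr]

theorem interp (a : ℂ) (ha : ‖a‖ = 1) (β : ℝ) (hβ : 1 < β) :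
    ∃ A : ℝ, 0 < A ∧ ∀ (N : ℕ) (w : ℕ → Pt) (c : ℕ → ℂ), (∀ j ≤ N, ‖(w j : ℂ)‖ < 1) →
      (∀ j < N, β * hh a (w j) ≤ hh a (w (j + 1))) → (∀ j ≤ N, ‖c j‖ ≤ 1) →
      ∃ G : DA, ‖G‖ ≤ A ∧ ∀ j ≤ N, G.1 (w j) = c j := by
  refine ⟨Real.exp (4 * β / (β - 1) ^ 2) * 4 * Real.exp (β / (β - 1)), by positivity, ?_⟩
  intro N w c hw hgeo hc
  set x : ℕ → ℂ := fun j => (a + w j) / (a - w j) with hx
  set r : ℕ → ℝ := fun j => (x j).re with hr
  have hrh : ∀ j, r j = hh a (w j) := fun j => xx_re a (w j) ha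
  have hwa : ∀ j ≤ N, a ≠ (w j : ℂ) := by
    intro j hj h
    have := hw j hj
    rw [← h, ha] at this
    exact lt_irrefl _ this
  have hr0 : ∀ j, 0 ≤ r j := by
    intro j
    rw [hrh]
    unfold hh
    have h1 : ‖(w j : ℂ)‖ ≤ 1 := by
      have := (w j).2
      rwa [mem_closedBall_zero_iff] at this
    have h2 : ‖(w j : ℂ)‖ ^ 2 ≤ 1 := by
      have := norm_nonneg (w j : ℂ)
      nlinarith
    apply div_nonneg _ (by positivity)
    linarith
  have hrpos : ∀ j ≤ N, 0 < r j := by
    intro j hj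
    rw [hrh]
    unfold hh
    have h1 := hw j hj
    have h2 : ‖(w j : ℂ)‖ ^ 2 < 1 := by
      have := norm_nonneg (w j : ℂ)
      nlinarith
    have h3 : 0 < ‖a - (w j : ℂ)‖ := norm_pos_iff.mpr (sub_ne_zero.mpr (hwa j hj))
    apply div_pos _ (by positivity)
    linarith
  have hgeo' : ∀ j < N, β * (x j).re ≤ (x (j + 1)).re := by
    intro j hj
    have := hgeo j hj
    rw [← hrh, ← hrh] at this
    exact this
  have hP := interp_prod β hβ N x hrpos hgeo'
  have hE := interp_exp β hβ N x hrpos hgeo'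
  -- values of kap at the points
  have hkw : ∀ k, ∀ j ≤ N, kap a (x k) (w j) = 1 / (x j + (starRingEnd ℂ) (x k)) := by
    intro k j hj
    exact kap_at a (x k) (w j) (hwa j hj)
  have hkd : ∀ j ≤ N, 2 * (r j : ℂ) * kap a (x j) (w j) = 1 := by
    intro j hj
    rw [hkw j j hj, Complex.add_conj]
    have : ((2 * (x j).re : ℝ) : ℂ) ≠ 0 := by
      have := hrpos j hj
      exact_mod_cast (by positivity : (2 * r j : ℝ) ≠ 0)
    have h2 : (2 * (r j : ℂ)) = ((2 * (x j).re : ℝ) : ℂ) := by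
      push_cast
      rfl
    rw [h2, mul_one_div, div_self this]
  have hBne : ∀ j ≤ N, ∀ k ∈ (Finset.range (N + 1)).erase j,
      1 - 2 * (r k : ℂ) * kap a (x k) (w j) ≠ 0 := by
    intro j hj k hk
    have h1 : 0 < ∏ k ∈ (Finset.range (N + 1)).erase j,
        ‖1 - 2 * ((x k).re : ℂ) * (1 / (x j + (starRingEnd ℂ) (x k)))‖ :=
      lt_of_lt_of_le (Real.exp_pos _) (hP j hj)
    have h2 := Finset.prod_ne_zero_iff.mp h1.ne' k hk
    rw [hkw k j hj]
    exact norm_ne_zero_iff.mp h2
  have hcont : ∀ k ≤ N, ContinuousOn (kap a (x k)) (Metric.closedBall (0 : ℂ) 1) := by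
    intro k hk
    unfold kap
    refine ContinuousOn.div (by fun_prop) (by fun_prop) ?_
    intro z hz
    exact kap_ne a (x k) z ha (by rwa [mem_closedBall_zero_iff] at hz) (hrpos k hk)
  have hdiff : ∀ k ≤ N, DifferentiableOn ℂ (kap a (x k)) (Metric.ball (0 : ℂ) 1) := by
    intro k hk
    unfold kap
    refine DifferentiableOn.div (by fun_prop) (by fun_prop) ?_
    intro z hz
    have hz' := Metric.ball_subset_closedBall hz
    exact kap_ne a (x k) z ha (by rwa [mem_closedBall_zero_iff] at hz') (hrpos k hk)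
  -- elements of the algebra
  have hKex : ∀ k, ∃ f : DA, k ≤ N → ∀ z : Pt, f.1 z = kap a (x k) z := by
    intro k
    by_cases hk : k ≤ N
    · obtain ⟨f, hf⟩ := exists_da (kap a (x k)) (hcont k hk) (hdiff k hk)
      exact ⟨f, fun _ => hf⟩
    · exact ⟨0, fun h => absurd h hk⟩
  choose K hK using hKex
  have hEex : ∀ j, ∃ f : DA, j ≤ N → ∀ z : Pt, f.1 z = Complex.exp
      (-∑ k ∈ Finset.range (j + 1), ((r k : ℂ) * kap a (x k) z - (r k : ℂ) * kap a (x k) (w j))) := by
    intro j
    by_cases hj : j ≤ N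
    · obtain ⟨f, hf⟩ := exists_da (fun z => Complex.exp (-∑ k ∈ Finset.range (j + 1),
        ((r k : ℂ) * kap a (x k) z - (r k : ℂ) * kap a (x k) (w j)))) (by
          refine ContinuousOn.cexp (ContinuousOn.neg (continuousOn_finset_sum _ ?_))
          intro k hk
          rw [Finset.mem_range] at hk
          exact (continuousOn_const.mul (hcont k (by omega))).sub continuousOn_const) (by
          refine DifferentiableOn.cexp (DifferentiableOn.fun_neg (DifferentiableOn.fun_sum ?_))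
          intro k hk
          rw [Finset.mem_range] at hk
          exact (((differentiableOn_const _).mul (hdiff k (by omega))).sub
            (differentiableOn_const _)))
      exact ⟨f, fun _ => hf⟩
    · exact ⟨0, fun h => absurd h hj⟩
  choose Ex hEx using hEex
  let F : ℕ → DA := fun j =>
    (∏ k ∈ (Finset.range (N + 1)).erase j,
      ((1 - 2 * (r k : ℂ) * kap a (x k) (w j))⁻¹ • (1 - (2 * (r k : ℂ)) • K k))) *
      ((2 * (r j : ℂ)) • K j) ^ 2 * Ex j
  have hF : ∀ j ≤ N, ∀ z : Pt, (F j).1 z =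
      (∏ k ∈ (Finset.range (N + 1)).erase j,
        ((1 - 2 * (r k : ℂ) * kap a (x k) (w j))⁻¹ * (1 - 2 * (r k : ℂ) * kap a (x k) z))) *
      (2 * (r j : ℂ) * kap a (x j) z) ^ 2 * Complex.exp (-∑ k ∈ Finset.range (j + 1),
        ((r k : ℂ) * kap a (x k) z - (r k : ℂ) * kap a (x k) (w j))) := by
    intro j hj z
    show ((∏ k ∈ (Finset.range (N + 1)).erase j,
      ((1 - 2 * (r k : ℂ) * kap a (x k) (w j))⁻¹ • (1 - (2 * (r k : ℂ)) • K k))) *
      ((2 * (r j : ℂ)) • K j) ^ 2 * Ex j : DA).1 z = _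
    rw [mul_apply, mul_apply, prod_apply, pow_apply, smul_apply, hEx j hj, hK j hj]
    congr 2
    refine Finset.prod_congr rfl fun k hk => ?_
    have hk' : k ≤ N := by
      have := Finset.mem_range.mp (Finset.mem_of_mem_erase hk)
      omega
    rw [smul_apply, sub_apply, one_apply, smul_apply, hK k hk']
  have hFd : ∀ j ≤ N, (F j).1 (w j) = 1 := by
    intro j hj
    rw [hF j hj, hkd j hj]
    have h1 : ∏ k ∈ (Finset.range (N + 1)).erase j,
        ((1 - 2 * (r k : ℂ) * kap a (x k) (w j))⁻¹ * (1 - 2 * (r k : ℂ) * kap a (x k) (w j))) =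
        1 := by
      apply Finset.prod_eq_one
      intro k hk
      exact inv_mul_cancel₀ (hBne j hj k hk)
    have h2 : ∑ k ∈ Finset.range (j + 1), ((r k : ℂ) * kap a (x k) (w j) -
        (r k : ℂ) * kap a (x k) (w j)) = 0 := by
      apply Finset.sum_eq_zero
      intro k _
      ring
    rw [h1, h2]
    simp
  have hFo : ∀ j ≤ N, ∀ i ≤ N, i ≠ j → (F j).1 (w i) = 0 := by
    intro j hj i hi hij
    rw [hF j hj]
    have h1 : ∏ k ∈ (Finset.range (N + 1)).erase j,
        ((1 - 2 * (r k : ℂ) * kap a (x k) (w j))⁻¹ * (1 - 2 * (r k : ℂ) * kap a (x k) (w i))) =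
        0 := by
      apply Finset.prod_eq_zero (i := i)
      · rw [Finset.mem_erase, Finset.mem_range]
        exact ⟨hij, by omega⟩
      · rw [hkd i hi, sub_self, mul_zero]
    rw [h1]
    ring
  have hkp : ∀ k, ∀ z : Pt, r k * ‖kap a (x k) z‖ ^ 2 ≤ (kap a (x k) z).re := by
    intro k z
    exact kap_pos a (x k) z ha (by
      have := z.2
      rwa [mem_closedBall_zero_iff] at this)
  have hFb : ∀ j ≤ N, ∀ z : Pt, ‖(F j).1 z‖ ≤
      Real.exp (4 * β / (β - 1) ^ 2) * 4 * Real.exp (β / (β - 1)) *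
        ((r j * ‖kap a (x j) z‖) ^ 2 *
          Real.exp (-∑ k ∈ Finset.range (j + 1), r k * (kap a (x k) z).re)) := by
    intro j hj z
    rw [hF j hj, norm_mul, norm_mul, norm_prod, norm_pow]
    have h1 : ∏ k ∈ (Finset.range (N + 1)).erase j,
        ‖(1 - 2 * (r k : ℂ) * kap a (x k) (w j))⁻¹ * (1 - 2 * (r k : ℂ) * kap a (x k) z)‖ ≤
        Real.exp (4 * β / (β - 1) ^ 2) := by
      calc ∏ k ∈ (Finset.range (N + 1)).erase j,
          ‖(1 - 2 * (r k : ℂ) * kap a (x k) (w j))⁻¹ * (1 - 2 * (r k : ℂ) * kap a (x k) z)‖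
          ≤ ∏ k ∈ (Finset.range (N + 1)).erase j,
            ‖(1 - 2 * (r k : ℂ) * kap a (x k) (w j))‖⁻¹ := by
            apply Finset.prod_le_prod
            · intro k _
              exact norm_nonneg _
            · intro k _
              rw [norm_mul, norm_inv]
              have := kap_one (r k) (hr0 k) _ (hkp k z)
              calc _ ≤ ‖(1 - 2 * (r k : ℂ) * kap a (x k) (w j))‖⁻¹ * 1 := by
                    gcongr
                _ = _ := mul_one _
        _ = (∏ k ∈ (Finset.range (N + 1)).erase j,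
            ‖(1 - 2 * (r k : ℂ) * kap a (x k) (w j))‖)⁻¹ := by
            rw [Finset.prod_inv_distrib]
        _ ≤ (Real.exp (-(4 * β / (β - 1) ^ 2)))⁻¹ := by
            apply inv_anti₀ (Real.exp_pos _)
            refine (hP j hj).trans (le_of_eq ?_)
            refine Finset.prod_congr rfl fun k _ => ?_
            rw [hkw k j hj]
        _ = Real.exp (4 * β / (β - 1) ^ 2) := by
            rw [← Real.exp_neg, neg_neg]
    have h2 : ‖2 * (r j : ℂ) * kap a (x j) z‖ ^ 2 = 4 * (r j * ‖kap a (x j) z‖) ^ 2 := by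
      rw [norm_mul, norm_mul, Complex.norm_real, Real.norm_of_nonneg (hr0 j)]
      norm_num
      ring
    have h3 : ‖Complex.exp (-∑ k ∈ Finset.range (j + 1),
        ((r k : ℂ) * kap a (x k) z - (r k : ℂ) * kap a (x k) (w j)))‖ ≤
        Real.exp (β / (β - 1)) *
          Real.exp (-∑ k ∈ Finset.range (j + 1), r k * (kap a (x k) z).re) := by
      rw [Complex.norm_exp, ← Real.exp_add, Real.exp_le_exp]
      have e1 : (-∑ k ∈ Finset.range (j + 1),
          ((r k : ℂ) * kap a (x k) z - (r k : ℂ) * kap a (x k) (w j))).re =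
          (∑ k ∈ Finset.range (j + 1), r k * (kap a (x k) (w j)).re) -
            ∑ k ∈ Finset.range (j + 1), r k * (kap a (x k) z).re := by
        rw [Complex.neg_re, Complex.re_sum, ← Finset.sum_sub_distrib, ← Finset.sum_neg_distrib]
        refine Finset.sum_congr rfl fun k _ => ?_
        rw [Complex.sub_re, Complex.re_ofReal_mul, Complex.re_ofReal_mul]
        ring
      rw [e1]
      have e2 := hE j hj
      have e3 : ∑ k ∈ Finset.range (j + 1), r k * (kap a (x k) (w j)).re =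
          ∑ k ∈ Finset.range (j + 1), (x k).re * (1 / (x j + (starRingEnd ℂ) (x k))).re := by
        refine Finset.sum_congr rfl fun k _ => ?_
        rw [hkw k j hj]
      rw [e3]
      linarith
    rw [h2]
    calc _ ≤ Real.exp (4 * β / (β - 1) ^ 2) * (4 * (r j * ‖kap a (x j) z‖) ^ 2) *
          (Real.exp (β / (β - 1)) *
            Real.exp (-∑ k ∈ Finset.range (j + 1), r k * (kap a (x k) z).re)) := by
          gcongr
      _ = _ := by ring
  refine ⟨∑ j ∈ Finset.range (N + 1), c j • F j, ?_, ?_⟩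
  · apply norm_le_of (by positivity)
    intro z
    rw [sum_apply]
    have hs := interp_sum N r hr0 (fun k => kap a (x k) z) (fun k => hkp k z)
    calc ‖∑ j ∈ Finset.range (N + 1), (c j • F j).1 z‖
        ≤ ∑ j ∈ Finset.range (N + 1), ‖(c j • F j).1 z‖ := norm_sum_le _ _
      _ ≤ ∑ j ∈ Finset.range (N + 1), Real.exp (4 * β / (β - 1) ^ 2) * 4 *
          Real.exp (β / (β - 1)) * ((r j * ‖kap a (x j) z‖) ^ 2 *
            Real.exp (-∑ k ∈ Finset.range (j + 1), r k * (kap a (x k) z).re)) := by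
          apply Finset.sum_le_sum
          intro j hj
          have hj' : j ≤ N := by
            have := Finset.mem_range.mp hj
            omega
          rw [smul_apply, norm_mul]
          calc ‖c j‖ * ‖(F j).1 z‖ ≤ 1 * ‖(F j).1 z‖ :=
                mul_le_mul_of_nonneg_right (hc j hj') (norm_nonneg _)
            _ = ‖(F j).1 z‖ := one_mul _
            _ ≤ _ := hFb j hj' z
      _ = Real.exp (4 * β / (β - 1) ^ 2) * 4 * Real.exp (β / (β - 1)) *
          ∑ j ∈ Finset.range (N + 1), (r j * ‖kap a (x j) z‖) ^ 2 *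
            Real.exp (-∑ k ∈ Finset.range (j + 1), r k * (kap a (x k) z).re) := by
          rw [Finset.mul_sum]
      _ ≤ Real.exp (4 * β / (β - 1) ^ 2) * 4 * Real.exp (β / (β - 1)) * 1 :=
          mul_le_mul_of_nonneg_left hs (by positivity)
      _ = _ := mul_one _
  · intro i hi
    rw [sum_apply, Finset.sum_eq_single i]
    · rw [smul_apply, hFd i hi, mul_one]
    · intro j hj hji
      have hj' : j ≤ N := by
        have := Finset.mem_range.mp hj
        omega
      rw [smul_apply, hFo j hj' i hi hji.symm, mul_zero]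
    · intro h
      exact absurd (Finset.mem_range.mpr (by omega)) h

end Pool.Agent.Helper203.DS
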