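import Pool.Agent.KS6_19.DA.L.Helper203.DS.Defs2
import Pool.Agent.KS6_19.DA.L.Helper203.DS.Crit2
import Pool.Agent.KS6_19.DA.L.Helper203.DS.Interp

open Metric Set Filter Topology

noncomputable section

namespace Pool.Agent.Helper203.DS

theorem bb_pow_le {T : DA →L[ℂ] DA} {Φ : Pt → Pt} (h : IsComp T Φ) (n : ℕ) (f : DA) :
    ‖(T ^ n) f‖ ≤ ‖f‖ :=
  norm_le_of (norm_nonneg _) fun z => by rw [h.pow]; exact norm_apply_le _ _

theorem bb_pow_mul {T : DA →L[ℂ] DA} {Φ : Pt → Pt} (h : IsComp T Φ) (n : ℕ) (f g : DA) :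
    (T ^ n) (f * g) = (T ^ n) f * (T ^ n) g :=
  da_ext fun z => by rw [h.pow, mul_apply, mul_apply, h.pow, h.pow]

theorem bb_norm_mul (f g : DA) : ‖f * g‖ ≤ ‖f‖ * ‖g‖ :=
  norm_le_of (mul_nonneg (norm_nonneg _) (norm_nonneg _)) fun z => by
    rw [mul_apply, norm_mul]
    exact mul_le_mul (norm_apply_le _ _) (norm_apply_le _ _) (norm_nonneg _) (norm_nonneg _)

theorem bb_approx {T : DA →L[ℂ] DA} {Φ : Pt → Pt} (h : IsComp T Φ) (m : ℂ) (hm : ‖m‖ ≤ 1)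
    (f : DA) (j : ℕ) : ‖(T ^ j) f - m ^ j • f‖ ≤ j * ‖T f - m • f‖ := by
  induction j with
  | zero => simp
  | succ j ih =>
    have e : (T ^ (j + 1)) f - m ^ (j + 1) • f =
        (T ^ j) (T f - m • f) + m • ((T ^ j) f - m ^ j • f) := by
      have e1 : (T ^ (j + 1)) f = (T ^ j) (T f) := by rw [pow_succ]; rfl
      rw [e1, map_sub, map_smul, smul_sub, smul_smul, pow_succ, mul_comm m]
      abel
    rw [e]
    refine (norm_add_le _ _).trans ?_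
    have h1 := bb_pow_le h j (T f - m • f)
    have h2 : ‖m • ((T ^ j) f - m ^ j • f)‖ ≤ j * ‖T f - m • f‖ := by
      rw [norm_smul]
      refine (mul_le_of_le_one_left (norm_nonneg _) hm).trans ih
    rw [Nat.cast_succ]
    linarith

theorem bb_point (f : DA) (hf : 0 < ‖f‖) : ∃ y : Pt, ‖(y:ℂ)‖ < 1 ∧ ‖f‖ / 2 ≤ ‖f.1 y‖ := by
  by_contra hcon
  push Not at hcon
  have h1 : ‖f‖ ≤ ‖f‖ / 2 := by
    refine norm_le_of (by positivity) fun z => ?_
    have hz : ‖(z:ℂ)‖ ≤ 1 := mem_closedBall_zero_iff.1 z.2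
    have ht0 : ∀ n : ℕ, 0 ≤ (n:ℝ) / (n + 1) := fun n => by positivity
    have ht1 : ∀ n : ℕ, (n:ℝ) / (n + 1) < 1 := fun n => by
      rw [div_lt_one (by positivity)]
      linarith
    have hn : ∀ n : ℕ, ‖((((n:ℝ) / (n + 1) : ℝ) : ℂ) * (z:ℂ))‖ < 1 := fun n => by
      rw [norm_mul, Complex.norm_real, Real.norm_of_nonneg (ht0 n)]
      calc (n:ℝ) / (n + 1) * ‖(z:ℂ)‖ ≤ (n:ℝ) / (n + 1) * 1 :=
            mul_le_mul_of_nonneg_left hz (ht0 n)
        _ < 1 := by rw [mul_one]; exact ht1 n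
    let u : ℕ → Pt := fun n => ⟨(((n:ℝ) / (n + 1) : ℝ) : ℂ) * (z:ℂ),
      mem_closedBall_zero_iff.2 (hn n).le⟩
    have hu : Tendsto u atTop (𝓝 z) := by
      rw [tendsto_subtype_rng]
      show Tendsto (fun n : ℕ => (((n:ℝ) / (n + 1) : ℝ) : ℂ) * (z:ℂ)) atTop (𝓝 (z:ℂ))
      have h2 : Tendsto (fun n : ℕ => (n:ℝ) / (n + 1)) atTop (𝓝 1) :=
        tendsto_natCast_div_add_atTop (1:ℝ)
      have h3 : Tendsto (fun n : ℕ => (((n:ℝ) / (n + 1) : ℝ) : ℂ)) atTop (𝓝 ((1:ℝ):ℂ)) :=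
        (Complex.continuous_ofReal.tendsto 1).comp h2
      have h4 := h3.mul_const (z:ℂ)
      rwa [Complex.ofReal_one, one_mul] at h4
    have h5 : Tendsto (fun n => ‖f.1 (u n)‖) atTop (𝓝 ‖f.1 z‖) :=
      ((f.1.continuous.tendsto z).comp hu).norm
    exact le_of_tendsto h5 (Filter.Eventually.of_forall fun n => (hcon (u n) (hn n)).le)
  linarith

theorem bounded_below {T : DA →L[ℂ] DA} {Φ : Pt → Pt} (h : IsComp T Φ) (a : ℂ) (ha : ‖a‖ = 1)
    (β : ℝ) (hβ : 1 < β) (hin : ∀ z : Pt, ‖(z:ℂ)‖ < 1 → ‖(Φ z : ℂ)‖ < 1)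
    (hyp : ∀ z : Pt, ‖(z:ℂ)‖ < 1 → β * hh a z ≤ hh a (Φ z)) (l : ℂ) (hl0 : 0 < ‖l‖)
    (hl1 : ‖l‖ < 1) (hl : l ∉ spectrum ℂ T) :
    ∃ c : ℝ, 0 < c ∧ ∀ m : ℂ, ‖m‖ = ‖l‖ → ∀ f : DA, c * ‖f‖ ≤ ‖T f - m • f‖ := by
  obtain ⟨C, hC, hcrit⟩ := crit2 h l hl
  obtain ⟨A, hA, hint⟩ := interp a ha β hβ
  obtain ⟨N, hN⟩ := exists_nat_gt (8 * C * A)
  set M : ℝ := (N:ℝ) + 1 with hM
  have hM1 : 8 * C * A < M := by linarith
  have hM0 : 0 < M := by positivity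
  set ρ : ℝ := ‖l‖ with hρ
  have hρN : 0 < ρ ^ N := pow_pos hl0 N
  refine ⟨ρ ^ N / (4 * (M + C * A)), by positivity, fun m hm f => ?_⟩
  rcases (norm_nonneg f).eq_or_lt with hf | hf
  · rw [← hf, mul_zero]
    exact norm_nonneg _
  obtain ⟨y, hy, hfy⟩ := bb_point f hf
  set F : ℝ := ‖f‖ with hF
  set ε : ℝ := ‖T f - m • f‖ with hε
  have hε0 : 0 ≤ ε := norm_nonneg _
  have hx : ∀ j : ℕ, ‖((Φ^[j] y : Pt) : ℂ)‖ < 1 := by
    intro j
    induction j with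
    | zero => exact hy
    | succ j ih =>
      rw [Function.iterate_succ_apply']
      exact hin _ ih
  have hm0 : m ≠ 0 := by
    rw [← norm_pos_iff, hm]
    exact hl0
  have hlm : ‖l / m‖ = 1 := by
    rw [norm_div, hm]
    exact div_self hl0.ne'
  obtain ⟨G, hG, hGx⟩ := hint N (fun j => Φ^[j] y) (fun j => (l / m) ^ j) (fun j _ => hx j)
    (fun j _ => by
      rw [Function.iterate_succ_apply']
      exact hyp _ (hx j))
    (fun j _ => by rw [norm_pow, hlm, one_pow])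
  have hkey := hcrit (f * G) N y
  -- left side
  have happ : ∀ j : ℕ, ‖f.1 (Φ^[j] y) - m ^ j * f.1 y‖ ≤ j * ε := by
    intro j
    have h1 := norm_apply_le ((T ^ j) f - m ^ j • f) y
    rw [sub_apply, smul_apply, h.pow] at h1
    exact h1.trans (bb_approx h m (by rw [hm]; exact hl1.le) f j)
  have hsum : ∑ j ∈ Finset.range (N + 1), l ^ (N - j) * (f * G).1 (Φ^[j] y) =
      (N + 1 : ℂ) * (l ^ N * f.1 y) +
      ∑ j ∈ Finset.range (N + 1), l ^ (N - j) * ((f.1 (Φ^[j] y) - m ^ j * f.1 y) * (l / m) ^ j) := by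
    have h1 : (N + 1 : ℂ) * (l ^ N * f.1 y) = ∑ j ∈ Finset.range (N + 1), l ^ N * f.1 y := by
      rw [Finset.sum_const, Finset.card_range, nsmul_eq_mul]
      push_cast
      ring
    rw [h1, ← Finset.sum_add_distrib]
    refine Finset.sum_congr rfl fun j hj => ?_
    have hj' : j ≤ N := Nat.lt_succ_iff.1 (Finset.mem_range.1 hj)
    have h2 : G.1 (Φ^[j] y) = (l / m) ^ j := hGx j hj'
    have h3 : l ^ (N - j) * (m ^ j * (l / m) ^ j) = l ^ N := by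
      rw [← mul_pow, mul_div_cancel₀ _ hm0, ← pow_add, Nat.sub_add_cancel hj']
    rw [mul_apply, h2]
    linear_combination (f.1 y) * h3
  have herr : ‖∑ j ∈ Finset.range (N + 1),
      l ^ (N - j) * ((f.1 (Φ^[j] y) - m ^ j * f.1 y) * (l / m) ^ j)‖ ≤ M * (M * ε) := by
    refine (norm_sum_le _ _).trans ?_
    have h1 : ∀ j ∈ Finset.range (N + 1),
        ‖l ^ (N - j) * ((f.1 (Φ^[j] y) - m ^ j * f.1 y) * (l / m) ^ j)‖ ≤ M * ε := by
      intro j hj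
      have hj' : j ≤ N := Nat.lt_succ_iff.1 (Finset.mem_range.1 hj)
      rw [norm_mul, norm_mul, norm_pow, norm_pow, hlm, one_pow, mul_one]
      have h2 : ‖l‖ ^ (N - j) ≤ 1 := pow_le_one₀ (norm_nonneg _) hl1.le
      refine (mul_le_of_le_one_left (norm_nonneg _) h2).trans ((happ j).trans ?_)
      refine mul_le_mul_of_nonneg_right ?_ hε0
      have : (j:ℝ) ≤ N := by exact_mod_cast hj'
      linarith
    refine (Finset.sum_le_sum h1).trans ?_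
    rw [Finset.sum_const, Finset.card_range, nsmul_eq_mul]
    push_cast
    rfl
  have hleft : M * (ρ ^ N * (F / 2)) - M * (M * ε) ≤
      ‖∑ j ∈ Finset.range (N + 1), l ^ (N - j) * (f * G).1 (Φ^[j] y)‖ := by
    rw [hsum]
    have h1 : ‖(N + 1 : ℂ) * (l ^ N * f.1 y)‖ = M * (ρ ^ N * ‖f.1 y‖) := by
      rw [norm_mul, norm_mul, norm_pow]
      congr 1
      have : ((N:ℂ) + 1) = ((M : ℝ) : ℂ) := by
        rw [hM]
        push_cast
        rfl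
      rw [this, Complex.norm_real, Real.norm_of_nonneg hM0.le]
    have h2 := norm_sub_le_norm_add ((N + 1 : ℂ) * (l ^ N * f.1 y))
      (∑ j ∈ Finset.range (N + 1), l ^ (N - j) * ((f.1 (Φ^[j] y) - m ^ j * f.1 y) * (l / m) ^ j))
    have h3 : M * (ρ ^ N * (F / 2)) ≤ M * (ρ ^ N * ‖f.1 y‖) :=
      mul_le_mul_of_nonneg_left (mul_le_mul_of_nonneg_left hfy hρN.le) hM0.le
    linarith
  -- right side
  have hr1 : ‖(T ^ (N + 1)) (f * G)‖ ≤ (ρ ^ (N + 1) * F + M * ε) * A := by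
    rw [bb_pow_mul h]
    refine (bb_norm_mul _ _).trans ?_
    have h1 : ‖(T ^ (N + 1)) f‖ ≤ ρ ^ (N + 1) * F + M * ε := by
      have h2 := bb_approx h m (by rw [hm]; exact hl1.le) f (N + 1)
      have h3 : (T ^ (N + 1)) f = ((T ^ (N + 1)) f - m ^ (N + 1) • f) + m ^ (N + 1) • f := by
        abel
      rw [h3]
      refine (norm_add_le _ _).trans ?_
      rw [norm_smul, norm_pow, hm]
      rw [Nat.cast_succ] at h2
      linarith
    exact mul_le_mul h1 ((bb_pow_le h _ G).trans hG) (norm_nonneg _)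
      (by positivity)
  have hr2 : ‖f * G‖ ≤ F * A :=
    (bb_norm_mul _ _).trans (mul_le_mul_of_nonneg_left hG (norm_nonneg _))
  have hρ1 : ρ ^ (N + 1) ≤ ρ ^ N := pow_le_pow_of_le_one hl0.le hl1.le (Nat.le_succ N)
  have hρ0 : 0 ≤ ρ ^ (N + 1) := pow_nonneg hl0.le _
  have hright : C * (‖(T ^ (N + 1)) (f * G)‖ + ‖l‖ ^ (N + 1) * ‖f * G‖) ≤
      C * A * (2 * (ρ ^ N * F) + M * ε) := by
    have h1 : ‖l‖ ^ (N + 1) * ‖f * G‖ ≤ ρ ^ (N + 1) * (F * A) :=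
      mul_le_mul_of_nonneg_left hr2 hρ0
    have h2 : ρ ^ (N + 1) * F ≤ ρ ^ N * F := mul_le_mul_of_nonneg_right hρ1 hf.le
    have h3 : C * (‖(T ^ (N + 1)) (f * G)‖ + ‖l‖ ^ (N + 1) * ‖f * G‖) ≤
        C * ((ρ ^ (N + 1) * F + M * ε) * A + ρ ^ (N + 1) * (F * A)) :=
      mul_le_mul_of_nonneg_left (add_le_add hr1 h1) hC.le
    refine h3.trans ?_
    have h4 : C * ((ρ ^ (N + 1) * F + M * ε) * A + ρ ^ (N + 1) * (F * A)) =
        C * A * (2 * (ρ ^ (N + 1) * F) + M * ε) := by ring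
    rw [h4]
    refine mul_le_mul_of_nonneg_left ?_ (by positivity)
    linarith
  have hfin := hleft.trans (hkey.trans hright)
  -- conclude
  have hpos : 0 < ρ ^ N * F := mul_pos hρN hf
  have h1 : 2 * (C * A) * (ρ ^ N * F) ≤ M / 4 * (ρ ^ N * F) :=
    mul_le_mul_of_nonneg_right (by linarith) hpos.le
  have h2 : M * (ρ ^ N * F / 4) ≤ M * (ε * (M + C * A)) := by nlinarith
  have h3 : ρ ^ N * F / 4 ≤ ε * (M + C * A) := le_of_mul_le_mul_left h2 hM0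
  rw [div_mul_eq_mul_div, div_le_iff₀ (by positivity)]
  linarith

end Pool.Agent.Helper203.DS
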