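import Pool.Agent.KS6_19.DA.L.Helper203.DS.Base

open Metric Set Filter Topology

noncomputable section

namespace Pool.Agent.Helper203.DS

theorem rng_anti (Φ : Pt → Pt) : Antitone fun n : ℕ => range (Φ^[n]) := by
  apply antitone_nat_of_succ_le
  intro n
  rintro _ ⟨y, rfl⟩
  exact ⟨Φ y, (Function.iterate_succ_apply Φ n y).symm⟩

theorem rng_compact {Φ : Pt → Pt} (hΦ : Continuous Φ) (n : ℕ) : IsCompact (range (Φ^[n])) :=
  isCompact_range (hΦ.iterate n)

instance : Nonempty Pt := ⟨⟨0, by simp⟩⟩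

theorem rng_nhds {Φ : Pt → Pt} (hΦ : Continuous Φ) {U : Set Pt} (hU : IsOpen U) (h : KK Φ ⊆ U) :
    ∃ n, range (Φ^[n]) ⊆ U := by
  apply exists_subset_nhds_of_isCompact' (V := fun n : ℕ => range (Φ^[n]))
  · exact (rng_anti Φ).directed_ge
  · exact rng_compact hΦ
  · exact fun n => (rng_compact hΦ n).isClosed
  · intro x hx
    exact hU.mem_nhds (h hx)

theorem Pt_preconn : PreconnectedSpace Pt :=
  Subtype.preconnectedSpace ((convex_closedBall (0:ℂ) 1).isPreconnected)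

theorem KK_isClosed {Φ : Pt → Pt} (hΦ : Continuous Φ) : IsClosed (KK Φ) :=
  isClosed_iInter fun n => (rng_compact hΦ n).isClosed

theorem KK_nonempty {Φ : Pt → Pt} (hΦ : Continuous Φ) : (KK Φ).Nonempty :=
  IsCompact.nonempty_iInter_of_sequence_nonempty_isCompact_isClosed (fun n : ℕ => range (Φ^[n]))
    (fun n => rng_anti Φ (Nat.le_succ n)) (fun n => range_nonempty _) (rng_compact hΦ 0)
    (fun n => (rng_compact hΦ n).isClosed)

theorem KK_preconnected {Φ : Pt → Pt} (hΦ : Continuous Φ) : IsPreconnected (KK Φ) := by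
  have := Pt_preconn
  rw [isPreconnected_iff_subset_of_fully_disjoint_closed (KK_isClosed hΦ)]
  intro u v hu hv huv hd
  obtain ⟨U, V, hU, hV, huU, hvV, hUV⟩ := normal_separation hu hv hd
  obtain ⟨n, hn⟩ := rng_nhds hΦ (hU.union hV) (huv.trans (union_subset_union huU hvV))
  have hpc : IsPreconnected (range (Φ^[n])) := isPreconnected_range (hΦ.iterate n)
  have hsub : KK Φ ⊆ range (Φ^[n]) := iInter_subset _ n
  rcases hpc.subset_or_subset hU hV hUV hn with h | h
  · left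
    intro x hx
    rcases huv hx with h1 | h1
    · exact h1
    · exact absurd (hvV h1) (disjoint_left.1 hUV (h (hsub hx)))
  · right
    intro x hx
    rcases huv hx with h1 | h1
    · exact absurd (h (hsub hx)) (disjoint_left.1 hUV (huU h1))
    · exact h1

theorem exists_pre {Φ : Pt → Pt} (hΦ : Continuous Φ) (x : Pt) (hx : x ∈ KK Φ) :
    ∃ y ∈ KK Φ, Φ y = x := by
  have h : (⋂ n : ℕ, (Φ ⁻¹' {x} ∩ range (Φ^[n]))).Nonempty := by
    apply IsCompact.nonempty_iInter_of_sequence_nonempty_isCompact_isClosed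
    · intro n
      exact inter_subset_inter_right _ (rng_anti Φ (Nat.le_succ n))
    · intro n
      obtain ⟨y, hy⟩ := mem_iInter.1 hx (n + 1)
      rw [Function.iterate_succ_apply'] at hy
      exact ⟨Φ^[n] y, hy, ⟨y, rfl⟩⟩
    · exact (rng_compact hΦ 0).inter_left (isClosed_singleton.preimage hΦ)
    · intro n
      exact (isClosed_singleton.preimage hΦ).inter (rng_compact hΦ n).isClosed
  obtain ⟨y, hy⟩ := h
  refine ⟨y, mem_iInter.2 fun n => (mem_iInter.1 hy n).2, (mem_iInter.1 hy 0).1⟩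

theorem backward_orbit {Φ : Pt → Pt} (hΦ : Continuous Φ) (x : Pt) (hx : x ∈ KK Φ) :
    ∃ X : ℕ → Pt, X 0 = x ∧ (∀ k, Φ (X (k + 1)) = X k) ∧ ∀ k, X k ∈ KK Φ := by
  choose F hF hF' using exists_pre hΦ
  let G : KK Φ → KK Φ := fun y => ⟨F y.1 y.2, hF y.1 y.2⟩
  refine ⟨fun k => (G^[k] ⟨x, hx⟩).1, rfl, ?_, fun k => (G^[k] ⟨x, hx⟩).2⟩
  intro k
  show Φ (G^[k + 1] ⟨x, hx⟩).1 = _
  rw [Function.iterate_succ_apply']
  exact hF' _ _

theorem conv_of_singleton {T : DA →L[ℂ] DA} {Φ : Pt → Pt} (h : IsComp T Φ) (a : Pt)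
    (ha : KK Φ ⊆ {a}) : Tendsto (fun n => (T ^ n) Z) atTop (𝓝 (algebraMap ℂ DA (a:ℂ))) := by
  rw [Metric.tendsto_atTop]
  intro ε hε
  obtain ⟨N, hN⟩ := rng_nhds h.cont (Metric.isOpen_ball (x := a) (ε := ε / 2))
    (ha.trans (by
      intro y hy
      rw [mem_singleton_iff] at hy
      rw [hy]
      exact Metric.mem_ball_self (half_pos hε)))
  refine ⟨N, fun n hn => ?_⟩
  rw [dist_eq_norm]
  have h1 : ‖(T ^ n) Z - algebraMap ℂ DA (a:ℂ)‖ ≤ ε / 2 := by
    apply norm_le_of (half_pos hε).le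
    intro z
    rw [sub_apply, h.pow, algMap_apply, Z_apply]
    have h2 : Φ^[n] z ∈ Metric.ball a (ε / 2) := hN (rng_anti Φ hn ⟨z, rfl⟩)
    rw [Metric.mem_ball, Subtype.dist_eq, dist_eq_norm] at h2
    exact h2.le
  linarith

end Pool.Agent.Helper203.DS
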