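import Pool.Agent.KS6_19.DA.L.Helper203.DS.Defs3
import Pool.Agent.KS6_19.DA.L.Helper203.DS.CayL
import Pool.Agent.KS6_19.DA.L.Helper203.DS.KKm

open Metric Set Filter Topology

noncomputable section

namespace Pool.Agent.Helper203.DS

theorem bb_of_sub_main {T : DA →L[ℂ] DA} {Φ : Pt → Pt} (a : Pt) (ha : ‖(a:ℂ)‖ = 1)
    (l : ℂ) (k : ℕ) (hk : 1 ≤ k)
    (hc : ∀ (f : DA) (s : ℝ), 0 ≤ s → (∀ w ∈ GG k, ‖ext f.1 (ic a w)‖ ≤ s) →
      (∀ w ∈ GG k, ‖ext (T f - l • f).1 (ic a w)‖ ≤ s / k) →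
      ∀ w ∈ GG k, ‖ext f.1 (ic a w)‖ ≤ s / 2) (m : ℕ)
    (hmc : ∀ z : Pt, ‖(Φ^[m] z : ℂ) - a‖ < 1 / ((k:ℝ)^2+1))
    (hmx : ∀ z : Pt, Φ^[m] z = a ∨ ‖(Φ^[m] z : ℂ)‖ < 1) (f : DA) (z : Pt) :
    ‖f.1 (Φ^[m] z)‖ ≤ k * ‖T f - l • f‖ := by
  have hk0 : (0:ℝ) < k := by exact_mod_cast hk
  have hk1 : (1:ℝ) ≤ k := by exact_mod_cast hk
  have hicball : ∀ w : ℂ, 0 < w.re → ic a w ∈ Metric.closedBall (0:ℂ) 1 := by
    intro w hw
    rw [mem_closedBall_zero_iff]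
    exact (ic_norm a w ha hw).le
  have hextle : ∀ g : DA, ∀ w ∈ GG k, ‖ext g.1 (ic a w)‖ ≤ ‖g‖ := by
    intro g w hw
    rw [ext_of_mem _ (hicball w hw.1)]
    exact norm_apply_le _ _
  obtain ⟨d, hd⟩ : ∃ d : ℝ, d = ‖T f - l • f‖ := ⟨_, rfl⟩
  have hd0 : 0 ≤ d := by rw [hd]; exact norm_nonneg _
  rw [← hd]
  let S : Set ℝ := (fun w => ‖ext f.1 (ic a w)‖) '' GG k
  have hSb : BddAbove S := ⟨‖f‖, by rintro _ ⟨w, hw, rfl⟩; exact hextle f w hw⟩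
  have hw0 : ((k:ℂ) + 1) ∈ GG k := by
    constructor
    · simp; positivity
    · simp
  have hSn : S.Nonempty := ⟨_, _, hw0, rfl⟩
  have hs0 : 0 ≤ sSup S := le_trans (norm_nonneg _) (le_csSup hSb ⟨_, hw0, rfl⟩)
  have hs : sSup S ≤ k * d := by
    by_contra hcon
    push Not at hcon
    have h1 := hc f (sSup S) hs0 (fun w hw => le_csSup hSb ⟨w, hw, rfl⟩) (fun w hw => by
      refine (hextle _ w hw).trans ?_
      rw [le_div_iff₀ hk0, ← hd]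
      linarith)
    have h2 : sSup S ≤ sSup S / 2 := csSup_le hSn (by rintro _ ⟨w, hw, rfl⟩; exact h1 w hw)
    have h3 : 0 ≤ (k:ℝ) * d := by positivity
    linarith
  have hGG : ∀ w ∈ GG k, ∀ x : Pt, ic a w = x → ‖f.1 x‖ ≤ k * d := by
    intro w hw x hx
    rw [← ext_apply f.1 x, ← hx]
    exact (le_csSup hSb ⟨w, hw, rfl⟩).trans hs
  rcases hmx z with h1 | h1
  · rw [h1]
    let w : ℕ → ℂ := fun n => ((n:ℂ) + k + 1)
    have hw : ∀ n, w n ∈ GG k := by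
      intro n
      constructor
      · simp [w]; positivity
      · have h9 : (0:ℝ) ≤ n := Nat.cast_nonneg n
        simp [w]
        linarith
    let x : ℕ → Pt := fun n => ⟨ic a (w n), hicball _ (hw n).1⟩
    have hx : Tendsto x atTop (𝓝 a) := by
      rw [tendsto_iff_dist_tendsto_zero]
      have h2 : Tendsto (fun n : ℕ => 2 * (1 / ((n:ℝ) + 1))) atTop (𝓝 0) := by
        have := (tendsto_one_div_add_atTop_nhds_zero_nat (𝕜 := ℝ)).const_mul 2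
        simpa using this
      refine squeeze_zero (fun _ => dist_nonneg) ?_ h2
      intro n
      have h3 : dist (x n) a = ‖ic a (w n) - a‖ := by
        rw [Subtype.dist_eq, dist_eq_norm]
      have h4 : w n + 1 = (((n:ℝ) + k + 2 : ℝ) : ℂ) := by
        simp only [w]
        push_cast
        ring
      have h5 : ‖w n + 1‖ = (n:ℝ) + k + 2 := by
        rw [h4, Complex.norm_real, Real.norm_eq_abs, abs_of_nonneg (by positivity)]
      have h6 : w n + 1 ≠ 0 := by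
        intro h7
        rw [h7, norm_zero] at h5
        have : (0:ℝ) ≤ n := by positivity
        linarith
      rw [h3, ic_sub a (w n) ha h6, h5, mul_one_div]
      apply div_le_div_of_nonneg_left (by norm_num) (by positivity)
      linarith
    have hf : Tendsto (fun n => ‖f.1 (x n)‖) atTop (𝓝 ‖f.1 a‖) :=
      ((continuous_da f).norm.tendsto a).comp hx
    exact le_of_tendsto hf (Eventually.of_forall fun n => hGG (w n) (hw n) (x n) rfl)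
  · have hne : (Φ^[m] z : ℂ) ≠ a := by
      intro h2
      rw [h2, ha] at h1
      exact lt_irrefl _ h1
    obtain ⟨w, hw⟩ : ∃ w : ℂ, w = Cay a (Φ^[m] z) := ⟨_, rfl⟩
    have hicw : ic a w = (Φ^[m] z : ℂ) := by rw [hw]; exact ic_cay a _ ha hne
    have hre : 0 < w.re := by
      rw [hw, cay_re a _ ha hne]
      have h3 : 0 < ‖(a:ℂ) - (Φ^[m] z : ℂ)‖ := norm_pos_iff.2 (sub_ne_zero.2 (Ne.symm hne))
      have h4 : 0 < 1 - ‖(Φ^[m] z : ℂ)‖ ^ 2 := by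
        have h5 := norm_nonneg (Φ^[m] z : ℂ)
        nlinarith
      positivity
    have hw1 : w + 1 ≠ 0 := by
      intro h2
      have h3 := congrArg Complex.re h2
      simp at h3
      linarith
    have hn := ic_sub a w ha hw1
    rw [hicw] at hn
    have hlt := hmc z
    have hp : 0 < ‖w + 1‖ := norm_pos_iff.2 hw1
    rw [hn, div_lt_div_iff₀ hp (by positivity)] at hlt
    have hnw : ‖w + 1‖ ≤ ‖w‖ + 1 := by
      refine (norm_add_le _ _).trans ?_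
      simp
    have hwl : ‖w‖ ≤ |w.re| + |w.im| := Complex.norm_le_abs_re_add_abs_im w
    rw [abs_of_pos hre] at hwl
    refine hGG w ⟨hre, ?_⟩ _ hicw
    have h6 : (k:ℝ) * k < (w.re + |w.im| / k) * k := by
      rw [add_mul, div_mul_cancel₀ _ hk0.ne']
      nlinarith
    exact lt_of_mul_lt_mul_right h6 hk0.le

theorem bb_of_sub_pow {T : DA →L[ℂ] DA} {Φ : Pt → Pt} (h : IsComp T Φ) (l : ℂ)
    (hl1 : ‖l‖ ≤ 1) (f : DA) (n : ℕ) :
    ‖(T ^ n) f - l ^ n • f‖ ≤ n * ‖T f - l • f‖ := by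
  induction n with
  | zero =>
    have e0 : (T ^ 0) f - l ^ 0 • f = 0 := by
      rw [pow_zero, pow_zero, one_smul]
      exact sub_self f
    rw [e0, norm_zero, Nat.cast_zero, zero_mul]
  | succ n ih =>
    have e1 : (T ^ (n+1)) f = T ((T ^ n) f) := by rw [pow_succ']; rfl
    have e : (T ^ (n+1)) f - l ^ (n+1) • f
        = T ((T ^ n) f - l ^ n • f) + l ^ n • (T f - l • f) := by
      rw [e1, map_sub T ((T ^ n) f) (l ^ n • f), map_smul T (l ^ n) f, smul_sub (l ^ n) (T f) (l • f),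
        smul_smul (l ^ n) l f, pow_succ l n, sub_add_sub_cancel]
    rw [e]
    refine (norm_add_le _ _).trans ?_
    have h1 : ‖T ((T ^ n) f - l ^ n • f)‖ ≤ n * ‖T f - l • f‖ := (h.norm_le _).trans ih
    have h2 : ‖l ^ n • (T f - l • f)‖ ≤ ‖T f - l • f‖ := by
      rw [norm_smul, norm_pow]
      have h3 : ‖l‖ ^ n ≤ 1 := pow_le_one₀ (norm_nonneg _) hl1
      exact mul_le_of_le_one_left (norm_nonneg _) h3
    rw [Nat.cast_add, Nat.cast_one, add_mul, one_mul]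
    exact add_le_add h1 h2

theorem bb_of_sub {T : DA →L[ℂ] DA} {Φ : Pt → Pt} (h : IsComp T Φ) (a : Pt) (ha : ‖(a:ℂ)‖ = 1)
    (hK : KK Φ ⊆ {a}) (N : ℕ) (hN : ∀ z : Pt, Φ^[N] z = a ∨ ‖(Φ^[N] z : ℂ)‖ < 1)
    (hin : ∀ z : Pt, ‖(z:ℂ)‖ < 1 → ‖(Φ z : ℂ)‖ < 1) (hfix : Φ a = a) (l : ℂ) (hl : l ≠ 0)
    (hl1 : ‖l‖ ≤ 1) (k : ℕ) (hk : 1 ≤ k)
    (hc : ∀ (f : DA) (s : ℝ), 0 ≤ s → (∀ w ∈ GG k, ‖ext f.1 (ic a w)‖ ≤ s) →
      (∀ w ∈ GG k, ‖ext (T f - l • f).1 (ic a w)‖ ≤ s / k) →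
      ∀ w ∈ GG k, ‖ext f.1 (ic a w)‖ ≤ s / 2) :
    ∃ c : ℝ, 0 < c ∧ ∀ f : DA, c * ‖f‖ ≤ ‖T f - l • f‖ := by
  have hk0 : (0:ℝ) < k := by exact_mod_cast hk
  have hconv := conv_of_singleton h a hK
  obtain ⟨m0, hm0⟩ := (Metric.tendsto_atTop.1 hconv) (1 / ((k:ℝ)^2 + 1)) (by positivity)
  obtain ⟨m, hm0m, hmN⟩ : ∃ m, m0 ≤ m ∧ N ≤ m := ⟨max m0 N, le_max_left _ _, le_max_right _ _⟩
  have hmc : ∀ z : Pt, ‖(Φ^[m] z : ℂ) - a‖ < 1 / ((k:ℝ)^2+1) := by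
    intro z
    have h1 := hm0 m hm0m
    rw [dist_eq_norm] at h1
    refine lt_of_le_of_lt ?_ h1
    have h2 := norm_apply_le ((T ^ m) Z - algebraMap ℂ DA (a:ℂ)) z
    rw [sub_apply, algMap_apply, h.pow, Z_apply] at h2
    exact h2
  have hmx : ∀ z : Pt, Φ^[m] z = a ∨ ‖(Φ^[m] z : ℂ)‖ < 1 := by
    have haux : ∀ n : ℕ, ∀ z : Pt, Φ^[N + n] z = a ∨ ‖(Φ^[N + n] z : ℂ)‖ < 1 := by
      intro n
      induction n with
      | zero => exact hN
      | succ n ih =>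
        intro z
        rw [← Nat.add_assoc, Function.iterate_succ_apply']
        rcases ih z with h1 | h1
        · left; rw [h1, hfix]
        · right; exact hin _ h1
    intro z
    obtain ⟨n, hn⟩ := Nat.exists_eq_add_of_le hmN
    rw [hn]
    exact haux n z
  have hlp : 0 < ‖l‖ := norm_pos_iff.2 hl
  refine ⟨‖l‖ ^ m / (k + m), by positivity, ?_⟩
  intro f
  have hmain := bb_of_sub_main (T := T) a ha l k hk hc m hmc hmx f
  have h1 : ‖(T ^ m) f‖ ≤ k * ‖T f - l • f‖ := by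
    apply norm_le_of (by positivity)
    intro z
    rw [h.pow]
    exact hmain z
  have h2 := bb_of_sub_pow h l hl1 f m
  have h3 : ‖l ^ m • f‖ ≤ ‖(T ^ m) f‖ + ‖(T ^ m) f - l ^ m • f‖ := by
    have h4 : l ^ m • f = (T ^ m) f - ((T ^ m) f - l ^ m • f) := by abel
    calc ‖l ^ m • f‖ = ‖(T ^ m) f - ((T ^ m) f - l ^ m • f)‖ := by rw [← h4]
      _ ≤ _ := norm_sub_le _ _
  rw [norm_smul, norm_pow] at h3
  rw [div_mul_eq_mul_div, div_le_iff₀ (by positivity)]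
  nlinarith

end Pool.Agent.Helper203.DS
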