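import Pool.Agent.KS6_19.DA.L.Helper203.DS.Base
import Pool.Agent.KS6_19.DA.L.Helper203.DS.KKm
import Pool.Agent.KS6_19.DA.L.Helper203.DS.Peak

open Metric Set Filter Topology

noncomputable section

namespace Pool.Agent.Helper203.DS

theorem geomX {B : Type*} [Ring B] (R x y : B) (h : Commute x y) (hR : R * (y - x) = 1) (n : ℕ) :
    (∑ i ∈ Finset.range n, x ^ i * y ^ (n - 1 - i)) = R * (y ^ n - x ^ n) := by
  have h1 : y ^ n - x ^ n = (y - x) * (∑ i ∈ Finset.range n, x ^ i * y ^ (n - 1 - i)) := by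
    rw [← neg_sub x y, neg_mul, h.mul_geom_sum₂ n, neg_sub]
  rw [h1, ← mul_assoc, hR, one_mul]

theorem crit_alg {l : ℂ} (k : ℕ) (P : DA) (z : Pt) :
    (((algebraMap ℂ (DA →L[ℂ] DA) l) ^ k) P).1 z = l ^ k * P.1 z := by
  rw [← map_pow, Algebra.algebraMap_eq_smul_one]
  rfl

theorem crit {T : DA →L[ℂ] DA} {Φ : Pt → Pt} (h : IsComp T Φ) (l : ℂ) (hl : l ∉ spectrum ℂ T) :
    ∃ C : ℝ, ∀ (P : DA) (N : ℕ) (y : Pt), ‖P‖ ≤ 1 →
      ‖P.1 (Φ^[N] y)‖ ≤ C * (‖(T ^ (N + 1)) P‖ + ‖l‖ ^ (N + 1)) +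
        ∑ j ∈ Finset.range N, ‖l‖ ^ (N - j) * ‖P.1 (Φ^[j] y)‖ := by
  have hu : IsUnit (algebraMap ℂ (DA →L[ℂ] DA) l - T) := by
    by_contra hcon
    exact hl (spectrum.mem_iff.2 hcon)
  obtain ⟨u, hu⟩ := hu
  set R : DA →L[ℂ] DA := ((u⁻¹ : (DA →L[ℂ] DA)ˣ) : DA →L[ℂ] DA) with hR
  have hRu : R * (algebraMap ℂ (DA →L[ℂ] DA) l - T) = 1 := by
    rw [← hu, hR]; exact Units.inv_mul u
  refine ⟨‖R‖, ?_⟩
  intro P N y hP
  set A : DA →L[ℂ] DA := algebraMap ℂ (DA →L[ℂ] DA) l with hA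
  set G : DA →L[ℂ] DA := ∑ i ∈ Finset.range (N + 1), T ^ i * A ^ (N + 1 - 1 - i) with hG
  have hcomm : Commute T A := (Algebra.commutes l T).symm
  have hG2 : G = R * (A ^ (N + 1) - T ^ (N + 1)) := geomX R T A hcomm hRu (N + 1)
  have hGn : ‖G P‖ ≤ ‖R‖ * (‖(T ^ (N + 1)) P‖ + ‖l‖ ^ (N + 1)) := by
    have e1 : G P = R ((A ^ (N + 1)) P - (T ^ (N + 1)) P) := by rw [hG2]; rfl
    rw [e1]
    refine (R.le_opNorm _).trans ?_
    refine mul_le_mul_of_nonneg_left ?_ (norm_nonneg _)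
    refine (norm_sub_le _ _).trans ?_
    have e2 : ‖(A ^ (N + 1)) P‖ ≤ ‖l‖ ^ (N + 1) := by
      refine norm_le_of (by positivity) fun z => ?_
      rw [hA, crit_alg, norm_mul, norm_pow]
      calc ‖l‖ ^ (N + 1) * ‖P.1 z‖ ≤ ‖l‖ ^ (N + 1) * 1 := by
            gcongr
            exact (norm_apply_le P z).trans hP
        _ = ‖l‖ ^ (N + 1) := mul_one _
    linarith
  have hGy : (G P).1 y = P.1 (Φ^[N] y) +
      ∑ j ∈ Finset.range N, l ^ (N - j) * P.1 (Φ^[j] y) := by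
    have e1 : G P = ∑ i ∈ Finset.range (N + 1), (T ^ i) ((A ^ (N + 1 - 1 - i)) P) := by
      rw [hG]
      simp only [_root_.sum_apply]
      rfl
    rw [e1, sum_apply, Finset.sum_range_succ, add_comm]
    congr 1
    · rw [h.pow, hA, crit_alg]
      simp
    · refine Finset.sum_congr rfl fun j _ => ?_
      rw [h.pow, hA, crit_alg]
      simp
  have e : P.1 (Φ^[N] y) = (G P).1 y - ∑ j ∈ Finset.range N, l ^ (N - j) * P.1 (Φ^[j] y) := by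
    rw [hGy]; ring
  rw [e]
  refine (norm_sub_le _ _).trans ?_
  refine add_le_add ((norm_apply_le _ _).trans hGn) ?_
  refine (norm_sum_le _ _).trans ?_
  refine Finset.sum_le_sum fun j _ => ?_
  rw [norm_mul, norm_pow]

theorem range_anti (Φ : Pt → Pt) {m n : ℕ} (hmn : m ≤ n) : range (Φ^[n]) ⊆ range (Φ^[m]) := by
  rintro _ ⟨y, rfl⟩
  refine ⟨Φ^[n - m] y, ?_⟩
  rw [← Function.iterate_add_apply]
  congr 2
  omega

theorem peak_lt {z w : ℂ} (hz : ‖z‖ = 1) (hw : ‖w‖ ≤ 1) (hne : w ≠ z) :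
    ‖(1 / 2 : ℂ) * (1 + (starRingEnd ℂ) z * w)‖ < 1 := by
  set ζ : ℂ := (starRingEnd ℂ) z * w with hζ
  have hζn : ‖ζ‖ ≤ 1 := by
    rw [hζ, norm_mul, RCLike.norm_conj, hz, one_mul]; exact hw
  have hzz : z * (starRingEnd ℂ) z = 1 := by
    rw [Complex.mul_conj, Complex.normSq_eq_norm_sq, hz]; simp
  have hζ1 : ζ ≠ 1 := by
    intro h1
    apply hne
    calc w = (z * (starRingEnd ℂ) z) * w := by rw [hzz, one_mul]
      _ = z * ζ := by rw [hζ]; ring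
      _ = z := by rw [h1, mul_one]
  have hsq : ‖1 + ζ‖ ^ 2 < 4 := by
    rw [← Complex.normSq_eq_norm_sq, Complex.normSq_apply]
    have h2 : ζ.re * ζ.re + ζ.im * ζ.im ≤ 1 := by
      rw [← Complex.normSq_apply, Complex.normSq_eq_norm_sq]
      nlinarith [norm_nonneg ζ]
    have h3 : ζ.re < 1 := by
      by_contra hcon
      push Not at hcon
      apply hζ1
      have him : ζ.im = 0 := by nlinarith [sq_nonneg ζ.im, sq_nonneg (ζ.re - 1)]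
      have hre : ζ.re = 1 := by nlinarith [sq_nonneg ζ.im, sq_nonneg (ζ.re - 1)]
      apply Complex.ext <;> simp [him, hre]
    simp only [Complex.add_re, Complex.one_re, Complex.add_im, Complex.one_im, zero_add]
    nlinarith
  have hlt : ‖1 + ζ‖ < 2 := by
    by_contra hcon
    push Not at hcon
    nlinarith
  rw [norm_mul]
  have : ‖(1 / 2 : ℂ)‖ = 1 / 2 := by simp
  rw [this]
  linarith

theorem boundary_step {T : DA →L[ℂ] DA} {Φ : Pt → Pt} (h : IsComp T Φ) (l : ℂ) (C : ℝ)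
    (hC : ∀ (P : DA) (N : ℕ) (y : Pt), ‖P‖ ≤ 1 →
      ‖P.1 (Φ^[N] y)‖ ≤ C * (‖(T ^ (N + 1)) P‖ + ‖l‖ ^ (N + 1)) +
        ∑ j ∈ Finset.range N, ‖l‖ ^ (N - j) * ‖P.1 (Φ^[j] y)‖)
    (N : ℕ) (z y : Pt) (hz : ‖(z:ℂ)‖ = 1) (hy : Φ^[N] y = z)
    (hN : z ∉ range (Φ^[N + 1])) (hj : ∀ j < N, Φ^[j] y ≠ z) :
    1 ≤ C * ‖l‖ ^ (N + 1) := by
  set p : DA := (1 / 2 : ℂ) • (1 + (starRingEnd ℂ) (z:ℂ) • Z) with hp
  have hpa : ∀ w : Pt, p.1 w = (1 / 2 : ℂ) * (1 + (starRingEnd ℂ) (z:ℂ) * (w:ℂ)) := by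
    intro w
    rw [hp, smul_apply, add_apply, one_apply, smul_apply, Z_apply]
  have hpz : p.1 z = 1 := by
    rw [hpa]
    have : (starRingEnd ℂ) (z:ℂ) * (z:ℂ) = 1 := by
      rw [mul_comm, Complex.mul_conj, Complex.normSq_eq_norm_sq, hz]; simp
    rw [this]; norm_num
  have hplt : ∀ w : Pt, w ≠ z → ‖p.1 w‖ < 1 := by
    intro w hw
    rw [hpa]
    refine peak_lt hz ?_ ?_
    · exact mem_closedBall_zero_iff.1 w.2
    · intro h0; exact hw (Subtype.ext h0)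
  have hple : ∀ w : Pt, ‖p.1 w‖ ≤ 1 := by
    intro w
    by_cases hw : w = z
    · rw [hw, hpz]; simp
    · exact (hplt w hw).le
  -- the maximum on the range
  have hcomp : CompactSpace Pt := isCompact_iff_compactSpace.1 (isCompact_closedBall _ _)
  have hne : Nonempty Pt := ⟨z⟩
  have hcont : Continuous (fun w : Pt => ‖p.1 (Φ^[N + 1] w)‖) :=
    ((continuous_da p).comp (h.cont.iterate (N + 1))).norm
  obtain ⟨w0, -, hw0⟩ := isCompact_univ.exists_isMaxOn univ_nonempty hcont.continuousOn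
  set ρ : ℝ := ‖p.1 (Φ^[N + 1] w0)‖ with hρ
  have hρ1 : ρ < 1 := hplt _ (fun h0 => hN ⟨w0, h0⟩)
  have hρle : ∀ w, ‖p.1 (Φ^[N + 1] w)‖ ≤ ρ := fun w => hw0 (mem_univ w)
  have hρ0 : 0 ≤ ρ := norm_nonneg _
  have hpM : ∀ M : ℕ, ‖p ^ M‖ ≤ 1 := by
    intro M
    refine norm_le_of zero_le_one fun w => ?_
    rw [pow_apply, norm_pow]
    exact pow_le_one₀ (norm_nonneg _) (hple w)
  have hTM : ∀ M : ℕ, ‖(T ^ (N + 1)) (p ^ M)‖ ≤ ρ ^ M := by
    intro M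
    refine norm_le_of (by positivity) fun w => ?_
    rw [h.pow, pow_apply, norm_pow]
    exact pow_le_pow_left₀ (norm_nonneg _) (hρle w) M
  have hT0 : Tendsto (fun M : ℕ => ‖(T ^ (N + 1)) (p ^ M)‖) atTop (𝓝 0) :=
    squeeze_zero (fun M => norm_nonneg _) hTM (tendsto_pow_atTop_nhds_zero_of_lt_one hρ0 hρ1)
  have hS0 : Tendsto (fun M : ℕ => ∑ j ∈ Finset.range N, ‖l‖ ^ (N - j) *
      ‖(p ^ M).1 (Φ^[j] y)‖) atTop (𝓝 (∑ j ∈ Finset.range N, ‖l‖ ^ (N - j) * 0)) := by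
    refine tendsto_finsetSum _ fun j hj' => ?_
    refine Tendsto.const_mul _ ?_
    have : ∀ M : ℕ, ‖(p ^ M).1 (Φ^[j] y)‖ = ‖p.1 (Φ^[j] y)‖ ^ M := by
      intro M; rw [pow_apply, norm_pow]
    simp only [this]
    exact tendsto_pow_atTop_nhds_zero_of_lt_one (norm_nonneg _)
      (hplt _ (hj j (Finset.mem_range.1 hj')))
  have hlim : Tendsto (fun M : ℕ => C * (‖(T ^ (N + 1)) (p ^ M)‖ + ‖l‖ ^ (N + 1)) +
      ∑ j ∈ Finset.range N, ‖l‖ ^ (N - j) * ‖(p ^ M).1 (Φ^[j] y)‖) atTop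
      (𝓝 (C * (0 + ‖l‖ ^ (N + 1)) + ∑ j ∈ Finset.range N, ‖l‖ ^ (N - j) * 0)) :=
    ((hT0.add_const _).const_mul C).add hS0
  have hfin := ge_of_tendsto' hlim (b := 1) (fun M => by
    have := hC (p ^ M) N y (hpM M)
    rw [hy, pow_apply, hpz, one_pow, norm_one] at this
    exact this)
  simpa using hfin

theorem boundary_find {Φ : Pt → Pt} (a : Pt)
    (hK : KK Φ ⊆ {a})
    (hinf : ∀ N : ℕ, ∃ z ∈ range (Φ^[N]), z ≠ a ∧ ‖(z:ℂ)‖ = 1) (N0 : ℕ) :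
    ∃ (N : ℕ) (z y : Pt), N0 ≤ N ∧ ‖(z:ℂ)‖ = 1 ∧ Φ^[N] y = z ∧ z ∉ range (Φ^[N + 1]) ∧
      ∀ j < N, Φ^[j] y ≠ z := by
  obtain ⟨z, hz, hza, hz1⟩ := hinf N0
  have hzK : z ∉ KK Φ := fun h0 => hza (hK h0)
  have hex : ∃ n : ℕ, z ∉ range (Φ^[n]) := by
    by_contra hcon2
    push Not at hcon2
    exact hzK (mem_iInter.2 hcon2)
  classical
  obtain ⟨n, hn1, hmin⟩ : ∃ n, z ∉ range (Φ^[n]) ∧ ∀ m, m < n → z ∈ range (Φ^[m]) :=
    ⟨Nat.find hex, Nat.find_spec hex, fun m hm => not_not.1 (Nat.find_min hex hm)⟩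
  have hn2 : N0 < n := by
    by_contra hle
    push Not at hle
    exact hn1 (range_anti Φ hle hz)
  obtain ⟨N, hN⟩ : ∃ N, n = N + 1 := ⟨n - 1, by omega⟩
  have hN3 : z ∈ range (Φ^[N]) := hmin N (by omega)
  obtain ⟨y, hy⟩ := hN3
  refine ⟨N, z, y, by omega, hz1, hy, by rw [← hN]; exact hn1, ?_⟩
  intro j hj h0
  have hper : Φ^[N - j] z = z := by
    calc Φ^[N - j] z = Φ^[N - j] (Φ^[j] y) := by rw [h0]
      _ = Φ^[N - j + j] y := (Function.iterate_add_apply Φ (N - j) j y).symm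
      _ = Φ^[N] y := by rw [Nat.sub_add_cancel hj.le]
      _ = z := hy
  apply hn1
  have hall : ∀ m : ℕ, Φ^[(N - j) * m] z = z := by
    intro m
    rw [Function.iterate_mul]
    exact Function.iterate_fixed hper m
  have : z ∈ range (Φ^[(N - j) * n]) := ⟨z, hall n⟩
  refine range_anti Φ ?_ this
  have h1 : 1 ≤ N - j := by omega
  exact Nat.le_mul_of_pos_left n h1

theorem boundary_ball {T : DA →L[ℂ] DA} {Φ : Pt → Pt} (h : IsComp T Φ) (a : Pt)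
    (hK : KK Φ ⊆ {a})
    (hinf : ∀ N : ℕ, ∃ z ∈ range (Φ^[N]), z ≠ a ∧ ‖(z:ℂ)‖ = 1) (l : ℂ) (hl : ‖l‖ < 1) :
    l ∈ spectrum ℂ T := by
  by_contra hcon
  obtain ⟨C, hC⟩ := crit h l hcon
  have hlim : Tendsto (fun N : ℕ => C * ‖l‖ ^ (N + 1)) atTop (𝓝 0) := by
    have := ((tendsto_pow_atTop_nhds_zero_of_lt_one (norm_nonneg l) hl).comp
      (tendsto_add_atTop_nat 1)).const_mul C
    simpa using this
  obtain ⟨N0, hN0⟩ := Filter.eventually_atTop.1 (hlim.eventually (gt_mem_nhds zero_lt_one))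
  obtain ⟨N, z, y, hNN, hz1, hy, hN, hj⟩ := boundary_find a hK hinf N0
  have hmain := boundary_step h l C hC N z y hz1 hy hN hj
  have := hN0 N hNN
  linarith

theorem IsComp.opNorm_le {T : DA →L[ℂ] DA} {Φ : Pt → Pt} (h : IsComp T Φ) : ‖T‖ ≤ 1 :=
  T.opNorm_le_bound zero_le_one fun f => by
    rw [one_mul]; exact h.norm_le f

theorem spec_ball {V : Type*} [NormedAddCommGroup V] [NormedSpace ℂ V] [CompleteSpace V]
    [Nontrivial V] (T : V →L[ℂ] V) : spectrum ℂ T ⊆ closedBall 0 ‖T‖ :=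
  spectrum.subset_closedBall_norm T

theorem spec_closed {V : Type*} [NormedAddCommGroup V] [NormedSpace ℂ V] [CompleteSpace V]
    (T : V →L[ℂ] V) : IsClosed (spectrum ℂ T) := spectrum.isClosed T

theorem boundary_disc {T : DA →L[ℂ] DA} {Φ : Pt → Pt} (h : IsComp T Φ) (a : Pt)
    (hK : KK Φ ⊆ {a})
    (hinf : ∀ N : ℕ, ∃ z ∈ range (Φ^[N]), z ≠ a ∧ ‖(z:ℂ)‖ = 1) :
    spectrum ℂ T = closedBall (0:ℂ) 1 := by
  refine Subset.antisymm ?_ ?_
  · have h1 : spectrum ℂ T ⊆ closedBall 0 ‖T‖ := spec_ball T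
    exact h1.trans (closedBall_subset_closedBall h.opNorm_le)
  · have h2 : IsClosed (spectrum ℂ T) := spec_closed T
    have h3 : ball (0:ℂ) 1 ⊆ spectrum ℂ T := fun l hl =>
      boundary_ball h a hK hinf l (mem_ball_zero_iff.1 hl)
    have h4 := closure_minimal h3 h2
    rwa [closure_ball (0:ℂ) one_ne_zero] at h4

end Pool.Agent.Helper203.DS
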