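import Pool.Agent.KS6_19.DA.L.Helper203.DS.Defs

open Metric Set Filter Topology

noncomputable section

namespace Pool.Agent.Helper203.DS

theorem IsComp.mul {T : DA →L[ℂ] DA} {Φ : Pt → Pt} (h : IsComp T Φ) (f g : DA) :
    T (f * g) = T f * T g :=
  da_ext fun z => by simp [h.eq]

theorem IsComp.one {T : DA →L[ℂ] DA} {Φ : Pt → Pt} (h : IsComp T Φ) : T 1 = 1 :=
  da_ext fun z => by simp [h.eq]

theorem IsComp.norm_le {T : DA →L[ℂ] DA} {Φ : Pt → Pt} (h : IsComp T Φ) (f : DA) :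
    ‖T f‖ ≤ ‖f‖ :=
  norm_le_of (norm_nonneg _) fun z => by rw [h.eq]; exact norm_apply_le _ _

theorem IsComp.pow {T : DA →L[ℂ] DA} {Φ : Pt → Pt} (h : IsComp T Φ) (n : ℕ) (f : DA) (z : Pt) :
    ((T ^ n) f).1 z = f.1 (Φ^[n] z) := by
  induction n generalizing f with
  | zero => simp
  | succ n ih =>
    have e : (T ^ (n + 1)) f = (T ^ n) (T f) := by rw [pow_succ]; rfl
    rw [e, ih, h.eq, Function.iterate_succ_apply']

end Pool.Agent.Helper203.DS
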