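import Pool.Agent.KS6_19.DA.L.Helper203.DS.Defs2

open Metric Set Filter Topology

noncomputable section

namespace Pool.Agent.Helper203.DS

theorem circle_of_bb_step {E : Type*} [NormedAddCommGroup E] [NormedSpace ℂ E] [CompleteSpace E]
    (T : E →L[ℂ] E) (c : ℝ) (hc : 0 < c) (m m' : ℂ)
    (hbb : ∀ f : E, c * ‖f‖ ≤ ‖T f - m • f‖) (hm : m ∉ spectrum ℂ T) (hmm : ‖m' - m‖ < c) :
    m' ∉ spectrum ℂ T := by
  rw [spectrum.notMem_iff] at hm ⊢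
  obtain ⟨u, hu⟩ := hm
  by_cases hR : ‖((u⁻¹ : (E →L[ℂ] E)ˣ) : E →L[ℂ] E)‖ = 0
  · have h1 : (1 : E →L[ℂ] E) = 0 := by
      rw [← u.mul_inv, norm_eq_zero.1 hR, mul_zero]
    have := subsingleton_of_zero_eq_one h1.symm
    exact isUnit_of_subsingleton _
  · have hRpos : 0 < ‖((u⁻¹ : (E →L[ℂ] E)ˣ) : E →L[ℂ] E)‖ :=
      lt_of_le_of_ne (norm_nonneg _) (Ne.symm hR)
    have hRle : ‖((u⁻¹ : (E →L[ℂ] E)ˣ) : E →L[ℂ] E)‖ ≤ 1 / c := by
      refine ContinuousLinearMap.opNorm_le_bound _ (by positivity) fun g => ?_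
      have h2 := hbb (((u⁻¹ : (E →L[ℂ] E)ˣ) : E →L[ℂ] E) g)
      have h3 : T (((u⁻¹ : (E →L[ℂ] E)ˣ) : E →L[ℂ] E) g) -
          m • (((u⁻¹ : (E →L[ℂ] E)ˣ) : E →L[ℂ] E) g) = -g := by
        have h4 : (u : E →L[ℂ] E) (((u⁻¹ : (E →L[ℂ] E)ˣ) : E →L[ℂ] E) g) = g := by
          have h5 : ((u : E →L[ℂ] E) * ((u⁻¹ : (E →L[ℂ] E)ˣ) : E →L[ℂ] E)) g = g := by
            rw [u.mul_inv]; rfl
          exact h5
        rw [hu] at h4
        have h6 : (algebraMap ℂ (E →L[ℂ] E) m - T) (((u⁻¹ : (E →L[ℂ] E)ˣ) : E →L[ℂ] E) g) =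
          m • (((u⁻¹ : (E →L[ℂ] E)ˣ) : E →L[ℂ] E) g) -
            T (((u⁻¹ : (E →L[ℂ] E)ˣ) : E →L[ℂ] E) g) := rfl
        rw [h6] at h4
        rw [← neg_sub, h4]
      rw [h3, norm_neg] at h2
      rw [div_mul_eq_mul_div, one_mul, le_div_iff₀ hc, mul_comm]
      exact h2
    have hlt : ‖(algebraMap ℂ (E →L[ℂ] E) m' - T) - (u : E →L[ℂ] E)‖ <
        ‖((u⁻¹ : (E →L[ℂ] E)ˣ) : E →L[ℂ] E)‖⁻¹ := by
      have h7 : (algebraMap ℂ (E →L[ℂ] E) m' - T) - (u : E →L[ℂ] E) =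
          algebraMap ℂ (E →L[ℂ] E) (m' - m) := by
        rw [hu, map_sub]; abel
      rw [h7]
      have h8 : ‖algebraMap ℂ (E →L[ℂ] E) (m' - m)‖ ≤ ‖m' - m‖ := by
        rw [Algebra.algebraMap_eq_smul_one, norm_smul]
        exact mul_le_of_le_one_right (norm_nonneg _) ContinuousLinearMap.norm_id_le
      have h9 : c ≤ ‖((u⁻¹ : (E →L[ℂ] E)ˣ) : E →L[ℂ] E)‖⁻¹ := by
        rw [le_inv_comm₀ hc hRpos]
        rwa [one_div] at hRle
      linarith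
    exact (Units.ofNearby u _ hlt).isUnit

theorem circle_of_bb {E : Type*} [NormedAddCommGroup E] [NormedSpace ℂ E] [CompleteSpace E]
    (T : E →L[ℂ] E) (l : ℂ) (c : ℝ) (hc : 0 < c)
    (hbb : ∀ m : ℂ, ‖m‖ = ‖l‖ → ∀ f : E, c * ‖f‖ ≤ ‖T f - m • f‖) (hl : l ∉ spectrum ℂ T) :
    ∀ m : ℂ, ‖m‖ = ‖l‖ → m ∉ spectrum ℂ T := by
  intro m hm
  have hs : IsPreconnected (sphere (0 : ℂ) ‖l‖) :=
    isPreconnected_sphere (by rw [Complex.rank_real_complex]; exact Cardinal.one_lt_two) 0 _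
  have key := hs.induction₂ (fun x y : ℂ => x ∉ spectrum ℂ T ↔ y ∉ spectrum ℂ T) ?_ ?_ ?_
    (x := l) (y := m) (by simp) (by simpa using hm)
  · exact key.1 hl
  · intro x hx
    have hx' : ‖x‖ = ‖l‖ := by simpa using hx
    have h1 : ∀ᶠ y in 𝓝[sphere (0 : ℂ) ‖l‖] x, y ∈ ball x c :=
      mem_nhdsWithin_of_mem_nhds (ball_mem_nhds x hc)
    filter_upwards [h1, self_mem_nhdsWithin] with y hy hys
    have hy' : ‖y‖ = ‖l‖ := by simpa using hys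
    have hyx : ‖y - x‖ < c := by rw [← dist_eq_norm]; exact hy
    constructor
    · intro h
      exact circle_of_bb_step T c hc x y (hbb x hx') h hyx
    · intro h
      exact circle_of_bb_step T c hc y x (hbb y hy') h (by rw [norm_sub_rev]; exact hyx)
  · intro x y z _ _ _ h1 h2
    exact h1.trans h2
  · intro x y _ _ h1
    exact h1.symm

end Pool.Agent.Helper203.DS
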