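import Pool.Agent.KS6_19.DA.L.Helper203.DS.Base

open Metric Set Filter Topology

noncomputable section

namespace Pool.Agent.Helper203.DS

theorem char_eval (χ : DA → ℂ) (hadd : ∀ f g, χ (f + g) = χ f + χ g)
    (hsmul : ∀ (c : ℂ) (f : DA), χ (c • f) = c * χ f) (hmul : ∀ f g, χ (f * g) = χ f * χ g)
    (hone : χ 1 = 1) : ∃ y : Pt, ∀ f, χ f = f.1 y := by
  let χ' : DA →ₐ[ℂ] ℂ :=
    { toFun := χ
      map_one' := hone
      map_mul' := hmul
      map_zero' := by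
        have := hsmul 0 0
        simpa using this
      map_add' := hadd
      commutes' := by
        intro c
        rw [Algebra.algebraMap_eq_smul_one, hsmul, hone, mul_one]
        rfl }
  have hle : ∀ f : DA, ‖χ f‖ ≤ ‖f‖ := fun f => AlgHom.norm_apply_le_self χ' f
  have hsub : ∀ f g, χ (f - g) = χ f - χ g := fun f g => map_sub χ' f g
  have hZ : ‖(Z : DA)‖ ≤ 1 := norm_le_of zero_le_one fun z => by
    exact mem_closedBall_zero_iff.1 z.2
  have hy : χ Z ∈ Metric.closedBall (0 : ℂ) 1 := by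
    simpa using (hle Z).trans hZ
  refine ⟨⟨χ Z, hy⟩, fun f => ?_⟩
  have hy1 : ‖χ Z‖ ≤ 1 := (hle Z).trans hZ
  by_contra hne
  have hpos : 0 < ‖χ f - f.1 ⟨χ Z, hy⟩‖ := norm_pos_iff.2 (sub_ne_zero.2 hne)
  set ε : ℝ := ‖χ f - f.1 ⟨χ Z, hy⟩‖ / 3 with hε
  have hε0 : 0 < ε := by positivity
  have huc : UniformContinuous f.1 := CompactSpace.uniformContinuous_of_continuous f.1.continuous
  obtain ⟨δ, hδ, hδ'⟩ := Metric.uniformContinuous_iff.1 huc ε hε0
  obtain ⟨r, hr0, hr1, hrδ⟩ : ∃ r : ℝ, 0 < r ∧ r < 1 ∧ 1 - r < δ := by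
    refine ⟨max (1 - δ / 2) (1 / 2), by positivity, max_lt (by linarith) (by norm_num), ?_⟩
    have := le_max_left (1 - δ / 2) (1 / 2 : ℝ)
    linarith
  have hmem : ∀ z : ℂ, ‖z‖ ≤ 1 → (r : ℂ) * z ∈ Metric.closedBall (0 : ℂ) 1 := by
    intro z hz
    rw [mem_closedBall_zero_iff, norm_mul, Complex.norm_real, Real.norm_of_nonneg hr0.le]
    nlinarith [norm_nonneg z]
  have hclose : ∀ (z : ℂ) (hz : ‖z‖ ≤ 1), ‖ext f.1 ((r : ℂ) * z) - f.1 ⟨z, by simpa using hz⟩‖ < ε := by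
    intro z hz
    rw [ext_of_mem _ (hmem z hz), ← dist_eq_norm]
    apply hδ'
    rw [Subtype.dist_eq, dist_eq_norm]
    have : (r : ℂ) * z - z = ((r - 1 : ℝ) : ℂ) * z := by push_cast; ring
    show ‖(r : ℂ) * z - z‖ < δ
    rw [this, norm_mul, Complex.norm_real, Real.norm_eq_abs, abs_sub_comm, abs_of_pos (by linarith)]
    nlinarith [norm_nonneg z]
  have hdiff : DifferentiableOn ℂ (fun z : ℂ => ext f.1 ((r : ℂ) * z)) (Metric.ball 0 (1 / r)) := by
    refine (differentiableOn_da f).comp (by fun_prop) ?_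
    intro z hz
    rw [mem_ball_zero_iff] at hz ⊢
    rw [norm_mul, Complex.norm_real, Real.norm_of_nonneg hr0.le]
    rw [lt_div_iff₀ hr0] at hz
    linarith
  have hball : Metric.closedBall (0 : ℂ) 1 ⊆ Metric.ball 0 (1 / r) := by
    apply Metric.closedBall_subset_ball
    rw [lt_div_iff₀ hr0]
    linarith
  have hnhds : Metric.ball (0 : ℂ) (1 / r) ∈ 𝓝 (χ Z) :=
    Metric.isOpen_ball.mem_nhds (hball hy)
  have hg : DifferentiableOn ℂ (dslope (fun z : ℂ => ext f.1 ((r : ℂ) * z)) (χ Z))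
      (Metric.ball 0 (1 / r)) := (Complex.differentiableOn_dslope hnhds).2 hdiff
  obtain ⟨fr, hfr⟩ := exists_da (fun z : ℂ => ext f.1 ((r : ℂ) * z))
    (hdiff.continuousOn.mono hball) (hdiff.mono (Metric.ball_subset_closedBall.trans hball))
  obtain ⟨gr, hgr⟩ := exists_da (dslope (fun z : ℂ => ext f.1 ((r : ℂ) * z)) (χ Z))
    (hg.continuousOn.mono hball) (hg.mono (Metric.ball_subset_closedBall.trans hball))
  have hid : fr - algebraMap ℂ DA (ext f.1 ((r : ℂ) * χ Z)) =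
      (Z - algebraMap ℂ DA (χ Z)) * gr := by
    apply da_ext
    intro z
    rw [sub_apply, mul_apply, sub_apply, hfr, hgr, algMap_apply, algMap_apply, Z_apply]
    have := sub_smul_dslope (fun z : ℂ => ext f.1 ((r : ℂ) * z)) (χ Z) (z : ℂ)
    rw [smul_eq_mul] at this
    rw [this]
  have halg : ∀ c : ℂ, χ (algebraMap ℂ DA c) = c := fun c => χ'.commutes c
  have h1 : χ fr = ext f.1 ((r : ℂ) * χ Z) := by
    have h2 := congrArg χ hid
    rw [hsub, hmul, hsub, halg, halg, sub_self, zero_mul, sub_eq_zero] at h2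
    exact h2
  have h3 : ‖χ f - χ fr‖ ≤ ε := by
    rw [← hsub]
    refine (hle _).trans (norm_le_of hε0.le fun z => ?_)
    rw [sub_apply, hfr, norm_sub_rev]
    have hz : ‖(z : ℂ)‖ ≤ 1 := mem_closedBall_zero_iff.1 z.2
    exact (hclose z hz).le
  have h4 := hclose (χ Z) hy1
  have h5 : ‖χ f - f.1 ⟨χ Z, hy⟩‖ ≤ ‖χ f - χ fr‖ + ‖ext f.1 ((r : ℂ) * χ Z) - f.1 ⟨χ Z, hy⟩‖ := by
    rw [← h1]
    exact norm_sub_le_norm_sub_add_norm_sub _ _ _
  have h6 : ‖χ f - f.1 ⟨χ Z, hy⟩‖ = 3 * ε := by rw [hε]; ring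
  linarith

end Pool.Agent.Helper203.DS
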