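import Pool.Agent.KS6_19.DA.L.Helper203.DS.Defs2
import Pool.Agent.KS6_19.DA.L.Helper203.DS.Div

open Metric Set Filter Topology

noncomputable section

namespace Pool.Agent.Helper203.DS

theorem decd_norm_pow {T : DA →L[ℂ] DA} {Φ : Pt → Pt} (h : IsComp T Φ) (n : ℕ) (g : DA) :
    ‖(T ^ n) g‖ ≤ ‖g‖ :=
  norm_le_of (norm_nonneg _) fun z => by rw [h.pow]; exact norm_apply_le _ _

theorem decd_mul_pow {T : DA →L[ℂ] DA} {Φ : Pt → Pt} (h : IsComp T Φ) (n : ℕ) (f g : DA) :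
    (T ^ n) (f * g) = (T ^ n) f * (T ^ n) g :=
  da_ext fun z => by rw [mul_apply, h.pow, h.pow, h.pow, mul_apply]

theorem decd_circle (b z : ℂ) (hz : ‖z‖ = 1) : ‖1 - (starRingEnd ℂ) b * z‖ = ‖z - b‖ := by
  have h1 : (starRingEnd ℂ) z * z = 1 := by
    rw [mul_comm, Complex.mul_conj, Complex.normSq_eq_norm_sq, hz]; norm_num
  have h2 : 1 - (starRingEnd ℂ) b * z = (starRingEnd ℂ) (z - b) * z := by
    rw [map_sub, sub_mul, h1]
  rw [h2, norm_mul, hz, mul_one, RCLike.norm_conj]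

theorem dec_mul {T : DA →L[ℂ] DA} {Φ : Pt → Pt} (h : IsComp T Φ) {r : ℝ} (hr : 0 < r) (f g : DA)
    (hf : Dec T r f) : Dec T r (f * g) := by
  obtain ⟨K, hK⟩ := hf
  refine ⟨K * ‖g‖, fun n => ?_⟩
  rw [decd_mul_pow h]
  have h1 : ‖(T ^ n) f * (T ^ n) g‖ ≤ ‖(T ^ n) f‖ * ‖(T ^ n) g‖ := norm_mul_le _ _
  have h2 := hK n
  have h3 := decd_norm_pow h n g
  calc ‖(T ^ n) f * (T ^ n) g‖ ≤ ‖(T ^ n) f‖ * ‖(T ^ n) g‖ := h1
    _ ≤ (K * r ^ n) * ‖g‖ := mul_le_mul h2 h3 (norm_nonneg _) ((norm_nonneg _).trans h2)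
    _ = K * ‖g‖ * r ^ n := by ring

theorem dec_add {T : DA →L[ℂ] DA} {r : ℝ} (f g : DA) (hf : Dec T r f) (hg : Dec T r g) :
    Dec T r (f + g) := by
  obtain ⟨K, hK⟩ := hf
  obtain ⟨K', hK'⟩ := hg
  refine ⟨K + K', fun n => ?_⟩
  rw [map_add]
  have h1 := norm_add_le ((T ^ n) f) ((T ^ n) g)
  have h2 := hK n
  have h3 := hK' n
  rw [add_mul]
  linarith

theorem dec_smul {T : DA →L[ℂ] DA} {r : ℝ} (c : ℂ) (f : DA) (hf : Dec T r f) :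
    Dec T r (c • f) := by
  obtain ⟨K, hK⟩ := hf
  refine ⟨‖c‖ * K, fun n => ?_⟩
  rw [map_smul]
  have h1 : ‖c • (T ^ n) f‖ ≤ ‖c‖ * ‖(T ^ n) f‖ := norm_smul_le _ _
  have h2 := mul_le_mul_of_nonneg_left (hK n) (norm_nonneg c)
  rw [mul_assoc]
  linarith

theorem dec_div {T : DA →L[ℂ] DA} {Φ : Pt → Pt} (h : IsComp T Φ) {r : ℝ} (hr : 0 < r) (b : Pt)
    (hb : ‖(b:ℂ)‖ < 1) (e : DA) (he : Dec T r e) (heb : e.1 b ≠ 0) (f : DA) (hf : Dec T r f)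
    (hfb : f.1 b = 0) :
    ∃ g : DA, Dec T r g ∧ ‖g‖ ≤ ‖f‖ ∧
      ∀ z : Pt, f.1 z * (1 - (starRingEnd ℂ) (b:ℂ) * (z:ℂ)) = g.1 z * ((z:ℂ) - (b:ℂ)) := by
  obtain ⟨g0, hg0⟩ := div_interior f b hb hfb
  obtain ⟨k, hk⟩ := div_interior (e - algebraMap ℂ DA (e.1 b)) b hb (by simp)
  have hf0 : ∀ z : Pt, f.1 z = ((z:ℂ) - (b:ℂ)) * g0.1 z := by
    intro z
    have := congrArg (fun F : DA => F.1 z) hg0
    simpa using this
  have he0 : ∀ z : Pt, e.1 z - e.1 b = ((z:ℂ) - (b:ℂ)) * k.1 z := by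
    intro z
    have := congrArg (fun F : DA => F.1 z) hk
    simpa using this
  have e1 : (e.1 b) • g0 = e * g0 + (-1 : ℂ) • (f * k) := by
    apply da_ext
    intro z
    simp only [smul_apply, add_apply, mul_apply]
    rw [hf0 z]
    have := he0 z
    linear_combination (-(g0.1 z)) * this
  have d1 : Dec T r ((e.1 b) • g0) := by
    rw [e1]
    exact dec_add _ _ (dec_mul h hr e g0 he) (dec_smul _ _ (dec_mul h hr f k hf))
  have d2 : Dec T r g0 := by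
    have := dec_smul (e.1 b)⁻¹ _ d1
    rwa [smul_smul, inv_mul_cancel₀ heb, one_smul] at this
  obtain ⟨g, hg⟩ : ∃ g : DA, g = g0 * (1 - (starRingEnd ℂ (b:ℂ)) • Z) := ⟨_, rfl⟩
  have hgz : ∀ z : Pt, g.1 z = g0.1 z * (1 - (starRingEnd ℂ) (b:ℂ) * (z:ℂ)) := by
    intro z
    rw [hg]
    simp
  have hid : ∀ z : Pt, f.1 z * (1 - (starRingEnd ℂ) (b:ℂ) * (z:ℂ)) = g.1 z * ((z:ℂ) - (b:ℂ)) := by
    intro z
    rw [hgz, hf0]
    ring
  refine ⟨g, by rw [hg]; exact dec_mul h hr _ _ d2, ?_, hid⟩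
  apply norm_le_of (norm_nonneg _)
  intro z
  rw [← ext_apply (⇑g.1) z]
  have hfr : ∀ w ∈ frontier (Metric.ball (0:ℂ) 1), ‖ext g.1 w‖ ≤ ‖f‖ := by
    intro w hw
    rw [frontier_ball (0:ℂ) one_ne_zero] at hw
    have hw1 : ‖w‖ = 1 := by simpa using hw
    have hwc : w ∈ Metric.closedBall (0:ℂ) 1 := by simp [hw1]
    rw [ext_of_mem _ hwc]
    have h1 := congrArg norm (hid ⟨w, hwc⟩)
    rw [norm_mul, norm_mul] at h1
    simp only at h1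
    rw [decd_circle _ _ hw1] at h1
    have hne : ‖w - (b:ℂ)‖ ≠ 0 := by
      intro h0
      rw [norm_eq_zero, sub_eq_zero] at h0
      rw [h0] at hw1
      linarith
    have h2 : ‖f.1 ⟨w, hwc⟩‖ = ‖g.1 ⟨w, hwc⟩‖ := mul_right_cancel₀ hne h1
    rw [← h2]
    exact norm_apply_le _ _
  have hd : DiffContOnCl ℂ (ext g.1) (Metric.ball (0:ℂ) 1) :=
    ⟨differentiableOn_da g, by
      rw [closure_ball (0:ℂ) one_ne_zero]; exact continuousOn_da g⟩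
  exact Complex.norm_le_of_forall_mem_frontier_norm_le Metric.isBounded_ball hd hfr
    (by rw [closure_ball (0:ℂ) one_ne_zero]; exact z.2)

end Pool.Agent.Helper203.DS
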