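import Pool.Agent.KS6_19.DA.L.Helper203.DS.Defs2

open Metric Set Filter Topology

noncomputable section

namespace Pool.Agent.Helper203.DS

theorem gap_aux1 {E : Type*} [NormedAddCommGroup E] [NormedSpace ℂ E] {T : E →L[ℂ] E}
    {r1 r2 C : ℝ} {P : E →L[ℂ] E} {Q : ℕ → E →L[ℂ] E} (g : Gap T r1 r2 C P Q) (n k : ℕ) :
    Q k * T ^ n = T ^ n * Q k := by
  have h : Commute (Q k) T := g.comm k
  exact (h.pow_right n).eq

theorem gap_aux2 {E : Type*} [NormedAddCommGroup E] [NormedSpace ℂ E] {T : E →L[ℂ] E}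
    {r1 r2 C : ℝ} {P : E →L[ℂ] E} {Q : ℕ → E →L[ℂ] E} (g : Gap T r1 r2 C P Q) (f : E) (k : ℕ) :
    f - P f = Q k ((T ^ k) f) := by
  have h1 : Q k * T ^ k = 1 - P := by rw [gap_aux1 g, g.eq k]
  have h2 : (Q k * T ^ k) f = (1 - P) f := by rw [h1]
  have h3 : (Q k * T ^ k) f = Q k ((T ^ k) f) := rfl
  have h4 : (1 - P) f = f - P f := rfl
  rw [← h3, h2, h4]

theorem gap_aux3 {E : Type*} [NormedAddCommGroup E] [NormedSpace ℂ E] {T : E →L[ℂ] E}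
    {r1 r2 C : ℝ} {P : E →L[ℂ] E} {Q : ℕ → E →L[ℂ] E} (g : Gap T r1 r2 C P Q) (f : E) (k : ℕ) :
    ‖Q k f‖ ≤ C * (‖f‖ / r2 ^ k) := by
  have hr2 : 0 < r2 := g.h1.trans g.h12
  have hr2k : 0 < r2 ^ k := pow_pos hr2 k
  have h1 : ‖Q k‖ ≤ C / r2 ^ k := by
    rw [le_div_iff₀ hr2k]
    exact g.bd k
  calc ‖Q k f‖ ≤ ‖Q k‖ * ‖f‖ := (Q k).le_opNorm f
    _ ≤ C / r2 ^ k * ‖f‖ := by gcongr
    _ = C * (‖f‖ / r2 ^ k) := by ring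

theorem gap_aux4 {E : Type*} [NormedAddCommGroup E] [NormedSpace ℂ E] {T : E →L[ℂ] E}
    {r1 r2 C : ℝ} {P : E →L[ℂ] E} {Q : ℕ → E →L[ℂ] E} (g : Gap T r1 r2 C P Q) (f : E) (n : ℕ) :
    ‖(T ^ n) (P f)‖ ≤ C * r1 ^ n * ‖f‖ := by
  have h3 : (T ^ n * P) f = (T ^ n) (P f) := rfl
  rw [← h3]
  calc ‖(T ^ n * P) f‖ ≤ ‖T ^ n * P‖ * ‖f‖ := (T ^ n * P).le_opNorm f
    _ ≤ C * r1 ^ n * ‖f‖ := by
        gcongr
        exact g.dec n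

theorem gap_unif {E : Type*} [NormedAddCommGroup E] [NormedSpace ℂ E] {T : E →L[ℂ] E}
    {r1 r2 C : ℝ} {P : E →L[ℂ] E} {Q : ℕ → E →L[ℂ] E} (g : Gap T r1 r2 C P Q) (f : E)
    (hf : ∃ K : ℝ, ∀ n : ℕ, ‖(T ^ n) f‖ ≤ K * r1 ^ n) :
    ∀ n : ℕ, ‖(T ^ n) f‖ ≤ C * r1 ^ n * ‖f‖ := by
  obtain ⟨K, hK⟩ := hf
  have hr2 : 0 < r2 := g.h1.trans g.h12
  have h1 : ∀ k : ℕ, ‖f - P f‖ ≤ C * K * (r1 / r2) ^ k := by
    intro k
    have hr2k : 0 < r2 ^ k := pow_pos hr2 k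
    rw [gap_aux2 g f k]
    refine (gap_aux3 g _ k).trans ?_
    have h2 : ‖(T ^ k) f‖ / r2 ^ k ≤ K * r1 ^ k / r2 ^ k := by
      gcongr
      exact hK k
    calc C * (‖(T ^ k) f‖ / r2 ^ k) ≤ C * (K * r1 ^ k / r2 ^ k) :=
          mul_le_mul_of_nonneg_left h2 g.hC.le
      _ = C * K * (r1 / r2) ^ k := by
          rw [div_pow]
          ring
  have h2 : Tendsto (fun k : ℕ => C * K * (r1 / r2) ^ k) atTop (𝓝 (C * K * 0)) := by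
    apply Tendsto.const_mul
    apply tendsto_pow_atTop_nhds_zero_of_lt_one
    · exact (div_pos g.h1 hr2).le
    · rw [div_lt_one hr2]
      exact g.h12
  have h3 : ‖f - P f‖ ≤ C * K * 0 := ge_of_tendsto' h2 h1
  rw [mul_zero] at h3
  have h4 : f - P f = 0 := norm_le_zero_iff.mp h3
  have h5 : P f = f := (sub_eq_zero.mp h4).symm
  intro n
  have h6 := gap_aux4 g f n
  rwa [h5] at h6


theorem gap_dich {E : Type*} [NormedAddCommGroup E] [NormedSpace ℂ E] {T : E →L[ℂ] E}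
    {r1 r2 C : ℝ} {P : E →L[ℂ] E} {Q : ℕ → E →L[ℂ] E} (g : Gap T r1 r2 C P Q) (f : E) (n k : ℕ) :
    ‖(T ^ n) f‖ ≤ C * (r1 ^ n * ‖f‖ + ‖(T ^ (n + k)) f‖ / r2 ^ k) := by
  have h1 : (T ^ n) f = (T ^ n) (P f) + Q k ((T ^ (n + k)) f) := by
    have h2 : Q k ((T ^ (n + k)) f) = (T ^ n) (Q k ((T ^ k) f)) := by
      have h3 : (Q k * T ^ n) ((T ^ k) f) = (T ^ n * Q k) ((T ^ k) f) := by rw [gap_aux1 g]
      have h4 : (Q k * T ^ n) ((T ^ k) f) = Q k ((T ^ (n + k)) f) := by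
        rw [pow_add]
        rfl
      rw [← h4, h3]
      rfl
    rw [h2, ← gap_aux2 g f k, ← map_add, add_sub_cancel]
  rw [h1]
  refine (norm_add_le _ _).trans ?_
  have h5 := gap_aux4 g f n
  have h6 := gap_aux3 g ((T ^ (n + k)) f) k
  linarith


theorem gap_P {E : Type*} [NormedAddCommGroup E] [NormedSpace ℂ E] {T : E →L[ℂ] E}
    {r1 r2 C : ℝ} {P : E →L[ℂ] E} {Q : ℕ → E →L[ℂ] E} (g : Gap T r1 r2 C P Q) (f : E) (n : ℕ) :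
    ‖(T ^ n) (P f)‖ ≤ C * r1 ^ n * ‖f‖ ∧ ‖f - P f‖ ≤ C * (‖(T ^ n) f‖ / r2 ^ n) := by
  refine ⟨gap_aux4 g f n, ?_⟩
  rw [gap_aux2 g f n]
  exact gap_aux3 g _ n

end Pool.Agent.Helper203.DS
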