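import Pool.Agent.KS6_19.DA.L.Helper203.DS.Defs2
import Pool.Agent.KS6_19.DA.L.Helper203.DS.GapL
import Pool.Agent.KS6_19.DA.L.Helper203.DS.KKm

open Metric Set Filter Topology

noncomputable section

namespace Pool.Agent.Helper203.DS

theorem dec_ne {T : DA →L[ℂ] DA} {Φ : Pt → Pt} (h : IsComp T Φ) (a : Pt) (hK : KK Φ ⊆ {a})
    {r1 r2 C : ℝ} {P : DA →L[ℂ] DA} {Q : ℕ → DA →L[ℂ] DA} (g : Gap T r1 r2 C P Q)
    (b : Pt) (hb : b ≠ a) : ∃ e : DA, Dec T r1 e ∧ e.1 b ≠ 0 := by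
  have hab : (a : ℂ) - (b : ℂ) ≠ 0 := by
    intro h0
    exact hb (Subtype.ext (sub_eq_zero.mp h0).symm)
  have hd : 0 < ‖(a : ℂ) - (b : ℂ)‖ := norm_pos_iff.mpr hab
  set d := ‖(a : ℂ) - (b : ℂ)‖ with hdd
  have hconv := conv_of_singleton h a hK
  rw [Metric.tendsto_atTop] at hconv
  obtain ⟨n, hn⟩ := hconv (d / 2) (by positivity)
  have hn' := (hn n le_rfl).le
  rw [dist_eq_norm] at hn'
  have hpt : ∀ z : Pt, ‖(a : ℂ) - (Φ^[n] z : ℂ)‖ ≤ d / 2 := by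
    intro z
    have h1 := norm_apply_le ((T ^ n) Z - algebraMap ℂ DA (a : ℂ)) z
    rw [sub_apply, h.pow, Z_apply, algMap_apply, norm_sub_rev] at h1
    exact h1.trans hn'
  have hr2 : 0 < r2 := g.h1.trans g.h12
  obtain ⟨k, hk⟩ := pow_unbounded_of_one_lt (C / r2 ^ n) (one_lt_two (α := ℝ))
  set p : DA := (algebraMap ℂ DA (a : ℂ) - Z) ^ k with hp
  have hTp : ‖(T ^ n) p‖ ≤ (d / 2) ^ k := by
    refine norm_le_of (by positivity) fun z => ?_
    rw [h.pow, hp, pow_apply, sub_apply, algMap_apply, Z_apply, norm_pow]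
    exact pow_le_pow_left₀ (norm_nonneg _) (hpt z) k
  refine ⟨P p, ⟨C * ‖p‖, fun m => ?_⟩, ?_⟩
  · have h1 := (gap_P g p m).1
    calc ‖(T ^ m) (P p)‖ ≤ C * r1 ^ m * ‖p‖ := h1
      _ = C * ‖p‖ * r1 ^ m := by ring
  · intro h0
    have h1 := (gap_P g p n).2
    have h2 := norm_apply_le (p - P p) b
    rw [sub_apply, h0, sub_zero, hp, pow_apply, sub_apply, algMap_apply, Z_apply, norm_pow,
      ← hdd, ← hp] at h2
    have h3 : C * (‖(T ^ n) p‖ / r2 ^ n) ≤ C * ((d / 2) ^ k / r2 ^ n) := by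
      apply mul_le_mul_of_nonneg_left _ g.hC.le
      exact div_le_div_of_nonneg_right hTp (by positivity)
    have h4 : d ^ k ≤ C * ((d / 2) ^ k / r2 ^ n) := h2.trans (h1.trans h3)
    have h5 : C * ((d / 2) ^ k / r2 ^ n) = d ^ k * ((C / r2 ^ n) / 2 ^ k) := by
      rw [div_pow]; field_simp
    rw [h5] at h4
    have h6 : (C / r2 ^ n) / 2 ^ k < 1 := by
      rw [div_lt_one (by positivity)]; exact hk
    have h7 : 0 < d ^ k := by positivity
    nlinarith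

end Pool.Agent.Helper203.DS
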