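import Mathlib

open Metric Set Filter Topology

noncomputable section

namespace Pool.Agent.Helper203.DS

/-- The closed unit disc of the complex plane, as a type. -/
abbrev Pt : Type := ↥(Metric.closedBall (0:ℂ) 1)

/-- Extension by zero of a function on the closed unit disc to the whole plane. -/
def ext (f : Pt → ℂ) (z : ℂ) : ℂ := by
  classical
  exact if h : z ∈ Metric.closedBall (0:ℂ) 1 then f ⟨z, h⟩ else 0

theorem ext_apply (f : Pt → ℂ) (z : Pt) : ext f z = f z := by
  unfold ext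
  rw [dif_pos z.2]

theorem ext_of_mem (f : Pt → ℂ) {z : ℂ} (hz : z ∈ Metric.closedBall (0:ℂ) 1) :
    ext f z = f ⟨z, hz⟩ := by
  unfold ext
  rw [dif_pos hz]

/-- The disc algebra: continuous functions on the closed unit disc that are holomorphic in the open
unit disc, as a subalgebra of the Banach algebra of continuous functions with the sup norm. -/
def DA : Subalgebra ℂ C(Pt, ℂ) where
  carrier := {f | DifferentiableOn ℂ (ext f) (Metric.ball (0:ℂ) 1)}
  mul_mem' := by
    intro f g hf hg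
    refine (DifferentiableOn.mul hf hg).congr ?_
    intro z hz
    have hz' : z ∈ Metric.closedBall (0:ℂ) 1 := Metric.ball_subset_closedBall hz
    simp [ext_of_mem _ hz']
  add_mem' := by
    intro f g hf hg
    refine (DifferentiableOn.add hf hg).congr ?_
    intro z hz
    have hz' : z ∈ Metric.closedBall (0:ℂ) 1 := Metric.ball_subset_closedBall hz
    simp [ext_of_mem _ hz']
  algebraMap_mem' := by
    intro c
    refine (differentiableOn_const c).congr ?_
    intro z hz
    have hz' : z ∈ Metric.closedBall (0:ℂ) 1 := Metric.ball_subset_closedBall hz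
    simp [ext_of_mem _ hz']

/-- The coordinate function of the disc algebra. -/
def Z : DA := ⟨⟨fun z => (z:ℂ), by fun_prop⟩, by
  show DifferentiableOn ℂ (ext fun z : Pt => (z:ℂ)) (Metric.ball (0:ℂ) 1)
  refine differentiableOn_id.congr ?_
  intro z hz
  have hz' : z ∈ Metric.closedBall (0:ℂ) 1 := Metric.ball_subset_closedBall hz
  simp [ext_of_mem _ hz']⟩

@[simp] theorem Z_apply (z : Pt) : Z.1 z = (z:ℂ) := rfl

@[simp] theorem one_apply (z : Pt) : (1 : DA).1 z = 1 := rfl
@[simp] theorem zero_apply (z : Pt) : (0 : DA).1 z = 0 := rfl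
@[simp] theorem mul_apply (f g : DA) (z : Pt) : (f * g).1 z = f.1 z * g.1 z := rfl
@[simp] theorem add_apply (f g : DA) (z : Pt) : (f + g).1 z = f.1 z + g.1 z := rfl
@[simp] theorem sub_apply (f g : DA) (z : Pt) : (f - g).1 z = f.1 z - g.1 z := rfl
@[simp] theorem neg_apply (f : DA) (z : Pt) : (-f).1 z = - f.1 z := rfl
@[simp] theorem smul_apply (c : ℂ) (f : DA) (z : Pt) : (c • f).1 z = c * f.1 z := rfl
@[simp] theorem algMap_apply (c : ℂ) (z : Pt) : (algebraMap ℂ DA c).1 z = c := rfl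

@[simp] theorem pow_apply (f : DA) (n : ℕ) (z : Pt) : (f ^ n).1 z = f.1 z ^ n := by
  induction n with
  | zero => simp
  | succ n ih => rw [pow_succ, mul_apply, ih, pow_succ]

@[simp] theorem sum_apply {ι : Type*} (s : Finset ι) (f : ι → DA) (z : Pt) :
    (∑ i ∈ s, f i).1 z = ∑ i ∈ s, (f i).1 z := by
  classical
  induction s using Finset.induction_on with
  | empty => simp
  | insert a s ha ih => rw [Finset.sum_insert ha, Finset.sum_insert ha, add_apply, ih]

@[simp] theorem prod_apply {ι : Type*} (s : Finset ι) (f : ι → DA) (z : Pt) :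
    (∏ i ∈ s, f i).1 z = ∏ i ∈ s, (f i).1 z := by
  classical
  induction s using Finset.induction_on with
  | empty => simp
  | insert a s ha ih => rw [Finset.prod_insert ha, Finset.prod_insert ha, mul_apply, ih]

theorem da_ext {f g : DA} (h : ∀ z, f.1 z = g.1 z) : f = g := by
  apply Subtype.ext
  apply ContinuousMap.ext
  exact h

theorem norm_apply_le (f : DA) (z : Pt) : ‖f.1 z‖ ≤ ‖f‖ := ContinuousMap.norm_coe_le_norm f.1 z

theorem norm_le_of {f : DA} {M : ℝ} (hM : 0 ≤ M) (h : ∀ z, ‖f.1 z‖ ≤ M) : ‖f‖ ≤ M :=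
  (ContinuousMap.norm_le f.1 hM).2 h

theorem continuous_da (f : DA) : Continuous f.1 := f.1.continuous

theorem differentiableOn_da (f : DA) : DifferentiableOn ℂ (ext f.1) (Metric.ball (0:ℂ) 1) := f.2

theorem continuousOn_da (f : DA) : ContinuousOn (ext f.1) (Metric.closedBall (0:ℂ) 1) := by
  rw [continuousOn_iff_continuous_domRestrict]
  have : (Metric.closedBall (0:ℂ) 1).domRestrict (ext f.1) = f.1 := by
    funext z
    exact ext_apply _ z
  rw [this]
  exact f.1.continuous

/-- a function continuous on the closed disc and holomorphic in the open disc gives an element -/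
theorem exists_da (F : ℂ → ℂ) (hc : ContinuousOn F (Metric.closedBall (0:ℂ) 1))
    (hd : DifferentiableOn ℂ F (Metric.ball (0:ℂ) 1)) : ∃ f : DA, ∀ z : Pt, f.1 z = F z := by
  refine ⟨⟨⟨fun z => F z, ?_⟩, ?_⟩, fun z => rfl⟩
  · exact continuousOn_iff_continuous_domRestrict.1 hc
  · show DifferentiableOn ℂ (ext fun z : Pt => F z) (Metric.ball (0:ℂ) 1)
    refine hd.congr ?_
    intro z hz
    have hz' : z ∈ Metric.closedBall (0:ℂ) 1 := Metric.ball_subset_closedBall hz
    simp [ext_of_mem _ hz']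

theorem isClosed_DA : IsClosed (DA : Set C(Pt, ℂ)) := by
  rw [← isSeqClosed_iff_isClosed]
  intro u f hu hf
  show DifferentiableOn ℂ (ext f) (Metric.ball (0:ℂ) 1)
  have hlim : TendstoUniformlyOn (fun n => ext (u n)) (ext f) atTop (Metric.ball (0:ℂ) 1) := by
    rw [Metric.tendstoUniformlyOn_iff]
    intro ε hε
    rw [Metric.tendsto_atTop] at hf
    obtain ⟨N, hN⟩ := hf ε hε
    filter_upwards [Filter.eventually_ge_atTop N] with n hn z hz
    have hz' : z ∈ Metric.closedBall (0:ℂ) 1 := Metric.ball_subset_closedBall hz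
    rw [ext_of_mem _ hz', ext_of_mem _ hz', dist_comm]
    exact lt_of_le_of_lt (ContinuousMap.dist_apply_le_dist _) (hN n hn)
  exact hlim.tendstoLocallyUniformlyOn.differentiableOn
    (Filter.Eventually.of_forall fun n => hu n) Metric.isOpen_ball

instance : CompleteSpace DA := isClosed_DA.completeSpace_coe

instance : Nontrivial DA := ⟨⟨0, 1, fun h => by
  have := congrArg (fun f : DA => f.1 ⟨0, by simp⟩) h
  simp at this⟩⟩

instance : NormOneClass DA := ⟨by
  show ‖(1 : C(Pt, ℂ))‖ = 1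
  have : Nonempty Pt := ⟨⟨0, by simp⟩⟩
  exact norm_one⟩

/-- `T` is the composition operator induced by the continuous self-map `Φ` of the closed disc. -/
structure IsComp (T : DA →L[ℂ] DA) (Φ : Pt → Pt) : Prop where
  cont : Continuous Φ
  eq : ∀ (f : DA) (z : Pt), (T f).1 z = f.1 (Φ z)

/-- The set of points having preimages of every order. -/
def KK (Φ : Pt → Pt) : Set Pt := ⋂ n : ℕ, range (Φ^[n])

/-- The operator `h ↦ q^i * T h`. -/
def Wop (T : DA →L[ℂ] DA) (q : DA) (i : ℕ) : DA →L[ℂ] DA :=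
  (ContinuousLinearMap.mul ℂ DA (q ^ i)).comp T

/-- Properties of the operator `S = (1 - conj l * T) (T - l)⁻¹`. -/
structure Res (T : DA →L[ℂ] DA) (l : ℂ) (S : DA →L[ℂ] DA) : Prop where
  comm : S * T = T * S
  key : (S + (starRingEnd ℂ) l • (1 : DA →L[ℂ] DA)) * T = 1 + l • S
  rep : ∀ g : DA, ∃ h : DA, g = T h - l • h ∧ S g = h - (starRingEnd ℂ) l • T h

/-- A two constants property of the set `K` at the point `x`. -/
def TC (K : Set Pt) (x : Pt) : Prop :=
  ∀ ρ : ℝ, 0 < ρ → ∃ ρ' : ℝ, 0 < ρ' ∧ ∃ C : ℝ, 0 < C ∧ ∀ (g : DA) (m M : ℝ), 0 < m → m ≤ M →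
    (∀ z : Pt, dist z x < ρ → ‖g.1 z‖ ≤ M) → (∀ z ∈ K, dist z x < ρ → ‖g.1 z‖ ≤ m) →
    ∀ z : Pt, dist z x < ρ' → ‖g.1 z‖ ^ 3 ≤ C * m * M ^ 2

/-- Iterated local right inverses. -/
def VV (S : DA →L[ℂ] DA) (l : ℂ) : ℕ → Pt → DA → ℂ
  | 0, z, f => f.1 z
  | k + 1, z, f =>
    ∑' n : ℕ, (-l) ^ n * VV S l k z ((S + (starRingEnd ℂ) l • (1 : DA →L[ℂ] DA)) ((S ^ n) f))

/-- Geometric bound for the powers of `S` on the set `B`. -/
structure Adm (S : DA →L[ℂ] DA) (l : ℂ) (β C : ℝ) (B : Set Pt) : Prop where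
  one_lt : 1 < β
  small : β * ‖l‖ < 1
  bound : ∀ z ∈ B, ∀ (f : DA) (n : ℕ), ‖((S ^ n) f).1 z‖ ≤ C * β ^ n * ‖f‖


end Pool.Agent.Helper203.DS
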