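import Pool.Agent.KS6_19.DA.L.Helper203.DS.Defs2

open Metric Set Filter Topology

noncomputable section

namespace Pool.Agent.Helper203.DS

/-- pointwise limits of bounded holomorphic functions are holomorphic -/
theorem zf_normal {F : ℕ → ℂ → ℂ} {G : ℂ → ℂ} {l : Filter ℕ} [l.NeBot]
    (hF : ∀ k, DifferentiableOn ℂ (F k) (ball (0:ℂ) 1)) (hb : ∀ k z, ‖F k z‖ ≤ 1)
    (hG : ∀ z ∈ ball (0:ℂ) 1, Tendsto (fun k => F k z) l (𝓝 (G z))) :
    DifferentiableOn ℂ G (ball (0:ℂ) 1) := by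
  have hloc : TendstoLocallyUniformlyOn F G l (ball (0:ℂ) 1) := by
    rw [Metric.tendstoLocallyUniformlyOn_iff]
    intro ε hε x hx
    have hx' : ‖x‖ < 1 := by simpa using hx
    set R : ℝ := 1 - ‖x‖ with hR
    have hR0 : 0 < R := by rw [hR]; linarith
    have hsub : ball x R ⊆ ball (0:ℂ) 1 := by
      intro y hy
      rw [mem_ball, dist_eq_norm] at hy
      rw [mem_ball_zero_iff]
      have := norm_add_le (y - x) x
      rw [sub_add_cancel] at this
      rw [hR] at hy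
      linarith
    have hlip : ∀ k, ∀ y ∈ ball x R, dist (F k y) (F k x) ≤ 2 / R * dist y x := by
      intro k y hy
      apply Complex.dist_le_div_mul_dist_of_mapsTo_ball ((hF k).mono hsub) _ hy
      intro w _
      rw [mem_closedBall, dist_eq_norm]
      calc ‖F k w - F k x‖ ≤ ‖F k w‖ + ‖F k x‖ := norm_sub_le _ _
        _ ≤ 1 + 1 := add_le_add (hb k w) (hb k x)
        _ = 2 := by norm_num
    have hlipG : ∀ y ∈ ball x R, dist (G y) (G x) ≤ 2 / R * dist y x := by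
      intro y hy
      exact le_of_tendsto ((hG y (hsub hy)).dist (hG x hx))
        (Eventually.of_forall fun k => hlip k y hy)
    obtain ⟨δ, hδ0, hδR, hδε⟩ : ∃ δ : ℝ, 0 < δ ∧ δ ≤ R ∧ 2 / R * δ ≤ ε / 3 := by
      refine ⟨min R (ε * R / 6), lt_min hR0 (by positivity), min_le_left _ _, ?_⟩
      calc 2 / R * min R (ε * R / 6) ≤ 2 / R * (ε * R / 6) :=
            mul_le_mul_of_nonneg_left (min_le_right _ _) (by positivity)
        _ = ε / 3 := by field_simp; norm_num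
    refine ⟨ball x δ, mem_nhdsWithin_of_mem_nhds (ball_mem_nhds x hδ0), ?_⟩
    have hev : ∀ᶠ k in l, dist (F k x) (G x) < ε / 3 :=
      (tendsto_iff_dist_tendsto_zero.1 (hG x hx)).eventually (gt_mem_nhds (by positivity))
    filter_upwards [hev] with k hk y hy
    have hyR : y ∈ ball x R := ball_subset_ball hδR hy
    have hyδ : 2 / R * dist y x ≤ ε / 3 :=
      (mul_le_mul_of_nonneg_left (le_of_lt hy) (by positivity)).trans hδε
    have h1 := (hlip k y hyR).trans hyδ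
    have h2 := (hlipG y hyR).trans hyδ
    have h3 : dist (G y) (F k y) ≤ dist (G y) (G x) + dist (G x) (F k x) + dist (F k x) (F k y) :=
      dist_triangle4 _ _ _ _
    rw [dist_comm (G x), dist_comm (F k x) (F k y)] at h3
    linarith
  exact hloc.differentiableOn (Eventually.of_forall hF) isOpen_ball

theorem zf_limit (D : Set DA) (hadd : ∀ f ∈ D, ∀ g ∈ D, f + g ∈ D)
    (hsmul : ∀ f ∈ D, ∀ c : ℂ, c • f ∈ D)
    (hne : ∀ b : Pt, ‖(b:ℂ)‖ < 1 → ∃ e ∈ D, e.1 b ≠ 0)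
    (hdiv : ∀ f ∈ D, ∀ b : Pt, ‖(b:ℂ)‖ < 1 → f.1 b = 0 → ∃ g ∈ D, ‖g‖ ≤ ‖f‖ ∧
      ∀ z : Pt, f.1 z * (1 - (starRingEnd ℂ) (b:ℂ) * (z:ℂ)) = g.1 z * ((z:ℂ) - (b:ℂ))) :
    ∃ G : ℂ → ℂ, DifferentiableOn ℂ G (ball (0:ℂ) 1) ∧ (∀ z ∈ ball (0:ℂ) 1, G z ≠ 0) ∧
      ∀ z : Pt, ‖(z:ℂ)‖ < 1 → ∀ M : ℝ, (∀ f ∈ D, ‖f‖ ≤ 1 → ‖f.1 z‖ ≤ M) → ‖G z‖ ≤ M := by
  -- the point zero
  set o : Pt := ⟨0, by simp⟩ with ho
  have ho0 : ‖(o:ℂ)‖ < 1 := by
    rw [ho]
    simp
  obtain ⟨e0, he0, he0'⟩ := hne o ho0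
  set A : Set ℝ := {r | ∃ f ∈ D, ‖f‖ ≤ 1 ∧ r = ‖f.1 o‖} with hA
  have hAb : BddAbove A := ⟨1, by
    rintro _ ⟨f, _, hf, rfl⟩
    exact (norm_apply_le f o).trans hf⟩
  set S : ℝ := sSup A with hS
  have hscale : ∀ f ∈ D, ‖f.1 o‖ ≤ S * ‖f‖ := by
    intro f hf
    rcases (norm_nonneg f).eq_or_lt with h | h
    · have := norm_apply_le f o
      rw [← h] at this ⊢
      rw [mul_zero]
      exact this
    · have h1 : ‖(((‖f‖⁻¹ : ℝ) : ℂ) • f).1 o‖ ∈ A := by
        refine ⟨_, hsmul f hf _, ?_, rfl⟩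
        rw [norm_smul, Complex.norm_real, norm_inv, norm_norm, inv_mul_cancel₀ h.ne']
      have h2 := le_csSup hAb h1
      rw [smul_apply, norm_mul, Complex.norm_real, norm_inv, norm_norm, ← div_eq_inv_mul,
        div_le_iff₀ h] at h2
      exact h2
  have hS0 : 0 < S := by
    by_contra hc
    have h1 := hscale e0 he0
    have h2 : S * ‖e0‖ ≤ 0 := mul_nonpos_of_nonpos_of_nonneg (not_lt.1 hc) (norm_nonneg _)
    have h3 : ‖e0.1 o‖ ≤ 0 := h1.trans h2
    exact he0' (norm_le_zero_iff.1 h3)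
  have hAne : A.Nonempty := by
    refine ⟨_, (0:ℂ) • e0, hsmul e0 he0 0, ?_, rfl⟩
    rw [zero_smul, norm_zero]
    exact zero_le_one
  -- extremal sequence
  have hex : ∀ k : ℕ, ∃ f ∈ D, ‖f‖ ≤ 1 ∧ S - 1 / ((k : ℝ) + 1) < ‖f.1 o‖ := by
    intro k
    have h1 : S - 1 / ((k : ℝ) + 1) < sSup A := by
      have : (0 : ℝ) < 1 / ((k : ℝ) + 1) := by positivity
      linarith
    obtain ⟨_, ⟨f, hf, hf1, rfl⟩, h2⟩ := exists_lt_of_lt_csSup hAne h1
    exact ⟨f, hf, hf1, h2⟩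
  choose h hD hn hlow using hex
  have hlim0 : Tendsto (fun k => ‖(h k).1 o‖) atTop (𝓝 S) := by
    have h1 : Tendsto (fun k : ℕ => S - 1 / ((k : ℝ) + 1)) atTop (𝓝 (S - 0)) :=
      tendsto_const_nhds.sub tendsto_one_div_add_atTop_nhds_zero_nat
    rw [sub_zero] at h1
    refine tendsto_of_tendsto_of_tendsto_of_le_of_le h1 tendsto_const_nhds
      (fun k => (hlow k).le) (fun k => ?_)
    have := hscale (h k) (hD k)
    exact this.trans (mul_le_of_le_one_right hS0.le (hn k))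
  -- the ultrafilter
  let U : Ultrafilter ℕ := hyperfilter ℕ
  have hU : (U : Filter ℕ) ≤ atTop := by
    rw [← Nat.cofinite_eq_atTop]
    exact hyperfilter_le_cofinite
  have hbd : ∀ k z, ‖ext (h k).1 z‖ ≤ 1 := by
    intro k z
    by_cases hz : z ∈ closedBall (0:ℂ) 1
    · rw [ext_of_mem _ hz]
      exact (norm_apply_le _ _).trans (hn k)
    · unfold ext
      rw [dif_neg hz, norm_zero]
      exact zero_le_one
  have hG : ∀ z : ℂ, ∃ g : ℂ, Tendsto (fun k => ext (h k).1 z) U (𝓝 g) := by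
    intro z
    obtain ⟨g, -, hg⟩ := (isCompact_closedBall (0:ℂ) 1).ultrafilter_le_nhds
      (U.map fun k => ext (h k).1 z) (by
        rw [Ultrafilter.coe_map, le_principal_iff, mem_map]
        filter_upwards with k
        rw [mem_preimage, mem_closedBall_zero_iff]
        exact hbd k z)
    exact ⟨g, hg⟩
  choose G hG using hG
  have hGd : DifferentiableOn ℂ G (ball (0:ℂ) 1) :=
    zf_normal (l := U) (fun k => (h k).2) hbd (fun z _ => hG z)
  have hGp : ∀ z : Pt, Tendsto (fun k => (h k).1 z) U (𝓝 (G z)) := by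
    intro z
    have := hG z
    simpa only [ext_apply] using this
  have hG0 : ‖G o‖ = S := tendsto_nhds_unique (hGp o).norm (hlim0.mono_left hU)
  refine ⟨G, hGd, ?_, ?_⟩
  · intro b hb hGb
    have hb1 : ‖b‖ < 1 := by simpa using hb
    have hbc : b ∈ closedBall (0:ℂ) 1 := ball_subset_closedBall hb
    set bP : Pt := ⟨b, hbc⟩ with hbP
    have hbP1 : ‖(bP:ℂ)‖ < 1 := hb1
    obtain ⟨e, he, hee⟩ := hne bP hbP1
    have hlimb : Tendsto (fun k => (h k).1 bP) U (𝓝 0) := by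
      have := hGp bP
      rwa [show ((bP : Pt) : ℂ) = b from rfl, hGb] at this
    -- corrected functions
    let c : ℕ → ℂ := fun k => (h k).1 bP / e.1 bP
    have hc : Tendsto c U (𝓝 0) := by
      have := hlimb.div_const (e.1 bP)
      rwa [zero_div] at this
    let f : ℕ → DA := fun k => h k + (-(c k)) • e
    have hfD : ∀ k, f k ∈ D := fun k => hadd _ (hD k) _ (hsmul e he _)
    have hfb : ∀ k, (f k).1 bP = 0 := by
      intro k
      show (h k + (-(c k)) • e).1 bP = 0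
      rw [add_apply, smul_apply]
      show (h k).1 bP + -((h k).1 bP / e.1 bP) * e.1 bP = 0
      field_simp
      ring
    have hfn : ∀ k, ‖f k‖ ≤ 1 + ‖c k‖ * ‖e‖ := by
      intro k
      calc ‖h k + (-(c k)) • e‖ ≤ ‖h k‖ + ‖(-(c k)) • e‖ := norm_add_le _ _
        _ ≤ 1 + ‖c k‖ * ‖e‖ := by
          rw [norm_smul, norm_neg]
          exact add_le_add (hn k) le_rfl
    have hineq : ∀ k, ‖(f k).1 o‖ ≤ S * (1 + ‖c k‖ * ‖e‖) * ‖b‖ := by
      intro k
      obtain ⟨g, hg, hgn, hgz⟩ := hdiv (f k) (hfD k) bP hbP1 (hfb k)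
      have h1 := hgz o
      have h2 : (f k).1 o = g.1 o * (-b) := by
        have e1 : ((o : Pt) : ℂ) = 0 := rfl
        have e2 : ((bP : Pt) : ℂ) = b := rfl
        rw [e1, e2, mul_zero, sub_zero, mul_one, zero_sub] at h1
        exact h1
      rw [h2, norm_mul, norm_neg]
      apply mul_le_mul_of_nonneg_right _ (norm_nonneg _)
      exact (hscale g hg).trans (mul_le_mul_of_nonneg_left (hgn.trans (hfn k)) hS0.le)
    have hL : Tendsto (fun k => ‖(f k).1 o‖) U (𝓝 S) := by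
      have h1 : Tendsto (fun k => (h k).1 o + (-(c k)) * e.1 o) U (𝓝 (G o + (-0) * e.1 o)) :=
        (hGp o).add (hc.neg.mul_const _)
      rw [neg_zero, zero_mul, add_zero] at h1
      have h2 := h1.norm
      rw [hG0] at h2
      exact h2
    have hR : Tendsto (fun k => S * (1 + ‖c k‖ * ‖e‖) * ‖b‖) U (𝓝 (S * (1 + ‖(0:ℂ)‖ * ‖e‖) * ‖b‖)) :=
      ((tendsto_const_nhds.mul (tendsto_const_nhds.add (hc.norm.mul_const _))).mul_const _)
    have hfin := le_of_tendsto_of_tendsto' hL hR hineq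
    rw [norm_zero, zero_mul, add_zero, mul_one] at hfin
    nlinarith
  · intro z hz M hM
    exact le_of_tendsto (hGp z).norm (Eventually.of_forall fun k => hM (h k) (hD k) (hn k))

end Pool.Agent.Helper203.DS
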