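import Pool.Agent.KS6_19.DA.L.Helper203.DS.Defs2
import Pool.Agent.KS6_19.DA.L.Helper203.DS.DecDiv
import Pool.Agent.KS6_19.DA.L.Helper203.DS.DecNe
import Pool.Agent.KS6_19.DA.L.Helper203.DS.GapL
import Pool.Agent.KS6_19.DA.L.Helper203.DS.Powers
import Pool.Agent.KS6_19.DA.L.Helper203.DS.RealC
import Pool.Agent.KS6_19.DA.L.Helper203.DS.ZFL

open Metric Set Filter Topology

noncomputable section

namespace Pool.Agent.Helper203.DS

theorem no_gap {T : DA →L[ℂ] DA} {Φ : Pt → Pt} (h : IsComp T Φ) (a : Pt) (ha : ‖(a:ℂ)‖ = 1)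
    (hK : KK Φ ⊆ {a}) (hin : ∀ z : Pt, ‖(z:ℂ)‖ < 1 → ‖(Φ z : ℂ)‖ < 1) (N : ℕ)
    (hN : ∀ z : Pt, Φ^[N] z = a ∨ ‖(Φ^[N] z : ℂ)‖ < 1) {r1 r2 C : ℝ} {P : DA →L[ℂ] DA}
    {Q : ℕ → DA →L[ℂ] DA} (g : Gap T r1 r2 C P Q) : False := by
  have hne : ∀ b : Pt, ‖(b:ℂ)‖ < 1 → b ≠ a := by
    rintro b hb rfl
    exact absurd ha hb.ne
  obtain ⟨G, hGd, hG0, hGM⟩ := zf_limit {f : DA | Dec T r1 f}
    (fun f hf f' hf' => dec_add f f' hf hf') (fun f hf c => dec_smul c f hf)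
    (fun b hb => dec_ne h a hK g b (hne b hb))
    (fun f hf b hb hfb => by
      obtain ⟨e, he, heb⟩ := dec_ne h a hK g b (hne b hb)
      exact dec_div h g.h1 b hb e he heb f hf hfb)
  have hG1 : ∀ z ∈ ball (0:ℂ) 1, ‖G z‖ ≤ 1 := by
    intro z hz
    exact hGM ⟨z, ball_subset_closedBall hz⟩ (mem_ball_zero_iff.1 hz) 1
      (fun f _ hf1 => (norm_apply_le f _).trans hf1)
  obtain ⟨P', hP'⟩ := powers h a ha hin N hN G hGd hG0 hG1
  -- modulus of `P' s`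
  have hB : ∀ w : Pt, ‖(w:ℂ)‖ < 1 →
      0 ≤ ‖(a:ℂ) - w‖ / 2 * ‖G w‖ ∧ ‖(a:ℂ) - w‖ / 2 * ‖G w‖ ≤ ‖G w‖ := by
    intro w hw
    refine ⟨by positivity, ?_⟩
    have h1 : ‖(a:ℂ) - w‖ ≤ 2 := (norm_sub_le _ _).trans (by linarith)
    have h2 := norm_nonneg (G w)
    nlinarith [norm_nonneg ((a:ℂ) - w)]
  have hw : ∀ z : Pt, Φ^[N] z ≠ a → ‖(Φ^[N] z : ℂ)‖ < 1 := fun z hz => (hN z).resolve_left hz
  have hpow : ∀ s : ℝ, 0 < s → ∀ z : Pt, ‖(P' s).1 z‖ = ‖(P' 1).1 z‖ ^ s := by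
    intro s hs z
    by_cases hz : Φ^[N] z = a
    · rw [(hP' s hs z).1 hz, (hP' 1 one_pos z).1 hz, norm_zero, Real.zero_rpow hs.ne']
    · rw [(hP' s hs z).2 hz, (hP' 1 one_pos z).2 hz, Real.rpow_one]
  have hle1 : ∀ s : ℝ, 0 < s → ∀ z : Pt, ‖(P' s).1 z‖ ≤ 1 := by
    intro s hs z
    by_cases hz : Φ^[N] z = a
    · rw [(hP' s hs z).1 hz, norm_zero]
      exact zero_le_one
    · rw [(hP' s hs z).2 hz]
      obtain ⟨h1, h2⟩ := hB _ (hw z hz)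
      exact Real.rpow_le_one h1 (h2.trans (hG1 _ (mem_ball_zero_iff.2 (hw z hz)))) hs.le
  have hnP : ∀ s : ℝ, 0 < s → ‖P' s‖ ≤ 1 := fun s hs => norm_le_of zero_le_one (hle1 s hs)
  set u : ℕ → ℝ := fun n => ‖(T ^ n) (P' 1)‖ with hu
  have hnorm : ∀ s : ℝ, 0 < s → ∀ n, ‖(T ^ n) (P' s)‖ = u n ^ s := by
    intro s hs n
    apply le_antisymm
    · refine norm_le_of (Real.rpow_nonneg (norm_nonneg _) _) fun z => ?_
      rw [h.pow, hpow s hs, ← h.pow]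
      exact Real.rpow_le_rpow (norm_nonneg _) (norm_apply_le _ _) hs.le
    · have h1 : u n ≤ ‖(T ^ n) (P' s)‖ ^ (1 / s) := by
        refine norm_le_of (Real.rpow_nonneg (norm_nonneg _) _) fun z => ?_
        have h2 : ‖((T ^ n) (P' 1)).1 z‖ ^ s ≤ ‖(T ^ n) (P' s)‖ := by
          rw [h.pow, ← hpow s hs, ← h.pow]
          exact norm_apply_le _ _
        have h3 : ‖((T ^ n) (P' 1)).1 z‖ = (‖((T ^ n) (P' 1)).1 z‖ ^ s) ^ (1 / s) := by
          rw [← Real.rpow_mul (norm_nonneg _), mul_one_div_cancel hs.ne', Real.rpow_one]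
        rw [h3]
        exact Real.rpow_le_rpow (Real.rpow_nonneg (norm_nonneg _) _) h2 (by positivity)
      calc u n ^ s ≤ (‖(T ^ n) (P' s)‖ ^ (1 / s)) ^ s :=
            Real.rpow_le_rpow (norm_nonneg _) h1 hs.le
        _ = ‖(T ^ n) (P' s)‖ := by
            rw [← Real.rpow_mul (norm_nonneg _), one_div_mul_cancel hs.ne', Real.rpow_one]
  have hu1 : ∀ n, u n ≤ 1 := by
    intro n
    refine norm_le_of zero_le_one fun z => ?_
    rw [h.pow]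
    exact hle1 1 one_pos _
  have huK : ∀ n, u n ≤ (C * r1 ^ N) * r1 ^ n := by
    intro n
    have hr1 := g.h1
    have hC := g.hC
    refine norm_le_of (by positivity) fun z => ?_
    rw [h.pow]
    by_cases hz : Φ^[N] (Φ^[n] z) = a
    · rw [(hP' 1 one_pos _).1 hz, norm_zero]
      positivity
    · rw [(hP' 1 one_pos _).2 hz, Real.rpow_one]
      obtain ⟨h1, h2⟩ := hB _ (hw _ hz)
      refine h2.trans (hGM _ (hw _ hz) _ fun f hf hf1 => ?_)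
      have h3 := gap_unif g f hf (N + n)
      have h4 : f.1 (Φ^[N] (Φ^[n] z)) = ((T ^ (N + n)) f).1 z := by
        rw [h.pow, Function.iterate_add_apply]
      rw [h4]
      calc ‖((T ^ (N + n)) f).1 z‖ ≤ ‖(T ^ (N + n)) f‖ := norm_apply_le _ _
        _ ≤ C * r1 ^ (N + n) * ‖f‖ := h3
        _ ≤ C * r1 ^ (N + n) * 1 := by gcongr
        _ = C * r1 ^ N * r1 ^ n := by rw [pow_add]; ring
  have hu0 : ∀ n, 0 < u n := by
    intro n
    have hit : ∀ m : ℕ, ∀ z : Pt, ‖(z:ℂ)‖ < 1 → ‖(Φ^[m] z : ℂ)‖ < 1 := by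
      intro m
      induction m with
      | zero => exact fun z hz => hz
      | succ m ih =>
        intro z hz
        rw [Function.iterate_succ_apply]
        exact ih _ (hin z hz)
    have h0 : ‖((⟨0, by simp⟩ : Pt) : ℂ)‖ < 1 := by simp
    have h1 : ‖(Φ^[N] (Φ^[n] (⟨0, by simp⟩ : Pt)) : ℂ)‖ < 1 := hit N _ (hit n _ h0)
    have h2 := hne _ h1
    have h3 := (hP' 1 one_pos (Φ^[n] (⟨0, by simp⟩ : Pt))).2 h2
    rw [Real.rpow_one, ← h.pow] at h3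
    have h4 : 0 < ‖(a:ℂ) - Φ^[N] (Φ^[n] (⟨0, by simp⟩ : Pt))‖ / 2 *
        ‖G (Φ^[N] (Φ^[n] (⟨0, by simp⟩ : Pt)))‖ := by
      refine mul_pos (div_pos (norm_pos_iff.2 ?_) two_pos) (norm_pos_iff.2 ?_)
      · intro h5
        apply h2
        apply Subtype.ext
        exact (sub_eq_zero.1 h5).symm
      · exact hG0 _ (mem_ball_zero_iff.2 h1)
    rw [← h3] at h4
    exact h4.trans_le (norm_apply_le _ _)
  refine real_contra u C (C * r1 ^ N) r1 r2 g.h1 g.h12 g.h2 g.hC hu0 hu1 huK ?_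
  intro s hs n k
  have h1 := gap_dich g (P' s) n k
  rw [hnorm s hs, hnorm s hs] at h1
  refine h1.trans ?_
  have hC := g.hC
  have hr1 := g.h1
  have h2 := hnP s hs
  gcongr
  calc r1 ^ n * ‖P' s‖ ≤ r1 ^ n * 1 := by gcongr
    _ = r1 ^ n := mul_one _

end Pool.Agent.Helper203.DS
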