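import Pool.Agent.KS6_19.DA.L.Helper203.DS.Defs2

open Metric Set Filter Topology

noncomputable section

namespace Pool.Agent.Helper203.DS

section rz

variable {A : Type*} [NormedRing A] [NormedAlgebra ℂ A] [CompleteSpace A]

theorem rz_res (T : A) (z : ℂ) (hz : z ∉ spectrum ℂ T) :
    T * resolvent T z = z • resolvent T z - 1 ∧ resolvent T z * T = z • resolvent T z - 1 := by
  have hu : IsUnit (algebraMap ℂ A z - T) := by
    have := spectrum.notMem_iff.1 hz
    exact this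
  have h1 : (algebraMap ℂ A z - T) * resolvent T z = 1 := Ring.mul_inverse_cancel _ hu
  have h2 : resolvent T z * (algebraMap ℂ A z - T) = 1 := Ring.inverse_mul_cancel _ hu
  constructor
  · rw [sub_mul, ← Algebra.smul_def] at h1
    rw [← h1]; abel
  · rw [mul_sub, ← Algebra.commutes, ← Algebra.smul_def] at h2
    rw [← h2]; abel

theorem rz_comm (L : A →L[ℂ] A) (f : ℂ → A) (r : ℝ) (hf : CircleIntegrable f 0 r) :
    (∮ z in C(0, r), L (f z)) = L (∮ z in C(0, r), f z) := by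
  have h := ContinuousLinearMap.intervalIntegral_comp_comm L hf.out
  unfold circleIntegral
  rw [← h]
  simp only [map_smul]

/-- the moments of the resolvent -/
def rzI (T : A) (r : ℝ) (m : ℤ) : A :=
  (2 * Real.pi * Complex.I : ℂ)⁻¹ • ∮ z in C(0, r), z ^ m • resolvent T z

theorem rz_cont (T : A) (r : ℝ) (hr : 0 < r) (m : ℤ) (h : ∀ z : ℂ, ‖z‖ = r → z ∉ spectrum ℂ T) :
    CircleIntegrable (fun z => z ^ m • resolvent T z) 0 r := by
  apply ContinuousOn.circleIntegrable hr.le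
  apply ContinuousOn.smul
  · intro z hz
    apply ContinuousAt.continuousWithinAt
    apply continuousAt_zpow₀
    left
    rw [mem_sphere_zero_iff_norm] at hz
    intro h0
    rw [h0, norm_zero] at hz
    exact hr.ne hz
  · intro z hz
    rw [mem_sphere_zero_iff_norm] at hz
    have hz' : z ∈ resolventSet ℂ T := by
      have := h z hz
      rwa [spectrum.mem_iff, not_not] at this
    exact (spectrum.hasDerivAt_resolvent_const_left hz').continuousAt.continuousWithinAt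

theorem rz_rec (T : A) (r : ℝ) (hr : 0 < r) (m : ℤ) (h : ∀ z : ℂ, ‖z‖ = r → z ∉ spectrum ℂ T) :
    T * rzI T r m = rzI T r (m + 1) - (if m = -1 then 1 else 0) := by
  have h1 : (∮ z in C(0, r), T * (z ^ m • resolvent T z)) =
      T * ∮ z in C(0, r), z ^ m • resolvent T z :=
    rz_comm (ContinuousLinearMap.mul ℂ A T) _ r (rz_cont T r hr m h)
  have h2 : (∮ z in C(0, r), T * (z ^ m • resolvent T z)) =
      ∮ z in C(0, r), (z ^ (m + 1) • resolvent T z - z ^ m • (1 : A)) := by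
    apply circleIntegral.integral_congr hr.le
    intro z hz
    rw [mem_sphere_zero_iff_norm] at hz
    have hz0 : z ≠ 0 := by
      intro h0
      rw [h0, norm_zero] at hz
      exact hr.ne hz
    show T * (z ^ m • resolvent T z) = z ^ (m + 1) • resolvent T z - z ^ m • (1 : A)
    rw [mul_smul_comm, (rz_res T z (h z hz)).1, smul_sub, smul_smul, zpow_add_one₀ hz0]
  have hint : CircleIntegrable (fun z : ℂ => z ^ m • (1 : A)) 0 r := by
    apply ContinuousOn.circleIntegrable hr.le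
    apply ContinuousOn.smul _ continuousOn_const
    intro z hz
    apply ContinuousAt.continuousWithinAt
    apply continuousAt_zpow₀
    left
    rw [mem_sphere_zero_iff_norm] at hz
    intro h0
    rw [h0, norm_zero] at hz
    exact hr.ne hz
  have h3 : (∮ z in C(0, r), (z ^ (m + 1) • resolvent T z - z ^ m • (1 : A))) =
      (∮ z in C(0, r), z ^ (m + 1) • resolvent T z) - ∮ z in C(0, r), z ^ m • (1 : A) :=
    circleIntegral.integral_sub (rz_cont T r hr (m + 1) h) hint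
  have h4 : (∮ z in C(0, r), z ^ m • (1 : A)) = (∮ z in C(0, r), z ^ m) • (1 : A) :=
    circleIntegral.integral_smul_const _ _ _ _
  have hpi : (2 * Real.pi * Complex.I : ℂ) ≠ 0 := Complex.two_pi_I_ne_zero
  have h5 : (2 * Real.pi * Complex.I : ℂ)⁻¹ • ((∮ z in C(0, r), z ^ m) • (1 : A)) =
      (if m = -1 then 1 else 0) := by
    by_cases hm : m = -1
    · rw [if_pos hm, hm]
      have := circleIntegral.integral_sub_center_inv (0 : ℂ) hr.ne'
      simp only [sub_zero] at this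
      simp only [zpow_neg_one]
      rw [this, smul_smul, inv_mul_cancel₀ hpi, one_smul]
    · rw [if_neg hm]
      have := circleIntegral.integral_sub_zpow_of_ne hm 0 0 r
      simp only [sub_zero] at this
      rw [this, zero_smul, smul_zero]
  unfold rzI
  rw [mul_smul_comm, ← h1, h2, h3, smul_sub, h4, h5]

theorem rz_comm2 (T : A) (r : ℝ) (hr : 0 < r) (m : ℤ) (h : ∀ z : ℂ, ‖z‖ = r → z ∉ spectrum ℂ T) :
    rzI T r m * T = T * rzI T r m := by
  have h1 : (∮ z in C(0, r), T * (z ^ m • resolvent T z)) =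
      T * ∮ z in C(0, r), z ^ m • resolvent T z :=
    rz_comm (ContinuousLinearMap.mul ℂ A T) _ r (rz_cont T r hr m h)
  have h2 : (∮ z in C(0, r), (z ^ m • resolvent T z) * T) =
      (∮ z in C(0, r), z ^ m • resolvent T z) * T :=
    rz_comm ((ContinuousLinearMap.mul ℂ A).flip T) _ r (rz_cont T r hr m h)
  unfold rzI
  rw [smul_mul_assoc, mul_smul_comm, ← h1, ← h2]
  congr 1
  apply circleIntegral.integral_congr hr.le
  intro z hz
  rw [mem_sphere_zero_iff_norm] at hz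
  show (z ^ m • resolvent T z) * T = T * (z ^ m • resolvent T z)
  rw [smul_mul_assoc, mul_smul_comm, (rz_res T z (h z hz)).1, (rz_res T z (h z hz)).2]

theorem rz_bound (T : A) (r : ℝ) (hr : 0 < r) (m : ℤ) (M : ℝ)
    (hM : ∀ z : ℂ, ‖z‖ = r → ‖resolvent T z‖ ≤ M) : ‖rzI T r m‖ ≤ r * (r ^ m * M) := by
  apply circleIntegral.norm_two_pi_i_inv_smul_integral_le_of_norm_le_const hr.le
  intro z hz
  rw [mem_sphere_zero_iff_norm] at hz
  rw [norm_smul, norm_zpow, hz]
  exact mul_le_mul_of_nonneg_left (hM z hz) (zpow_nonneg hr.le _)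

theorem rz_main (T : A) (ρ : ℝ) (h0 : 0 < ρ) (h1 : ρ < 1)
    (hs : ∀ z : ℂ, ‖z‖ = ρ → z ∉ spectrum ℂ T) :
    ∃ (r1 r2 C : ℝ) (P : A) (Q : ℕ → A), 0 < r1 ∧ r1 < r2 ∧ r2 < 1 ∧ 0 < C ∧
      (∀ k, Q k * T = T * Q k) ∧ (∀ k, T ^ k * Q k = 1 - P) ∧ (∀ n, ‖T ^ n * P‖ ≤ C * r1 ^ n) ∧
      (∀ k, ‖Q k‖ * r2 ^ k ≤ C) := by
  have hK : IsCompact (spectrum ℂ T ∩ closedBall (0 : ℂ) 1) :=
    (isCompact_closedBall (0 : ℂ) 1).inter_left (spectrum.isClosed T)
  have hN : IsClosed (norm '' (spectrum ℂ T ∩ closedBall (0 : ℂ) 1)) :=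
    (hK.image continuous_norm).isClosed
  have hρ : ρ ∉ norm '' (spectrum ℂ T ∩ closedBall (0 : ℂ) 1) := by
    rintro ⟨z, ⟨hz, _⟩, hzn⟩
    exact hs z hzn hz
  obtain ⟨δ, hδ, hball⟩ := Metric.isOpen_iff.1 hN.isOpen_compl ρ hρ
  obtain ⟨d, hd0, hd1, hd2, hd3⟩ : ∃ d : ℝ, 0 < d ∧ d < δ ∧ d < ρ ∧ d < 1 - ρ := by
    refine ⟨min δ (min ρ (1 - ρ)) / 2, ?_, ?_, ?_, ?_⟩
    · have : 0 < min δ (min ρ (1 - ρ)) := lt_min hδ (lt_min h0 (by linarith))
      linarith
    · have : min δ (min ρ (1 - ρ)) ≤ δ := min_le_left _ _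
      have h2 : 0 < min δ (min ρ (1 - ρ)) := lt_min hδ (lt_min h0 (by linarith))
      linarith
    · have : min δ (min ρ (1 - ρ)) ≤ ρ := (min_le_right _ _).trans (min_le_left _ _)
      have h2 : 0 < min δ (min ρ (1 - ρ)) := lt_min hδ (lt_min h0 (by linarith))
      linarith
    · have : min δ (min ρ (1 - ρ)) ≤ 1 - ρ := (min_le_right _ _).trans (min_le_right _ _)
      have h2 : 0 < min δ (min ρ (1 - ρ)) := lt_min hδ (lt_min h0 (by linarith))
      linarith
  obtain ⟨r1, hr1⟩ : ∃ r1, r1 = ρ - d := ⟨_, rfl⟩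
  obtain ⟨r2, hr2⟩ : ∃ r2, r2 = ρ + d := ⟨_, rfl⟩
  have p1 : 0 < r1 := by rw [hr1]; linarith
  have p12 : r1 < r2 := by rw [hr1, hr2]; linarith
  have p2 : r2 < 1 := by rw [hr2]; linarith
  have p3 : 0 < r2 := p1.trans p12
  have hann : ∀ z : ℂ, r1 ≤ ‖z‖ → ‖z‖ ≤ r2 → z ∉ spectrum ℂ T := by
    intro z hz1 hz2 hzs
    have h3 : ‖z‖ ∈ ball ρ δ := by
      rw [Real.ball_eq_Ioo]
      rw [hr1] at hz1
      rw [hr2] at hz2
      constructor <;> linarith
    exact hball h3 ⟨z, ⟨hzs, by rw [mem_closedBall_zero_iff]; linarith⟩, rfl⟩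
  have hs1 : ∀ z : ℂ, ‖z‖ = r1 → z ∉ spectrum ℂ T := fun z hz =>
    hann z hz.ge (by rw [hz]; exact p12.le)
  have hs2 : ∀ z : ℂ, ‖z‖ = r2 → z ∉ spectrum ℂ T := fun z hz =>
    hann z (by rw [hz]; exact p12.le) hz.le
  have hder : ∀ z : ℂ, r1 ≤ ‖z‖ → ‖z‖ ≤ r2 → DifferentiableAt ℂ (resolvent T) z := by
    intro z hz1 hz2
    have hz' : z ∈ resolventSet ℂ T := by
      have := hann z hz1 hz2
      rwa [spectrum.mem_iff, not_not] at this
    exact (spectrum.hasDerivAt_resolvent_const_left hz').differentiableAt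
  have hcA : ContinuousOn (resolvent T) (closedBall (0 : ℂ) r2 \ ball 0 r1) := by
    rintro z ⟨hz1, hz2⟩
    rw [mem_closedBall_zero_iff] at hz1
    rw [mem_ball_zero_iff, not_lt] at hz2
    exact (hder z hz2 hz1).continuousAt.continuousWithinAt
  have hcomp : IsCompact (closedBall (0 : ℂ) r2 \ ball 0 r1) :=
    (isCompact_closedBall (0 : ℂ) r2).diff isOpen_ball
  obtain ⟨M, hM⟩ := hcomp.exists_bound_of_continuousOn hcA
  have hM1 : ∀ z : ℂ, ‖z‖ = r1 → ‖resolvent T z‖ ≤ |M| := fun z hz =>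
    (hM z ⟨by rw [mem_closedBall_zero_iff, hz]; exact p12.le,
      by rw [mem_ball_zero_iff, hz, not_lt]⟩).trans (le_abs_self M)
  have hM2 : ∀ z : ℂ, ‖z‖ = r2 → ‖resolvent T z‖ ≤ |M| := fun z hz =>
    (hM z ⟨by rw [mem_closedBall_zero_iff, hz],
      by rw [mem_ball_zero_iff, hz, not_lt]; exact p12.le⟩).trans (le_abs_self M)
  have hPP : rzI T r2 0 = rzI T r1 0 := by
    unfold rzI
    simp only [zpow_zero, one_smul]
    congr 1
    refine Complex.circleIntegral_eq_of_differentiable_on_annulus_off_countable p1 p12.le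
      Set.countable_empty hcA ?_
    rintro z ⟨⟨hz1, hz2⟩, _⟩
    rw [mem_ball_zero_iff] at hz1
    rw [mem_closedBall_zero_iff, not_le] at hz2
    exact hder z hz2.le hz1.le
  have hTn : ∀ n : ℕ, T ^ n * rzI T r1 0 = rzI T r1 n := by
    intro n
    induction n with
    | zero => simp
    | succ n ih =>
      rw [pow_succ', mul_assoc, ih, rz_rec T r1 p1 n hs1, if_neg (by omega), sub_zero]
      push_cast
      rfl
  have hTk : ∀ k j : ℕ, j ≤ k → T ^ j * rzI T r2 (-((k : ℤ) + 1)) = rzI T r2 (-((k : ℤ) + 1) + j) := by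
    intro k j
    induction j with
    | zero => simp
    | succ j ih =>
      intro hj
      rw [pow_succ', mul_assoc, ih (by omega), rz_rec T r2 p3 _ hs2, if_neg (by omega), sub_zero]
      congr 1
      push_cast
      ring
  have hTk1 : ∀ k : ℕ, T ^ (k + 1) * rzI T r2 (-((k : ℤ) + 1)) = rzI T r2 0 - 1 := by
    intro k
    rw [pow_succ', mul_assoc, hTk k k le_rfl]
    have : -((k : ℤ) + 1) + k = -1 := by ring
    rw [this, rz_rec T r2 p3 _ hs2, if_pos rfl]
    rfl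
  refine ⟨r1, r2, r1 * |M| + r2 * |M| + ‖(1 : A) - rzI T r1 0‖ + 1, rzI T r1 0,
    fun k => match k with
      | 0 => 1 - rzI T r1 0
      | k + 1 => - rzI T r2 (-((k : ℤ) + 1)), p1, p12, p2, by positivity, ?_, ?_, ?_, ?_⟩
  · rintro (_ | k)
    · show (1 - rzI T r1 0) * T = T * (1 - rzI T r1 0)
      rw [sub_mul, mul_sub, one_mul, mul_one, rz_comm2 T r1 p1 0 hs1]
    · show (- rzI T r2 (-((k : ℤ) + 1))) * T = T * (- rzI T r2 (-((k : ℤ) + 1)))
      rw [neg_mul, mul_neg, rz_comm2 T r2 p3 _ hs2]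
  · rintro (_ | k)
    · show T ^ 0 * (1 - rzI T r1 0) = _
      rw [pow_zero, one_mul]
    · show T ^ (k + 1) * (- rzI T r2 (-((k : ℤ) + 1))) = _
      rw [mul_neg, hTk1, hPP]
      abel
  · intro n
    rw [hTn]
    refine (rz_bound T r1 p1 n |M| hM1).trans ?_
    rw [zpow_natCast]
    have e1 : r1 * (r1 ^ n * |M|) = (r1 * |M|) * r1 ^ n := by ring
    rw [e1]
    apply mul_le_mul_of_nonneg_right _ (by positivity)
    have : 0 ≤ r2 * |M| := by positivity
    have h5 : 0 ≤ ‖(1 : A) - rzI T r1 0‖ := norm_nonneg _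
    linarith
  · rintro (_ | k)
    · show ‖1 - rzI T r1 0‖ * r2 ^ 0 ≤ _
      rw [pow_zero, mul_one]
      have : 0 ≤ r2 * |M| := by positivity
      have : 0 ≤ r1 * |M| := by positivity
      linarith
    · show ‖- rzI T r2 (-((k : ℤ) + 1))‖ * r2 ^ (k + 1) ≤ _
      rw [norm_neg]
      have e1 := rz_bound T r2 p3 (-((k : ℤ) + 1)) |M| hM2
      have e2 : r2 ^ (-((k : ℤ) + 1)) * r2 ^ (k + 1) = 1 := by
        rw [zpow_neg, ← Nat.cast_succ, zpow_natCast]
        exact inv_mul_cancel₀ (by positivity)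
      have e3 : r2 * (r2 ^ (-((k : ℤ) + 1)) * |M|) * r2 ^ (k + 1) = r2 * |M| := by
        calc r2 * (r2 ^ (-((k : ℤ) + 1)) * |M|) * r2 ^ (k + 1)
            = r2 * |M| * (r2 ^ (-((k : ℤ) + 1)) * r2 ^ (k + 1)) := by ring
          _ = _ := by rw [e2, mul_one]
      have e4 : ‖rzI T r2 (-((k : ℤ) + 1))‖ * r2 ^ (k + 1) ≤ r2 * |M| := by
        rw [← e3]
        exact mul_le_mul_of_nonneg_right e1 (by positivity)
      have : 0 ≤ r1 * |M| := by positivity
      have h5 : 0 ≤ ‖(1 : A) - rzI T r1 0‖ := norm_nonneg _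
      linarith

end rz

theorem riesz {E : Type*} [NormedAddCommGroup E] [NormedSpace ℂ E] [CompleteSpace E]
    (T : E →L[ℂ] E) (ρ : ℝ) (h0 : 0 < ρ) (h1 : ρ < 1)
    (hs : ∀ z : ℂ, ‖z‖ = ρ → z ∉ spectrum ℂ T) :
    ∃ (r1 r2 C : ℝ) (P : E →L[ℂ] E) (Q : ℕ → E →L[ℂ] E), Gap T r1 r2 C P Q := by
  obtain ⟨r1, r2, C, P, Q, a1, a2, a3, a4, a5, a6, a7, a8⟩ := rz_main T ρ h0 h1 hs
  exact ⟨r1, r2, C, P, Q, a1, a2, a3, a4, a5, a6, a7, a8⟩

end Pool.Agent.Helper203.DS
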