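import Pool.Agent.KS6_19.DA.L.Helper203.DS.Main
import Pool.Agent.KS6_19.DA.L.Helper203.DS.BDisc
import Pool.Agent.KS6_19.DA.L.Helper203.DS.Unit1
import Pool.Agent.KS6_19.DA.L.Helper203.DS.Riesz
import Pool.Agent.KS6_19.DA.L.Helper203.DS.NoGap
import Pool.Agent.KS6_19.DA.L.Helper203.DS.BB
import Pool.Agent.KS6_19.DA.L.Helper203.DS.CBB

open Metric Set Filter Topology

noncomputable section

namespace Pool.Agent.Helper203.DS

/-- on a shrinking map the open disc is preserved -/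
theorem inner_of_nonconst {T : DA →L[ℂ] DA} {Φ : Pt → Pt} (h : IsComp T Φ)
    (hnc : ∀ c : ℂ, T Z ≠ algebraMap ℂ DA c) :
    ∀ z : Pt, ‖(z:ℂ)‖ < 1 → ‖(Φ z : ℂ)‖ < 1 := by
  intro z hz
  by_contra hcon
  have h1 : ‖(Φ z : ℂ)‖ = 1 := le_antisymm (mem_closedBall_zero_iff.1 (Φ z).2) (not_lt.1 hcon)
  have hv : ∀ w : Pt, (T Z).1 w = (Φ w : ℂ) := fun w => by rw [h.eq, Z_apply]
  have hc := const_of_max (T Z) z hz (fun w => by
    rw [hv, hv, h1]; exact mem_closedBall_zero_iff.1 (Φ w).2)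
  exact hnc ((T Z).1 z) (da_ext fun w => by rw [hc w, algMap_apply])

theorem no_circle_free {T : DA →L[ℂ] DA} {Φ : Pt → Pt} (h : IsComp T Φ) (a : Pt)
    (ha : ‖(a:ℂ)‖ = 1) (hK : KK Φ ⊆ {a}) (hnc : ∀ c : ℂ, T Z ≠ algebraMap ℂ DA c) (N : ℕ)
    (hN : ∀ z : Pt, Φ^[N] z = a ∨ ‖(Φ^[N] z : ℂ)‖ < 1) (ρ : ℝ) (h0 : 0 < ρ) (h1 : ρ < 1) :
    ∃ l ∈ spectrum ℂ T, ‖l‖ = ρ := by
  by_contra hcon
  push Not at hcon
  obtain ⟨r1, r2, C, P, Q, g⟩ := riesz T ρ h0 h1 (fun z hz hzs => hcon z hzs hz)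
  exact no_gap h a ha hK (inner_of_nonconst h hnc) N hN g

theorem hyper_disc {T : DA →L[ℂ] DA} {Φ : Pt → Pt} (h : IsComp T Φ) (a : Pt)
    (ha : ‖(a:ℂ)‖ = 1) (hK : KK Φ ⊆ {a}) (hnc : ∀ c : ℂ, T Z ≠ algebraMap ℂ DA c) (N : ℕ)
    (hN : ∀ z : Pt, Φ^[N] z = a ∨ ‖(Φ^[N] z : ℂ)‖ < 1) (β : ℝ) (hβ : 1 < β)
    (hyp : ∀ z : Pt, ‖(z:ℂ)‖ < 1 → β * hh a z ≤ hh a (Φ z)) :
    spectrum ℂ T = closedBall (0:ℂ) 1 := by
  have hT1 : ‖T‖ ≤ 1 := by
    refine ContinuousLinearMap.opNorm_le_bound T zero_le_one (fun f => ?_)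
    rw [one_mul]; exact h.norm_le f
  apply Set.Subset.antisymm
  · intro l hl
    rw [mem_closedBall_zero_iff]
    exact spec_sub_aux T hT1 hl
  have hpunct : ∀ l : ℂ, 0 < ‖l‖ → ‖l‖ < 1 → l ∈ spectrum ℂ T := by
    intro l hl0 hl1
    by_contra hl
    obtain ⟨c, hc, hbb⟩ := bounded_below h (a:ℂ) ha β hβ (inner_of_nonconst h hnc) hyp l hl0 hl1 hl
    have hfree := circle_of_bb T l c hc hbb hl
    obtain ⟨m, hm, hml⟩ := no_circle_free h a ha hK hnc N hN ‖l‖ hl0 hl1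
    exact hfree m hml hm
  intro l hl
  rw [mem_closedBall_zero_iff] at hl
  have hcl : IsClosed (spectrum ℂ T) := spec_closed_aux T
  by_cases hl0 : l = 0
  · -- 0 is a limit of points 1/(n+2)
    have hlim : Tendsto (fun n : ℕ => ((1 / ((n:ℝ) + 2) : ℝ) : ℂ)) atTop (𝓝 (0:ℂ)) := by
      have h1 : Tendsto (fun n : ℕ => (1 / ((n:ℝ) + 2) : ℝ)) atTop (𝓝 0) := by
        have := (tendsto_one_div_add_atTop_nhds_zero_nat (𝕜 := ℝ)).comp (tendsto_add_atTop_nat 1)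
        refine this.congr fun n => ?_
        simp only [Function.comp]
        push_cast
        ring
      exact_mod_cast (Complex.continuous_ofReal.tendsto 0).comp h1
    rw [hl0]
    refine hcl.mem_of_tendsto hlim (Filter.Eventually.of_forall fun n => ?_)
    have hpos : (0:ℝ) < 1 / ((n:ℝ) + 2) := by positivity
    have hlt : 1 / ((n:ℝ) + 2) < 1 := by
      rw [div_lt_one (by positivity)]
      have : (0:ℝ) ≤ n := Nat.cast_nonneg n
      linarith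
    apply hpunct
    · rw [Complex.norm_real, Real.norm_eq_abs, abs_of_pos hpos]; exact hpos
    · rw [Complex.norm_real, Real.norm_eq_abs, abs_of_pos hpos]; exact hlt
  · have hlp : 0 < ‖l‖ := norm_pos_iff.2 hl0
    have hlim : Tendsto (fun n : ℕ => ((1 - 1 / ((n:ℝ) + 2) : ℝ) : ℂ) * l) atTop (𝓝 l) := by
      have h1 : Tendsto (fun n : ℕ => (1 - 1 / ((n:ℝ) + 2) : ℝ)) atTop (𝓝 (1 - 0)) := by
        have := (tendsto_one_div_add_atTop_nhds_zero_nat (𝕜 := ℝ)).comp (tendsto_add_atTop_nat 1)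
        refine Tendsto.sub tendsto_const_nhds (this.congr fun n => ?_)
        simp only [Function.comp]
        push_cast
        ring
      have h2 := ((Complex.continuous_ofReal.tendsto _).comp h1).mul_const l
      simpa using h2
    refine hcl.mem_of_tendsto hlim (Filter.Eventually.of_forall fun n => ?_)
    have hpos : (0:ℝ) < 1 / ((n:ℝ) + 2) := by positivity
    have hlt : 1 / ((n:ℝ) + 2) < 1 := by
      rw [div_lt_one (by positivity)]
      have : (0:ℝ) ≤ n := Nat.cast_nonneg n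
      linarith
    have hn : ‖((1 - 1 / ((n:ℝ) + 2) : ℝ) : ℂ) * l‖ = (1 - 1 / ((n:ℝ) + 2)) * ‖l‖ := by
      rw [norm_mul, Complex.norm_real, Real.norm_eq_abs, abs_of_pos (by linarith)]
    apply hpunct
    · rw [hn]; exact mul_pos (by linarith) hlp
    · rw [hn]
      calc (1 - 1 / ((n:ℝ) + 2)) * ‖l‖ ≤ (1 - 1 / ((n:ℝ) + 2)) * 1 := by
            apply mul_le_mul_of_nonneg_left hl; linarith
        _ < 1 := by linarith

end Pool.Agent.Helper203.DS
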