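import Pool.Agent.KS6_19.DA.L.Helper203.DS.Defs3
import Pool.Agent.KS6_19.DA.L.Helper203.DS.CayL

open Metric Set Filter Topology

noncomputable section

namespace Pool.Agent.Helper203.DS

def kapD (a x z : ℂ) : ℂ := (a + z) + (starRingEnd ℂ) x * (a - z)

def interp3_kap (a x z : ℂ) : ℂ := (a - z) / kapD a x z

theorem kapD_re (a x z : ℂ) (ha : ‖a‖ = 1) (hz : ‖z‖ ≤ 1) :
    x.re * Complex.normSq (a - z) ≤ (kapD a x z * (starRingEnd ℂ) (a - z)).re := by
  have h1 : a.re * a.re + a.im * a.im = 1 := by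
    have := Complex.normSq_eq_norm_sq a
    rw [ha, Complex.normSq_apply] at this
    simpa using this
  have h2 : z.re * z.re + z.im * z.im ≤ 1 := by
    have := Complex.normSq_eq_norm_sq z
    rw [Complex.normSq_apply] at this
    rw [this]
    have h0 := norm_nonneg z
    nlinarith
  unfold kapD
  simp only [Complex.normSq_apply, Complex.mul_re, Complex.add_re, Complex.add_im, Complex.mul_im,
    Complex.sub_re, Complex.sub_im, Complex.conj_re, Complex.conj_im]
  nlinarith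

theorem kapD_ne (a x z : ℂ) (ha : ‖a‖ = 1) (hz : ‖z‖ ≤ 1) (hx : 0 < x.re) :
    kapD a x z ≠ 0 := by
  intro h
  have h1 := kapD_re a x z ha hz
  rw [h, zero_mul, Complex.zero_re] at h1
  have h2 : Complex.normSq (a - z) ≤ 0 := by
    by_contra hc
    push Not at hc
    have := mul_pos hx hc
    linarith
  have h3 : a - z = 0 := Complex.normSq_eq_zero.1 (le_antisymm h2 (Complex.normSq_nonneg _))
  have h4 : z = a := (sub_eq_zero.1 h3).symm
  rw [kapD, h4] at h
  have h5 : a = 0 := by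
    have : (2:ℂ) * a = 0 := by linear_combination h
    simpa using this
  rw [h5] at ha
  simp at ha

theorem bb_le (a x z : ℂ) (ha : ‖a‖ = 1) (hz : ‖z‖ ≤ 1) (hx : 0 < x.re) :
    ‖1 - 2 * (x.re : ℂ) * interp3_kap a x z‖ ≤ 1 := by
  have hD := kapD_ne a x z ha hz hx
  have h1 := kapD_re a x z ha hz
  have e : 1 - 2 * (x.re : ℂ) * interp3_kap a x z = (kapD a x z - 2 * (x.re : ℂ) * (a - z)) / kapD a x z := by
    unfold interp3_kap
    field_simp
  rw [e, norm_div, div_le_one (norm_pos_iff.2 hD)]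
  rw [← sq_le_sq₀ (norm_nonneg _) (norm_nonneg _), ← Complex.normSq_eq_norm_sq,
    ← Complex.normSq_eq_norm_sq]
  generalize kapD a x z = D at *
  generalize a - z = Q at *
  simp only [Complex.normSq_apply, Complex.mul_re, Complex.mul_im, Complex.sub_re, Complex.sub_im,
    Complex.conj_re, Complex.conj_im, Complex.ofReal_re, Complex.ofReal_im, Complex.re_ofNat,
    Complex.im_ofNat] at *
  nlinarith [mul_le_mul_of_nonneg_left h1 hx.le]

theorem kap_le_two (a x z : ℂ) (ha : ‖a‖ = 1) (hz : ‖z‖ ≤ 1) (hx : 0 < x.re) :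
    ‖2 * (x.re : ℂ) * interp3_kap a x z‖ ^ 2 ≤ 4 := by
  have h := bb_le a x z ha hz hx
  have h2 : ‖2 * (x.re : ℂ) * interp3_kap a x z‖ ≤ 2 := by
    have e : 2 * (x.re : ℂ) * interp3_kap a x z = 1 - (1 - 2 * (x.re : ℂ) * interp3_kap a x z) := by ring
    rw [e]
    refine (norm_sub_le _ _).trans ?_
    rw [norm_one]
    linarith
  nlinarith [norm_nonneg (2 * (x.re : ℂ) * interp3_kap a x z)]

theorem kap_self (a x : ℂ) : interp3_kap a x a = 0 := by
  unfold interp3_kap
  simp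

theorem kap_eq (a x z : ℂ) (_ha : ‖a‖ = 1) (hza : z ≠ a) :
    interp3_kap a x z = 1 / (Cay a z + (starRingEnd ℂ) x) := by
  have h : a - z ≠ 0 := sub_ne_zero.2 (Ne.symm hza)
  unfold interp3_kap kapD Cay
  have e : (a + z) / (a - z) + (starRingEnd ℂ) x =
      ((a + z) + (starRingEnd ℂ) x * (a - z)) / (a - z) := by
    field_simp
  rw [e, one_div, inv_div]

theorem kap_im (a x z : ℂ) (ha : ‖a‖ = 1) (hz : ‖z‖ ≤ 1) (hx : 0 < x.re) (hza : z ≠ a) :
    ‖2 * (x.re : ℂ) * interp3_kap a x z‖ ^ 2 * ((Cay a z).im - x.im) ^ 2 ≤ 4 * x.re ^ 2 := by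
  rw [kap_eq a x z ha hza]
  set y := Cay a z with hy
  have hyre : 0 ≤ y.re := by
    rw [hy, cay_re a z ha hza]
    apply div_nonneg _ (by positivity)
    nlinarith [norm_nonneg z]
  have hne : y + (starRingEnd ℂ) x ≠ 0 := by
    intro h
    have := congrArg Complex.re h
    simp at this
    linarith
  have h1 : ((y + (starRingEnd ℂ) x).im) ^ 2 ≤ ‖y + (starRingEnd ℂ) x‖ ^ 2 := by
    rw [← Complex.normSq_eq_norm_sq, Complex.normSq_apply]
    nlinarith [mul_self_nonneg (y + (starRingEnd ℂ) x).re]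
  have h2 : (y + (starRingEnd ℂ) x).im = y.im - x.im := by
    simp
    ring
  rw [h2] at h1
  have h3 : 0 < ‖y + (starRingEnd ℂ) x‖ ^ 2 := by positivity
  have h4 : ‖2 * (x.re : ℂ) * (1 / (y + (starRingEnd ℂ) x))‖ ^ 2 =
      4 * x.re ^ 2 / ‖y + (starRingEnd ℂ) x‖ ^ 2 := by
    rw [norm_mul, norm_mul, norm_div, norm_one, Complex.norm_real, mul_pow, mul_pow, div_pow,
      Real.norm_eq_abs, sq_abs]
    norm_num
    ring
  rw [h4, div_mul_eq_mul_div, div_le_iff₀ h3]
  exact mul_le_mul_of_nonneg_left h1 (by positivity)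

theorem bb_zero (a x z : ℂ) (ha : ‖a‖ = 1) (hx : 0 < x.re) (hza : z ≠ a) (hy : Cay a z = x) :
    2 * (x.re : ℂ) * interp3_kap a x z = 1 := by
  rw [kap_eq a x z ha hza, hy]
  have e : x + (starRingEnd ℂ) x = 2 * (x.re : ℂ) := by
    rw [Complex.add_conj]
    push_cast
    ring
  rw [e]
  have : (x.re : ℂ) ≠ 0 := by exact_mod_cast hx.ne'
  field_simp

theorem bb_lower (a x z : ℂ) (ha : ‖a‖ = 1) (hx : 0 < x.re) (hza : z ≠ a) (A q m : ℝ)
    (t : ℝ) (ht : 0 < t) (hA : 0 < A) (hq : 0 < q) (hAq : A ≤ q * t) (hm : 0 < m)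
    (hxA : x.re ≤ A) (hy0 : 0 < (Cay a z).re)
    (hyA : (Cay a z).re ≤ A) (hD : t * m ≤ |(Cay a z).im - x.im|) :
    1 - 2 * (x.re : ℂ) * interp3_kap a x z ≠ 0 ∧
      ‖(1 - 2 * (x.re : ℂ) * interp3_kap a x z)⁻¹‖ ≤ Real.exp (2 * q ^ 2 * (1 / m ^ 2)) := by
  rw [kap_eq a x z ha hza]
  set y := Cay a z with hy
  have hne : y + (starRingEnd ℂ) x ≠ 0 := by
    intro h
    have := congrArg Complex.re h
    simp at this
    linarith
  have e : 1 - 2 * (x.re : ℂ) * (1 / (y + (starRingEnd ℂ) x)) =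
      (y - x) / (y + (starRingEnd ℂ) x) := by
    have e2 : x + (starRingEnd ℂ) x = 2 * (x.re : ℂ) := by
      rw [Complex.add_conj]
      push_cast
      ring
    field_simp
    rw [← e2]
    ring
  have hDpos : 0 < t * m := by positivity
  have hne2 : y - x ≠ 0 := by
    intro h
    have := congrArg Complex.im h
    simp at this
    rw [this] at hD
    simp at hD
    linarith
  rw [e]
  refine ⟨div_ne_zero hne2 hne, ?_⟩
  rw [inv_div, norm_div, div_le_iff₀ (norm_pos_iff.2 hne2)]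
  have hsq : (t * m) ^ 2 ≤ (y.im - x.im) ^ 2 := by
    rw [← sq_abs (y.im - x.im)]
    exact pow_le_pow_left₀ hDpos.le hD 2
  have key : ‖y + (starRingEnd ℂ) x‖ ^ 2 ≤ (1 + 4 * q ^ 2 * (1 / m ^ 2)) * ‖y - x‖ ^ 2 := by
    rw [← Complex.normSq_eq_norm_sq, ← Complex.normSq_eq_norm_sq, Complex.normSq_apply,
      Complex.normSq_apply]
    simp only [Complex.add_re, Complex.add_im, Complex.sub_re, Complex.sub_im, Complex.conj_re,
      Complex.conj_im]
    have h1 : 4 * A ^ 2 ≤ 4 * q ^ 2 * (1 / m ^ 2) * (y.im - x.im) ^ 2 := by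
      have h2 : A ^ 2 ≤ (q * t) ^ 2 := pow_le_pow_left₀ hA.le hAq 2
      have h3 : 4 * q ^ 2 * (1 / m ^ 2) * (t * m) ^ 2 = 4 * (q * t) ^ 2 := by
        field_simp
      have h4 : 4 * q ^ 2 * (1 / m ^ 2) * (t * m) ^ 2 ≤
          4 * q ^ 2 * (1 / m ^ 2) * (y.im - x.im) ^ 2 :=
        mul_le_mul_of_nonneg_left hsq (by positivity)
      linarith
    have h5 : 0 ≤ 4 * q ^ 2 * (1 / m ^ 2) * (y.re - x.re) ^ 2 := by positivity
    have h6 : (y.re + x.re) ^ 2 ≤ 4 * A ^ 2 := by nlinarith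
    nlinarith [sq_nonneg (y.re - x.re)]
  have hexp : 1 + 4 * q ^ 2 * (1 / m ^ 2) ≤ (Real.exp (2 * q ^ 2 * (1 / m ^ 2))) ^ 2 := by
    rw [← Real.exp_nat_mul]
    have := Real.add_one_le_exp ((2:ℕ) * (2 * q ^ 2 * (1 / m ^ 2)))
    refine le_trans ?_ this
    push_cast
    linarith
  rw [← sq_le_sq₀ (norm_nonneg _) (by positivity), mul_pow]
  exact key.trans (mul_le_mul_of_nonneg_right hexp (by positivity))

theorem sum_range_sq (M : ℕ) : ∑ j ∈ Finset.range M, 1 / ((j:ℝ) + 1) ^ 2 ≤ 2 := by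
  have h : ∀ M : ℕ, ∑ j ∈ Finset.range (M + 1), 1 / ((j:ℝ) + 1) ^ 2 ≤ 2 - 1 / ((M:ℝ) + 1) := by
    intro M
    induction M with
    | zero => norm_num
    | succ n ih =>
      rw [Finset.sum_range_succ]
      have h1 : 1 / (((n + 1 : ℕ) : ℝ) + 1) ^ 2 ≤ 1 / ((n:ℝ) + 1) - 1 / (((n + 1 : ℕ) : ℝ) + 1) := by
        push_cast
        have hn : (0:ℝ) ≤ n := Nat.cast_nonneg n
        rw [div_sub_div _ _ (by positivity) (by positivity), div_le_div_iff₀ (by positivity)
          (by positivity)]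
        nlinarith
      linarith
  rcases M with _ | M
  · simp
  · refine (h M).trans ?_
    have : 0 ≤ 1 / ((M:ℝ) + 1) := by positivity
    linarith

theorem sum_erase_sq (N j0 : ℕ) :
    ∑ j ∈ (Finset.range (N + 1)).erase j0, 1 / ((j:ℝ) - j0) ^ 2 ≤ 4 := by
  have hsub : (Finset.range (N + 1)).erase j0 ⊆
      Finset.range j0 ∪ Finset.Ico (j0 + 1) (j0 + 1 + (N + 1)) := by
    intro j hj
    simp only [Finset.mem_erase, Finset.mem_range, Finset.mem_union, Finset.mem_Ico] at *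
    omega
  refine (Finset.sum_le_sum_of_subset_of_nonneg hsub (fun _ _ _ => by positivity)).trans ?_
  have hdis : Disjoint (Finset.range j0) (Finset.Ico (j0 + 1) (j0 + 1 + (N + 1))) := by
    rw [Finset.disjoint_left]
    intro j h1 h2
    simp only [Finset.mem_range, Finset.mem_Ico] at *
    omega
  rw [Finset.sum_union hdis]
  have h1 : ∑ j ∈ Finset.range j0, 1 / ((j:ℝ) - j0) ^ 2 ≤ 2 := by
    rw [← Finset.sum_range_reflect]
    refine le_trans (le_of_eq ?_) (sum_range_sq j0)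
    refine Finset.sum_congr rfl ?_
    intro j hj
    have hj' := Finset.mem_range.1 hj
    have e : ((j0 - 1 - j : ℕ) : ℝ) = (j0:ℝ) - 1 - j := by
      rw [Nat.sub_sub, Nat.cast_sub (by omega)]
      push_cast
      ring
    rw [e]
    congr 1
    ring
  have h2 : ∑ j ∈ Finset.Ico (j0 + 1) (j0 + 1 + (N + 1)), 1 / ((j:ℝ) - j0) ^ 2 ≤ 2 := by
    rw [Finset.sum_Ico_eq_sum_range]
    refine le_trans (le_of_eq ?_) (sum_range_sq (j0 + 1 + (N + 1) - (j0 + 1)))
    refine Finset.sum_congr rfl ?_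
    intro j hj
    push_cast
    congr 1
    ring
  linarith

theorem continuousOn_kap (a x : ℂ) (ha : ‖a‖ = 1) (hx : 0 < x.re) :
    ContinuousOn (interp3_kap a x) (Metric.closedBall (0:ℂ) 1) := by
  unfold interp3_kap kapD
  apply ContinuousOn.div
  · fun_prop
  · fun_prop
  · intro z hz
    exact kapD_ne a x z ha (by simpa using hz) hx

theorem differentiableOn_kap (a x : ℂ) (ha : ‖a‖ = 1) (hx : 0 < x.re) :
    DifferentiableOn ℂ (interp3_kap a x) (Metric.ball (0:ℂ) 1) := by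
  unfold interp3_kap kapD
  apply DifferentiableOn.div
  · fun_prop
  · fun_prop
  · intro z hz
    exact kapD_ne a x z ha (by
      have : ‖z‖ < 1 := by simpa using hz
      exact this.le) hx

theorem interp3 (a : ℂ) (ha : ‖a‖ = 1) (q : ℝ) (hq : 0 < q) :
    ∃ B : ℝ, 0 < B ∧ ∀ (A t : ℝ), 0 < A → 0 < t → A ≤ q * t →
      ∀ (N : ℕ) (w : ℕ → Pt) (c : ℕ → ℂ), (∀ j ≤ N, ‖(w j : ℂ)‖ < 1) →
      (∀ j ≤ N, (Cay a (w j)).re ≤ A) →
      (∀ i ≤ N, ∀ j ≤ N, t * |(i:ℝ) - (j:ℝ)| ≤ |(Cay a (w i)).im - (Cay a (w j)).im|) →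
      (∀ j ≤ N, ‖c j‖ ≤ 1) →
      ∃ G : DA, ‖G‖ ≤ B ∧ ∀ j ≤ N, G.1 (w j) = c j := by
  refine ⟨(4 + 64 * q ^ 2) * Real.exp (8 * q ^ 2), by positivity, ?_⟩
  intro A t hA ht hAq N w c hw hre him hc
  classical
  obtain ⟨x, hx⟩ : ∃ x : ℕ → ℂ, ∀ j, x j = Cay a (w j) := ⟨fun j => Cay a (w j), fun _ => rfl⟩
  have hwa : ∀ j ≤ N, (w j : ℂ) ≠ a := by
    intro j hj h
    have := hw j hj
    rw [h, ha] at this
    exact lt_irrefl _ this
  have hxre : ∀ j ≤ N, 0 < (x j).re := by
    intro j hj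
    rw [hx, cay_re a _ ha (hwa j hj)]
    apply div_pos
    · have := hw j hj
      nlinarith [norm_nonneg (w j : ℂ)]
    · have : a - (w j : ℂ) ≠ 0 := sub_ne_zero.2 (Ne.symm (hwa j hj))
      positivity
  have hmem : ∀ {j : ℕ}, j ∈ Finset.range (N + 1) → j ≤ N := by
    intro j hj
    have := Finset.mem_range.1 hj
    omega
  have hmem' : ∀ {j k : ℕ}, k ∈ (Finset.range (N + 1)).erase j → k ≤ N :=
    fun hk => hmem (Finset.mem_of_mem_erase hk)
  obtain ⟨b, hb⟩ : ∃ b : ℕ → ℂ → ℂ, ∀ k z, b k z = 1 - 2 * ((x k).re : ℂ) * interp3_kap a (x k) z :=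
    ⟨fun k z => 1 - 2 * ((x k).re : ℂ) * interp3_kap a (x k) z, fun _ _ => rfl⟩
  have hbfun : ∀ k, b k = fun z => 1 - 2 * ((x k).re : ℂ) * interp3_kap a (x k) z := fun k => funext (hb k)
  have hbc : ∀ k ≤ N, ContinuousOn (b k) (Metric.closedBall (0:ℂ) 1) := by
    intro k hk
    rw [hbfun]
    exact continuousOn_const.sub (continuousOn_const.mul (continuousOn_kap a (x k) ha (hxre k hk)))
  have hbd : ∀ k ≤ N, DifferentiableOn ℂ (b k) (Metric.ball (0:ℂ) 1) := by
    intro k hk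
    rw [hbfun]
    exact (differentiableOn_const _).sub
      ((differentiableOn_const _).mul (differentiableOn_kap a (x k) ha (hxre k hk)))
  -- lower bounds
  have hlow : ∀ j ≤ N, ∀ k ≤ N, k ≠ j → b k (w j) ≠ 0 ∧
      ‖(b k (w j))⁻¹‖ ≤ Real.exp (2 * q ^ 2 * (1 / ((k:ℝ) - j) ^ 2)) := by
    intro j hj k hk hkj
    have hm : 0 < |(k:ℝ) - j| := by
      apply abs_pos.2
      intro h
      apply hkj
      have : (k:ℝ) = j := by linarith
      exact_mod_cast this
    have h := bb_lower a (x k) (w j) ha (hxre k hk) (hwa j hj) A q (|(k:ℝ) - j|) t ht hA hq hAq hm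
      (by rw [hx]; exact hre k hk) (by rw [← hx]; exact hxre j hj) (hre j hj) (by
        rw [hx]
        have := him j hj k hk
        rwa [abs_sub_comm (j:ℝ) k] at this)
    rw [sq_abs] at h
    rw [hb]
    exact h
  have hupp : ∀ k ≤ N, ∀ z : ℂ, ‖z‖ ≤ 1 → ‖b k z‖ ≤ 1 := by
    intro k hk z hz
    rw [hb]
    exact bb_le a (x k) z ha hz (hxre k hk)
  have hprod : ∀ j ≤ N, ∀ z : ℂ, ‖z‖ ≤ 1 →
      ‖∏ k ∈ (Finset.range (N + 1)).erase j, b k z * (b k (w j))⁻¹‖ ≤ Real.exp (8 * q ^ 2) := by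
    intro j hj z hz
    rw [norm_prod]
    calc ∏ k ∈ (Finset.range (N + 1)).erase j, ‖b k z * (b k (w j))⁻¹‖
        ≤ ∏ k ∈ (Finset.range (N + 1)).erase j, Real.exp (2 * q ^ 2 * (1 / ((k:ℝ) - j) ^ 2)) := by
          apply Finset.prod_le_prod
          · intro k _
            exact norm_nonneg _
          · intro k hk
            have hk1 := hmem' hk
            have hk2 := Finset.ne_of_mem_erase hk
            rw [norm_mul]
            calc ‖b k z‖ * ‖(b k (w j))⁻¹‖ ≤ 1 * ‖(b k (w j))⁻¹‖ :=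
                  mul_le_mul_of_nonneg_right (hupp k hk1 z hz) (norm_nonneg _)
              _ = ‖(b k (w j))⁻¹‖ := one_mul _
              _ ≤ _ := (hlow j hj k hk1 hk2).2
      _ = Real.exp (∑ k ∈ (Finset.range (N + 1)).erase j, 2 * q ^ 2 * (1 / ((k:ℝ) - j) ^ 2)) := by
          rw [Real.exp_sum]
      _ ≤ Real.exp (8 * q ^ 2) := by
          apply Real.exp_le_exp.2
          rw [← Finset.mul_sum]
          have := sum_erase_sq N j
          nlinarith [sq_nonneg q]
  -- the sum of squares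
  have hsum : ∀ z : ℂ, ‖z‖ ≤ 1 → ∑ j ∈ Finset.range (N + 1),
      ‖2 * ((x j).re : ℂ) * interp3_kap a (x j) z‖ ^ 2 ≤ 4 + 64 * q ^ 2 := by
    intro z hz
    by_cases hza : z = a
    · rw [hza]
      have : ∑ j ∈ Finset.range (N + 1), ‖2 * ((x j).re : ℂ) * interp3_kap a (x j) a‖ ^ 2 = 0 := by
        apply Finset.sum_eq_zero
        intro j _
        rw [kap_self]
        simp
      rw [this]
      positivity
    · obtain ⟨j0, hj0, hmin⟩ := Finset.exists_min_image (Finset.range (N + 1))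
        (fun j => |(Cay a z).im - (x j).im|) ⟨0, by simp⟩
      rw [← Finset.add_sum_erase _ _ hj0]
      have h1 : ‖2 * ((x j0).re : ℂ) * interp3_kap a (x j0) z‖ ^ 2 ≤ 4 :=
        kap_le_two a (x j0) z ha hz (hxre j0 (hmem hj0))
      have h2 : ∑ j ∈ (Finset.range (N + 1)).erase j0, ‖2 * ((x j).re : ℂ) * interp3_kap a (x j) z‖ ^ 2 ≤
          ∑ j ∈ (Finset.range (N + 1)).erase j0, 16 * q ^ 2 * (1 / ((j:ℝ) - j0) ^ 2) := by
        apply Finset.sum_le_sum
        intro j hj
        have hjN := hmem' hj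
        have hjne := Finset.ne_of_mem_erase hj
        have hm0 : (j:ℝ) - j0 ≠ 0 := by
          intro h
          apply hjne
          have : (j:ℝ) = j0 := by linarith
          exact_mod_cast this
        have hm : 0 < ((j:ℝ) - j0) ^ 2 := by positivity
        have k1 := hmin j (Finset.mem_of_mem_erase hj)
        try simp only at k1
        have k2 := him j hjN j0 (hmem hj0)
        rw [← hx, ← hx] at k2
        have k3 : |(x j).im - (x j0).im| ≤
            |(Cay a z).im - (x j).im| + |(Cay a z).im - (x j0).im| := by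
          have := abs_sub_le (x j).im (Cay a z).im (x j0).im
          rw [abs_sub_comm (x j).im (Cay a z).im] at this
          exact this
        have k4 : t * |(j:ℝ) - j0| ≤ 2 * |(Cay a z).im - (x j).im| := by linarith
        have k5 : t ^ 2 * ((j:ℝ) - j0) ^ 2 ≤ 4 * ((Cay a z).im - (x j).im) ^ 2 := by
          have := pow_le_pow_left₀ (by positivity) k4 2
          rw [mul_pow, mul_pow, sq_abs, sq_abs] at this
          linarith
        have k6 := kap_im a (x j) z ha hz (hxre j hjN) hza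
        have k7 : 0 < ((Cay a z).im - (x j).im) ^ 2 := by
          have : 0 < t ^ 2 * ((j:ℝ) - j0) ^ 2 := by positivity
          linarith
        have k8 : (x j).re ^ 2 ≤ q ^ 2 * t ^ 2 := by
          rw [← mul_pow]
          apply pow_le_pow_left₀ (hxre j hjN).le
          have := hre j hjN
          rw [← hx] at this
          linarith
        rw [mul_one_div, le_div_iff₀ hm]
        have k9 : ‖2 * ((x j).re : ℂ) * interp3_kap a (x j) z‖ ^ 2 * (t ^ 2 * ((j:ℝ) - j0) ^ 2) ≤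
            16 * q ^ 2 * t ^ 2 := by
          have := mul_le_mul_of_nonneg_left k5
            (sq_nonneg ‖2 * ((x j).re : ℂ) * interp3_kap a (x j) z‖)
          nlinarith
        have ht2 : 0 < t ^ 2 := by positivity
        have k10 : (‖2 * ((x j).re : ℂ) * interp3_kap a (x j) z‖ ^ 2 * ((j:ℝ) - j0) ^ 2) * t ^ 2 ≤
            (16 * q ^ 2) * t ^ 2 := by
          calc _ = ‖2 * ((x j).re : ℂ) * interp3_kap a (x j) z‖ ^ 2 * (t ^ 2 * ((j:ℝ) - j0) ^ 2) := by ring
            _ ≤ _ := k9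
        exact le_of_mul_le_mul_right k10 ht2
      have h3 : ∑ j ∈ (Finset.range (N + 1)).erase j0, 16 * q ^ 2 * (1 / ((j:ℝ) - j0) ^ 2) ≤
          64 * q ^ 2 := by
        rw [← Finset.mul_sum]
        have := sum_erase_sq N j0
        nlinarith [sq_nonneg q]
      linarith
  obtain ⟨F, hF⟩ : ∃ F : ℂ → ℂ, F = fun z => ∑ j ∈ Finset.range (N + 1),
      c j * ((∏ k ∈ (Finset.range (N + 1)).erase j, b k z * (b k (w j))⁻¹) *
        (2 * ((x j).re : ℂ) * interp3_kap a (x j) z) ^ 2) := ⟨_, rfl⟩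
  have hFc : ContinuousOn F (Metric.closedBall (0:ℂ) 1) := by
    rw [hF]
    apply continuousOn_finsetSum
    intro j hj
    apply ContinuousOn.mul continuousOn_const
    apply ContinuousOn.mul
    · apply continuousOn_finsetProd
      intro k hk
      exact (hbc k (hmem' hk)).mul continuousOn_const
    · exact (continuousOn_const.mul (continuousOn_kap a (x j) ha (hxre j (hmem hj)))).pow 2
  have hFd : DifferentiableOn ℂ F (Metric.ball (0:ℂ) 1) := by
    rw [hF]
    apply DifferentiableOn.fun_sum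
    intro j hj
    apply DifferentiableOn.mul (differentiableOn_const _)
    apply DifferentiableOn.mul
    · apply DifferentiableOn.fun_finsetProd
      intro k hk
      exact (hbd k (hmem' hk)).mul (differentiableOn_const _)
    · exact ((differentiableOn_const _).mul
        (differentiableOn_kap a (x j) ha (hxre j (hmem hj)))).pow 2
  obtain ⟨G, hG⟩ := exists_da F hFc hFd
  refine ⟨G, norm_le_of (by positivity) ?_, ?_⟩
  · intro z
    have hz : ‖(z:ℂ)‖ ≤ 1 := mem_closedBall_zero_iff.1 z.2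
    rw [hG, hF]
    refine (norm_sum_le _ _).trans ?_
    calc ∑ j ∈ Finset.range (N + 1), ‖c j * ((∏ k ∈ (Finset.range (N + 1)).erase j,
            b k z * (b k (w j))⁻¹) * (2 * ((x j).re : ℂ) * interp3_kap a (x j) z) ^ 2)‖
        ≤ ∑ j ∈ Finset.range (N + 1), Real.exp (8 * q ^ 2) *
            ‖2 * ((x j).re : ℂ) * interp3_kap a (x j) z‖ ^ 2 := by
          apply Finset.sum_le_sum
          intro j hj
          rw [norm_mul, norm_mul, norm_pow]
          have h1 := hc j (hmem hj)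
          have h2 := hprod j (hmem hj) z hz
          calc ‖c j‖ * (‖∏ k ∈ (Finset.range (N + 1)).erase j, b k z * (b k (w j))⁻¹‖ *
                ‖2 * ((x j).re : ℂ) * interp3_kap a (x j) z‖ ^ 2)
              ≤ 1 * (Real.exp (8 * q ^ 2) * ‖2 * ((x j).re : ℂ) * interp3_kap a (x j) z‖ ^ 2) := by
                apply mul_le_mul h1 _ (by positivity) zero_le_one
                exact mul_le_mul_of_nonneg_right h2 (by positivity)
            _ = _ := one_mul _
      _ = Real.exp (8 * q ^ 2) * ∑ j ∈ Finset.range (N + 1),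
            ‖2 * ((x j).re : ℂ) * interp3_kap a (x j) z‖ ^ 2 := by rw [Finset.mul_sum]
      _ ≤ Real.exp (8 * q ^ 2) * (4 + 64 * q ^ 2) :=
          mul_le_mul_of_nonneg_left (hsum z hz) (Real.exp_pos _).le
      _ = _ := mul_comm _ _
  · intro i hi
    rw [hG, hF]
    simp only
    rw [Finset.sum_eq_single i]
    · have h1 : ∏ k ∈ (Finset.range (N + 1)).erase i, b k (w i) * (b k (w i))⁻¹ = 1 := by
        apply Finset.prod_eq_one
        intro k hk
        exact mul_inv_cancel₀ (hlow i hi k (hmem' hk) (Finset.ne_of_mem_erase hk)).1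
      rw [h1, bb_zero a (x i) (w i) ha (hxre i hi) (hwa i hi) (hx i).symm]
      ring
    · intro j hj hji
      have h0 : b i (w i) = 0 := by
        rw [hb, bb_zero a (x i) (w i) ha (hxre i hi) (hwa i hi) (hx i).symm]
        ring
      have h1 : ∏ k ∈ (Finset.range (N + 1)).erase j, b k (w i) * (b k (w j))⁻¹ = 0 := by
        apply Finset.prod_eq_zero (i := i)
        · rw [Finset.mem_erase]
          exact ⟨Ne.symm hji, Finset.mem_range.2 (by omega)⟩
        · rw [h0, zero_mul]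
      rw [h1]
      ring
    · intro h
      exfalso
      apply h
      exact Finset.mem_range.2 (by omega)

end Pool.Agent.Helper203.DS
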