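import Pool.Agent.KS6_19.DA.L.Helper203.DS.Defs3
import Pool.Agent.KS6_19.DA.L.Helper203.DS.CayL

open Metric Set Filter Topology

noncomputable section

namespace Pool.Agent.Helper203.DS

theorem o2_point (a : ℂ) (ha : ‖a‖ = 1) (Y : ℝ) (hY : Y ≠ 0) :
    ∃ z : Pt, (z:ℂ) ≠ a ∧ Cay a z = Complex.I * Y ∧ ‖(z:ℂ) - a‖ ≤ 2 / |Y| := by
  have hw : (Complex.I * Y + 1 : ℂ) ≠ 0 := by
    intro h
    have := congrArg Complex.re h
    simp at this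
  have hpos : 0 < ‖(Complex.I * Y + 1 : ℂ)‖ := norm_pos_iff.mpr hw
  have hnorm : ‖(Complex.I * Y - 1 : ℂ)‖ = ‖(Complex.I * Y + 1 : ℂ)‖ := by
    rw [← sq_eq_sq₀ (norm_nonneg _) (norm_nonneg _), ← Complex.normSq_eq_norm_sq,
      ← Complex.normSq_eq_norm_sq, Complex.normSq_apply, Complex.normSq_apply]
    simp
  have hz1 : ‖ic a (Complex.I * Y)‖ = 1 := by
    unfold ic
    rw [norm_div, norm_mul, ha, hnorm, one_mul, div_self hpos.ne']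
  have hsub := ic_sub a (Complex.I * Y) ha hw
  refine ⟨⟨ic a (Complex.I * Y), by rw [mem_closedBall_zero_iff]; exact hz1.le⟩, ?_, ?_, ?_⟩
  · intro h
    have h2 : ic a (Complex.I * Y) = a := h
    rw [h2, sub_self, norm_zero] at hsub
    have : 0 < 2 / ‖(Complex.I * Y + 1 : ℂ)‖ := by positivity
    linarith
  · exact cay_ic a _ ha hw
  · show ‖ic a (Complex.I * Y) - a‖ ≤ 2 / |Y|
    rw [hsub]
    have hYp : 0 < |Y| := abs_pos.mpr hY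
    have : |Y| ≤ ‖(Complex.I * Y + 1 : ℂ)‖ := by
      have h3 := Complex.abs_im_le_norm (Complex.I * Y + 1 : ℂ)
      simpa using h3
    exact div_le_div_of_nonneg_left (by norm_num) hYp this

theorem o2_re (a : ℂ) (ha : ‖a‖ = 1) (z : Pt) (hz : (z:ℂ) ≠ a) : 0 ≤ (Cay a z).re := by
  rw [cay_re a z ha hz]
  have h1 : ‖(z:ℂ)‖ ≤ 1 := mem_closedBall_zero_iff.mp z.2
  have h2 : 0 ≤ ‖(z:ℂ)‖ := norm_nonneg _
  apply div_nonneg _ (by positivity)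
  nlinarith

theorem limB_re (a : ℂ) (ha : ‖a‖ = 1) (b : ℂ) (Φ : Pt → Pt) (h : LimB a b Φ) : 0 ≤ b.re := by
  apply le_of_forall_pos_le_add
  intro ε hε
  obtain ⟨δ, hδ, hh⟩ := h ε hε
  have hYpos : 0 < 2 / δ + 1 := by positivity
  obtain ⟨z, hza, hzc, hzd⟩ := o2_point a ha (2 / δ + 1) hYpos.ne'
  rw [abs_of_pos hYpos] at hzd
  have hlt : 2 / (2 / δ + 1) < δ := by
    rw [div_lt_iff₀ hYpos, mul_add, mul_div_cancel₀ _ hδ.ne']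
    linarith
  obtain ⟨h1, h2⟩ := hh z hza (lt_of_le_of_lt hzd hlt)
  have h3 := o2_re a ha (Φ z) h1
  have h4 := Complex.abs_re_le_norm (Cay a (Φ z) - Cay a z - b)
  rw [hzc] at h2 h4
  have h5 : (Cay a (Φ z) - Complex.I * ((2 / δ + 1 : ℝ) : ℂ) - b).re = (Cay a (Φ z)).re - b.re := by
    simp [Complex.sub_re, Complex.mul_re]
  rw [h5] at h4
  have h6 := (abs_lt.mp (lt_of_le_of_lt h4 h2)).2
  linarith

theorem o2_im (a : ℂ) (ha : ‖a‖ = 1) (c : ℂ) (Φ : Pt → Pt) (ε δ Y : ℝ) (hδ : 0 < δ)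
    (hh : ∀ z : Pt, (z:ℂ) ≠ a → ‖(z:ℂ) - a‖ < δ →
      (Φ z : ℂ) ≠ a ∧ ‖(Cay a (Φ z) - Cay a z) * Cay a z - c‖ < ε)
    (hY : |Y| = 2 / δ + 1) : ∃ u : ℝ, 0 ≤ u ∧ |u * Y - c.im| < ε := by
  have hYpos : 0 < 2 / δ + 1 := by positivity
  have hY0 : Y ≠ 0 := by
    intro h0
    rw [h0, abs_zero] at hY
    linarith
  obtain ⟨z, hza, hzc, hzd⟩ := o2_point a ha Y hY0
  rw [hY] at hzd
  have hlt : 2 / (2 / δ + 1) < δ := by
    rw [div_lt_iff₀ hYpos, mul_add, mul_div_cancel₀ _ hδ.ne']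
    linarith
  obtain ⟨h1, h2⟩ := hh z hza (lt_of_le_of_lt hzd hlt)
  refine ⟨(Cay a (Φ z)).re, o2_re a ha (Φ z) h1, ?_⟩
  have h4 := Complex.abs_im_le_norm ((Cay a (Φ z) - Cay a z) * Cay a z - c)
  rw [hzc] at h2 h4
  have h5 : ((Cay a (Φ z) - Complex.I * (Y : ℂ)) * (Complex.I * (Y : ℂ)) - c).im =
      (Cay a (Φ z)).re * Y - c.im := by
    simp [Complex.sub_re, Complex.mul_re, Complex.mul_im, Complex.sub_im]
  rw [h5] at h4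
  exact lt_of_le_of_lt h4 h2

theorem limC_im (a : ℂ) (ha : ‖a‖ = 1) (c : ℂ) (Φ : Pt → Pt) (h : LimC a c Φ) : c.im = 0 := by
  apply le_antisymm
  · apply le_of_forall_pos_le_add
    intro ε hε
    obtain ⟨δ, hδ, hh⟩ := h ε hε
    have hYpos : 0 < 2 / δ + 1 := by positivity
    obtain ⟨u, hu, hu2⟩ := o2_im a ha c Φ ε δ (-(2 / δ + 1)) hδ hh (by rw [abs_neg, abs_of_pos hYpos])
    have h6 := (abs_lt.mp hu2).1
    nlinarith
  · apply le_of_forall_pos_le_add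
    intro ε hε
    obtain ⟨δ, hδ, hh⟩ := h ε hε
    have hYpos : 0 < 2 / δ + 1 := by positivity
    obtain ⟨u, hu, hu2⟩ := o2_im a ha c Φ ε δ (2 / δ + 1) hδ hh (abs_of_pos hYpos)
    have h6 := (abs_lt.mp hu2).2
    nlinarith

theorem limC_limB (a : ℂ) (ha : ‖a‖ = 1) (c : ℂ) (Φ : Pt → Pt) (h : LimC a c Φ) :
    LimB a 0 Φ := by
  intro ε hε
  obtain ⟨δ₁, hδ₁, hh⟩ := h 1 one_pos
  have hc0 : 0 < ‖c‖ + 1 := by positivity
  refine ⟨min δ₁ (min 1 (ε / (‖c‖ + 1))), lt_min hδ₁ (lt_min one_pos (by positivity)), ?_⟩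
  intro z hza hz
  obtain ⟨h1, h2⟩ := hh z hza (lt_of_lt_of_le hz (min_le_left _ _))
  refine ⟨h1, ?_⟩
  have hz1 : ‖(z:ℂ) - a‖ < 1 :=
    lt_of_lt_of_le hz ((min_le_right _ _).trans (min_le_left _ _))
  have hz2 : ‖(z:ℂ) - a‖ < ε / (‖c‖ + 1) :=
    lt_of_lt_of_le hz ((min_le_right _ _).trans (min_le_right _ _))
  rw [lt_div_iff₀ hc0] at hz2
  rw [sub_zero]
  set D := Cay a (Φ z) - Cay a z with hD
  have hs0 : 0 < ‖(z:ℂ) - a‖ := norm_pos_iff.mpr (sub_ne_zero.mpr hza)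
  have hK : 1 ≤ ‖Cay a z‖ * ‖(z:ℂ) - a‖ := by
    have e1 : ‖Cay a z‖ * ‖(z:ℂ) - a‖ = ‖a + z‖ := by
      unfold Cay
      rw [norm_div, norm_sub_rev a, div_mul_cancel₀ _ hs0.ne']
    rw [e1]
    have e2 : ‖(2 * a : ℂ)‖ = 2 := by rw [norm_mul, ha]; norm_num
    have e3 : (2 * a : ℂ) = (a + z) - (z - a) := by ring
    have e4 := norm_sub_le (a + (z:ℂ)) (z - a)
    rw [← e3, e2] at e4
    linarith
  have hDK : ‖D‖ * ‖Cay a z‖ < ‖c‖ + 1 := by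
    rw [← norm_mul]
    have e5 := norm_add_le (D * Cay a z - c) c
    rw [sub_add_cancel] at e5
    linarith
  have hDn : 0 ≤ ‖D‖ := norm_nonneg _
  calc ‖D‖ = ‖D‖ * 1 := (mul_one _).symm
    _ ≤ ‖D‖ * (‖Cay a z‖ * ‖(z:ℂ) - a‖) := mul_le_mul_of_nonneg_left hK hDn
    _ = (‖D‖ * ‖Cay a z‖) * ‖(z:ℂ) - a‖ := by ring
    _ ≤ (‖c‖ + 1) * ‖(z:ℂ) - a‖ := mul_le_mul_of_nonneg_right hDK.le hs0.le
    _ < ε := by rw [mul_comm]; exact hz2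

end Pool.Agent.Helper203.DS
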