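import Pool.Agent.KS6_19.DA.L.Helper203.DS.Defs3
import Pool.Agent.KS6_19.DA.L.Helper203.DS.CayL
import Pool.Agent.KS6_19.DA.L.Helper203.DS.Crit2
import Pool.Agent.KS6_19.DA.L.Helper203.DS.Interp3
import Pool.Agent.KS6_19.DA.L.Helper203.DS.LimRe
import Pool.Agent.KS6_19.DA.L.Helper203.DS.NoEig

open Metric Set Filter Topology

noncomputable section

namespace Pool.Agent.Helper203.DS

theorem imag_bb2_lip (g : ℂ → ℂ) (c : ℂ) (R : ℝ) (hg : DifferentiableOn ℂ g (ball c R))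
    (hb : ∀ z ∈ ball c R, ‖g z‖ ≤ 1) (z : ℂ) (hz : z ∈ ball c R) :
    ‖g z - g c‖ ≤ 2 / R * ‖z - c‖ := by
  have hR : 0 < R := pos_of_mem_ball hz
  have hc : c ∈ ball c R := mem_ball_self hR
  have h := Complex.dist_le_div_mul_dist_of_mapsTo_ball (R₂ := 2) hg (by
    intro w hw
    rw [mem_closedBall, dist_eq_norm]
    calc ‖g w - g c‖ ≤ ‖g w‖ + ‖g c‖ := norm_sub_le _ _
      _ ≤ 1 + 1 := add_le_add (hb w hw) (hb c hc)
      _ = 2 := by norm_num) hz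
  rwa [dist_eq_norm, dist_eq_norm] at h

theorem imag_bb2_bdd (f : DA) (hf : ‖f‖ ≤ 1) (z : ℂ) : ‖ext f.1 z‖ ≤ 1 := by
  by_cases hz : z ∈ Metric.closedBall (0:ℂ) 1
  · rw [ext_of_mem _ hz]
    exact (norm_apply_le f _).trans hf
  · unfold ext
    rw [dif_neg hz, norm_zero]
    exact zero_le_one

theorem imag_bb2_ball (c : ℂ) (hc : ‖c‖ < 1) : ball c (1 - ‖c‖) ⊆ ball (0:ℂ) 1 := by
  intro z hz
  rw [mem_ball, dist_eq_norm] at hz
  rw [mem_ball_zero_iff]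
  have : ‖z‖ ≤ ‖z - c‖ + ‖c‖ := by
    calc ‖z‖ = ‖(z - c) + c‖ := by rw [sub_add_cancel]
      _ ≤ _ := norm_add_le _ _
  linarith

theorem imag_bb2_disc (f : DA) (hf : ‖f‖ ≤ 1) (c z : ℂ) (hc : ‖c‖ < 1) (hz : ‖z - c‖ < 1 - ‖c‖) :
    ‖ext f.1 z - ext f.1 c‖ ≤ 2 / (1 - ‖c‖) * ‖z - c‖ :=
  imag_bb2_lip (ext f.1) c (1 - ‖c‖) ((differentiableOn_da f).mono (imag_bb2_ball c hc))
    (fun w _ => imag_bb2_bdd f hf w) z (by rw [mem_ball, dist_eq_norm]; exact hz)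

/-- normal families along an ultrafilter -/
theorem imag_bb2_montel (𝒰 : Ultrafilter ℕ) (f : ℕ → DA) (hf : ∀ k, ‖f k‖ ≤ 1) :
    ∃ F : ℂ → ℂ, DifferentiableOn ℂ F (ball 0 1) ∧ (∀ z ∈ ball (0:ℂ) 1, ‖F z‖ ≤ 1) ∧
      (∀ z, Tendsto (fun k => ext (f k).1 z) 𝒰 (𝓝 (F z))) := by
  have hex : ∀ z : ℂ, ∃ w : ℂ, w ∈ closedBall (0:ℂ) 1 ∧
      Tendsto (fun k => ext (f k).1 z) 𝒰 (𝓝 w) := by
    intro z
    have hcomp : IsCompact (closedBall (0:ℂ) 1) := isCompact_closedBall 0 1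
    obtain ⟨w, hw, hlim⟩ := hcomp.ultrafilter_le_nhds (𝒰.map fun k => ext (f k).1 z) (by
      rw [le_principal_iff]
      refine Filter.mem_map.2 (Filter.Eventually.of_forall fun k => ?_)
      show ext (f k).1 z ∈ closedBall (0:ℂ) 1
      rw [mem_closedBall_zero_iff]
      exact imag_bb2_bdd _ (hf k) z)
    exact ⟨w, hw, hlim⟩
  choose F hF1 hF2 using hex
  refine ⟨F, ?_, fun z _ => ?_, hF2⟩
  · have hlip : ∀ c z : ℂ, ‖c‖ < 1 → ‖z - c‖ < 1 - ‖c‖ → ‖F z - F c‖ ≤ 2 / (1 - ‖c‖) * ‖z - c‖ := by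
      intro c z hc hz
      have h1 : Tendsto (fun k => ‖ext (f k).1 z - ext (f k).1 c‖) 𝒰 (𝓝 ‖F z - F c‖) :=
        ((hF2 z).sub (hF2 c)).norm
      exact le_of_tendsto h1 (Filter.Eventually.of_forall fun k => imag_bb2_disc _ (hf k) c z hc hz)
    have hloc : TendstoLocallyUniformlyOn (fun k => ext (f k).1) F (𝒰 : Filter ℕ) (ball (0:ℂ) 1) := by
      rw [Metric.tendstoLocallyUniformlyOn_iff]
      intro ε hε c hc
      rw [mem_ball_zero_iff] at hc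
      have hR : 0 < 1 - ‖c‖ := by linarith
      obtain ⟨δ, hδ, hδ1, hδ2⟩ : ∃ δ : ℝ, 0 < δ ∧ δ ≤ 1 - ‖c‖ ∧ 2 / (1 - ‖c‖) * δ ≤ ε / 4 := by
        refine ⟨min (1 - ‖c‖) ((1 - ‖c‖) * ε / 8), lt_min hR (by positivity), min_le_left _ _, ?_⟩
        calc 2 / (1 - ‖c‖) * min (1 - ‖c‖) ((1 - ‖c‖) * ε / 8) ≤
              2 / (1 - ‖c‖) * ((1 - ‖c‖) * ε / 8) :=
            mul_le_mul_of_nonneg_left (min_le_right _ _) (by positivity)
          _ = ε / 4 := by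
            field_simp
            ring
      refine ⟨ball c δ, mem_nhdsWithin_of_mem_nhds (ball_mem_nhds c hδ), ?_⟩
      have h2 := (Metric.tendsto_nhds.1 (hF2 c)) (ε / 4) (by positivity)
      filter_upwards [h2] with k hk z hz
      rw [mem_ball, dist_eq_norm] at hz
      have hz' : ‖z - c‖ < 1 - ‖c‖ := hz.trans_le hδ1
      have e1 := imag_bb2_disc (f k) (hf k) c z hc hz'
      have e2 := hlip c z hc hz'
      have e3 : 2 / (1 - ‖c‖) * ‖z - c‖ ≤ ε / 4 :=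
        (mul_le_mul_of_nonneg_left hz.le (by positivity)).trans hδ2
      rw [dist_eq_norm] at hk
      rw [dist_eq_norm]
      have e4 : F z - ext (f k).1 z = (F z - F c) - (ext (f k).1 z - ext (f k).1 c) -
          (ext (f k).1 c - F c) := by ring
      rw [e4]
      calc ‖(F z - F c) - (ext (f k).1 z - ext (f k).1 c) - (ext (f k).1 c - F c)‖ ≤
            ‖(F z - F c) - (ext (f k).1 z - ext (f k).1 c)‖ + ‖ext (f k).1 c - F c‖ :=
          norm_sub_le _ _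
        _ ≤ (‖F z - F c‖ + ‖ext (f k).1 z - ext (f k).1 c‖) + ‖ext (f k).1 c - F c‖ := by
          gcongr
          exact norm_sub_le _ _
        _ < ε := by linarith
    exact hloc.differentiableOn (Filter.Eventually.of_forall fun k => differentiableOn_da (f k))
      isOpen_ball
  · exact mem_closedBall_zero_iff.1 (hF1 z)

theorem imag_bb2_iter {T : DA →L[ℂ] DA} {Φ : Pt → Pt} (h : IsComp T Φ) (f : DA) (m : ℂ)
    (hm : ‖m‖ ≤ 1) (e : ℝ) (he : ‖T f - m • f‖ ≤ e) (n : ℕ) (z : Pt) :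
    ‖f.1 (Φ^[n] z) - m ^ n * f.1 z‖ ≤ n * e := by
  induction n with
  | zero => simp
  | succ n ih =>
    have e0 : 0 ≤ e := (norm_nonneg _).trans he
    have e1 : f.1 (Φ^[n + 1] z) = (T f).1 (Φ^[n] z) := by
      rw [Function.iterate_succ_apply', h.eq]
    have e2 : f.1 (Φ^[n + 1] z) - m ^ (n + 1) * f.1 z =
        (T f - m • f).1 (Φ^[n] z) + m * (f.1 (Φ^[n] z) - m ^ n * f.1 z) := by
      rw [e1, sub_apply, smul_apply]
      ring
    rw [e2]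
    have e3 : ‖(T f - m • f).1 (Φ^[n] z)‖ ≤ e := (norm_apply_le _ _).trans he
    have e4 : ‖m * (f.1 (Φ^[n] z) - m ^ n * f.1 z)‖ ≤ 1 * (n * e) := by
      rw [norm_mul]
      exact mul_le_mul hm ih (norm_nonneg _) zero_le_one
    calc ‖(T f - m • f).1 (Φ^[n] z) + m * (f.1 (Φ^[n] z) - m ^ n * f.1 z)‖ ≤ e + 1 * (n * e) :=
          (norm_add_le _ _).trans (add_le_add e3 e4)
      _ = ((n + 1 : ℕ) : ℝ) * e := by
        push_cast
        ring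

theorem imag_bb2_inn {Φ : Pt → Pt} (hin : ∀ z : Pt, ‖(z:ℂ)‖ < 1 → ‖(Φ z : ℂ)‖ < 1) (n : ℕ)
    (z : Pt) (hz : ‖(z:ℂ)‖ < 1) : ‖(Φ^[n] z : ℂ)‖ < 1 := by
  induction n with
  | zero => exact hz
  | succ n ih =>
    rw [Function.iterate_succ_apply']
    exact hin _ ih

theorem imag_bb2_half (f : DA) (hf : ‖f‖ = 1) : ∃ y : Pt, ‖(y:ℂ)‖ < 1 ∧ 1 / 2 ≤ ‖f.1 y‖ := by
  by_contra hcon
  push Not at hcon
  have h1 : ‖f‖ ≤ 1 / 2 := by
    refine norm_le_of (by norm_num) (fun z => ?_)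
    have hz : (z : ℂ) ∈ closure (ball (0:ℂ) 1) := by
      rw [closure_ball _ one_ne_zero]
      exact z.2
    have h2 : ContinuousWithinAt (fun w => ‖ext f.1 w‖) (ball (0:ℂ) 1) (z : ℂ) :=
      (((continuousOn_da f) (z : ℂ) z.2).mono ball_subset_closedBall).norm
    have h3 := ContinuousWithinAt.closure_le hz h2 (continuousWithinAt_const (b := (1:ℝ) / 2)) (by
      intro w hw
      have hw' : w ∈ closedBall (0:ℂ) 1 := ball_subset_closedBall hw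
      rw [ext_of_mem _ hw']
      exact (hcon ⟨w, hw'⟩ (mem_ball_zero_iff.1 hw)).le)
    rwa [ext_apply] at h3
  rw [hf] at h1
  norm_num at h1

theorem imag_bb2_seq {T : DA →L[ℂ] DA} {Φ : Pt → Pt} (h : IsComp T Φ) (a : Pt) (ha : ‖(a:ℂ)‖ = 1)
    (N : ℕ) (hN : ∀ z : Pt, Φ^[N] z = a ∨ ‖(Φ^[N] z : ℂ)‖ < 1)
    (hin : ∀ z : Pt, ‖(z:ℂ)‖ < 1 → ‖(Φ z : ℂ)‖ < 1) (c : ℂ) (hlim : LimC a c Φ)
    (m : ℂ) (hm0 : 0 < ‖m‖) (hm1 : ‖m‖ < 1) (f : ℕ → DA) (hf : ∀ k, ‖f k‖ = 1)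
    (hT : ∀ k : ℕ, ‖T (f k) - m • f k‖ ≤ 1 / ((k:ℝ) + 1)) (δ : ℝ) (hδ : 0 < δ) (K0 : ℕ) :
    ∃ k ≥ K0, ∃ x : Pt, ‖(x:ℂ)‖ < 1 ∧ ‖(x:ℂ) - a‖ < δ ∧ ‖m‖ ^ N / 3 ≤ ‖(f k).1 x‖ := by
  choose y hy1 hy2 using fun k => imag_bb2_half (f k) (hf k)
  set 𝒰 : Ultrafilter ℕ := Filter.hyperfilter ℕ with h𝒰
  have hle : (𝒰 : Filter ℕ) ≤ atTop := Nat.hyperfilter_le_atTop
  have hf1 : ∀ k, ‖f k‖ ≤ 1 := fun k => (hf k).le
  -- error tends to zero
  have herr : Tendsto (fun k : ℕ => 1 / ((k:ℝ) + 1)) (𝒰 : Filter ℕ) (𝓝 0) :=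
    tendsto_one_div_add_atTop_nhds_zero_nat.mono_left hle
  obtain ⟨F, hFd, hF1, hFlim⟩ := imag_bb2_montel 𝒰 f hf1
  have heig : ∀ z : Pt, ‖(z:ℂ)‖ < 1 → F (Φ z) = m * F z := by
    intro z _
    have l1 : Tendsto (fun k => (f k).1 (Φ z) - m * (f k).1 z) (𝒰 : Filter ℕ)
        (𝓝 (F (Φ z) - m * F z)) := by
      have q1 := hFlim (Φ z : ℂ)
      have q2 := hFlim (z : ℂ)
      simp only [ext_apply] at q1 q2
      exact q1.sub (tendsto_const_nhds.mul q2)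
    have l2 : Tendsto (fun k => (f k).1 (Φ z) - m * (f k).1 z) (𝒰 : Filter ℕ) (𝓝 0) := by
      refine squeeze_zero_norm (fun k => ?_) herr
      have q3 := imag_bb2_iter h (f k) m hm1.le _ (hT k) 1 z
      simp only [Function.iterate_one, pow_one, Nat.cast_one, one_mul] at q3
      exact q3
    have l3 := tendsto_nhds_unique l1 l2
    exact sub_eq_zero.1 l3
  have hF0 := no_eigen h a ha hin 0 (by simp) (limC_limB a ha c Φ hlim) m hm0 hm1 F hFd hF1 heig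
  -- the points
  set x : ℕ → Pt := fun k => Φ^[N] (y k) with hx
  have hx1 : ∀ k, ‖(x k : ℂ)‖ < 1 := fun k => imag_bb2_inn hin N (y k) (hy1 k)
  have hxf : ∀ᶠ k in (𝒰 : Filter ℕ), ‖m‖ ^ N / 3 ≤ ‖(f k).1 (x k)‖ := by
    have l4 : Tendsto (fun k : ℕ => (N : ℝ) * (1 / ((k:ℝ) + 1))) (𝒰 : Filter ℕ) (𝓝 ((N:ℝ) * 0)) :=
      tendsto_const_nhds.mul herr
    rw [mul_zero] at l4
    have hp : 0 < ‖m‖ ^ N / 6 := by positivity
    filter_upwards [l4.eventually (gt_mem_nhds hp)] with k hk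
    have q4 := imag_bb2_iter h (f k) m hm1.le _ (hT k) N (y k)
    have q5 : ‖m ^ N * (f k).1 (y k)‖ ≤ ‖(f k).1 (Φ^[N] (y k))‖ +
        ‖(f k).1 (Φ^[N] (y k)) - m ^ N * (f k).1 (y k)‖ := by
      have : m ^ N * (f k).1 (y k) = (f k).1 (Φ^[N] (y k)) -
          ((f k).1 (Φ^[N] (y k)) - m ^ N * (f k).1 (y k)) := by ring
      calc ‖m ^ N * (f k).1 (y k)‖ = ‖(f k).1 (Φ^[N] (y k)) -
          ((f k).1 (Φ^[N] (y k)) - m ^ N * (f k).1 (y k))‖ := by rw [← this]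
        _ ≤ _ := norm_sub_le _ _
    rw [norm_mul, norm_pow] at q5
    have q6 : ‖m‖ ^ N * (1 / 2) ≤ ‖m‖ ^ N * ‖(f k).1 (y k)‖ :=
      mul_le_mul_of_nonneg_left (hy2 k) (by positivity)
    show ‖m‖ ^ N / 3 ≤ ‖(f k).1 (Φ^[N] (y k))‖
    linarith
  have hcompact : IsCompact (Set.univ : Set Pt) := by
    have : CompactSpace Pt := isCompact_iff_compactSpace.1 (isCompact_closedBall (0:ℂ) 1)
    exact isCompact_univ
  obtain ⟨x0, -, hx0⟩ := hcompact.ultrafilter_le_nhds (𝒰.map x) (by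
    rw [le_principal_iff]
    exact Filter.univ_mem)
  have hx0' : Tendsto x (𝒰 : Filter ℕ) (𝓝 x0) := hx0
  have hx0C : Tendsto (fun k => (x k : ℂ)) (𝒰 : Filter ℕ) (𝓝 (x0 : ℂ)) :=
    (continuous_subtype_val.tendsto x0).comp hx0'
  have hrange : x0 ∈ range (Φ^[N]) := by
    have hcl : IsClosed (range (Φ^[N])) := by
      have : CompactSpace Pt := isCompact_iff_compactSpace.1 (isCompact_closedBall (0:ℂ) 1)
      exact (isCompact_range (h.cont.iterate N)).isClosed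
    exact hcl.mem_of_tendsto hx0' (Filter.Eventually.of_forall fun k => ⟨y k, rfl⟩)
  obtain ⟨y0, hy0⟩ := hrange
  rcases hN y0 with hc1 | hc1
  · rw [hy0] at hc1
    subst hc1
    have e1 : ∀ᶠ k in (𝒰 : Filter ℕ), ‖(x k : ℂ) - x0‖ < δ := by
      filter_upwards [(Metric.tendsto_nhds.1 hx0C) δ hδ] with k hk
      rwa [dist_eq_norm] at hk
    have e2 : ∀ᶠ k in (𝒰 : Filter ℕ), K0 ≤ k := hle (Filter.eventually_ge_atTop K0)
    obtain ⟨k, hk1, hk2, hk3⟩ := (e1.and (e2.and hxf)).exists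
    exact ⟨k, hk2, x k, hx1 k, hk1, hk3⟩
  · exfalso
    rw [hy0] at hc1
    have hp : 0 < 1 - ‖(x0 : ℂ)‖ := by linarith
    have e1 : Tendsto (fun k => ‖(x k : ℂ) - x0‖) (𝒰 : Filter ℕ) (𝓝 0) := by
      have := (hx0C.sub_const (x0 : ℂ)).norm
      rwa [sub_self, norm_zero] at this
    have e2 : Tendsto (fun k => ‖(f k).1 x0‖) (𝒰 : Filter ℕ) (𝓝 0) := by
      have q := (hFlim (x0 : ℂ)).norm
      rw [hF0 _ (mem_ball_zero_iff.2 hc1), norm_zero] at q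
      simp only [ext_apply] at q
      exact q
    have e3 : Tendsto (fun k => 2 / (1 - ‖(x0 : ℂ)‖) * ‖(x k : ℂ) - x0‖ + ‖(f k).1 x0‖)
        (𝒰 : Filter ℕ) (𝓝 (2 / (1 - ‖(x0 : ℂ)‖) * 0 + 0)) := (tendsto_const_nhds.mul e1).add e2
    rw [mul_zero, add_zero] at e3
    have hp3 : 0 < ‖m‖ ^ N / 3 := by positivity
    obtain ⟨k, hk1, hk2, hk3⟩ := ((e3.eventually (gt_mem_nhds hp3)).and
      ((e1.eventually (gt_mem_nhds hp)).and hxf)).exists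
    have e4 := imag_bb2_disc (f k) (hf1 k) (x0 : ℂ) (x k : ℂ) hc1 hk2
    rw [ext_apply, ext_apply] at e4
    have e5 : ‖(f k).1 (x k)‖ ≤ ‖(f k).1 (x k) - (f k).1 x0‖ + ‖(f k).1 x0‖ := by
      calc ‖(f k).1 (x k)‖ = ‖((f k).1 (x k) - (f k).1 x0) + (f k).1 x0‖ := by rw [sub_add_cancel]
        _ ≤ _ := norm_add_le _ _
    linarith

theorem imag_bb2_ne (a z : ℂ) (ha : ‖a‖ = 1) (hz : ‖z‖ < 1) : z ≠ a := by
  rintro rfl
  linarith

theorem imag_bb2_repos (a z : ℂ) (ha : ‖a‖ = 1) (hz : ‖z‖ < 1) : 0 < (Cay a z).re := by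
  have hne := imag_bb2_ne a z ha hz
  rw [cay_re a z ha hne]
  have h1 : 0 < ‖a - z‖ := norm_pos_iff.2 (sub_ne_zero.2 hne.symm)
  have h2 : ‖z‖ ^ 2 < 1 := by
    have := norm_nonneg z
    nlinarith
  exact div_pos (by linarith) (by positivity)

theorem imag_bb2_add_ne (w : ℂ) (hw : 0 < w.re) : w + 1 ≠ 0 := by
  intro h0
  have h1 := congrArg Complex.re h0
  simp at h1
  linarith

theorem imag_bb2_near (a z : ℂ) (ha : ‖a‖ = 1) (hz : ‖z‖ < 1) : ‖z - a‖ = 2 / ‖Cay a z + 1‖ := by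
  have hne := imag_bb2_ne a z ha hz
  have h1 := ic_sub a (Cay a z) ha (imag_bb2_add_ne _ (imag_bb2_repos a z ha hz))
  rwa [ic_cay a z ha hne] at h1

theorem imag_bb2_hp (f : DA) (hf : ‖f‖ ≤ 1) (a : ℂ) (ha : ‖a‖ = 1) (X p : ℂ)
    (hp : ‖p‖ < X.re) :
    ‖ext f.1 (ic a (X + p)) - ext f.1 (ic a X)‖ ≤ 2 / X.re * ‖p‖ := by
  have hsub : ∀ w ∈ ball X X.re, 0 < w.re := by
    intro w hw
    rw [mem_ball, dist_eq_norm] at hw
    have h1 := Complex.abs_re_le_norm (w - X)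
    have h2 : (w - X).re = w.re - X.re := Complex.sub_re _ _
    rw [h2] at h1
    have h3 := neg_le_abs (w.re - X.re)
    linarith
  have hd : DifferentiableOn ℂ (fun w => ext f.1 (ic a w)) (ball X X.re) := by
    have h1 : DifferentiableOn ℂ (ic a) (ball X X.re) := by
      intro w hw
      have h2 := imag_bb2_add_ne w (hsub w hw)
      unfold ic
      refine DifferentiableAt.differentiableWithinAt ?_
      exact (((differentiableAt_id.sub_const 1).const_mul a).div (differentiableAt_id.add_const 1) h2)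
    refine (differentiableOn_da f).comp h1 ?_
    intro w hw
    rw [mem_ball_zero_iff]
    exact ic_norm a w ha (hsub w hw)
  have h3 := imag_bb2_lip (fun w => ext f.1 (ic a w)) X X.re hd
    (fun w _ => imag_bb2_bdd f hf _) (X + p) (by
      rw [mem_ball, dist_eq_norm, add_sub_cancel_left]
      exact hp)
  rwa [add_sub_cancel_left] at h3

/-- the real part is small -/
theorem imag_bb2_re {T : DA →L[ℂ] DA} {Φ : Pt → Pt} (h : IsComp T Φ) (a : Pt) (ha : ‖(a:ℂ)‖ = 1)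
    (hin : ∀ z : Pt, ‖(z:ℂ)‖ < 1 → ‖(Φ z : ℂ)‖ < 1) (m : ℂ) (hm1 : ‖m‖ < 1) (f : DA)
    (hf : ‖f‖ ≤ 1) (c1 : ℝ) (hc1 : 0 < c1) (x : Pt) (hx : ‖(x:ℂ)‖ < 1)
    (hfx : c1 ≤ ‖f.1 x‖) (hT : ‖T f - m • f‖ ≤ (1 - ‖m‖) * c1 / 2) :
    (Cay a x).re ≤ (4 / ((1 - ‖m‖) * c1) + 1) * ‖Cay a (Φ x) - Cay a x‖ := by
  have hpos : 0 < (1 - ‖m‖) * c1 := mul_pos (by linarith) hc1
  set p := Cay a (Φ x) - Cay a x with hp
  have hp0 : 0 ≤ ‖p‖ := norm_nonneg _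
  have hX0 := imag_bb2_repos a x ha hx
  by_cases hcase : ‖p‖ < (Cay a x).re
  · have h1 := imag_bb2_hp f hf a ha (Cay a x) p hcase
    have h2 : Cay a x + p = Cay a (Φ x) := by rw [hp, add_sub_cancel]
    rw [h2, ic_cay a _ ha (imag_bb2_ne a _ ha (hin x hx)), ic_cay a _ ha (imag_bb2_ne a _ ha hx),
      ext_apply, ext_apply] at h1
    have h3 : ‖(T f - m • f).1 x‖ ≤ (1 - ‖m‖) * c1 / 2 := (norm_apply_le _ _).trans hT
    rw [sub_apply, smul_apply, h.eq] at h3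
    have h4 : ‖(1 - m) * f.1 x‖ ≤ ‖f.1 (Φ x) - m * f.1 x‖ + ‖f.1 (Φ x) - f.1 x‖ := by
      have : (1 - m) * f.1 x = (f.1 (Φ x) - m * f.1 x) - (f.1 (Φ x) - f.1 x) := by ring
      rw [this]
      exact norm_sub_le _ _
    have h5 : (1 - ‖m‖) * c1 ≤ ‖(1 - m) * f.1 x‖ := by
      rw [norm_mul]
      have h6 : 1 - ‖m‖ ≤ ‖(1:ℂ) - m‖ := by
        have := norm_sub_norm_le (1:ℂ) m
        rwa [norm_one] at this
      exact mul_le_mul h6 hfx hc1.le (norm_nonneg _)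
    have h7 : (1 - ‖m‖) * c1 / 2 ≤ 2 / (Cay a x).re * ‖p‖ := by linarith
    rw [div_mul_eq_mul_div, le_div_iff₀ hX0] at h7
    have h8 : (Cay a x).re ≤ 4 / ((1 - ‖m‖) * c1) * ‖p‖ := by
      rw [div_mul_eq_mul_div, le_div_iff₀ hpos]
      linarith
    linarith
  · rw [not_lt] at hcase
    have h9 : 0 ≤ 4 / ((1 - ‖m‖) * c1) * ‖p‖ := by positivity
    linarith

/-- the orbit of a point near infinity -/
theorem imag_bb2_orbit {Φ : Pt → Pt} (a : Pt) (ha : ‖(a:ℂ)‖ = 1)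
    (hin : ∀ z : Pt, ‖(z:ℂ)‖ < 1 → ‖(Φ z : ℂ)‖ < 1) (c : ℂ) (hc : c ≠ 0)
    (hlim : LimC a c Φ) (J : ℕ) :
    ∃ R : ℝ, 0 < R ∧ ∀ x : Pt, ‖(x:ℂ)‖ < 1 → R ≤ ‖Cay a x‖ → ∀ j ≤ J,
      ‖Cay a (Φ^[j] x) - Cay a x - j * (c / Cay a x)‖ ≤
        (j:ℝ) / (8 * (J + 1)) * (‖c‖ / ‖Cay a x‖) := by
  have hcp : 0 < ‖c‖ := norm_pos_iff.2 hc
  have hJ : (0:ℝ) < J + 1 := by positivity
  obtain ⟨δ, hδ, hδ2⟩ := hlim (‖c‖ / (32 * (J + 1))) (by positivity)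
  refine ⟨4 / δ + 3 + 32 * (J + 1) ^ 2 * ‖c‖, by positivity, fun x hx hR => ?_⟩
  set X := Cay a x with hXdef
  have hX3 : 4 / δ + 3 ≤ ‖X‖ := by
    have : 0 ≤ 32 * ((J:ℝ) + 1) ^ 2 * ‖c‖ := by positivity
    linarith
  have hXc : 32 * ((J:ℝ) + 1) ^ 2 * ‖c‖ ≤ ‖X‖ := by
    have : 0 ≤ 4 / δ := by positivity
    linarith
  have hX1 : 1 ≤ ‖X‖ := by
    have : 0 ≤ 4 / δ := by positivity
    linarith
  have hXp : 0 < ‖X‖ := by linarith
  have hXne : X ≠ 0 := norm_pos_iff.1 hXp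
  have hX2 : 32 * ((J:ℝ) + 1) ^ 2 * ‖c‖ ≤ ‖X‖ ^ 2 := by nlinarith
  have hσ : 0 ≤ ‖c‖ / ‖X‖ := by positivity
  intro j
  induction j with
  | zero =>
    intro _
    simp [hXdef]
  | succ j ih =>
    intro hj
    have ih' := ih (by omega)
    have hjJ : (j:ℝ) ≤ J := by
      have : j ≤ J := by omega
      exact_mod_cast this
    set W := Cay a (Φ^[j] x) with hW
    have hwin := imag_bb2_inn hin j x hx
    -- distance of W to X
    have hWX : ‖W - X‖ ≤ (J + 1) * (‖c‖ / ‖X‖) := by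
      have e1 : W - X = (W - X - j * (c / X)) + j * (c / X) := by ring
      have e2 : ‖(j:ℂ) * (c / X)‖ = j * (‖c‖ / ‖X‖) := by
        rw [norm_mul, norm_div, Complex.norm_natCast]
      have e3 : (j:ℝ) / (8 * (J + 1)) ≤ 1 := by
        rw [div_le_one (by positivity)]
        linarith
      calc ‖W - X‖ ≤ ‖W - X - j * (c / X)‖ + ‖(j:ℂ) * (c / X)‖ := by
            conv_lhs => rw [e1]
            exact norm_add_le _ _
        _ ≤ 1 * (‖c‖ / ‖X‖) + j * (‖c‖ / ‖X‖) := by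
            rw [e2]
            exact add_le_add (ih'.trans (mul_le_mul_of_nonneg_right e3 hσ)) le_rfl
        _ ≤ (J + 1) * (‖c‖ / ‖X‖) := by nlinarith
    have hWX2 : ‖W - X‖ ≤ ‖X‖ / 2 := by
      refine hWX.trans ?_
      rw [mul_div_assoc', div_le_iff₀ hXp]
      nlinarith [mul_pos hJ hcp]
    have hWn : ‖X‖ / 2 ≤ ‖W‖ := by
      have h1 : ‖X‖ ≤ ‖X - W‖ + ‖W‖ := by
        calc ‖X‖ = ‖(X - W) + W‖ := by rw [sub_add_cancel]
          _ ≤ _ := norm_add_le _ _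
      rw [norm_sub_rev] at h1
      linarith
    have hWp : 0 < ‖W‖ := by linarith
    have hWne : W ≠ 0 := norm_pos_iff.1 hWp
    have hnear : ‖(Φ^[j] x : ℂ) - a‖ < δ := by
      rw [imag_bb2_near a _ ha hwin]
      have h1 : 2 / δ < ‖W + 1‖ := by
        have h2 : ‖W‖ ≤ ‖W + 1‖ + 1 := by
          calc ‖W‖ = ‖(W + 1) - 1‖ := by rw [add_sub_cancel_right]
            _ ≤ ‖W + 1‖ + ‖(1:ℂ)‖ := norm_sub_le _ _
            _ = ‖W + 1‖ + 1 := by rw [norm_one]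
        have h3 : 2 / δ + 3 / 2 ≤ ‖X‖ / 2 := by
          have : 4 / δ = 2 * (2 / δ) := by ring
          linarith
        linarith
      have h4 : 0 < ‖W + 1‖ := lt_trans (by positivity) h1
      rw [div_lt_iff₀ hδ] at h1
      rw [div_lt_iff₀ h4]
      linarith
    have hstep := (hδ2 (Φ^[j] x) (imag_bb2_ne a _ ha hwin) hnear).2
    rw [← hW, ← Function.iterate_succ_apply' Φ j x] at hstep
    set V := Cay a (Φ^[j + 1] x) with hV
    have hmain : ‖(V - W) - c / X‖ ≤ 1 / (8 * (J + 1)) * (‖c‖ / ‖X‖) := by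
      have e1 : (V - W) - c / X = ((V - W) * W - c) / W + c * (X - W) / (W * X) := by
        field_simp
        ring
      have e2 : ‖((V - W) * W - c) / W‖ ≤ (‖c‖ / (32 * (J + 1))) / (‖X‖ / 2) := by
        rw [norm_div]
        exact div_le_div₀ (by positivity) hstep.le (by positivity) hWn
      have e3 : ‖c * (X - W) / (W * X)‖ ≤ ‖c‖ * ((J + 1) * (‖c‖ / ‖X‖)) / ((‖X‖ / 2) * ‖X‖) := by
        rw [norm_div, norm_mul, norm_mul, norm_sub_rev]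
        refine div_le_div₀ (by positivity) ?_ (by positivity) ?_
        · exact mul_le_mul_of_nonneg_left hWX (norm_nonneg _)
        · exact mul_le_mul_of_nonneg_right hWn (norm_nonneg _)
      have e4 : (‖c‖ / (32 * ((J:ℝ) + 1))) / (‖X‖ / 2) = 1 / (16 * (J + 1)) * (‖c‖ / ‖X‖) := by
        field_simp
        ring
      have e5 : ‖c‖ * (((J:ℝ) + 1) * (‖c‖ / ‖X‖)) / ((‖X‖ / 2) * ‖X‖) ≤
          1 / (16 * (J + 1)) * (‖c‖ / ‖X‖) := by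
        have e6 : ‖c‖ * (((J:ℝ) + 1) * (‖c‖ / ‖X‖)) / ((‖X‖ / 2) * ‖X‖) =
            (2 * ((J:ℝ) + 1) * ‖c‖ / ‖X‖ ^ 2) * (‖c‖ / ‖X‖) := by
          field_simp
        rw [e6]
        refine mul_le_mul_of_nonneg_right ?_ hσ
        rw [div_le_div_iff₀ (by positivity) (by positivity)]
        nlinarith
      rw [e1]
      calc ‖((V - W) * W - c) / W + c * (X - W) / (W * X)‖ ≤
            1 / (16 * (J + 1)) * (‖c‖ / ‖X‖) + 1 / (16 * (J + 1)) * (‖c‖ / ‖X‖) := by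
            refine (norm_add_le _ _).trans (add_le_add ?_ (e3.trans e5))
            rw [← e4]
            exact e2
        _ = 1 / (8 * (J + 1)) * (‖c‖ / ‖X‖) := by
            field_simp
            ring
    have e7 : V - X - ((j + 1 : ℕ) : ℂ) * (c / X) =
        (W - X - j * (c / X)) + ((V - W) - c / X) := by
      push_cast
      ring
    rw [e7]
    calc ‖(W - X - j * (c / X)) + ((V - W) - c / X)‖ ≤
          (j:ℝ) / (8 * (J + 1)) * (‖c‖ / ‖X‖) + 1 / (8 * (J + 1)) * (‖c‖ / ‖X‖) :=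
          (norm_add_le _ _).trans (add_le_add ih' hmain)
      _ = ((j + 1 : ℕ) : ℝ) / (8 * (J + 1)) * (‖c‖ / ‖X‖) := by
          push_cast
          ring

/-- geometry of the orbit -/
theorem imag_bb2_geo {Φ : Pt → Pt} (a : Pt) (ha : ‖(a:ℂ)‖ = 1)
    (hin : ∀ z : Pt, ‖(z:ℂ)‖ < 1 → ‖(Φ z : ℂ)‖ < 1) (c : ℝ) (hc : c ≠ 0)
    (hlim : LimC a c Φ) (J : ℕ) (hJ1 : 1 ≤ J) (A0 : ℝ) (hA0 : 0 < A0) :
    ∃ R : ℝ, 0 < R ∧ ∀ x : Pt, ‖(x:ℂ)‖ < 1 → R ≤ ‖Cay a x‖ →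
      (Cay a x).re ≤ A0 * ‖Cay a (Φ x) - Cay a x‖ →
      ∃ t : ℝ, 0 < t ∧ (∀ j ≤ J, (Cay a (Φ^[j] x)).re ≤ (4 * A0 + 2) * t) ∧
        ∀ i ≤ J, ∀ j ≤ J, t * |(i:ℝ) - (j:ℝ)| ≤
          |(Cay a (Φ^[i] x)).im - (Cay a (Φ^[j] x)).im| := by
  have hcC : (c : ℂ) ≠ 0 := by exact_mod_cast hc
  have hcn : ‖(c : ℂ)‖ = |c| := by rw [Complex.norm_real, Real.norm_eq_abs]
  have hcp : 0 < |c| := abs_pos.2 hc
  obtain ⟨R0, hR0, horb⟩ := imag_bb2_orbit a ha hin (c : ℂ) hcC hlim J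
  rw [hcn] at horb
  refine ⟨R0 + 16 * (J + 1) * A0 * |c| + 1, by positivity, fun x hx hR hre => ?_⟩
  have hbig : 0 ≤ 16 * ((J:ℝ) + 1) * A0 * |c| := by positivity
  have horb' := horb x hx (by linarith)
  have hX1 : 1 ≤ ‖Cay a x‖ := by linarith
  have hX2 : 16 * ((J:ℝ) + 1) * A0 * |c| ≤ ‖Cay a x‖ := by linarith
  have hXre := imag_bb2_repos a x ha hx
  have hWj : ∀ j ≤ J, ‖Cay a (Φ^[j] x) - Cay a x - j * ((c:ℂ) / Cay a x)‖ ≤
      1 / 8 * (|c| / ‖Cay a x‖) := by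
    intro j hj
    refine (horb' j hj).trans (mul_le_mul_of_nonneg_right ?_ (by positivity))
    have hj' : (j:ℝ) ≤ J := by exact_mod_cast hj
    rw [div_le_div_iff₀ (by positivity) (by norm_num)]
    nlinarith
  set X := Cay a x with hX
  have hXp : 0 < ‖X‖ := by linarith
  have hX3 : 16 * ((J:ℝ) + 1) * A0 * |c| ≤ ‖X‖ ^ 2 := by nlinarith
  set σ := |c| / ‖X‖ with hσdef
  have hσ : 0 < σ := by positivity
  have hJp : (1:ℝ) ≤ J := by exact_mod_cast hJ1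
  -- p is small
  have hp : ‖Cay a (Φ x) - X‖ ≤ 2 * σ := by
    have h1 := hWj 1 hJ1
    rw [Function.iterate_one, Nat.cast_one, one_mul] at h1
    have h2 : ‖(c:ℂ) / X‖ = σ := by rw [norm_div, hcn]
    have h3 : Cay a (Φ x) - X = (Cay a (Φ x) - X - (c:ℂ) / X) + (c:ℂ) / X := by ring
    rw [h3]
    refine (norm_add_le _ _).trans ?_
    rw [h2]
    linarith
  have hXre2 : X.re ≤ 2 * A0 * σ := by
    have := mul_le_mul_of_nonneg_left hp hA0.le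
    linarith
  -- the real and imaginary parts of c / X
  have hns : Complex.normSq X = ‖X‖ ^ 2 := Complex.normSq_eq_norm_sq X
  have hdre : ((c:ℂ) / X).re = c * X.re / ‖X‖ ^ 2 := by
    rw [Complex.div_re, hns]
    simp
  have hdim : ((c:ℂ) / X).im = -(c * X.im / ‖X‖ ^ 2) := by
    rw [Complex.div_im, hns]
    simp
  have hreabs : (J:ℝ) * |((c:ℂ) / X).re| ≤ σ / 8 := by
    rw [hdre, abs_div, abs_mul, abs_of_pos hXre, abs_of_pos (pow_pos hXp 2)]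
    have h1 : |c| * X.re / ‖X‖ ^ 2 ≤ |c| * (2 * A0 * σ) / ‖X‖ ^ 2 := by
      gcongr
    have h2 : (J:ℝ) * (|c| * (2 * A0 * σ) / ‖X‖ ^ 2) ≤ σ / 8 := by
      have h3 : (J:ℝ) * (|c| * (2 * A0 * σ) / ‖X‖ ^ 2) = (2 * J * A0 * |c| / ‖X‖ ^ 2) * σ := by ring
      have h4 : 2 * (J:ℝ) * A0 * |c| / ‖X‖ ^ 2 ≤ 1 / 8 := by
        rw [div_le_div_iff₀ (by positivity) (by norm_num)]
        have : 0 ≤ A0 * |c| := by positivity
        nlinarith
      rw [h3]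
      nlinarith
    exact (mul_le_mul_of_nonneg_left h1 (by positivity)).trans h2
  have himX : 3 / 4 * ‖X‖ ≤ |X.im| := by
    have h1 : X.re ≤ ‖X‖ / 2 := by
      refine hXre2.trans ?_
      rw [hσdef, mul_div_assoc', div_le_div_iff₀ hXp (by norm_num)]
      have : 0 ≤ A0 * |c| := by positivity
      nlinarith
    have h2 : ‖X‖ ^ 2 = X.re ^ 2 + X.im ^ 2 := by
      rw [← hns, Complex.normSq_apply]
      ring
    have h3 : X.im ^ 2 = |X.im| ^ 2 := (sq_abs _).symm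
    have h4 : (3 / 4 * ‖X‖) ^ 2 ≤ |X.im| ^ 2 := by
      rw [← h3]
      nlinarith
    exact le_of_sq_le_sq h4 (abs_nonneg _)
  have himabs : 3 / 4 * σ ≤ |((c:ℂ) / X).im| := by
    rw [hdim, abs_neg, abs_div, abs_mul, abs_of_pos (pow_pos hXp 2), hσdef]
    have h1 : 3 / 4 * (|c| / ‖X‖) = |c| * (3 / 4 * ‖X‖) / ‖X‖ ^ 2 := by
      field_simp
    rw [h1]
    gcongr
  refine ⟨σ / 2, by positivity, ?_, ?_⟩
  · intro j hj
    have hjJ : (j:ℝ) ≤ J := by exact_mod_cast hj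
    have h1 : (Cay a (Φ^[j] x)).re = (Cay a (Φ^[j] x) - X - j * ((c:ℂ) / X)).re + X.re +
        j * ((c:ℂ) / X).re := by
      rw [Complex.sub_re, Complex.sub_re, ← Complex.ofReal_natCast, Complex.re_ofReal_mul]
      ring
    have h2 := (Complex.abs_re_le_norm (Cay a (Φ^[j] x) - X - j * ((c:ℂ) / X))).trans (hWj j hj)
    have h3 := le_abs_self (Cay a (Φ^[j] x) - X - j * ((c:ℂ) / X)).re
    have h4 : (j:ℝ) * ((c:ℂ) / X).re ≤ (J:ℝ) * |((c:ℂ) / X).re| := by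
      calc (j:ℝ) * ((c:ℂ) / X).re ≤ (j:ℝ) * |((c:ℂ) / X).re| :=
            mul_le_mul_of_nonneg_left (le_abs_self _) (Nat.cast_nonneg _)
        _ ≤ _ := mul_le_mul_of_nonneg_right hjJ (abs_nonneg _)
    rw [h1]
    linarith
  · intro i hi j hj
    by_cases hij : i = j
    · subst hij
      simp
    · have hone : 1 ≤ |(i:ℝ) - (j:ℝ)| := by
        have h0 : (1:ℤ) ≤ |(i:ℤ) - (j:ℤ)| := by
          refine Int.one_le_abs ?_
          intro h00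
          apply hij
          omega
        have : ((1:ℤ):ℝ) ≤ ((|(i:ℤ) - (j:ℤ)| : ℤ) : ℝ) := by exact_mod_cast h0
        rw [Int.cast_abs, Int.cast_sub] at this
        simpa using this
      have h1 : ∀ j : ℕ, (Cay a (Φ^[j] x)).im =
          (Cay a (Φ^[j] x) - X - j * ((c:ℂ) / X)).im + X.im + j * ((c:ℂ) / X).im := by
        intro j
        rw [Complex.sub_im, Complex.sub_im, ← Complex.ofReal_natCast, Complex.im_ofReal_mul]
        ring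
      have h2 := (Complex.abs_im_le_norm (Cay a (Φ^[i] x) - X - i * ((c:ℂ) / X))).trans (hWj i hi)
      have h3 := (Complex.abs_im_le_norm (Cay a (Φ^[j] x) - X - j * ((c:ℂ) / X))).trans (hWj j hj)
      rw [h1 i, h1 j]
      set u := (Cay a (Φ^[i] x) - X - i * ((c:ℂ) / X)).im
      set v := (Cay a (Φ^[j] x) - X - j * ((c:ℂ) / X)).im
      have h4 : u + X.im + i * ((c:ℂ) / X).im - (v + X.im + j * ((c:ℂ) / X).im) =
          ((i:ℝ) - j) * ((c:ℂ) / X).im - (v - u) := by ring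
      rw [h4]
      have h5 : |((i:ℝ) - j) * ((c:ℂ) / X).im| - |v - u| ≤
          |((i:ℝ) - j) * ((c:ℂ) / X).im - (v - u)| := abs_sub_abs_le_abs_sub _ _
      have h6 : |v - u| ≤ σ / 4 := by
        refine (abs_sub _ _).trans ?_
        linarith
      rw [abs_mul] at h5
      have h7 : |(i:ℝ) - j| * (3 / 4 * σ) ≤ |(i:ℝ) - j| * |((c:ℂ) / X).im| :=
        mul_le_mul_of_nonneg_left himabs (abs_nonneg _)
      nlinarith

/-- the final inequality -/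
theorem imag_bb2_ineq {T : DA →L[ℂ] DA} {Φ : Pt → Pt} (h : IsComp T Φ) (l m : ℂ) (hl0 : 0 < ‖l‖)
    (hl1 : ‖l‖ < 1) (hm : ‖m‖ = ‖l‖) (C : ℝ) (hC : 0 < C) (f G : DA) (B : ℝ) (hB : 0 < B)
    (hf : ‖f‖ ≤ 1) (hG : ‖G‖ ≤ B) (J : ℕ) (x : Pt) (hGx : ∀ j ≤ J, G.1 (Φ^[j] x) = (l / m) ^ j)
    (e : ℝ) (he : ‖T f - m • f‖ ≤ e) (c1 : ℝ) (hfx : c1 ≤ ‖f.1 x‖)
    (hcrit : ‖∑ j ∈ Finset.range (J + 1), l ^ (J - j) * (f * G).1 (Φ^[j] x)‖ ≤
        C * (‖(T ^ (J + 1)) (f * G)‖ + ‖l‖ ^ (J + 1) * ‖f * G‖)) :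
    ‖l‖ ^ J * ((J + 1) * c1) ≤ 2 * C * B * ‖l‖ ^ J + ((J + 1) * J + C * B * (J + 1)) * e := by
  have e0 : 0 ≤ e := (norm_nonneg _).trans he
  have hm1 : ‖m‖ ≤ 1 := by rw [hm]; exact hl1.le
  have hm0 : m ≠ 0 := by
    rw [← norm_pos_iff, hm]
    exact hl0
  have hl0' : l ≠ 0 := norm_pos_iff.1 hl0
  have hratio : ‖l / m‖ = 1 := by
    rw [norm_div, hm, div_self hl0.ne']
  -- lower bound
  have hsum : ∑ j ∈ Finset.range (J + 1), l ^ (J - j) * (f * G).1 (Φ^[j] x) =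
      (J + 1) * (l ^ J * f.1 x) + ∑ j ∈ Finset.range (J + 1),
        l ^ (J - j) * (l / m) ^ j * (f.1 (Φ^[j] x) - m ^ j * f.1 x) := by
    have h1 : ((J:ℂ) + 1) * (l ^ J * f.1 x) = ∑ _j ∈ Finset.range (J + 1), l ^ J * f.1 x := by
      rw [Finset.sum_const, Finset.card_range, nsmul_eq_mul]
      push_cast
      ring
    rw [h1, ← Finset.sum_add_distrib]
    refine Finset.sum_congr rfl fun j hj => ?_
    have hjJ : j ≤ J := by
      have := Finset.mem_range.1 hj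
      omega
    rw [mul_apply, hGx j hjJ]
    have h2 : l ^ J = l ^ (J - j) * (l / m) ^ j * m ^ j := by
      rw [div_pow, mul_assoc, div_mul_cancel₀ _ (pow_ne_zero j hm0), ← pow_add]
      congr 1
      omega
    rw [h2]
    ring
  have herr : ‖∑ j ∈ Finset.range (J + 1),
      l ^ (J - j) * (l / m) ^ j * (f.1 (Φ^[j] x) - m ^ j * f.1 x)‖ ≤ (J + 1) * J * e := by
    refine (norm_sum_le _ _).trans ?_
    have h3 : ∀ j ∈ Finset.range (J + 1),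
        ‖l ^ (J - j) * (l / m) ^ j * (f.1 (Φ^[j] x) - m ^ j * f.1 x)‖ ≤ J * e := by
      intro j hj
      have hjJ : j ≤ J := by
        have := Finset.mem_range.1 hj
        omega
      have hjJ' : (j:ℝ) ≤ J := by exact_mod_cast hjJ
      have h4 := imag_bb2_iter h f m hm1 e he j x
      rw [norm_mul, norm_mul, norm_pow, norm_pow, hratio, one_pow, mul_one]
      calc ‖l‖ ^ (J - j) * ‖f.1 (Φ^[j] x) - m ^ j * f.1 x‖ ≤ 1 * (j * e) :=
            mul_le_mul (pow_le_one₀ (norm_nonneg _) hl1.le) h4 (norm_nonneg _) zero_le_one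
        _ ≤ J * e := by
            rw [one_mul]
            exact mul_le_mul_of_nonneg_right hjJ' e0
    refine (Finset.sum_le_sum h3).trans ?_
    rw [Finset.sum_const, Finset.card_range, nsmul_eq_mul]
    push_cast
    linarith
  have hlow : ‖l‖ ^ J * ((J + 1) * c1) - (J + 1) * J * e ≤
      ‖∑ j ∈ Finset.range (J + 1), l ^ (J - j) * (f * G).1 (Φ^[j] x)‖ := by
    rw [hsum]
    have h5 : ‖((J:ℂ) + 1) * (l ^ J * f.1 x)‖ = (J + 1) * (‖l‖ ^ J * ‖f.1 x‖) := by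
      rw [norm_mul, norm_mul, norm_pow]
      congr 1
      have : ((J:ℂ) + 1) = ((J + 1 : ℕ) : ℂ) := by push_cast; rfl
      rw [this, Complex.norm_natCast]
      push_cast
      rfl
    have h6 : ‖l‖ ^ J * ((J + 1) * c1) ≤ (J + 1) * (‖l‖ ^ J * ‖f.1 x‖) := by
      have : ‖l‖ ^ J * ((J + 1) * c1) = (J + 1) * (‖l‖ ^ J * c1) := by ring
      rw [this]
      gcongr
    have h7 : ‖((J:ℂ) + 1) * (l ^ J * f.1 x)‖ ≤ ‖((J:ℂ) + 1) * (l ^ J * f.1 x) +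
        ∑ j ∈ Finset.range (J + 1), l ^ (J - j) * (l / m) ^ j * (f.1 (Φ^[j] x) - m ^ j * f.1 x)‖ +
        ‖∑ j ∈ Finset.range (J + 1),
          l ^ (J - j) * (l / m) ^ j * (f.1 (Φ^[j] x) - m ^ j * f.1 x)‖ := by
      set u := ((J:ℂ) + 1) * (l ^ J * f.1 x)
      set v := ∑ j ∈ Finset.range (J + 1),
        l ^ (J - j) * (l / m) ^ j * (f.1 (Φ^[j] x) - m ^ j * f.1 x)
      calc ‖u‖ = ‖(u + v) - v‖ := by rw [add_sub_cancel_right]
        _ ≤ _ := norm_sub_le _ _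
    rw [h5] at h7
    linarith
  -- upper bound
  have hG0 : 0 ≤ ‖G‖ := norm_nonneg _
  have hfG : ‖f * G‖ ≤ B := by
    refine (norm_mul_le f G).trans ?_
    calc ‖f‖ * ‖G‖ ≤ 1 * B := mul_le_mul hf hG hG0 zero_le_one
      _ = B := one_mul B
  have hTfG : ‖(T ^ (J + 1)) (f * G)‖ ≤ (‖l‖ ^ (J + 1) + (J + 1) * e) * B := by
    refine norm_le_of (by positivity) (fun z => ?_)
    rw [h.pow, mul_apply, norm_mul]
    have h8 : ‖f.1 (Φ^[J + 1] z)‖ ≤ ‖l‖ ^ (J + 1) + (J + 1) * e := by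
      have h9 := imag_bb2_iter h f m hm1 e he (J + 1) z
      have h10 : ‖m ^ (J + 1) * f.1 z‖ ≤ ‖l‖ ^ (J + 1) := by
        rw [norm_mul, norm_pow, hm]
        calc ‖l‖ ^ (J + 1) * ‖f.1 z‖ ≤ ‖l‖ ^ (J + 1) * 1 :=
              mul_le_mul_of_nonneg_left ((norm_apply_le f z).trans hf) (by positivity)
          _ = _ := mul_one _
      have h11 : f.1 (Φ^[J + 1] z) = m ^ (J + 1) * f.1 z +
          (f.1 (Φ^[J + 1] z) - m ^ (J + 1) * f.1 z) := by ring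
      rw [h11]
      refine (norm_add_le _ _).trans (add_le_add h10 ?_)
      push_cast at h9
      exact h9
    exact mul_le_mul h8 ((norm_apply_le G _).trans hG) (norm_nonneg _) (by positivity)
  have hup : C * (‖(T ^ (J + 1)) (f * G)‖ + ‖l‖ ^ (J + 1) * ‖f * G‖) ≤
      C * ((‖l‖ ^ (J + 1) + (J + 1) * e) * B + ‖l‖ ^ (J + 1) * B) := by
    refine mul_le_mul_of_nonneg_left (add_le_add hTfG ?_) hC.le
    exact mul_le_mul_of_nonneg_left hfG (by positivity)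
  have hpow : ‖l‖ ^ (J + 1) ≤ ‖l‖ ^ J := by
    rw [pow_succ]
    exact mul_le_of_le_one_right (by positivity) hl1.le
  have hCB : 0 < C * B := mul_pos hC hB
  have hfin : C * ((‖l‖ ^ (J + 1) + (J + 1) * e) * B + ‖l‖ ^ (J + 1) * B) ≤
      2 * C * B * ‖l‖ ^ J + C * B * (J + 1) * e := by
    have : C * ((‖l‖ ^ (J + 1) + (J + 1) * e) * B + ‖l‖ ^ (J + 1) * B) =
        2 * (C * B) * ‖l‖ ^ (J + 1) + C * B * (J + 1) * e := by ring
    rw [this]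
    nlinarith
  have := (hlow.trans hcrit).trans (hup.trans hfin)
  nlinarith

theorem imag_bb2 {T : DA →L[ℂ] DA} {Φ : Pt → Pt} (h : IsComp T Φ) (a : Pt) (ha : ‖(a:ℂ)‖ = 1)
    (N : ℕ) (hN : ∀ z : Pt, Φ^[N] z = a ∨ ‖(Φ^[N] z : ℂ)‖ < 1)
    (hin : ∀ z : Pt, ‖(z:ℂ)‖ < 1 → ‖(Φ z : ℂ)‖ < 1) (c : ℝ) (hc : c ≠ 0)
    (hlim : LimC a c Φ) (l : ℂ) (hl0 : 0 < ‖l‖) (hl1 : ‖l‖ < 1) (hl : l ∉ spectrum ℂ T)
    (m : ℂ) (hm : ‖m‖ = ‖l‖) :
    ∃ κ : ℝ, 0 < κ ∧ ∀ f : DA, κ * ‖f‖ ≤ ‖T f - m • f‖ := by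
  by_contra hcon
  push Not at hcon
  have hm0 : 0 < ‖m‖ := by rw [hm]; exact hl0
  have hm1 : ‖m‖ < 1 := by rw [hm]; exact hl1
  -- the sequence
  have hseq : ∀ k : ℕ, ∃ f : DA, ‖f‖ = 1 ∧ ‖T f - m • f‖ ≤ 1 / ((k:ℝ) + 1) := by
    intro k
    obtain ⟨g, hg⟩ := hcon (1 / ((k:ℝ) + 1)) (by positivity)
    have hg0 : 0 < ‖g‖ := by
      rcases (norm_nonneg g).lt_or_eq with h0 | h0
      · exact h0
      · rw [← h0, mul_zero] at hg
        exact absurd hg (not_lt.2 (norm_nonneg _))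
    have hn : ‖((‖g‖⁻¹ : ℝ) : ℂ)‖ = ‖g‖⁻¹ := by
      rw [Complex.norm_real, Real.norm_eq_abs, abs_of_pos (inv_pos.2 hg0)]
    refine ⟨((‖g‖⁻¹ : ℝ) : ℂ) • g, ?_, ?_⟩
    · rw [norm_smul, hn, inv_mul_cancel₀ hg0.ne']
    · have e1 : T (((‖g‖⁻¹ : ℝ) : ℂ) • g) - m • (((‖g‖⁻¹ : ℝ) : ℂ) • g) =
          ((‖g‖⁻¹ : ℝ) : ℂ) • (T g - m • g) := by
        rw [map_smul, smul_comm m, smul_sub]
      rw [e1, norm_smul, hn]
      calc ‖g‖⁻¹ * ‖T g - m • g‖ ≤ ‖g‖⁻¹ * (1 / ((k:ℝ) + 1) * ‖g‖) :=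
            mul_le_mul_of_nonneg_left hg.le (inv_pos.2 hg0).le
        _ = 1 / ((k:ℝ) + 1) := by
            field_simp
  choose f hf hT using hseq
  obtain ⟨c1, hc1def⟩ : ∃ c1 : ℝ, c1 = ‖m‖ ^ N / 3 := ⟨_, rfl⟩
  have hc1 : 0 < c1 := by rw [hc1def]; positivity
  obtain ⟨A0, hA0def⟩ : ∃ A0 : ℝ, A0 = 4 / ((1 - ‖m‖) * c1) + 1 := ⟨_, rfl⟩
  have h1m : 0 < (1 - ‖m‖) * c1 := mul_pos (by linarith) hc1
  have hA0 : 0 < A0 := by rw [hA0def]; positivity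
  obtain ⟨B, hB, hinterp⟩ := interp3 a ha (4 * A0 + 2) (by positivity)
  obtain ⟨C, hC, hcrit⟩ := crit2 h l hl
  obtain ⟨J, hJ⟩ := exists_nat_gt ((4 * C * B + 1) / c1 + 1)
  have hCB : 0 < C * B := mul_pos hC hB
  have hJ1 : 1 ≤ J := by
    have h0 : 0 ≤ (4 * C * B + 1) / c1 := by positivity
    have : (1:ℝ) ≤ J := by linarith
    exact_mod_cast this
  have hJc : 4 * C * B + 1 ≤ (J + 1) * c1 := by
    have h0 : (4 * C * B + 1) / c1 ≤ J + 1 := by linarith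
    rwa [div_le_iff₀ hc1] at h0
  obtain ⟨R, hR, hgeo⟩ := imag_bb2_geo a ha hin c hc hlim J hJ1 A0 hA0
  -- choice of k
  obtain ⟨E, hEdef⟩ : ∃ E : ℝ, E = ((J:ℝ) + 1) * J + C * B * (J + 1) := ⟨_, rfl⟩
  have hE : 0 < E := by rw [hEdef]; positivity
  have hlJ : 0 < ‖l‖ ^ J := pow_pos hl0 J
  obtain ⟨K0, hK0⟩ := exists_nat_gt (2 / ((1 - ‖m‖) * c1) + E / ‖l‖ ^ J)
  obtain ⟨k, hk, x, hx1, hx2, hx3⟩ := imag_bb2_seq h a ha N hN hin c hlim m hm0 hm1 f hf hT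
    (2 / (R + 1)) (by positivity) K0
  rw [← hc1def] at hx3
  have hkR : (K0:ℝ) ≤ k := by exact_mod_cast hk
  have hk0 : 0 < (k:ℝ) + 1 := by positivity
  have he1 : 1 / ((k:ℝ) + 1) ≤ (1 - ‖m‖) * c1 / 2 := by
    have h0 : 2 / ((1 - ‖m‖) * c1) < (k:ℝ) + 1 := by
      have : 0 ≤ E / ‖l‖ ^ J := by positivity
      linarith
    rw [div_lt_iff₀ h1m] at h0
    rw [div_le_div_iff₀ hk0 (by norm_num)]
    nlinarith
  have he2 : E * (1 / ((k:ℝ) + 1)) < ‖l‖ ^ J := by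
    have h0 : E / ‖l‖ ^ J < (k:ℝ) + 1 := by
      have : 0 ≤ 2 / ((1 - ‖m‖) * c1) := by positivity
      linarith
    rw [div_lt_iff₀ hlJ] at h0
    rw [mul_one_div, div_lt_iff₀ hk0]
    linarith
  -- position of x
  have hXR : R ≤ ‖Cay a x‖ := by
    rw [imag_bb2_near a _ ha hx1] at hx2
    have h0 : 0 < ‖Cay a x + 1‖ :=
      norm_pos_iff.2 (imag_bb2_add_ne _ (imag_bb2_repos a x ha hx1))
    rw [div_lt_div_iff₀ h0 (by positivity)] at hx2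
    have h1 : ‖Cay a x + 1‖ ≤ ‖Cay a x‖ + 1 := by
      refine (norm_add_le _ _).trans ?_
      rw [norm_one]
    linarith
  have hre := imag_bb2_re h a ha hin m hm1 (f k) (hf k).le c1 hc1 x hx1 hx3 ((hT k).trans he1)
  rw [← hA0def] at hre
  obtain ⟨t, ht, hgre, hgim⟩ := hgeo x hx1 hXR hre
  obtain ⟨G, hG, hGx⟩ := hinterp ((4 * A0 + 2) * t) t (by positivity) ht le_rfl J
    (fun j => Φ^[j] x) (fun j => (l / m) ^ j) (fun j _ => imag_bb2_inn hin j x hx1)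
    hgre hgim (fun j _ => by
      rw [norm_pow, norm_div, hm, div_self hl0.ne', one_pow])
  have hfinal := imag_bb2_ineq h l m hl0 hl1 hm C hC (f k) G B hB (hf k).le hG J x hGx
    (1 / ((k:ℝ) + 1)) (hT k) c1 hx3 (hcrit (f k * G) J x)
  rw [← hEdef] at hfinal
  have h5 : ‖l‖ ^ J * (4 * C * B + 1) ≤ ‖l‖ ^ J * ((J + 1) * c1) :=
    mul_le_mul_of_nonneg_left hJc hlJ.le
  have h6 : 0 < C * B * ‖l‖ ^ J := mul_pos hCB hlJ
  nlinarith

end Pool.Agent.Helper203.DS
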