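import Pool.Agent.KS6_19.DA.L.Helper203.DS.Base

open Metric Set Filter Topology

noncomputable section

namespace Pool.Agent.Helper203.DS

theorem eq_zero_of_sphere (f : DA) (h : ∀ z : Pt, ‖(z:ℂ)‖ = 1 → f.1 z = 0) : f = 0 := by
  have hcl : closure (Metric.ball (0:ℂ) 1) = Metric.closedBall (0:ℂ) 1 :=
    closure_ball (0:ℂ) one_ne_zero
  have hd : DiffContOnCl ℂ (ext f.1) (Metric.ball (0:ℂ) 1) :=
    ⟨differentiableOn_da f, by rw [hcl]; exact continuousOn_da f⟩
  refine da_ext fun z => ?_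
  have h1 := Complex.norm_le_of_forall_mem_frontier_norm_le (U := Metric.ball (0:ℂ) 1) (C := 0)
    Metric.isBounded_ball hd (fun w hw => ?_) (z := (z:ℂ)) (by rw [hcl]; exact z.2)
  · rw [ext_apply] at h1
    rw [zero_apply]
    exact norm_le_zero_iff.1 h1
  · rw [frontier_ball (0:ℂ) one_ne_zero, mem_sphere_zero_iff_norm] at hw
    have hw' : w ∈ Metric.closedBall (0:ℂ) 1 := by
      rw [mem_closedBall_zero_iff, hw]
    rw [ext_of_mem _ hw', h ⟨w, hw'⟩ hw, norm_zero]

theorem eq_zero_of_ball_aux (f : DA) (h : ∀ z ∈ Metric.ball (0:ℂ) 1, ext f.1 z = 0) : f = 0 := by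
  have hcl : closure (Metric.ball (0:ℂ) 1) = Metric.closedBall (0:ℂ) 1 :=
    closure_ball (0:ℂ) one_ne_zero
  refine da_ext fun z => ?_
  have h1 : Set.EqOn (ext f.1) (fun _ => 0) (Metric.closedBall (0:ℂ) 1) := by
    have h2 : Set.EqOn (ext f.1) (fun _ => 0) (Metric.ball (0:ℂ) 1) := fun z hz => h z hz
    exact h2.of_subset_closure (continuousOn_da f) continuousOn_const
      Metric.ball_subset_closedBall hcl.ge
  rw [zero_apply, ← ext_apply f.1 z]
  exact h1 z.2

theorem eq_zero_or_of_mul (f g : DA) (h : f * g = 0) : f = 0 ∨ g = 0 := by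
  have hf : AnalyticOnNhd ℂ (ext f.1) (Metric.ball (0:ℂ) 1) :=
    (differentiableOn_da f).analyticOnNhd Metric.isOpen_ball
  have hg : AnalyticOnNhd ℂ (ext g.1) (Metric.ball (0:ℂ) 1) :=
    (differentiableOn_da g).analyticOnNhd Metric.isOpen_ball
  have hfg : ∀ z ∈ Metric.ball (0:ℂ) 1, ext f.1 z * ext g.1 z = 0 := by
    intro z hz
    have hz' : z ∈ Metric.closedBall (0:ℂ) 1 := Metric.ball_subset_closedBall hz
    rw [ext_of_mem _ hz', ext_of_mem _ hz', ← mul_apply, h, zero_apply]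
  rcases AnalyticOnNhd.eq_zero_or_eq_zero_of_mul_eq_zero hf hg hfg
    (convex_ball (0:ℂ) 1).isPreconnected with h1 | h1
  · exact Or.inl (eq_zero_of_ball_aux f h1)
  · exact Or.inr (eq_zero_of_ball_aux g h1)

end Pool.Agent.Helper203.DS
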