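import Pool.Agent.KS6_19.DA.L.Helper203.DS.Base
import Pool.Agent.KS6_19.DA.L.Helper203.DS.Div

open Metric Set Filter Topology

noncomputable section

namespace Pool.Agent.Helper203.DS

theorem aux21609_cancel (a : Pt) (ha : ‖(a:ℂ)‖ < 1) (u : DA)
    (hu : (Z - algebraMap ℂ DA (a:ℂ)) * u = 0) : u = 0 := by
  have h1 : ∀ z : Pt, z ≠ a → u.1 z = 0 := by
    intro z hz
    have h2 : ((Z - algebraMap ℂ DA (a:ℂ)) * u).1 z = 0 := by rw [hu]; simp
    rw [mul_apply, sub_apply, Z_apply, algMap_apply] at h2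
    rcases mul_eq_zero.1 h2 with h3 | h3
    · exact absurd (Subtype.ext (sub_eq_zero.1 h3)) hz
    · exact h3
  apply da_ext
  intro z
  rw [zero_apply]
  by_cases hz : z = a
  · subst hz
    by_contra hne
    have hpos : 0 < ‖u.1 z‖ := norm_pos_iff.2 hne
    obtain ⟨δ, hδ, hδ2⟩ := Metric.continuousAt_iff.1
      ((continuous_da u).continuousAt (x := z)) ‖u.1 z‖ hpos
    obtain ⟨t, ht⟩ : ∃ t, t = min (δ / 2) (1 - ‖(z:ℂ)‖) := ⟨_, rfl⟩
    have ht0 : 0 < t := by rw [ht]; exact lt_min (by linarith) (by linarith)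
    have ht1 : t ≤ δ / 2 := by rw [ht]; exact min_le_left _ _
    have ht2 : t ≤ 1 - ‖(z:ℂ)‖ := by rw [ht]; exact min_le_right _ _
    have htn : ‖(t : ℂ)‖ = t := by
      rw [Complex.norm_real, Real.norm_eq_abs, abs_of_pos ht0]
    have hmem : (z:ℂ) + (t:ℂ) ∈ Metric.closedBall (0:ℂ) 1 := by
      rw [mem_closedBall_zero_iff]
      calc ‖(z:ℂ) + (t:ℂ)‖ ≤ ‖(z:ℂ)‖ + ‖(t:ℂ)‖ := norm_add_le _ _
        _ ≤ 1 := by rw [htn]; linarith
    have hd : dist (⟨(z:ℂ) + (t:ℂ), hmem⟩ : Pt) z < δ := by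
      rw [Subtype.dist_eq, dist_eq_norm]
      simp only [add_sub_cancel_left]
      rw [htn]; linarith
    have hne2 : (⟨(z:ℂ) + (t:ℂ), hmem⟩ : Pt) ≠ z := by
      intro he
      have he2 := congrArg Subtype.val he
      simp only at he2
      have he3 : (t : ℂ) = 0 := by
        have : (z:ℂ) + (t:ℂ) = (z:ℂ) + 0 := by rw [he2]; simp
        exact add_left_cancel this
      have he4 : t = 0 := by exact_mod_cast he3
      linarith
    have h4 := hδ2 hd
    rw [h1 _ hne2, dist_eq_norm, zero_sub, norm_neg] at h4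
    exact lt_irrefl _ h4
  · exact h1 z hz

theorem aux21609_apply (T : DA →L[ℂ] DA) (q : DA) (i : ℕ) (f : DA) :
    Wop T q i f = q ^ i * T f := rfl

theorem aux21609_shift {T : DA →L[ℂ] DA} {Φ : Pt → Pt} (h : IsComp T Φ) (a : Pt) (q : DA)
    (hq : T Z - algebraMap ℂ DA (a:ℂ) = (Z - algebraMap ℂ DA (a:ℂ)) * q) (i : ℕ) (f : DA) :
    Wop T q i ((Z - algebraMap ℂ DA (a:ℂ)) * f) =
      (Z - algebraMap ℂ DA (a:ℂ)) * Wop T q (i + 1) f := by
  have hT : T (Z - algebraMap ℂ DA (a:ℂ)) = T Z - algebraMap ℂ DA (a:ℂ) := by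
    apply da_ext
    intro z
    rw [h.eq, sub_apply, sub_apply, algMap_apply, algMap_apply, h.eq]
  rw [aux21609_apply, aux21609_apply, h.mul, hT, hq, pow_succ]
  ring

theorem aux21609_at {T : DA →L[ℂ] DA} {Φ : Pt → Pt} (h : IsComp T Φ) (a : Pt)
    (hfix : Φ a = a) (q : DA) (i : ℕ) (f : DA) :
    (Wop T q i f).1 a = q.1 a ^ i * f.1 a := by
  rw [aux21609_apply, mul_apply, pow_apply, h.eq, hfix]

theorem aux21609_inj (L : DA →L[ℂ] DA) (l : ℂ) :
    Function.Injective (fun f : DA => L f - l • f) ↔ ∀ f : DA, L f - l • f = 0 → f = 0 := by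
  constructor
  · intro hi f hf
    apply hi
    show L f - l • f = L 0 - l • 0
    rw [hf, map_zero, smul_zero, sub_zero]
  · intro hi f g hfg
    have hfg' : L f - l • f = L g - l • g := hfg
    have h2 : L (f - g) - l • (f - g) = 0 := by
      rw [map_sub, smul_sub]
      have : L f - L g - (l • f - l • g) = (L f - l • f) - (L g - l • g) := by abel
      rw [this, hfg', sub_self]
    exact sub_eq_zero.1 (hi _ h2)

theorem Wop_step {T : DA →L[ℂ] DA} {Φ : Pt → Pt} (h : IsComp T Φ) (a : Pt) (ha : ‖(a:ℂ)‖ < 1)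
    (hfix : Φ a = a) (q : DA)
    (hq : T Z - algebraMap ℂ DA (a:ℂ) = (Z - algebraMap ℂ DA (a:ℂ)) * q) (i : ℕ) (l : ℂ)
    (hl : l ≠ q.1 a ^ i) :
    Function.Bijective (fun f : DA => Wop T q i f - l • f) ↔
      Function.Bijective (fun f : DA => Wop T q (i + 1) f - l • f) := by
  have hk : q.1 a ^ i - l ≠ 0 := sub_ne_zero.2 (Ne.symm hl)
  have hshift : ∀ f : DA, Wop T q i ((Z - algebraMap ℂ DA (a:ℂ)) * f) -
      l • ((Z - algebraMap ℂ DA (a:ℂ)) * f) =
      (Z - algebraMap ℂ DA (a:ℂ)) * (Wop T q (i + 1) f - l • f) := by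
    intro f
    rw [aux21609_shift h a q hq i f, mul_sub, mul_smul_comm]
  have hat : ∀ f : DA, (Wop T q i f - l • f).1 a = (q.1 a ^ i - l) * f.1 a := by
    intro f
    rw [sub_apply, smul_apply, aux21609_at h a hfix q i f, sub_mul]
  have hfac : ∀ f : DA, (Wop T q i f - l • f).1 a = 0 →
      ∃ g : DA, f = (Z - algebraMap ℂ DA (a:ℂ)) * g := by
    intro f hf
    rw [hat f] at hf
    rcases mul_eq_zero.1 hf with h1 | h1
    · exact absurd h1 hk
    · exact div_interior f a ha h1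
  constructor
  · rintro ⟨hinj, hsur⟩
    rw [aux21609_inj] at hinj
    refine ⟨?_, ?_⟩
    · rw [aux21609_inj]
      intro f hf
      apply aux21609_cancel a ha
      apply hinj
      rw [hshift f, hf, mul_zero]
    · intro k0
      obtain ⟨f, hf⟩ := hsur ((Z - algebraMap ℂ DA (a:ℂ)) * k0)
      have hf' : Wop T q i f - l • f = (Z - algebraMap ℂ DA (a:ℂ)) * k0 := hf
      have h0 : (Wop T q i f - l • f).1 a = 0 := by
        rw [hf', mul_apply, sub_apply, Z_apply, algMap_apply, sub_self, zero_mul]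
      obtain ⟨g, hg⟩ := hfac f h0
      refine ⟨g, ?_⟩
      show Wop T q (i + 1) g - l • g = k0
      apply sub_eq_zero.1
      apply aux21609_cancel a ha
      rw [mul_sub, ← hshift g, ← hg, hf', sub_self]
  · rintro ⟨hinj, hsur⟩
    rw [aux21609_inj] at hinj
    refine ⟨?_, ?_⟩
    · rw [aux21609_inj]
      intro f hf
      have h0 : (Wop T q i f - l • f).1 a = 0 := by rw [hf]; simp
      obtain ⟨g, hg⟩ := hfac f h0
      have h1 : (Z - algebraMap ℂ DA (a:ℂ)) * (Wop T q (i + 1) g - l • g) = 0 := by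
        rw [← hshift g, ← hg, hf]
      have h2 := hinj g (aux21609_cancel a ha _ h1)
      rw [hg, h2, mul_zero]
    · intro g
      obtain ⟨c, hc⟩ : ∃ c : ℂ, c = g.1 a / (q.1 a ^ i - l) := ⟨_, rfl⟩
      have hcc : c * (q.1 a ^ i - l) = g.1 a := by
        rw [hc]; exact div_mul_cancel₀ _ hk
      have hg0 : (g - (Wop T q i (c • 1) - l • (c • (1 : DA)))).1 a = 0 := by
        rw [sub_apply, hat, smul_apply, one_apply, ← hcc]
        ring
      obtain ⟨k0, hk0⟩ := div_interior _ a ha hg0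
      obtain ⟨h1, hh1⟩ := hsur k0
      have hh1' : Wop T q (i + 1) h1 - l • h1 = k0 := hh1
      refine ⟨c • 1 + (Z - algebraMap ℂ DA (a:ℂ)) * h1, ?_⟩
      show Wop T q i (c • 1 + (Z - algebraMap ℂ DA (a:ℂ)) * h1) -
        l • (c • 1 + (Z - algebraMap ℂ DA (a:ℂ)) * h1) = g
      have h3 := hshift h1
      rw [hh1', ← hk0] at h3
      rw [map_add, smul_add]
      have h4 : Wop T q i (c • 1) + Wop T q i ((Z - algebraMap ℂ DA (a:ℂ)) * h1) -
          (l • (c • (1 : DA)) + l • ((Z - algebraMap ℂ DA (a:ℂ)) * h1)) =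
          (Wop T q i (c • 1) - l • (c • (1 : DA))) +
          (Wop T q i ((Z - algebraMap ℂ DA (a:ℂ)) * h1) -
            l • ((Z - algebraMap ℂ DA (a:ℂ)) * h1)) := by abel
      rw [h4, h3]
      abel

end Pool.Agent.Helper203.DS
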