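import Pool.Agent.KS6_19.DA.L.Helper203.DS.Base
import Pool.Agent.KS6_19.DA.L.Helper203.DS.Div
import Pool.Agent.KS6_19.DA.L.Helper203.DS.Unit1
import Pool.Agent.KS6_19.DA.L.Helper203.DS.WSmall
import Pool.Agent.KS6_19.DA.L.Helper203.DS.WStep

open Metric Set Filter Topology

noncomputable section

namespace Pool.Agent.Helper203.DS

theorem ic_gen_bij {E : Type*} [NormedAddCommGroup E] [NormedSpace ℂ E] [CompleteSpace E]
    (T : E →L[ℂ] E) (l : ℂ) : l ∉ spectrum ℂ T ↔ Function.Bijective (fun f : E => T f - l • f) := by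
  rw [spectrum.notMem_iff]
  have h1 : IsUnit (algebraMap ℂ (E →L[ℂ] E) l - T) ↔ IsUnit (T - algebraMap ℂ (E →L[ℂ] E) l) := by
    rw [← IsUnit.neg_iff, neg_sub]
  rw [h1, ContinuousLinearMap.isUnit_iff_bijective]
  have h2 : (fun f : E => T f - l • f) = ⇑(T - algebraMap ℂ (E →L[ℂ] E) l) := by
    funext f
    rfl
  rw [h2]

theorem ic_gen_unit {E : Type*} [NormedAddCommGroup E] [NormedSpace ℂ E] [CompleteSpace E]
    (T : E →L[ℂ] E) (h : (0:ℂ) ∉ spectrum ℂ T) : IsUnit T := by
  rw [spectrum.notMem_iff, map_zero, zero_sub, IsUnit.neg_iff] at h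
  exact h

theorem ic_gen_iso {E : Type*} [NormedAddCommGroup E] [NormedSpace ℂ E]
    (T : E →L[ℂ] E) (h : ∀ f, ‖T f‖ = ‖f‖) (n : ℕ) (x y : E) (hy : (T ^ n) y = y) :
    ‖(T ^ n) x - y‖ = ‖x - y‖ := by
  have hison : ∀ (n : ℕ) (f : E), ‖(T ^ n) f‖ = ‖f‖ := by
    intro n
    induction n with
    | zero => intro f; simp
    | succ n ih =>
      intro f
      have e : (T ^ (n + 1)) f = (T ^ n) (T f) := by rw [pow_succ]; rfl
      rw [e, ih, h]
  have e : (T ^ n) x - y = (T ^ n) (x - y) := by rw [map_sub, hy]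
  rw [e, hison]

theorem ic_bij {T : DA →L[ℂ] DA} (q : DA) (l : ℂ) :
    l ∉ spectrum ℂ T ↔ Function.Bijective (fun f : DA => Wop T q 0 f - l • f) := by
  have h2 : (fun f : DA => Wop T q 0 f - l • f) = (fun f : DA => T f - l • f) := by
    funext f
    have e1 : Wop T q 0 f = T f := by
      show q ^ 0 * T f = T f
      rw [pow_zero, one_mul]
    rw [e1]
  rw [h2]
  exact ic_gen_bij T l

theorem interior_case {T : DA →L[ℂ] DA} {Φ : Pt → Pt} (h : IsComp T Φ) (a : Pt)
    (ha : ‖(a:ℂ)‖ < 1)
    (hconv : Tendsto (fun n => (T ^ n) Z) atTop (𝓝 (algebraMap ℂ DA (a:ℂ)))) :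
    ∃ κ : ℂ, spectrum ℂ T = {l : ℂ | l = 0 ∨ ∃ j : ℕ, l = κ ^ j} := by
  classical
  -- pointwise convergence
  have hnorm : Tendsto (fun n => ‖(T ^ n) Z - algebraMap ℂ DA (a:ℂ)‖) atTop (𝓝 0) := by
    rw [← tendsto_iff_norm_sub_tendsto_zero]
    exact hconv
  have hpt : Tendsto (fun n => (Φ^[n] a)) atTop (𝓝 a) := by
    rw [Topology.IsEmbedding.subtypeVal.tendsto_nhds_iff]
    rw [tendsto_iff_norm_sub_tendsto_zero]
    refine squeeze_zero (fun n => norm_nonneg _) (fun n => ?_) hnorm
    have h1 := norm_apply_le ((T ^ n) Z - algebraMap ℂ DA (a:ℂ)) a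
    rw [sub_apply, h.pow, algMap_apply, Z_apply] at h1
    exact h1
  have hfix : Φ a = a := by
    have h1 : Tendsto (fun n => Φ (Φ^[n] a)) atTop (𝓝 (Φ a)) := (h.cont.tendsto a).comp hpt
    have h2 : Tendsto (fun n => Φ^[n + 1] a) atTop (𝓝 a) := hpt.comp (tendsto_add_atTop_nat 1)
    have h3 : (fun n => Φ (Φ^[n] a)) = fun n => Φ^[n + 1] a := by
      funext n
      rw [Function.iterate_succ_apply']
    rw [h3] at h1
    exact tendsto_nhds_unique h1 h2
  obtain ⟨q, hq⟩ := div_interior (T Z - algebraMap ℂ DA (a:ℂ)) a ha (by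
    rw [sub_apply, h.eq, hfix, algMap_apply, Z_apply, sub_self])
  refine ⟨q.1 a, ?_⟩
  ext l
  constructor
  · intro hl
    by_contra hcon
    rw [Set.mem_ofPred_eq, not_or, not_exists] at hcon
    obtain ⟨hl0, hlj⟩ := hcon
    obtain ⟨N, hN⟩ := Wop_small h a ha hconv q hq l hl0
    have hdown : ∀ i, i ≤ N → Function.Bijective (fun f : DA => Wop T q (N - i) f - l • f) := by
      intro i
      induction i with
      | zero => intro _; exact hN
      | succ i ih =>
        intro hi
        have h1 := ih (by omega)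
        have e : N - i = N - (i + 1) + 1 := by omega
        rw [e] at h1
        exact (Wop_step h a ha hfix q hq (N - (i + 1)) l (hlj _)).mpr h1
    have h0 := hdown N le_rfl
    rw [Nat.sub_self] at h0
    exact (ic_bij q l).mpr h0 hl
  · rintro (rfl | ⟨j, rfl⟩)
    · by_contra hcon
      have hu : IsUnit T := ic_gen_unit T hcon
      have hiso := isometry_of_unit h hu
      have h1 : ∀ n : ℕ, ‖(T ^ n) Z - algebraMap ℂ DA (a:ℂ)‖ = ‖Z - algebraMap ℂ DA (a:ℂ)‖ := by
        intro n
        apply ic_gen_iso T hiso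
        apply da_ext
        intro z
        rw [h.pow, algMap_apply, algMap_apply]
      simp_rw [h1] at hnorm
      have h2 := tendsto_nhds_unique hnorm tendsto_const_nhds
      have h3 : Z - algebraMap ℂ DA (a:ℂ) = 0 := norm_eq_zero.mp h2.symm
      have h4 : ∀ z : Pt, (z : ℂ) = a := by
        intro z
        have := congrArg (fun f : DA => f.1 z) h3
        simp only [sub_apply, Z_apply, algMap_apply, zero_apply] at this
        exact sub_eq_zero.mp this
      have h5 := h4 ⟨0, by simp⟩
      have h6 := h4 ⟨1, by simp⟩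
      rw [← h5] at h6
      exact one_ne_zero h6
    · by_contra hcon
      have h0 := (ic_bij q _).mp hcon
      have hex : ∃ i, q.1 a ^ i = q.1 a ^ j := ⟨j, rfl⟩
      set j0 := Nat.find hex with hj0
      have hj0e : q.1 a ^ j0 = q.1 a ^ j := Nat.find_spec hex
      have hup : ∀ i, i ≤ j0 → Function.Bijective (fun f : DA => Wop T q i f - (q.1 a ^ j) • f) := by
        intro i
        induction i with
        | zero => intro _; exact h0
        | succ i ih =>
          intro hi
          have h1 := ih (by omega)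
          refine (Wop_step h a ha hfix q hq i _ ?_).mp h1
          intro he
          have := Nat.find_min hex (m := i) (by omega)
          exact this he.symm
      obtain ⟨f, hf⟩ := (hup j0 le_rfl).2 1
      have h1 := congrArg (fun f : DA => f.1 a) hf
      have h2 : (Wop T q j0 f).1 a = q.1 a ^ j0 * f.1 a := by
        have e : Wop T q j0 f = q ^ j0 * T f := rfl
        rw [e, mul_apply, pow_apply, h.eq, hfix]
      simp only [sub_apply, smul_apply, one_apply, h2, hj0e, sub_self] at h1
      exact zero_ne_one h1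

end Pool.Agent.Helper203.DS
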