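import Pool.Agent.KS6_19.DA.L.Helper203.DS.Defs3
import Pool.Agent.KS6_19.DA.L.Helper203.DS.CayL
import Pool.Agent.KS6_19.DA.L.Helper203.DS.KKm

open Metric Set Filter Topology

noncomputable section

namespace Pool.Agent.Helper203.DS

theorem mob_id (a b : ℂ) : ‖1 - (starRingEnd ℂ) b * a‖ ^ 2 - ‖a - b‖ ^ 2 =
    (1 - ‖a‖ ^ 2) * (1 - ‖b‖ ^ 2) := by
  simp only [← Complex.normSq_eq_norm_sq, Complex.normSq_apply, Complex.sub_re, Complex.sub_im,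
    Complex.mul_re, Complex.mul_im, Complex.one_re, Complex.one_im, Complex.conj_re,
    Complex.conj_im]
  ring

theorem mob_ne (a b : ℂ) (ha : ‖a‖ < 1) (hb : ‖b‖ < 1) : 1 - (starRingEnd ℂ) b * a ≠ 0 := by
  intro h
  have h1 : (starRingEnd ℂ) b * a = 1 := (sub_eq_zero.mp h).symm
  have h2 := congrArg norm h1
  rw [norm_mul, RCLike.norm_conj, norm_one] at h2
  nlinarith [norm_nonneg a, norm_nonneg b]

theorem mob_lt (a b : ℂ) (ha : ‖a‖ < 1) (hb : ‖b‖ < 1) :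
    ‖(a - b) / (1 - (starRingEnd ℂ) b * a)‖ < 1 := by
  rw [norm_div, div_lt_one (norm_pos_iff.mpr (mob_ne a b ha hb))]
  have h := mob_id a b
  have h2 : 0 < (1 - ‖a‖ ^ 2) * (1 - ‖b‖ ^ 2) := by
    apply mul_pos <;> nlinarith [norm_nonneg a, norm_nonneg b]
  exact lt_of_pow_lt_pow_left₀ 2 (norm_nonneg _) (by linarith)

theorem schwarz_pick (f : ℂ → ℂ) (hd : DifferentiableOn ℂ f (ball 0 1))
    (hm : ∀ z, ‖z‖ < 1 → ‖f z‖ < 1) (z ζ : ℂ) (hz : ‖z‖ < 1) (hζ : ‖ζ‖ < 1) :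
    ‖1 - (starRingEnd ℂ) (f ζ) * f z‖ ^ 2 * ((1 - ‖z‖ ^ 2) * (1 - ‖ζ‖ ^ 2)) ≤
      ‖1 - (starRingEnd ℂ) ζ * z‖ ^ 2 * ((1 - ‖f z‖ ^ 2) * (1 - ‖f ζ‖ ^ 2)) := by
  set ψ : ℂ → ℂ := fun u => (u - (-ζ)) / (1 - (starRingEnd ℂ) (-ζ) * u) with hψdef
  have hψ : ∀ u, ‖u‖ < 1 → ‖ψ u‖ < 1 := fun u hu => mob_lt u (-ζ) hu (by rwa [norm_neg])
  have hψd : DifferentiableOn ℂ ψ (ball 0 1) := by
    apply DifferentiableOn.div
    · fun_prop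
    · fun_prop
    · intro u hu
      exact mob_ne u (-ζ) (by simpa using hu) (by rwa [norm_neg])
  set F : ℂ → ℂ := fun u => (f (ψ u) - f ζ) / (1 - (starRingEnd ℂ) (f ζ) * f (ψ u)) with hFdef
  have hFd : DifferentiableOn ℂ F (ball 0 1) := by
    have hc : DifferentiableOn ℂ (fun u => f (ψ u)) (ball 0 1) :=
      hd.comp hψd (fun u hu => by
        simpa using hψ u (by simpa using hu))
    apply DifferentiableOn.div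
    · exact hc.sub_const _
    · exact (differentiableOn_const _).sub (hc.const_mul _)
    · intro u hu
      exact mob_ne _ _ (hm _ (hψ u (by simpa using hu))) (hm ζ hζ)
  have hF0 : F 0 = 0 := by
    have h0 : ψ 0 = ζ := by simp [hψdef]
    show (f (ψ 0) - f ζ) / _ = 0
    rw [h0, sub_self, zero_div]
  have hFm : MapsTo F (ball 0 1) (closedBall 0 1) := by
    intro u hu
    rw [mem_closedBall_zero_iff]
    exact (mob_lt _ _ (hm _ (hψ u (by simpa using hu))) (hm ζ hζ)).le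
  have hw : ‖(z - ζ) / (1 - (starRingEnd ℂ) ζ * z)‖ < 1 := mob_lt z ζ hz hζ
  have hD : 1 - (starRingEnd ℂ) ζ * z ≠ 0 := mob_ne z ζ hz hζ
  have hψw : ψ ((z - ζ) / (1 - (starRingEnd ℂ) ζ * z)) = z := by
    obtain ⟨w, hwe⟩ : ∃ w, w = (z - ζ) / (1 - (starRingEnd ℂ) ζ * z) := ⟨_, rfl⟩
    rw [← hwe] at hw ⊢
    have hmul : w * (1 - (starRingEnd ℂ) ζ * z) = z - ζ := by
      rw [hwe]; exact div_mul_cancel₀ _ hD
    have hne : 1 - (starRingEnd ℂ) (-ζ) * w ≠ 0 := mob_ne w (-ζ) hw (by rwa [norm_neg])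
    show (w - (-ζ)) / (1 - (starRingEnd ℂ) (-ζ) * w) = z
    rw [div_eq_iff hne]
    simp only [map_neg]
    linear_combination hmul
  have hS := Complex.norm_le_norm_of_mapsTo_ball hFd hFm hF0 hw
  have hFw : F ((z - ζ) / (1 - (starRingEnd ℂ) ζ * z)) =
      (f z - f ζ) / (1 - (starRingEnd ℂ) (f ζ) * f z) := by
    show (f (ψ _) - f ζ) / (1 - (starRingEnd ℂ) (f ζ) * f (ψ _)) = _
    rw [hψw]
  rw [hFw, norm_div, norm_div, div_le_div_iff₀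
    (norm_pos_iff.mpr (mob_ne _ _ (hm z hz) (hm ζ hζ))) (norm_pos_iff.mpr hD)] at hS
  have hS2 := pow_le_pow_left₀ (by positivity) hS 2
  rw [mul_pow, mul_pow] at hS2
  have h1 := mob_id (f z) (f ζ)
  have h2 := mob_id z ζ
  have h3 : ‖f z - f ζ‖ ^ 2 = ‖1 - (starRingEnd ℂ) (f ζ) * f z‖ ^ 2 -
    (1 - ‖f z‖ ^ 2) * (1 - ‖f ζ‖ ^ 2) := by linarith
  have h4 : ‖z - ζ‖ ^ 2 = ‖1 - (starRingEnd ℂ) ζ * z‖ ^ 2 -
    (1 - ‖z‖ ^ 2) * (1 - ‖ζ‖ ^ 2) := by linarith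
  rw [h3, h4] at hS2
  nlinarith

theorem conj_mul_unit (a : ℂ) (ha : ‖a‖ = 1) : (starRingEnd ℂ) a * a = 1 := by
  rw [mul_comm, Complex.mul_conj, Complex.normSq_eq_norm_sq, ha]
  simp

theorem norm_one_sub_conj (a x : ℂ) (ha : ‖a‖ = 1) :
    ‖1 - (starRingEnd ℂ) a * x‖ = ‖a - x‖ := by
  have h : a - x = a * (1 - (starRingEnd ℂ) a * x) := by
    have := conj_mul_unit a ha
    linear_combination x * this
  rw [h, norm_mul, ha, one_mul]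

/-- the basic lower bound near `a` -/
theorem low_bd {Φ : Pt → Pt} (a : Pt) (ha : ‖(a:ℂ)‖ = 1) (γ : ℂ) (ε : ℝ) (z : Pt)
    (hz : ‖(Φ z : ℂ) - a - γ * ((z:ℂ) - a)‖ ≤ ε * ‖(z:ℂ) - a‖) :
    1 + ((starRingEnd ℂ) (a:ℂ) * (γ * ((z:ℂ) - a))).re - ε * ‖(z:ℂ) - a‖ ≤ ‖(Φ z : ℂ)‖ := by
  have h1 : (starRingEnd ℂ) (a:ℂ) * (Φ z : ℂ) = 1 + (starRingEnd ℂ) (a:ℂ) * (γ * ((z:ℂ) - a)) +
      (starRingEnd ℂ) (a:ℂ) * ((Φ z : ℂ) - a - γ * ((z:ℂ) - a)) := by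
    have := conj_mul_unit (a:ℂ) ha
    linear_combination this
  have h2 : ((starRingEnd ℂ) (a:ℂ) * (Φ z : ℂ)).re ≤ ‖(Φ z : ℂ)‖ := by
    refine (Complex.re_le_norm _).trans ?_
    rw [norm_mul, RCLike.norm_conj, ha, one_mul]
  have h3 : -(ε * ‖(z:ℂ) - a‖) ≤
      ((starRingEnd ℂ) (a:ℂ) * ((Φ z : ℂ) - a - γ * ((z:ℂ) - a))).re := by
    have h4 := Complex.abs_re_le_norm ((starRingEnd ℂ) (a:ℂ) * ((Φ z : ℂ) - a - γ * ((z:ℂ) - a)))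
    rw [norm_mul, RCLike.norm_conj, ha, one_mul] at h4
    have h5 := (abs_le.mp h4).1
    linarith
  rw [h1, Complex.add_re, Complex.add_re, Complex.one_re] at h2
  linarith

theorem pt_norm_le (z : Pt) : ‖(z:ℂ)‖ ≤ 1 := mem_closedBall_zero_iff.mp z.2

theorem im_zero {Φ : Pt → Pt} (a : Pt) (ha : ‖(a:ℂ)‖ = 1) (γ : ℂ)
    (hexp : ∀ ε : ℝ, 0 < ε → ∃ δ : ℝ, 0 < δ ∧ ∀ z : Pt, ‖(z:ℂ) - a‖ < δ →
      ‖(Φ z : ℂ) - a - γ * ((z:ℂ) - a)‖ ≤ ε * ‖(z:ℂ) - a‖) : γ.im = 0 := by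
  -- the basic estimate
  have key : ∀ ε : ℝ, 0 < ε → ∃ δ : ℝ, 0 < δ ∧ ∀ u : ℂ, ‖1 + u‖ ≤ 1 → ‖u‖ < δ →
      (γ * u).re ≤ ε * ‖u‖ := by
    intro ε hε
    obtain ⟨δ, hδ, hδ2⟩ := hexp ε hε
    refine ⟨δ, hδ, fun u hu1 hu2 => ?_⟩
    have hmem : (a:ℂ) * (1 + u) ∈ Metric.closedBall (0:ℂ) 1 := by
      rw [mem_closedBall_zero_iff, norm_mul, ha, one_mul]; exact hu1
    have hsub : (((⟨(a:ℂ) * (1 + u), hmem⟩ : Pt) : ℂ)) - a = a * u := by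
      show (a:ℂ) * (1 + u) - a = a * u
      ring
    have hn : ‖(((⟨(a:ℂ) * (1 + u), hmem⟩ : Pt) : ℂ)) - a‖ = ‖u‖ := by
      rw [hsub, norm_mul, ha, one_mul]
    have h1 := low_bd a ha γ ε ⟨(a:ℂ) * (1 + u), hmem⟩ (hδ2 _ (by rw [hn]; exact hu2))
    rw [hn, hsub] at h1
    have h2 := pt_norm_le (Φ ⟨(a:ℂ) * (1 + u), hmem⟩)
    have h3 : (starRingEnd ℂ) (a:ℂ) * (γ * ((a:ℂ) * u)) = γ * u := by
      have := conj_mul_unit (a:ℂ) ha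
      linear_combination (γ * u) * this
    rw [h3] at h1
    linarith
  -- test points
  have key2 : ∀ ε : ℝ, 0 < ε → |γ.im| ≤ 3 * ε := by
    intro ε hε
    obtain ⟨δ, hδ, hδ2⟩ := key ε hε
    obtain ⟨s, hs0, hs1⟩ : ∃ s : ℝ, 0 < s ∧ s ≤ 1 ∧ s < δ / 2 ∧ s * |γ.re| ≤ ε := by
      refine ⟨min (min 1 (δ / 4)) (ε / (|γ.re| + 1)), by positivity,
        (min_le_left _ _).trans (min_le_left _ _),
        lt_of_le_of_lt ((min_le_left _ _).trans (min_le_right _ _)) (by linarith), ?_⟩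
      calc min (min 1 (δ / 4)) (ε / (|γ.re| + 1)) * |γ.re| ≤ ε / (|γ.re| + 1) * |γ.re| :=
            mul_le_mul_of_nonneg_right (min_le_right _ _) (abs_nonneg _)
        _ ≤ ε / (|γ.re| + 1) * (|γ.re| + 1) :=
            mul_le_mul_of_nonneg_left (by linarith) (by positivity)
        _ = ε := div_mul_cancel₀ _ (by positivity)
    obtain ⟨hs1, hs2, hs3⟩ := hs1
    have hgen : ∀ σ : ℝ, σ ^ 2 = 1 → (-(σ * γ.im)) ≤ 3 * ε := by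
      intro σ hσ
      have hu1 : ‖(1 : ℂ) + ⟨-s ^ 2, σ * s⟩‖ ≤ 1 := by
        have h1 : ‖(1 : ℂ) + ⟨-s ^ 2, σ * s⟩‖ ^ 2 ≤ 1 := by
          rw [← Complex.normSq_eq_norm_sq, Complex.normSq_apply]
          simp only [Complex.add_re, Complex.add_im, Complex.one_re, Complex.one_im]
          have h2 : (0 + σ * s) * (0 + σ * s) = s ^ 2 := by
            calc (0 + σ * s) * (0 + σ * s) = σ ^ 2 * s ^ 2 := by ring
              _ = s ^ 2 := by rw [hσ, one_mul]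
          rw [h2]
          have h3 : s ^ 2 ≤ 1 := by nlinarith
          nlinarith [sq_nonneg s]
        nlinarith [norm_nonneg ((1 : ℂ) + ⟨-s ^ 2, σ * s⟩)]
      have hun : ‖(⟨-s ^ 2, σ * s⟩ : ℂ)‖ ≤ 2 * s := by
        have h1 : ‖(⟨-s ^ 2, σ * s⟩ : ℂ)‖ ^ 2 ≤ (2 * s) ^ 2 := by
          rw [← Complex.normSq_eq_norm_sq, Complex.normSq_apply]
          have h2 : (σ * s) * (σ * s) = s ^ 2 := by
            calc (σ * s) * (σ * s) = σ ^ 2 * s ^ 2 := by ring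
              _ = s ^ 2 := by rw [hσ, one_mul]
          rw [h2]
          have h3 : s ^ 2 ≤ 1 := by nlinarith
          nlinarith [sq_nonneg s]
        exact le_of_sq_le_sq h1 (by linarith)
      have h1 := hδ2 ⟨-s ^ 2, σ * s⟩ hu1 (by linarith)
      rw [Complex.mul_re] at h1
      simp only [] at h1
      have h2 : γ.re * (-s ^ 2) - γ.im * (σ * s) ≤ ε * (2 * s) :=
        h1.trans (mul_le_mul_of_nonneg_left hun hε.le)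
      have h3 : γ.re * s ^ 2 ≤ ε * s := by
        have : γ.re * s ≤ ε := by
          have := mul_le_mul_of_nonneg_left (le_abs_self γ.re) hs0.le
          linarith
        nlinarith
      have h4 : -(σ * γ.im) * s ≤ 3 * ε * s := by nlinarith
      exact le_of_mul_le_mul_right h4 hs0
    have g1 := hgen 1 (by norm_num)
    have g2 := hgen (-1) (by norm_num)
    rw [abs_le]
    constructor <;> linarith
  by_contra hne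
  have hpos : 0 < |γ.im| := abs_pos.mpr hne
  have := key2 (|γ.im| / 6) (by positivity)
  linarith

theorem re_le_one {T : DA →L[ℂ] DA} {Φ : Pt → Pt} (h : IsComp T Φ) (a : Pt) (ha : ‖(a:ℂ)‖ = 1)
    (hK : KK Φ ⊆ {a}) (hin : ∀ z : Pt, ‖(z:ℂ)‖ < 1 → ‖(Φ z : ℂ)‖ < 1) (γ : ℂ)
    (hexp : ∀ ε : ℝ, 0 < ε → ∃ δ : ℝ, 0 < δ ∧ ∀ z : Pt, ‖(z:ℂ) - a‖ < δ →
      ‖(Φ z : ℂ) - a - γ * ((z:ℂ) - a)‖ ≤ ε * ‖(z:ℂ) - a‖) : γ.re ≤ 1 := by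
  by_contra hgt
  rw [not_le] at hgt
  obtain ⟨δ, hδ, hδ2⟩ := hexp (γ.re - 1) (by linarith)
  have hexpand : ∀ z : Pt, ‖(z:ℂ) - a‖ < δ → ‖(z:ℂ) - a‖ ≤ ‖(Φ z : ℂ) - a‖ := by
    intro z hz
    have h1 := hδ2 z hz
    have h2 : ‖γ * ((z:ℂ) - a)‖ ≤ ‖(Φ z : ℂ) - a‖ + ‖(Φ z : ℂ) - a - γ * ((z:ℂ) - a)‖ := by
      have e : γ * ((z:ℂ) - a) = ((Φ z : ℂ) - a) - ((Φ z : ℂ) - a - γ * ((z:ℂ) - a)) := by ring
      calc ‖γ * ((z:ℂ) - a)‖ = ‖((Φ z : ℂ) - a) - ((Φ z : ℂ) - a - γ * ((z:ℂ) - a))‖ := by rw [← e]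
        _ ≤ _ := norm_sub_le _ _
    rw [norm_mul] at h2
    have h3 : γ.re ≤ ‖γ‖ := Complex.re_le_norm γ
    have h4 : γ.re * ‖(z:ℂ) - a‖ ≤ ‖γ‖ * ‖(z:ℂ) - a‖ :=
      mul_le_mul_of_nonneg_right h3 (norm_nonneg _)
    linarith
  -- the orbit of 0
  let z0 : Pt := ⟨0, by simp⟩
  have hlt : ∀ n, ‖((Φ^[n] z0 : Pt) : ℂ)‖ < 1 := by
    intro n
    induction n with
    | zero => simp [z0]
    | succ n ih =>
      rw [Function.iterate_succ_apply']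
      exact hin _ ih
  have htend : Tendsto (fun n => ‖((Φ^[n] z0 : Pt) : ℂ) - a‖) atTop (𝓝 0) := by
    have h1 := conv_of_singleton h a hK
    rw [tendsto_iff_norm_sub_tendsto_zero] at h1
    refine squeeze_zero (fun n => norm_nonneg _) (fun n => ?_) h1
    have h2 := norm_apply_le ((T ^ n) Z - algebraMap ℂ DA (a:ℂ)) z0
    rw [sub_apply, h.pow, Z_apply, algMap_apply] at h2
    exact h2
  obtain ⟨n0, hn0⟩ := Filter.eventually_atTop.mp (htend.eventually_lt_const hδ)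
  have hmono : ∀ k, ‖((Φ^[n0] z0 : Pt) : ℂ) - a‖ ≤ ‖((Φ^[n0 + k] z0 : Pt) : ℂ) - a‖ := by
    intro k
    induction k with
    | zero => exact le_rfl
    | succ k ih =>
      refine ih.trans ?_
      rw [← add_assoc, Function.iterate_succ_apply']
      exact hexpand _ (hn0 _ (by omega))
  have hne : 0 < ‖((Φ^[n0] z0 : Pt) : ℂ) - a‖ := by
    rw [norm_pos_iff, sub_ne_zero]
    intro he
    have := hlt n0
    rw [he, ha] at this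
    exact lt_irrefl _ this
  obtain ⟨n1, hn1⟩ := Filter.eventually_atTop.mp (htend.eventually_lt_const hne)
  have h5 := hn1 (n0 + n1) (by omega)
  have h6 := hmono n1
  linarith

theorem julia_ineq {T : DA →L[ℂ] DA} {Φ : Pt → Pt} (h : IsComp T Φ) (a : Pt) (ha : ‖(a:ℂ)‖ = 1)
    (hin : ∀ z : Pt, ‖(z:ℂ)‖ < 1 → ‖(Φ z : ℂ)‖ < 1) (γ : ℂ)
    (hexp : ∀ ε : ℝ, 0 < ε → ∃ δ : ℝ, 0 < δ ∧ ∀ z : Pt, ‖(z:ℂ) - a‖ < δ →
      ‖(Φ z : ℂ) - a - γ * ((z:ℂ) - a)‖ ≤ ε * ‖(z:ℂ) - a‖) (z : Pt) (hz : ‖(z:ℂ)‖ < 1) :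
    ‖(a:ℂ) - Φ z‖ ^ 2 * (1 - ‖(z:ℂ)‖ ^ 2) ≤
      γ.re * (‖(a:ℂ) - z‖ ^ 2 * (1 - ‖(Φ z : ℂ)‖ ^ 2)) := by
  -- the holomorphic function
  have hfd : DifferentiableOn ℂ (ext (T Z).1) (ball 0 1) := (T Z).2
  have hfe : ∀ w : Pt, ext (T Z).1 (w:ℂ) = (Φ w : ℂ) := by
    intro w
    rw [ext_apply, h.eq, Z_apply]
  have hfm : ∀ w : ℂ, ‖w‖ < 1 → ‖ext (T Z).1 w‖ < 1 := by
    intro w hw
    have hmem : w ∈ Metric.closedBall (0:ℂ) 1 := by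
      rw [mem_closedBall_zero_iff]; exact hw.le
    have := hfe ⟨w, hmem⟩
    rw [this]
    exact hin _ hw
  -- the value at a
  have hΦa : (Φ a : ℂ) = a := by
    obtain ⟨δ, hδ, hδ2⟩ := hexp 1 one_pos
    have h1 := hδ2 a (by simpa using hδ)
    simp only [sub_self, mul_zero, sub_zero, norm_zero] at h1
    exact sub_eq_zero.mp (norm_le_zero_iff.mp h1)
  -- the radial sequence
  have ht0 : ∀ n : ℕ, 0 < 1 / ((n : ℝ) + 1) := fun n => Nat.one_div_pos_of_nat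
  have ht1 : ∀ n : ℕ, 1 / ((n : ℝ) + 1) ≤ 1 := by
    intro n
    rw [div_le_one (by positivity)]
    linarith [(Nat.cast_nonneg n : (0:ℝ) ≤ n)]
  have hnorm : ∀ n : ℕ, ‖((1 - 1 / ((n : ℝ) + 1) : ℝ) : ℂ) * (a:ℂ)‖ = 1 - 1 / ((n : ℝ) + 1) := by
    intro n
    rw [norm_mul, ha, mul_one, Complex.norm_real, Real.norm_eq_abs, abs_of_nonneg]
    linarith [ht1 n]
  let ζ : ℕ → Pt := fun n => ⟨((1 - 1 / ((n : ℝ) + 1) : ℝ) : ℂ) * (a:ℂ), by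
    rw [mem_closedBall_zero_iff, hnorm]
    linarith [ht0 n]⟩
  have hζn : ∀ n, ‖(ζ n : ℂ)‖ = 1 - 1 / ((n : ℝ) + 1) := hnorm
  have hζa : ∀ n, (ζ n : ℂ) - a = -((1 / ((n : ℝ) + 1) : ℝ) : ℂ) * a := by
    intro n
    show ((1 - 1 / ((n : ℝ) + 1) : ℝ) : ℂ) * (a:ℂ) - a = _
    push_cast
    ring
  have hζan : ∀ n, ‖(ζ n : ℂ) - a‖ = 1 / ((n : ℝ) + 1) := by
    intro n
    rw [hζa, norm_mul, ha, mul_one, norm_neg, Complex.norm_real, Real.norm_eq_abs,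
      abs_of_pos (ht0 n)]
  have httend : Tendsto (fun n : ℕ => 1 / ((n : ℝ) + 1)) atTop (𝓝 0) :=
    tendsto_one_div_add_atTop_nhds_zero_nat
  have hζt : Tendsto (fun n => (ζ n : ℂ)) atTop (𝓝 (a:ℂ)) := by
    rw [tendsto_iff_norm_sub_tendsto_zero]
    simp only [hζan]
    exact httend
  have hζt' : Tendsto ζ atTop (𝓝 a) := tendsto_subtype_rng.mpr hζt
  have hΦt : Tendsto (fun n => (Φ (ζ n) : ℂ)) atTop (𝓝 (a:ℂ)) := by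
    have h1 : Tendsto (fun n => ((Φ (ζ n) : Pt) : ℂ)) atTop (𝓝 ((Φ a : Pt) : ℂ)) :=
      ((continuous_subtype_val.comp h.cont).tendsto a).comp hζt'
    rwa [hΦa] at h1
  -- the limit with epsilon
  have hlim : ∀ ε : ℝ, 0 < ε → ‖(a:ℂ) - Φ z‖ ^ 2 * ((1 - ‖(z:ℂ)‖ ^ 2) * 2) ≤
      ‖(a:ℂ) - z‖ ^ 2 * ((1 - ‖(Φ z : ℂ)‖ ^ 2) * (2 * (γ.re + ε))) := by
    intro ε hε
    obtain ⟨δ, hδ, hδ2⟩ := hexp ε hε
    have hL : Tendsto (fun n : ℕ => ‖1 - (starRingEnd ℂ) (Φ (ζ n) : ℂ) * (Φ z : ℂ)‖ ^ 2 *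
        ((1 - ‖(z:ℂ)‖ ^ 2) * (2 - 1 / ((n : ℝ) + 1)))) atTop
        (𝓝 (‖1 - (starRingEnd ℂ) (a:ℂ) * (Φ z : ℂ)‖ ^ 2 * ((1 - ‖(z:ℂ)‖ ^ 2) * (2 - 0)))) := by
      apply Tendsto.mul
      · have hc : Continuous fun x : ℂ => ‖1 - (starRingEnd ℂ) x * (Φ z : ℂ)‖ ^ 2 := by
          have := Complex.continuous_conj
          fun_prop
        exact (hc.tendsto (a:ℂ)).comp hΦt
      · exact (tendsto_const_nhds.sub httend).const_mul _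
    have hR : Tendsto (fun n : ℕ => ‖1 - (starRingEnd ℂ) (ζ n : ℂ) * (z : ℂ)‖ ^ 2 *
        ((1 - ‖(Φ z : ℂ)‖ ^ 2) * (2 * (γ.re + ε)))) atTop
        (𝓝 (‖1 - (starRingEnd ℂ) (a:ℂ) * (z : ℂ)‖ ^ 2 *
          ((1 - ‖(Φ z : ℂ)‖ ^ 2) * (2 * (γ.re + ε))))) := by
      apply Tendsto.mul_const
      have hc : Continuous fun x : ℂ => ‖1 - (starRingEnd ℂ) x * (z : ℂ)‖ ^ 2 := by
        have := Complex.continuous_conj
        fun_prop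
      exact (hc.tendsto (a:ℂ)).comp hζt
    have hle := le_of_tendsto_of_tendsto hL hR ?_
    · rw [norm_one_sub_conj _ _ ha, norm_one_sub_conj _ _ ha, sub_zero] at hle
      exact hle
    · filter_upwards [httend.eventually_lt_const hδ] with n hn
      have hlt : ‖(ζ n : ℂ)‖ < 1 := by rw [hζn]; linarith [ht0 n]
      have hsp := schwarz_pick (ext (T Z).1) hfd hfm z (ζ n) hz hlt
      rw [hfe, hfe, hζn] at hsp
      have hlow := low_bd a ha γ ε (ζ n) (hδ2 (ζ n) (by rw [hζan]; exact hn))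
      have e1 : ((starRingEnd ℂ) (a:ℂ) * (γ * ((ζ n : ℂ) - a))).re =
          -(1 / ((n : ℝ) + 1) * γ.re) := by
        rw [hζa]
        have e2 : (starRingEnd ℂ) (a:ℂ) * (γ * (-((1 / ((n : ℝ) + 1) : ℝ) : ℂ) * a)) =
            -(((1 / ((n : ℝ) + 1) : ℝ) : ℂ) * γ) := by
          have := conj_mul_unit (a:ℂ) ha
          linear_combination (-γ * ((1 / ((n : ℝ) + 1) : ℝ) : ℂ)) * this
        rw [e2, Complex.neg_re, Complex.re_ofReal_mul]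
      rw [e1, hζan] at hlow
      obtain ⟨t, ht⟩ : ∃ t : ℝ, t = 1 / ((n : ℝ) + 1) := ⟨_, rfl⟩
      have htpos : 0 < t := by rw [ht]; exact ht0 n
      rw [← ht] at hlow hsp ⊢
      have hΦ1 := pt_norm_le (Φ (ζ n))
      have hub : 1 - ‖(Φ (ζ n) : ℂ)‖ ^ 2 ≤ 2 * (γ.re + ε) * t := by
        nlinarith [norm_nonneg (Φ (ζ n) : ℂ)]
      have hΦz : 0 ≤ 1 - ‖(Φ z : ℂ)‖ ^ 2 := by
        have := pt_norm_le (Φ z)
        nlinarith [norm_nonneg (Φ z : ℂ)]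
      have h7 : ‖1 - (starRingEnd ℂ) (ζ n : ℂ) * (z : ℂ)‖ ^ 2 *
          ((1 - ‖(Φ z : ℂ)‖ ^ 2) * (1 - ‖(Φ (ζ n) : ℂ)‖ ^ 2)) ≤
          ‖1 - (starRingEnd ℂ) (ζ n : ℂ) * (z : ℂ)‖ ^ 2 *
          ((1 - ‖(Φ z : ℂ)‖ ^ 2) * (2 * (γ.re + ε) * t)) := by
        apply mul_le_mul_of_nonneg_left _ (by positivity)
        exact mul_le_mul_of_nonneg_left hub hΦz
      have h8 := hsp.trans h7
      have h9 : t * (‖1 - (starRingEnd ℂ) (Φ (ζ n) : ℂ) * (Φ z : ℂ)‖ ^ 2 *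
          ((1 - ‖(z:ℂ)‖ ^ 2) * (2 - t))) ≤ t * (‖1 - (starRingEnd ℂ) (ζ n : ℂ) * (z : ℂ)‖ ^ 2 *
          ((1 - ‖(Φ z : ℂ)‖ ^ 2) * (2 * (γ.re + ε)))) := by
        calc t * (‖1 - (starRingEnd ℂ) (Φ (ζ n) : ℂ) * (Φ z : ℂ)‖ ^ 2 *
          ((1 - ‖(z:ℂ)‖ ^ 2) * (2 - t))) = ‖1 - (starRingEnd ℂ) (Φ (ζ n) : ℂ) * (Φ z : ℂ)‖ ^ 2 *
            ((1 - ‖(z:ℂ)‖ ^ 2) * (1 - (1 - t) ^ 2)) := by ring
          _ ≤ _ := h8
          _ = _ := by ring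
      exact le_of_mul_le_mul_left h9 htpos
  -- let epsilon go to zero
  obtain ⟨A, hA⟩ : ∃ A : ℝ, A = ‖(a:ℂ) - Φ z‖ ^ 2 * (1 - ‖(z:ℂ)‖ ^ 2) := ⟨_, rfl⟩
  obtain ⟨B, hB⟩ : ∃ B : ℝ, B = ‖(a:ℂ) - z‖ ^ 2 * (1 - ‖(Φ z : ℂ)‖ ^ 2) := ⟨_, rfl⟩
  have hlim2 : ∀ ε : ℝ, 0 < ε → A ≤ (γ.re + ε) * B := by
    intro ε hε
    have := hlim ε hε
    rw [hA, hB]
    linarith
  rw [← hA, ← hB]
  have hB0 : 0 ≤ B := by
    rw [hB]
    have := pt_norm_le (Φ z)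
    have h1 : 0 ≤ 1 - ‖(Φ z : ℂ)‖ ^ 2 := by nlinarith [norm_nonneg (Φ z : ℂ)]
    positivity
  apply le_of_forall_pos_le_add
  intro η hη
  have h10 := hlim2 (η / (B + 1)) (by positivity)
  have h11 : η / (B + 1) * B ≤ η := by
    calc η / (B + 1) * B ≤ η / (B + 1) * (B + 1) :=
          mul_le_mul_of_nonneg_left (by linarith) (by positivity)
      _ = η := div_mul_cancel₀ _ (by positivity)
  linarith

theorem julia1 {T : DA →L[ℂ] DA} {Φ : Pt → Pt} (h : IsComp T Φ) (a : Pt) (ha : ‖(a:ℂ)‖ = 1)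
    (hK : KK Φ ⊆ {a}) (hin : ∀ z : Pt, ‖(z:ℂ)‖ < 1 → ‖(Φ z : ℂ)‖ < 1) (γ : ℂ)
    (hexp : ∀ ε : ℝ, 0 < ε → ∃ δ : ℝ, 0 < δ ∧ ∀ z : Pt, ‖(z:ℂ) - a‖ < δ →
      ‖(Φ z : ℂ) - a - γ * ((z:ℂ) - a)‖ ≤ ε * ‖(z:ℂ) - a‖) :
    γ = 1 ∨ ∃ β : ℝ, 1 < β ∧ ∀ z : Pt, ‖(z:ℂ)‖ < 1 →
      β * ((1 - ‖(z:ℂ)‖ ^ 2) / ‖(a:ℂ) - z‖ ^ 2) ≤
        (1 - ‖(Φ z : ℂ)‖ ^ 2) / ‖(a:ℂ) - Φ z‖ ^ 2 := by
  have him := im_zero a ha γ hexp
  have hre := re_le_one h a ha hK hin γ hexp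
  have hJ := julia_ineq h a ha hin γ hexp
  have hane : ∀ w : Pt, ‖(w:ℂ)‖ < 1 → 0 < ‖(a:ℂ) - w‖ := by
    intro w hw
    rw [norm_pos_iff, sub_ne_zero]
    intro he
    rw [← he, ha] at hw
    exact lt_irrefl _ hw
  have hpos : 0 < γ.re := by
    have hz0 : ‖(((⟨0, by simp⟩ : Pt)) : ℂ)‖ < 1 := by simp
    have h1 := hJ ⟨0, by simp⟩ hz0
    have h2 := hane _ (hin _ hz0)
    have h3 := hin _ hz0
    have h4 : 0 < 1 - ‖(Φ ⟨0, by simp⟩ : ℂ)‖ ^ 2 := by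
      nlinarith [norm_nonneg (Φ ⟨0, by simp⟩ : ℂ)]
    have h5 := hane _ hz0
    have h6 : 0 < ‖(a:ℂ) - Φ ⟨0, by simp⟩‖ ^ 2 * (1 - ‖(((⟨0, by simp⟩ : Pt)) : ℂ)‖ ^ 2) := by
      have : (1 - ‖(((⟨0, by simp⟩ : Pt)) : ℂ)‖ ^ 2) = 1 := by simp
      rw [this]
      positivity
    have h7 : 0 < ‖(a:ℂ) - (((⟨0, by simp⟩ : Pt)) : ℂ)‖ ^ 2 *
        (1 - ‖(Φ ⟨0, by simp⟩ : ℂ)‖ ^ 2) := by positivity
    by_contra hneg
    rw [not_lt] at hneg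
    have h8 := mul_nonpos_of_nonpos_of_nonneg hneg h7.le
    linarith
  rcases hre.eq_or_lt with he | hlt
  · left
    exact Complex.ext (by simpa using he) (by simpa using him)
  · right
    refine ⟨1 / γ.re, (one_lt_div hpos).mpr hlt, fun z hz => ?_⟩
    have h1 := hJ z hz
    have h2 := hane z hz
    have h3 := hane _ (hin z hz)
    rw [div_mul_div_comm, one_mul, div_le_div_iff₀ (by positivity) (by positivity)]
    calc (1 - ‖(z:ℂ)‖ ^ 2) * ‖(a:ℂ) - Φ z‖ ^ 2 = ‖(a:ℂ) - Φ z‖ ^ 2 * (1 - ‖(z:ℂ)‖ ^ 2) := by ring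
      _ ≤ _ := h1
      _ = _ := by ring

end Pool.Agent.Helper203.DS
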