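import Pool.Agent.KS6_19.DA.L.Helper203.DS.Base

open Metric Set Filter Topology

noncomputable section

namespace Pool.Agent.Helper203.DS

theorem seq_ineq (l : ℂ) (hl : ‖l‖ < 1) (q : ℝ) (hq : 1 < q) :
    ∃ r : ℝ, 0 < r ∧ r < 1 ∧ ∀ u : ℕ → ℂ, (∃ M : ℝ, ∀ k, ‖u k‖ ≤ M) →
      ∑' k, r ^ k * ‖u (k + 1) - (starRingEnd ℂ) l * u k‖ ^ 2 ≤
        q ^ 2 * ∑' k, r ^ k * ‖u k - l * u (k + 1)‖ ^ 2 := by
  set L : ℝ := ‖l‖ with hL
  have hL0 : 0 ≤ L := norm_nonneg _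
  set A : ℝ := (1 - L) * (q ^ 2 + L) with hA
  set Bq : ℝ := (1 - L) * (1 + q ^ 2 * L) with hB
  have h1L : 0 < 1 - L := by linarith
  have hAp : 0 < A := by positivity
  have hBp : 0 < Bq := by positivity
  have hAB : Bq < A := by
    have : 0 < (1 - L) * ((q ^ 2 - 1) * (1 - L)) := by
      have : 0 < q ^ 2 - 1 := by nlinarith
      positivity
    rw [hA, hB]
    nlinarith
  refine ⟨Bq / A, by positivity, (div_lt_one hAp).2 hAB, ?_⟩
  intro u ⟨M, hM⟩
  set r : ℝ := Bq / A with hr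
  have hr0 : 0 < r := by positivity
  have hr1 : r < 1 := (div_lt_one hAp).2 hAB
  have hrA : A * r = Bq := by rw [hr]; field_simp
  have hM0 : 0 ≤ M := (norm_nonneg _).trans (hM 0)
  have hg : Summable (fun k : ℕ => r ^ k * (2 * M) ^ 2) :=
    (summable_geometric_of_lt_one hr0.le hr1).mul_right _
  have hs : Summable (fun k : ℕ => r ^ k * ‖u k‖ ^ 2) := by
    refine Summable.of_nonneg_of_le (fun k => by positivity) (fun k => ?_) hg
    have := hM k
    have h2 : ‖u k‖ ≤ 2 * M := by linarith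
    gcongr
  have hP : Summable (fun k : ℕ => r ^ k * ‖u (k + 1) - (starRingEnd ℂ) l * u k‖ ^ 2) := by
    refine Summable.of_nonneg_of_le (fun k => by positivity) (fun k => ?_) hg
    have h1 := hM k
    have h2 := hM (k + 1)
    have h3 : ‖u (k + 1) - (starRingEnd ℂ) l * u k‖ ≤ 2 * M := by
      refine (norm_sub_le _ _).trans ?_
      rw [norm_mul, Complex.norm_conj]
      have : ‖l‖ * ‖u k‖ ≤ 1 * M := mul_le_mul hl.le h1 (norm_nonneg _) zero_le_one
      linarith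
    gcongr
  have hQ : Summable (fun k : ℕ => r ^ k * ‖u k - l * u (k + 1)‖ ^ 2) := by
    refine Summable.of_nonneg_of_le (fun k => by positivity) (fun k => ?_) hg
    have h1 := hM k
    have h2 := hM (k + 1)
    have h3 : ‖u k - l * u (k + 1)‖ ≤ 2 * M := by
      refine (norm_sub_le _ _).trans ?_
      rw [norm_mul]
      have : ‖l‖ * ‖u (k + 1)‖ ≤ 1 * M := mul_le_mul hl.le h2 (norm_nonneg _) zero_le_one
      linarith
    gcongr
  have hs1 : Summable (fun k : ℕ => r ^ (k + 1) * ‖u (k + 1)‖ ^ 2) :=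
    (summable_nat_add_iff 1).2 hs
  have hpt : ∀ k : ℕ, r ^ k * ‖u (k + 1) - (starRingEnd ℂ) l * u k‖ ^ 2 +
      A * (r ^ k * ‖u k‖ ^ 2 - r ^ (k + 1) * ‖u (k + 1)‖ ^ 2) ≤
      q ^ 2 * (r ^ k * ‖u k - l * u (k + 1)‖ ^ 2) := by
    intro k
    have key : ‖u (k + 1) - (starRingEnd ℂ) l * u k‖ ^ 2 + (A * ‖u k‖ ^ 2 - Bq * ‖u (k + 1)‖ ^ 2) ≤
        q ^ 2 * ‖u k - l * u (k + 1)‖ ^ 2 := by
      set a := u k
      set b := u (k + 1)
      have e1 : ‖a - l * b‖ ^ 2 = ‖a‖ ^ 2 + L ^ 2 * ‖b‖ ^ 2 -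
          2 * (l * b * (starRingEnd ℂ) a).re := by
        rw [hL, Complex.sq_norm, Complex.sq_norm, Complex.sq_norm, Complex.sq_norm]
        simp only [Complex.normSq_apply, Complex.sub_re, Complex.sub_im, Complex.mul_re,
          Complex.mul_im, Complex.conj_re, Complex.conj_im]
        ring
      have e2 : ‖b - (starRingEnd ℂ) l * a‖ ^ 2 = ‖b‖ ^ 2 + L ^ 2 * ‖a‖ ^ 2 -
          2 * (l * b * (starRingEnd ℂ) a).re := by
        rw [hL, Complex.sq_norm, Complex.sq_norm, Complex.sq_norm, Complex.sq_norm]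
        simp only [Complex.normSq_apply, Complex.sub_re, Complex.sub_im, Complex.mul_re,
          Complex.mul_im, Complex.conj_re, Complex.conj_im]
        ring
      have e3 : (l * b * (starRingEnd ℂ) a).re ≤ L * (‖a‖ ^ 2 + ‖b‖ ^ 2) / 2 := by
        have h1 : (l * b * (starRingEnd ℂ) a).re ≤ ‖l * b * (starRingEnd ℂ) a‖ :=
          Complex.re_le_norm _
        rw [norm_mul, norm_mul, Complex.norm_conj] at h1
        have h2 : L * ‖b‖ * ‖a‖ ≤ L * (‖a‖ ^ 2 + ‖b‖ ^ 2) / 2 := by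
          have : 0 ≤ L * (‖a‖ - ‖b‖) ^ 2 := by positivity
          nlinarith
        exact h1.trans h2
      rw [e1, e2, hA, hB]
      have hq1 : 0 < q ^ 2 - 1 := by nlinarith
      nlinarith [mul_le_mul_of_nonneg_left e3 hq1.le]
    have h2 := mul_le_mul_of_nonneg_left key (pow_nonneg hr0.le k)
    have h3 : A * (r ^ k * ‖u k‖ ^ 2 - r ^ (k + 1) * ‖u (k + 1)‖ ^ 2) =
        r ^ k * (A * ‖u k‖ ^ 2 - Bq * ‖u (k + 1)‖ ^ 2) := by
      rw [← hrA]; ring
    rw [h3]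
    linarith
  have hsum := Summable.tsum_le_tsum hpt (hP.add ((hs.sub hs1).mul_left A)) (hQ.mul_left (q ^ 2))
  rw [Summable.tsum_add hP ((hs.sub hs1).mul_left A), tsum_mul_left, tsum_mul_left,
    Summable.tsum_sub hs hs1] at hsum
  have h0 := hs.tsum_eq_zero_add
  have h4 : (0:ℝ) ≤ A * (∑' k, r ^ k * ‖u k‖ ^ 2 - ∑' k, r ^ (k + 1) * ‖u (k + 1)‖ ^ 2) := by
    rw [h0]
    have : 0 ≤ r ^ 0 * ‖u 0‖ ^ 2 := by positivity
    apply mul_nonneg hAp.le
    linarith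
  linarith

theorem alg_res_aux1 {A : Type*} [Ring A] [Algebra ℂ A] (T : A) (l : ℂ)
    (h : IsUnit (algebraMap ℂ A l - T)) : ∃ R : A, R * T = 1 + l • R ∧ T * R = 1 + l • R := by
  obtain ⟨U, hU⟩ := h
  refine ⟨-(↑U⁻¹ : A), ?_, ?_⟩
  · have h1 : (↑U⁻¹ : A) * (algebraMap ℂ A l - T) = 1 := by
      rw [← hU]; exact U.inv_mul
    rw [mul_sub, ← Algebra.commutes, ← Algebra.smul_def] at h1
    rw [neg_mul, smul_neg, ← h1]
    abel
  · have h1 : (algebraMap ℂ A l - T) * (↑U⁻¹ : A) = 1 := by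
      rw [← hU]; exact U.mul_inv
    rw [sub_mul, ← Algebra.smul_def] at h1
    rw [mul_neg, smul_neg, ← h1]
    abel

theorem alg_res_aux2 {A : Type*} [Ring A] [Algebra ℂ A] (T R : A) (l c : ℂ)
    (hRT : R * T = 1 + l • R) (hTR : T * R = 1 + l • R) :
    (R - c • (T * R)) * T = T * (R - c • (T * R)) ∧
    ((R - c • (T * R)) + c • (1 : A)) * T = 1 + l • (R - c • (T * R)) := by
  constructor
  · rw [sub_mul, mul_sub, smul_mul_assoc, mul_smul_comm, mul_assoc, hRT, hTR]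
  · rw [add_mul, sub_mul, smul_mul_assoc, mul_assoc, smul_mul_assoc, one_mul, hRT, mul_add,
      mul_one, mul_smul_comm, smul_sub, smul_add, smul_comm l c]
    abel

theorem exists_res (T : DA →L[ℂ] DA) (l : ℂ) (hl : l ∉ spectrum ℂ T) : ∃ S, Res T l S := by
  have hu : IsUnit (algebraMap ℂ (DA →L[ℂ] DA) l - T) := by
    simpa [spectrum, resolventSet] using hl
  obtain ⟨R, hRT, hTR⟩ := alg_res_aux1 T l hu
  obtain ⟨h1, h2⟩ := alg_res_aux2 T R l ((starRingEnd ℂ) l) hRT hTR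
  refine ⟨R - (starRingEnd ℂ) l • (T * R), h1, h2, ?_⟩
  intro g
  refine ⟨R g, ?_, ?_⟩
  · have := congrArg (fun X : DA →L[ℂ] DA => X g) hTR
    have h3 : T (R g) = g + l • R g := this
    rw [h3]
    abel
  · rfl

end Pool.Agent.Helper203.DS
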