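import Pool.Agent.KS6_19.DA.L.Helper203.DS.Defs3
import Pool.Agent.KS6_19.DA.L.Helper203.DS.CayL
import Pool.Agent.KS6_19.DA.L.Helper203.DS.LimRe

open Metric Set Filter Topology

noncomputable section

namespace Pool.Agent.Helper203.DS

theorem limC_ne_aux1 (P : ℂ → ℂ) (hd : DifferentiableOn ℂ P {w | 0 < w.re})
    (hre : ∀ w : ℂ, 0 < w.re → -w.re ≤ (P w).re)
    (hlim : ∀ ε : ℝ, 0 < ε → ∃ M : ℝ, 1 ≤ M ∧ ∀ w : ℂ, 0 < w.re → M ≤ ‖w‖ → ‖P w * w‖ < ε) :
    ∀ w : ℂ, 0 < w.re → 0 ≤ (P w).re := by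
  obtain ⟨M, hM, hMP⟩ := hlim 1 one_pos
  have hbound : ∀ w : ℂ, 0 < w.re → ‖Complex.exp (-P w)‖ ≤ Real.exp (M + 1) := by
    intro w hw
    rw [Complex.norm_exp, Real.exp_le_exp, Complex.neg_re]
    by_cases h : M ≤ ‖w‖
    · have h1 := hMP w hw h
      rw [norm_mul] at h1
      have h2 : ‖P w‖ ≤ 1 := by
        by_contra hcon
        push Not at hcon
        nlinarith [norm_nonneg w]
      have h3 := Complex.abs_re_le_norm (P w)
      have h4 := neg_abs_le (P w).re
      linarith
    · push Not at h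
      have h3 := hre w hw
      have h4 := Complex.re_le_norm w
      linarith
  have key : ∀ δ : ℝ, 0 < δ → ∀ w : ℂ, 0 < w.re → -δ ≤ (P (w + δ)).re := by
    intro δ hδ w hw
    have hf : DiffContOnCl ℂ (fun w : ℂ => Complex.exp (-P (w + δ))) {z | 0 < z.re} := by
      apply DifferentiableOn.diffContOnCl
      have hcl : closure {z : ℂ | 0 < z.re} ⊆ {z : ℂ | 0 ≤ z.re} := by
        rw [Complex.closure_setOfPred_lt_re]
      refine DifferentiableOn.mono ?_ hcl
      apply DifferentiableOn.cexp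
      apply DifferentiableOn.neg
      refine DifferentiableOn.comp hd ?_ ?_
      · fun_prop
      · intro z hz
        simp only [mem_setOf_eq] at hz ⊢
        simp only [Complex.add_re, Complex.ofReal_re]
        linarith
    have h1 := PhragmenLindelof.right_half_plane_of_bounded_on_real (C := Real.exp δ) (z := w) hf ?_ ?_ ?_ hw.le
    · rw [Complex.norm_exp, Real.exp_le_exp, Complex.neg_re] at h1
      linarith
    · refine ⟨1, by norm_num, 0, ?_⟩
      refine Asymptotics.IsBigO.of_bound (Real.exp (M + 1)) ?_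
      refine eventually_inf_principal.2 (Eventually.of_forall fun z hz => ?_)
      have hz' : 0 < (z + δ).re := by
        simp only [mem_setOf_eq] at hz
        simp only [Complex.add_re, Complex.ofReal_re]
        linarith
      simpa using hbound _ hz'
    · refine ⟨Real.exp (M + 1), ?_⟩
      rw [eventually_map]
      filter_upwards [eventually_ge_atTop 0] with x hx
      apply hbound
      simp only [Complex.add_re, Complex.ofReal_re]
      linarith
    · intro x
      rw [Complex.norm_exp, Real.exp_le_exp, Complex.neg_re]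
      have h2 := hre (x * Complex.I + δ) (by simpa using hδ)
      have h3 : (x * Complex.I + δ : ℂ).re = δ := by simp
      rw [h3] at h2
      linarith
  intro w hw
  apply le_of_forall_pos_lt_add
  intro ε hε
  -- use δ small
  set δ : ℝ := min (ε / 2) (w.re / 2) with hδ
  have hδ0 : 0 < δ := lt_min (by linarith) (by linarith)
  have h1 := key δ hδ0 (w - δ) (by
    simp only [Complex.sub_re, Complex.ofReal_re]
    have := min_le_right (ε / 2) (w.re / 2)
    linarith)
  rw [sub_add_cancel] at h1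
  have := min_le_left (ε / 2) (w.re / 2)
  linarith

theorem limC_ne_aux2 (P : ℂ → ℂ) (hd : DifferentiableOn ℂ P {w | 0 < w.re})
    (hre : ∀ w : ℂ, 0 < w.re → 0 ≤ (P w).re)
    (hlim : ∀ ε : ℝ, 0 < ε → ∃ M : ℝ, 1 ≤ M ∧ ∀ w : ℂ, 0 < w.re → M ≤ ‖w‖ → ‖P w * w‖ < ε) :
    (P 1).re = 0 := by
  by_contra hne
  have hr : 0 < (P 1).re := lt_of_le_of_ne (hre 1 (by simp)) (Ne.symm hne)
  set p : ℂ := P 1 with hp
  have hden : ∀ w : ℂ, 0 < w.re → P w + (starRingEnd ℂ) p ≠ 0 := by
    intro w hw h
    have := congrArg Complex.re h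
    simp only [Complex.add_re, Complex.conj_re, Complex.zero_re] at this
    have := hre w hw
    linarith
  -- the Cayley map
  have hc : ∀ z : ℂ, ‖z‖ < 1 → 0 < ((1 + z) / (1 - z)).re := by
    intro z hz
    have h1 : (1 - z) ≠ 0 := by
      intro h
      have : z = 1 := by linear_combination -h
      rw [this] at hz
      simp at hz
    have h2 : ((1 + z) / (1 - z)).re = (1 - ‖z‖ ^ 2) / Complex.normSq (1 - z) := by
      rw [Complex.div_re, ← Complex.normSq_eq_norm_sq, Complex.normSq_apply z]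
      simp
      ring
    rw [h2]
    apply div_pos
    · nlinarith [norm_nonneg z]
    · exact Complex.normSq_pos.2 h1
  have hident : ∀ w : ℂ, ‖P w - p‖ ^ 2 = ‖P w + (starRingEnd ℂ) p‖ ^ 2 - 4 * (P w).re * p.re := by
    intro w
    rw [← Complex.normSq_eq_norm_sq, ← Complex.normSq_eq_norm_sq, Complex.normSq_apply, Complex.normSq_apply]
    simp
    ring
  have hschwarz : ∀ z : ℂ, ‖z‖ < 1 →
      ‖P ((1 + z) / (1 - z)) - p‖ ≤ ‖z‖ * ‖P ((1 + z) / (1 - z)) + (starRingEnd ℂ) p‖ := by
    intro z hz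
    have h := Complex.norm_le_norm_of_mapsTo_ball (R := 1)
      (f := fun z => (P ((1 + z) / (1 - z)) - p) / (P ((1 + z) / (1 - z)) + (starRingEnd ℂ) p))
      (z := z) ?_ ?_ ?_ hz
    · rw [norm_div] at h
      have h3 : 0 < ‖P ((1 + z) / (1 - z)) + (starRingEnd ℂ) p‖ :=
        norm_pos_iff.2 (hden _ (hc z hz))
      rwa [div_le_iff₀ h3] at h
    · have hPc : DifferentiableOn ℂ (fun z : ℂ => P ((1 + z) / (1 - z))) (ball 0 1) := by
        refine DifferentiableOn.comp hd ?_ ?_
        · apply DifferentiableOn.div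
          · fun_prop
          · fun_prop
          · intro z hz h
            have : z = 1 := by linear_combination -h
            rw [this] at hz
            simp at hz
        · intro z hz
          exact hc z (by simpa using hz)
      apply DifferentiableOn.div
      · exact hPc.sub_const _
      · exact hPc.add_const _
      · intro z hz
        exact hden _ (hc z (by simpa using hz))
    · intro z hz
      have hz' : ‖z‖ < 1 := by simpa using hz
      simp only [mem_closedBall, dist_zero_right]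
      rw [norm_div]
      have h3 : 0 < ‖P ((1 + z) / (1 - z)) + (starRingEnd ℂ) p‖ :=
        norm_pos_iff.2 (hden _ (hc z hz'))
      rw [div_le_one h3]
      have h4 := hident ((1 + z) / (1 - z))
      have h5 := hre _ (hc z hz')
      apply le_of_sq_le_sq _ h3.le
      nlinarith [mul_nonneg h5 hr.le]
    · simp [hp]
  -- along the reals
  have hreal : ∀ x : ℝ, 1 < x → x * ‖P x + (starRingEnd ℂ) p‖ ^ 2 ≤ (x + 1) ^ 2 * ((P x).re * p.re) := by
    intro x hx
    set t : ℝ := (x - 1) / (x + 1) with ht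
    have hx1 : 0 < x + 1 := by linarith
    have ht0 : 0 ≤ t := div_nonneg (by linarith) hx1.le
    have ht1 : t < 1 := by
      rw [ht, div_lt_one hx1]
      linarith
    have hnt : ‖(t : ℂ)‖ = t := by
      rw [Complex.norm_real, Real.norm_of_nonneg ht0]
    have hct : ((1 + (t : ℂ)) / (1 - (t : ℂ))) = (x : ℂ) := by
      have h1 : (1 + t) / (1 - t) = x := by
        rw [ht]
        have : (x + 1) ≠ 0 := hx1.ne'
        field_simp
        ring
      rw [← h1]
      push_cast
      ring
    have h := hschwarz (t : ℂ) (by rw [hnt]; exact ht1)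
    rw [hct, hnt] at h
    have h2 : ‖P x - p‖ ^ 2 ≤ t ^ 2 * ‖P x + (starRingEnd ℂ) p‖ ^ 2 := by
      rw [← mul_pow]
      exact pow_le_pow_left₀ (norm_nonneg _) h 2
    rw [hident] at h2
    have h3 : t * (x + 1) = x - 1 := by
      rw [ht]
      field_simp
    have h4 : (1 - t ^ 2) * (x + 1) ^ 2 = 4 * x := by
      have : (1 - t ^ 2) * (x + 1) ^ 2 = (x + 1) ^ 2 - (t * (x + 1)) ^ 2 := by ring
      rw [this, h3]
      ring
    have h5 : (1 - t ^ 2) * ‖P x + (starRingEnd ℂ) p‖ ^ 2 ≤ 4 * (P x).re * p.re := by linarith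
    have h6 : (x + 1) ^ 2 * ((1 - t ^ 2) * ‖P x + (starRingEnd ℂ) p‖ ^ 2)
        ≤ (x + 1) ^ 2 * (4 * (P x).re * p.re) :=
      mul_le_mul_of_nonneg_left h5 (by positivity)
    have h7 : (x + 1) ^ 2 * ((1 - t ^ 2) * ‖P x + (starRingEnd ℂ) p‖ ^ 2)
        = 4 * (x * ‖P x + (starRingEnd ℂ) p‖ ^ 2) := by
      rw [← mul_assoc, mul_comm ((x + 1) ^ 2), h4]
      ring
    rw [h7] at h6
    linarith
  -- contradiction
  obtain ⟨M, hM, hMP⟩ := hlim (p.re / 8) (by positivity)
  set x : ℝ := M + 1 with hx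
  have hx2 : 2 ≤ x := by linarith
  have hxn : ‖(x : ℂ)‖ = x := by rw [Complex.norm_real, Real.norm_of_nonneg (by linarith)]
  have h1 := hMP (x : ℂ) (by simp; linarith) (by rw [hxn]; linarith)
  rw [norm_mul, hxn] at h1
  have h2 := hreal x (by linarith)
  have h3 : (P x).re ≤ ‖P x‖ := Complex.re_le_norm _
  have h4 : p.re ≤ ‖P x + (starRingEnd ℂ) p‖ := by
    refine le_trans ?_ (Complex.re_le_norm _)
    simp only [Complex.add_re, Complex.conj_re]
    have := hre x (by simp; linarith)
    linarith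
  have h5 : p.re ^ 2 ≤ ‖P x + (starRingEnd ℂ) p‖ ^ 2 := pow_le_pow_left₀ hr.le h4 2
  have h6 : x * (x * p.re ^ 2) ≤ (x + 1) ^ 2 * (x * (P x).re) * p.re := by
    have : x * (x * p.re ^ 2) ≤ x * ((x + 1) ^ 2 * ((P x).re * p.re)) := by
      apply mul_le_mul_of_nonneg_left _ (by linarith)
      refine le_trans ?_ h2
      apply mul_le_mul_of_nonneg_left h5 (by linarith)
    linarith [this]
  have h7 : x * (P x).re ≤ p.re / 8 := by
    have : x * (P x).re ≤ x * ‖P x‖ := mul_le_mul_of_nonneg_left h3 (by linarith)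
    linarith
  have h8 : (x + 1) ^ 2 * (x * (P x).re) * p.re ≤ (x + 1) ^ 2 * (p.re / 8) * p.re := by
    apply mul_le_mul_of_nonneg_right _ hr.le
    apply mul_le_mul_of_nonneg_left h7 (by positivity)
  have h9 : x * (x * p.re ^ 2) ≤ (x + 1) ^ 2 * (p.re / 8) * p.re := le_trans h6 h8
  have h10 : 0 < p.re ^ 2 := by positivity
  nlinarith [mul_pos h10 (by linarith : (0:ℝ) < x)]

theorem limC_ne_aux3 (P : ℂ → ℂ) (hd : DifferentiableOn ℂ P {w | 0 < w.re})
    (hre : ∀ w : ℂ, 0 < w.re → -w.re ≤ (P w).re)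
    (hlim : ∀ ε : ℝ, 0 < ε → ∃ M : ℝ, 1 ≤ M ∧ ∀ w : ℂ, 0 < w.re → M ≤ ‖w‖ → ‖P w * w‖ < ε) :
    P 1 = 0 := by
  have hre' := limC_ne_aux1 P hd hre hlim
  have h0 := limC_ne_aux2 P hd hre' hlim
  have hconv : IsPreconnected {w : ℂ | 0 < w.re} := (convex_halfSpace_re_gt 0).isPreconnected
  have hopen : IsOpen {w : ℂ | 0 < w.re} := isOpen_lt continuous_const Complex.continuous_re
  -- for every t, exp(-tP) is constant
  have hexp : ∀ t : ℝ, 0 < t → Complex.exp (-(t * P 1)) = 1 := by
    intro t ht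
    have hdt : DifferentiableOn ℂ (fun w => Complex.exp (-(t * P w))) {w : ℂ | 0 < w.re} :=
      (((hd.const_mul (t : ℂ))).neg).cexp
    have hmax : IsMaxOn (norm ∘ fun w => Complex.exp (-(t * P w))) {w : ℂ | 0 < w.re} 1 := by
      intro w hw
      simp only [mem_setOf_eq, Function.comp_apply] at hw ⊢
      rw [Complex.norm_exp, Complex.norm_exp, Real.exp_le_exp]
      have := hre' w hw
      simp only [Complex.neg_re, Complex.mul_re, Complex.ofReal_re, Complex.ofReal_im, zero_mul,
        sub_zero, h0, mul_zero, neg_zero]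
      have := mul_nonneg ht.le this
      linarith
    have heq := Complex.eqOn_of_isPreconnected_of_isMaxOn_norm hconv hopen hdt (by simp) hmax
    by_contra hne
    have hpos : 0 < ‖Complex.exp (-(t * P 1)) - 1‖ := norm_pos_iff.2 (sub_ne_zero.2 hne)
    -- continuity of exp at 0
    have hcont : Tendsto (fun z : ℂ => Complex.exp (-(t * z))) (𝓝 0) (𝓝 1) := by
      have : Continuous (fun z : ℂ => Complex.exp (-(t * z))) := by fun_prop
      have h := this.tendsto 0
      simpa using h
    rw [Metric.tendsto_nhds_nhds] at hcont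
    obtain ⟨δ, hδ, hδ'⟩ := hcont _ hpos
    obtain ⟨M, hM, hMP⟩ := hlim δ hδ
    have hMn : ‖(M : ℂ)‖ = M := by rw [Complex.norm_real, Real.norm_of_nonneg (by linarith)]
    have h1 := hMP (M : ℂ) (by simp; linarith) (by rw [hMn])
    rw [norm_mul, hMn] at h1
    have h2 : ‖P M‖ < δ := by
      nlinarith [norm_nonneg (P M)]
    have h3 := hδ' (x := P M) (by simpa using h2)
    have h4 := heq (show (M : ℂ) ∈ {w : ℂ | 0 < w.re} by simp; linarith)
    simp only [Function.const] at h4
    rw [h4, dist_eq_norm] at h3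
    exact lt_irrefl _ h3
  by_contra hne
  have hn : 0 < ‖P 1‖ := norm_pos_iff.2 hne
  have h1 := hexp (1 / ‖P 1‖) (by positivity)
  rw [Complex.exp_eq_one_iff] at h1
  obtain ⟨n, hn1⟩ := h1
  have h2 := congrArg norm hn1
  rw [norm_neg, norm_mul, Complex.norm_real, Real.norm_of_nonneg (by positivity)] at h2
  have h3 : 1 / ‖P 1‖ * ‖P 1‖ = 1 := by field_simp
  rw [h3] at h2
  simp only [norm_mul, Complex.norm_intCast, Complex.norm_I, Complex.norm_ofNat, mul_one,
    Complex.norm_real, Real.norm_of_nonneg Real.pi_pos.le] at h2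
  by_cases hn0 : n = 0
  · rw [hn0] at h2
    simp at h2
  · have h4 : (1 : ℝ) ≤ |(n : ℝ)| := by
      have : (1 : ℤ) ≤ |n| := Int.one_le_abs hn0
      exact_mod_cast this
    nlinarith [Real.pi_gt_three]

theorem limC_ne {T : DA →L[ℂ] DA} {Φ : Pt → Pt} (h : IsComp T Φ) (a : Pt) (ha : ‖(a:ℂ)‖ = 1)
    (hK : KK Φ ⊆ {a}) (hin : ∀ z : Pt, ‖(z:ℂ)‖ < 1 → ‖(Φ z : ℂ)‖ < 1) (c : ℂ)
    (hlim : LimC a c Φ) : c ≠ 0 := by
  intro hc0
  subst hc0
  have hw1 : ∀ w : ℂ, 0 < w.re → w + 1 ≠ 0 := by
    intro w hw h0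
    have := congrArg Complex.re h0
    simp only [Complex.add_re, Complex.one_re, Complex.zero_re] at this
    linarith
  have hφ : ∀ z : Pt, ext (T Z).1 (z : ℂ) = (Φ z : ℂ) := by
    intro z
    rw [ext_apply, h.eq, Z_apply]
  have hicn : ∀ w : ℂ, 0 < w.re → ‖ic a w‖ < 1 := fun w hw => ic_norm a w ha hw
  have hφn : ∀ w : ℂ, 0 < w.re → ‖ext (T Z).1 (ic a w)‖ < 1 := by
    intro w hw
    have h1 := hφ ⟨ic a w, by simpa using (hicn w hw).le⟩
    rw [show ext (T Z).1 (ic a w) = _ from h1]
    exact hin _ (hicn w hw)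
  have hφa : ∀ w : ℂ, 0 < w.re → ext (T Z).1 (ic a w) ≠ a := by
    intro w hw h0
    have := hφn w hw
    rw [h0, ha] at this
    exact lt_irrefl _ this
  have hPre : ∀ w : ℂ, 0 < w.re → 0 < (Cay a (ext (T Z).1 (ic a w))).re := by
    intro w hw
    rw [cay_re a _ ha (hφa w hw)]
    apply div_pos
    · have := hφn w hw
      nlinarith [norm_nonneg (ext (T Z).1 (ic a w))]
    · have : 0 < ‖(a:ℂ) - ext (T Z).1 (ic a w)‖ := norm_pos_iff.2 (sub_ne_zero.2 (hφa w hw).symm)
      positivity
  have hP1 := limC_ne_aux3 (fun w => Cay a (ext (T Z).1 (ic a w)) - w) ?_ ?_ ?_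
  · -- conclusion: 0 is a fixed point
    have h1 : Cay a (ext (T Z).1 (ic a 1)) = 1 := by linear_combination hP1
    have h2 : ic a 1 = 0 := by simp [ic]
    have h3 : ext (T Z).1 (ic a 1) = 0 := by
      rw [← ic_cay a _ ha (hφa 1 (by simp)), h1, h2]
    rw [h2] at h3
    set o : Pt := ⟨0, by simp⟩ with ho
    have h4 : Φ o = o := by
      apply Subtype.ext
      rw [← hφ o]
      exact h3
    have h5 : o ∈ KK Φ := by
      rw [KK, mem_iInter]
      intro n
      exact ⟨o, Function.iterate_fixed h4 n⟩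
    have h6 : o = a := hK h5
    rw [← h6] at ha
    simp [ho] at ha
  · refine DifferentiableOn.sub ?_ differentiableOn_id
    have hd1 : DifferentiableOn ℂ (fun w => ext (T Z).1 (ic a w)) {w : ℂ | 0 < w.re} := by
      refine DifferentiableOn.comp (differentiableOn_da (T Z)) ?_ ?_
      · unfold ic
        apply DifferentiableOn.div
        · fun_prop
        · fun_prop
        · intro w hw
          exact hw1 w hw
      · intro w hw
        simpa using hicn w hw
    unfold Cay
    apply DifferentiableOn.div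
    · exact hd1.const_add _
    · exact hd1.const_sub _
    · intro w hw
      exact sub_ne_zero.2 (hφa w hw).symm
  · intro w hw
    have := hPre w hw
    simp only [Complex.sub_re]
    linarith
  · intro ε hε
    obtain ⟨δ, hδ, hδ'⟩ := hlim ε hε
    refine ⟨2 / δ + 2, by have : 0 < 2 / δ := by positivity
                          linarith, ?_⟩
    intro w hw hM
    have h1 : ‖ic a w - a‖ < δ := by
      rw [ic_sub a w ha (hw1 w hw)]
      have h2 : ‖w‖ ≤ ‖w + 1‖ + 1 := by
        have := norm_sub_le (w + 1) 1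
        simpa using this
      have h3 : 2 / δ < ‖w + 1‖ := by linarith
      have h4 : 0 < ‖w + 1‖ := lt_trans (by positivity) h3
      rw [div_lt_iff₀ hδ] at h3
      rw [div_lt_iff₀ h4]
      linarith
    have hne : ic a w ≠ a := by
      intro h0
      have := hicn w hw
      rw [h0, ha] at this
      exact lt_irrefl _ this
    have h5 := (hδ' ⟨ic a w, by simpa using (hicn w hw).le⟩ hne h1).2
    rw [← hφ] at h5
    simp only at h5
    rw [cay_ic a w ha (hw1 w hw), sub_zero] at h5
    exact h5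

end Pool.Agent.Helper203.DS
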