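import Pool.Agent.KS6_19.DA.L.Helper203.DS.Base

open Metric Set Filter Topology

noncomputable section

namespace Pool.Agent.Helper203.DS

def tci_P (x : Pt) (S : DA →L[ℂ] DA) (L : ℝ) : Prop :=
  ∃ ρ : ℝ, 0 < ρ ∧ ∃ C : ℝ, ∀ z : Pt, dist z x < ρ → ∀ (f : DA) (n : ℕ),
      ‖((S ^ n) f).1 z‖ ≤ C * L ^ n * ‖f‖

theorem tci_norm (S : DA →L[ℂ] DA) (n : ℕ) (f : DA) : ‖(S ^ n) f‖ ≤ ‖S‖ ^ n * ‖f‖ := by
  induction n generalizing f with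
  | zero => simp
  | succ n ih =>
    have e : (S ^ (n + 1)) f = (S ^ n) (S f) := by rw [pow_succ]; rfl
    rw [e]
    calc ‖(S ^ n) (S f)‖ ≤ ‖S‖ ^ n * ‖S f‖ := ih _
      _ ≤ ‖S‖ ^ n * (‖S‖ * ‖f‖) := mul_le_mul_of_nonneg_left (S.le_opNorm f) (by positivity)
      _ = ‖S‖ ^ (n + 1) * ‖f‖ := by ring

theorem tci_base (x : Pt) (S : DA →L[ℂ] DA) (L : ℝ) (hL : ‖S‖ ≤ L) : tci_P x S L := by
  refine ⟨1, one_pos, 1, fun z _ f n => ?_⟩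
  calc ‖((S ^ n) f).1 z‖ ≤ ‖(S ^ n) f‖ := norm_apply_le _ _
    _ ≤ ‖S‖ ^ n * ‖f‖ := tci_norm S n f
    _ ≤ L ^ n * ‖f‖ := mul_le_mul_of_nonneg_right (pow_le_pow_left₀ S.opNorm_nonneg hL n)
        (norm_nonneg _)
    _ = 1 * L ^ n * ‖f‖ := by ring

theorem tci_mono (x : Pt) (S : DA →L[ℂ] DA) (L L' : ℝ) (h0 : 0 ≤ L) (h : L ≤ L')
    (hP : tci_P x S L) : tci_P x S L' := by
  obtain ⟨ρ, hρ, C, hC⟩ := hP
  refine ⟨ρ, hρ, |C|, fun z hz f n => (hC z hz f n).trans ?_⟩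
  have h1 : L ^ n ≤ L' ^ n := pow_le_pow_left₀ h0 h n
  have h2 : C * L ^ n ≤ |C| * L' ^ n :=
    mul_le_mul (le_abs_self C) h1 (by positivity) (abs_nonneg _)
  exact mul_le_mul_of_nonneg_right h2 (norm_nonneg _)

theorem tci_step (K : Set Pt) (x : Pt) (hTC : TC K x) (S : DA →L[ℂ] DA) (q : ℝ) (hq : 1 < q)
    (Cq : ℝ) (hCq : ∀ x ∈ K, ∀ (f : DA) (n : ℕ), ‖((S ^ n) f).1 x‖ ≤ Cq * q ^ n * ‖f‖)
    (L L' : ℝ) (hL : q ≤ L) (hL' : 0 < L') (h3 : L' ^ 3 = q * L ^ 2) (hP : tci_P x S L) :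
    tci_P x S L' := by
  obtain ⟨ρ, hρ, C, hC⟩ := hP
  obtain ⟨ρ', hρ', C', hC', hT⟩ := hTC ρ hρ
  obtain ⟨A, hA⟩ : ∃ A : ℝ, A = max Cq 1 := ⟨_, rfl⟩
  obtain ⟨B, hB⟩ : ∃ B : ℝ, B = max C A := ⟨_, rfl⟩
  have hA1 : 1 ≤ A := hA ▸ le_max_right _ _
  have hAq : Cq ≤ A := hA ▸ le_max_left _ _
  have hBA : A ≤ B := hB ▸ le_max_right _ _
  have hBC : C ≤ B := hB ▸ le_max_left _ _
  have hB0 : 0 ≤ B := by linarith
  have hq0 : 0 < q := by linarith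
  have hL0 : 0 < L := by linarith
  refine ⟨ρ', hρ', max 1 (C' * A * B ^ 2), fun z hz f n => ?_⟩
  by_cases hf : f = 0
  · rw [hf]; simp
  have hf' : 0 < ‖f‖ := norm_pos_iff.2 hf
  have hqL : q ^ n ≤ L ^ n := pow_le_pow_left₀ hq0.le hL n
  have key := hT ((S ^ n) f) (A * q ^ n * ‖f‖) (B * L ^ n * ‖f‖) (by positivity)
    (by gcongr) (fun z hz => (hC z hz f n).trans (by gcongr))
    (fun z hz _ => (hCq z hz f n).trans (by gcongr)) z hz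
  obtain ⟨D, hD⟩ : ∃ D : ℝ, D = max 1 (C' * A * B ^ 2) := ⟨_, rfl⟩
  rw [← hD]
  have hD1 : 1 ≤ D := hD ▸ le_max_left _ _
  have hD2 : C' * A * B ^ 2 ≤ D := hD ▸ le_max_right _ _
  have hD3 : D ≤ D ^ 3 := by
    have : D ^ 1 ≤ D ^ 3 := pow_le_pow_right₀ hD1 (by norm_num)
    simpa using this
  have e1 : C' * (A * q ^ n * ‖f‖) * (B * L ^ n * ‖f‖) ^ 2 =
      (C' * A * B ^ 2) * (L' ^ n * ‖f‖) ^ 3 := by
    have e2 : (L' ^ n) ^ 3 = q ^ n * (L ^ n) ^ 2 := by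
      rw [← pow_mul, mul_comm n 3, pow_mul, h3, mul_pow, ← pow_mul, ← pow_mul, mul_comm 2 n]
    rw [mul_pow (L' ^ n), e2]
    ring
  rw [e1] at key
  have key2 : ‖((S ^ n) f).1 z‖ ^ 3 ≤ (D * L' ^ n * ‖f‖) ^ 3 := by
    refine key.trans ?_
    have e3 : (D * L' ^ n * ‖f‖) ^ 3 = D ^ 3 * (L' ^ n * ‖f‖) ^ 3 := by ring
    rw [e3]
    exact mul_le_mul_of_nonneg_right (hD2.trans hD3) (by positivity)
  exact le_of_pow_le_pow_left₀ (by norm_num) (by positivity) key2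

theorem tc_iterate (K : Set Pt) (x : Pt) (hTC : TC K x) (S : DA →L[ℂ] DA)
    (hS : ∀ q : ℝ, 1 < q → ∃ C : ℝ, ∀ x ∈ K, ∀ (f : DA) (n : ℕ),
      ‖((S ^ n) f).1 x‖ ≤ C * q ^ n * ‖f‖) (β : ℝ) (hβ : 1 < β) :
    ∃ ρ : ℝ, 0 < ρ ∧ ∃ C : ℝ, ∀ z : Pt, dist z x < ρ → ∀ (f : DA) (n : ℕ),
      ‖((S ^ n) f).1 z‖ ≤ C * β ^ n * ‖f‖ := by
  obtain ⟨q, hq1, hqβ⟩ := exists_between hβ
  obtain ⟨Cq, hCq⟩ := hS q hq1
  have hq0 : 0 < q := by linarith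
  obtain ⟨R, hR1, hRS⟩ : ∃ R : ℝ, 1 ≤ R ∧ ‖S‖ ≤ q * R := by
    refine ⟨max 1 (‖S‖ / q), le_max_left _ _, ?_⟩
    have := le_max_right 1 (‖S‖ / q)
    rw [div_le_iff₀ hq0] at this
    linarith
  have hR0 : 0 < R := by linarith
  obtain ⟨L, hLdef⟩ : ∃ L : ℕ → ℝ, L = fun j => q * R ^ (((2 : ℝ) / 3) ^ j) := ⟨_, rfl⟩
  have hLq : ∀ j, q ≤ L j := by
    intro j
    rw [hLdef]
    have : 1 ≤ R ^ (((2 : ℝ) / 3) ^ j) := Real.one_le_rpow hR1 (by positivity)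
    simp only
    nlinarith
  have hstep : ∀ j, L (j + 1) ^ 3 = q * L j ^ 2 := by
    intro j
    rw [hLdef]
    simp only
    rw [mul_pow, mul_pow]
    have e1 : (R ^ (((2 : ℝ) / 3) ^ (j + 1))) ^ 3 = R ^ ((((2 : ℝ) / 3) ^ (j + 1)) * 3) := by
      rw [← Real.rpow_natCast, ← Real.rpow_mul hR0.le]
      norm_num
    have e2 : (R ^ (((2 : ℝ) / 3) ^ j)) ^ 2 = R ^ ((((2 : ℝ) / 3) ^ j) * 2) := by
      rw [← Real.rpow_natCast, ← Real.rpow_mul hR0.le]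
      norm_num
    have e3 : (((2 : ℝ) / 3) ^ (j + 1)) * 3 = (((2 : ℝ) / 3) ^ j) * 2 := by
      rw [pow_succ]; ring
    rw [e1, e2, e3]
    ring
  have hP : ∀ j, tci_P x S (L j) := by
    intro j
    induction j with
    | zero =>
      apply tci_base
      rw [hLdef]
      simpa using hRS
    | succ j ih =>
      exact tci_step K x hTC S q hq1 Cq hCq (L j) (L (j + 1)) (hLq j)
        (by linarith [hLq (j + 1)]) (hstep j) ih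
  have hlim : Tendsto L atTop (𝓝 q) := by
    rw [hLdef]
    have h1 : Tendsto (fun j : ℕ => ((2 : ℝ) / 3) ^ j) atTop (𝓝 0) :=
      tendsto_pow_atTop_nhds_zero_of_lt_one (by norm_num) (by norm_num)
    have h2 : Tendsto (fun j : ℕ => R ^ (((2 : ℝ) / 3) ^ j)) atTop (𝓝 (R ^ (0 : ℝ))) :=
      (Real.continuousAt_const_rpow hR0.ne').tendsto.comp h1
    rw [Real.rpow_zero] at h2
    simpa using h2.const_mul q
  obtain ⟨j, hj⟩ := (hlim.eventually (gt_mem_nhds hqβ)).exists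
  exact tci_mono x S (L j) β (by linarith [hLq j]) hj.le (hP j)

end Pool.Agent.Helper203.DS
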