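import Pool.Agent.KS6_19.DA.L.Helper203.DS.Base
import Pool.Agent.KS6_19.DA.L.Helper203.DS.Char
import Pool.Agent.KS6_19.DA.L.Helper203.DS.LemK
import Pool.Agent.KS6_19.DA.L.Helper203.DS.TcIt
import Pool.Agent.KS6_19.DA.L.Helper203.DS.VV1
import Pool.Agent.KS6_19.DA.L.Helper203.DS.VV2
import Pool.Agent.KS6_19.DA.L.Helper203.DS.VV3

open Metric Set Filter Topology

noncomputable section

namespace Pool.Agent.Helper203.DS

theorem auxH4_beta (l : ℂ) (hl : ‖l‖ < 1) : ∃ β : ℝ, 1 < β ∧ β * ‖l‖ < 1 := by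
  have h0 : 0 ≤ ‖l‖ := norm_nonneg l
  have hpos : 0 < 1 + ‖l‖ := by linarith
  refine ⟨2 / (1 + ‖l‖), ?_, ?_⟩
  · rw [lt_div_iff₀ hpos]; linarith
  · rw [div_mul_eq_mul_div, div_lt_one hpos]; linarith

theorem nhd_subset_KK {T : DA →L[ℂ] DA} {Φ : Pt → Pt} (h : IsComp T Φ) (l : ℂ) (hl : ‖l‖ < 1)
    (S : DA →L[ℂ] DA) (hS : Res T l S) (x : Pt) (hTC : TC (KK Φ) x) :
    ∃ ρ : ℝ, 0 < ρ ∧ ∀ z : Pt, dist z x < ρ → z ∈ KK Φ := by
  obtain ⟨β, hβ, hsmall⟩ := auxH4_beta l hl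
  obtain ⟨ρ, hρ, C, hb⟩ := tc_iterate (KK Φ) x hTC S (fun q hq => lemmaK h l hl S hS q hq) β hβ
  have hA : Adm S l β C {z : Pt | dist z x < ρ} := ⟨hβ, hsmall, fun z hz f n => hb z hz f n⟩
  obtain ⟨ρ', hρ', hle, hm⟩ := VV_mul h hl hS x hTC ρ hρ β C hA
  refine ⟨ρ', hρ', ?_⟩
  intro z hz
  have hzB : z ∈ {z : Pt | dist z x < ρ} := lt_of_lt_of_le hz hle
  have hit : ∀ (k : ℕ) (f : DA), VV S l k z ((T ^ k) f) = f.1 z := by
    intro k
    induction k with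
    | zero => intro f; simp [VV]
    | succ k ih =>
      intro f
      have e : (T ^ (k + 1)) f = T ((T ^ k) f) := by rw [pow_succ']; rfl
      rw [e, VV_T hS hA k z hzB, ih]
  rw [KK, mem_iInter]
  intro k
  obtain ⟨y, hy⟩ := char_eval (VV S l k z) (VV_add hA k z hzB) (VV_smul k z)
    (hm k z hz).2 (hm k z hz).1
  refine ⟨y, ?_⟩
  have h1 := hit k Z
  rw [hy, h.pow, Z_apply, Z_apply] at h1
  exact Subtype.ext h1

theorem auxH4_unit {A : Type*} [NormedRing A] [NormedAlgebra ℂ A] [CompleteSpace A] (S T : A)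
    (l : ℂ) (β C : ℝ) (hsmall : β * ‖l‖ < 1) (hβ : 0 ≤ β) (hSn : ∀ n : ℕ, ‖S ^ n‖ ≤ C * β ^ n)
    (comm : S * T = T * S) (key : (S + (starRingEnd ℂ) l • (1 : A)) * T = 1 + l • S) :
    IsUnit T := by
  set y : A := (-l) • S with hy
  have hyn : ∀ n : ℕ, ‖y ^ n‖ ≤ C * (β * ‖l‖) ^ n := by
    intro n
    rw [hy, smul_pow, norm_smul, norm_pow, norm_neg]
    calc ‖l‖ ^ n * ‖S ^ n‖ ≤ ‖l‖ ^ n * (C * β ^ n) := by
          gcongr
          exact hSn n
      _ = C * (β * ‖l‖) ^ n := by rw [mul_pow]; ring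
  have hlim : Tendsto (fun n : ℕ => C * (β * ‖l‖) ^ n) atTop (𝓝 0) := by
    have := (tendsto_pow_atTop_nhds_zero_of_lt_one (r := β * ‖l‖) (by positivity) hsmall).const_mul
      C
    simpa using this
  obtain ⟨n, hn⟩ := (hlim.eventually (gt_mem_nhds (one_pos))).exists
  have hun : IsUnit (1 - y ^ n) := isUnit_one_sub_of_norm_lt_one ((hyn n).trans_lt hn)
  have hu1 : IsUnit (1 - y) := by
    have e : (1 - y) * ∑ i ∈ Finset.range n, y ^ i = 1 - y ^ n := mul_neg_geom_sum y n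
    have hc : Commute (1 - y) (∑ i ∈ Finset.range n, y ^ i) := by
      apply Commute.sum_right
      intro i _
      exact ((Commute.one_left _).sub_left (Commute.refl y)).pow_right i
    rw [← e, hc.isUnit_mul_iff] at hun
    exact hun.1
  have e1 : (S + (starRingEnd ℂ) l • (1 : A)) * T = 1 - y := by
    rw [key, hy, neg_smul, sub_neg_eq_add]
  have hc : Commute (S + (starRingEnd ℂ) l • (1 : A)) T := by
    apply Commute.add_left
    · exact comm
    · exact (Commute.one_left T).smul_left _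
  rw [← e1, hc.isUnit_mul_iff] at hu1
  exact hu1.2

theorem full_unit {T : DA →L[ℂ] DA} {Φ : Pt → Pt} (h : IsComp T Φ) (l : ℂ) (hl : ‖l‖ < 1)
    (S : DA →L[ℂ] DA) (hS : Res T l S) (hK : ∀ z, z ∈ KK Φ) : IsUnit T := by
  obtain ⟨β, hβ, hsmall⟩ := auxH4_beta l hl
  obtain ⟨C, hC⟩ := lemmaK h l hl S hS β hβ
  have hβ0 : 0 ≤ β := by linarith
  have hSn : ∀ n : ℕ, ‖S ^ n‖ ≤ |C| * β ^ n := by
    intro n
    refine ContinuousLinearMap.opNorm_le_bound _ (by positivity) ?_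
    intro f
    refine norm_le_of (by positivity) ?_
    intro z
    refine (hC z (hK z) f n).trans ?_
    have : C ≤ |C| := le_abs_self C
    gcongr
  exact auxH4_unit S T l β |C| hsmall hβ0 hSn hS.comm hS.key

end Pool.Agent.Helper203.DS
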