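import Pool.Agent.KS6_19.DA.L.Helper203.DS.Base
import Pool.Agent.KS6_19.DA.L.Helper203.DS.Orbit
import Pool.Agent.KS6_19.DA.L.Helper203.DS.Peak
import Pool.Agent.KS6_19.DA.L.Helper203.DS.Unit1

open Metric Set Filter Topology

noncomputable section

namespace Pool.Agent.Helper203.DS

/-- the functional `g ↦ K ∑ l^{-k} g(Φ^k z)` -/
def c3fn (Φ : Pt → Pt) (z : Pt) (l : ℂ) (N : ℕ) (K : ℂ) : DA →ₗ[ℂ] ℂ where
  toFun g := K * ∑ k ∈ Finset.range N, (l⁻¹) ^ k * g.1 (Φ^[k] z)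
  map_add' f g := by
    simp only [add_apply, mul_add, Finset.sum_add_distrib]
  map_smul' c g := by
    simp only [smul_apply, RingHom.id_apply, smul_eq_mul]
    rw [Finset.mul_sum, Finset.mul_sum, Finset.mul_sum]
    refine Finset.sum_congr rfl fun k _ => ?_
    ring

theorem c3fn_apply (Φ : Pt → Pt) (z : Pt) (l : ℂ) (N : ℕ) (K : ℂ) (g : DA) :
    c3fn Φ z l N K g = K * ∑ k ∈ Finset.range N, (l⁻¹) ^ k * g.1 (Φ^[k] z) := rfl

theorem c3fn_tel {T : DA →L[ℂ] DA} {Φ : Pt → Pt} (h : IsComp T Φ) (z : Pt) (l : ℂ) (hl : l ≠ 0)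
    (N : ℕ) (K : ℂ) (g : DA) : c3fn Φ z l N K (T g - l • g) =
      K * (l * (l⁻¹) ^ N * g.1 (Φ^[N] z) - l * g.1 z) := by
  rw [c3fn_apply]
  congr 1
  induction N with
  | zero => simp
  | succ N ih =>
    rw [Finset.sum_range_succ, ih]
    simp only [sub_apply, smul_apply, h.eq, Function.iterate_succ_apply', pow_succ]
    field_simp
    ring

theorem c3_low {Φ : Pt → Pt} (z : Pt) (l : ℂ) (hl : ‖l‖ = 1) (N : ℕ)
    (hz : ∀ i, ‖(Φ^[i] z : ℂ)‖ = 1)
    (hinj : ∀ i j, i < N → j < N → Φ^[i] z = Φ^[j] z → i = j) :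
    ∃ f : DA, ‖f‖ ≤ 1 ∧ ∀ K : ℂ, ‖K‖ * (N / 4 : ℝ) ≤ ‖c3fn Φ z l N K f‖ := by
  have hl0 : l ≠ 0 := by
    intro h
    rw [h, norm_zero] at hl
    exact zero_ne_one hl
  obtain ⟨f0, hf0, hf1⟩ := peak_fun N (fun i => Φ^[i] z) (fun i => hz i)
    (fun i j hij => Fin.ext (hinj i j i.2 j.2 hij)) (fun i => l ^ (i : ℕ))
    (fun i => by rw [norm_pow, hl, one_pow]) (1 / 2) (by norm_num)
  refine ⟨(1 / 2 : ℂ) • f0, ?_, fun K => ?_⟩
  · rw [norm_smul]
    have : ‖(1 / 2 : ℂ)‖ = 1 / 2 := by norm_num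
    rw [this]
    linarith
  · rw [c3fn_apply, norm_mul]
    gcongr
    have e1 : ∑ k ∈ Finset.range N, (l⁻¹) ^ k * ((1 / 2 : ℂ) • f0).1 (Φ^[k] z) =
        (1 / 2 : ℂ) * ∑ k ∈ Finset.range N, (l⁻¹) ^ k * f0.1 (Φ^[k] z) := by
      rw [Finset.mul_sum]
      refine Finset.sum_congr rfl fun k _ => ?_
      rw [smul_apply]
      ring
    rw [e1, norm_mul]
    have e2 : ‖(1 / 2 : ℂ)‖ = 1 / 2 := by norm_num
    rw [e2]
    have e3 : ‖∑ k ∈ Finset.range N, (l⁻¹) ^ k * f0.1 (Φ^[k] z) - (N : ℂ)‖ ≤ N / 2 := by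
      have e4 : ∑ k ∈ Finset.range N, (l⁻¹) ^ k * f0.1 (Φ^[k] z) - (N : ℂ) =
          ∑ k ∈ Finset.range N, (l⁻¹) ^ k * (f0.1 (Φ^[k] z) - l ^ k) := by
        have e5 : (N : ℂ) = ∑ k ∈ Finset.range N, (l⁻¹) ^ k * l ^ k := by
          rw [Finset.sum_congr rfl (fun k _ => by
            rw [← mul_pow, inv_mul_cancel₀ hl0, one_pow])]
          simp
        rw [e5, ← Finset.sum_sub_distrib]
        refine Finset.sum_congr rfl fun k _ => ?_
        ring
      rw [e4]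
      refine (norm_sum_le _ _).trans ?_
      have e6 : ∀ k ∈ Finset.range N, ‖(l⁻¹) ^ k * (f0.1 (Φ^[k] z) - l ^ k)‖ ≤ 1 / 2 := by
        intro k hk
        rw [norm_mul, norm_pow, norm_inv, hl, inv_one, one_pow, one_mul]
        exact hf1 ⟨k, Finset.mem_range.1 hk⟩
      refine (Finset.sum_le_sum e6).trans ?_
      rw [Finset.sum_const, Finset.card_range, nsmul_eq_mul]
      linarith
    have e7 : (N : ℝ) - N / 2 ≤ ‖∑ k ∈ Finset.range N, (l⁻¹) ^ k * f0.1 (Φ^[k] z)‖ := by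
      have e8 := norm_sub_norm_le (N : ℂ) (∑ k ∈ Finset.range N, (l⁻¹) ^ k * f0.1 (Φ^[k] z))
      rw [norm_sub_rev] at e8
      have e9 : ‖(N : ℂ)‖ = N := by simp
      rw [e9] at e8
      linarith
    linarith

theorem mem_spectrum_of_functionals (T : DA →L[ℂ] DA) (l : ℂ)
    (h : ∀ C : ℝ, ∃ (m : DA →ₗ[ℂ] ℂ) (f : DA), ‖f‖ ≤ 1 ∧ C < ‖m f‖ ∧
      ∀ g : DA, ‖m (T g - l • g)‖ ≤ ‖g‖) : l ∈ spectrum ℂ T := by
  by_contra hl
  rw [spectrum.notMem_iff] at hl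
  obtain ⟨u, hu⟩ := hl
  set R : DA →L[ℂ] DA := ↑u⁻¹ with hR
  obtain ⟨m, f, hf, hC, hm⟩ := h ‖R‖
  have h1 : (u : DA →L[ℂ] DA) * R = 1 := u.mul_inv
  have h2 : (u : DA →L[ℂ] DA) (R f) = f := by
    have := congrArg (fun A : DA →L[ℂ] DA => A f) h1
    simpa using this
  rw [hu] at h2
  have h3 : l • R f - T (R f) = f := by
    rw [Algebra.algebraMap_eq_smul_one] at h2
    simpa using h2
  have h4 : T (-(R f)) - l • (-(R f)) = f := by
    rw [map_neg, smul_neg]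
    refine Eq.trans ?_ h3
    abel
  have h5 := hm (-(R f))
  rw [h4, norm_neg] at h5
  have h6 : ‖R f‖ ≤ ‖R‖ := by
    refine (R.le_opNorm f).trans ?_
    have := norm_nonneg R
    nlinarith
  linarith

theorem unit_roots {T : DA →L[ℂ] DA} {Φ : Pt → Pt} (h : IsComp T Φ) (hu : IsUnit T) (n : ℕ)
    (hn : 0 < n) (hTn : T ^ n = 1) (hmin : ∀ j, 0 < j → j < n → T ^ j ≠ 1) :
    spectrum ℂ T = {l : ℂ | l ^ n = 1} := by
  apply Set.Subset.antisymm
  · intro l hl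
    have h1 := spectrum.pow_mem_pow T n hl
    rw [hTn, spectrum.one_eq] at h1
    exact h1
  · intro l hl
    have hl' : l ^ n = 1 := hl
    have hln : ‖l‖ = 1 := by
      have h1 : ‖l‖ ^ n = 1 := by rw [← norm_pow, hl', norm_one]
      exact (pow_eq_one_iff_of_nonneg (norm_nonneg l) hn.ne').1 h1
    have hl0 : l ≠ 0 := by
      intro h
      rw [h, norm_zero] at hln
      exact zero_ne_one hln
    obtain ⟨z, hz1, hz2⟩ := exists_orbit h hu n hmin
    obtain ⟨f, hf1, hf2⟩ := c3_low z l hln n hz1 hz2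
    apply mem_spectrum_of_functionals
    intro C
    have hn0 : (0:ℝ) < n := by exact_mod_cast hn
    set K : ℝ := 4 * (|C| + 1) / n with hK
    have hK0 : 0 ≤ K := by positivity
    refine ⟨c3fn Φ z l n (K : ℂ), f, hf1, ?_, fun g => ?_⟩
    · refine lt_of_lt_of_le ?_ (hf2 K)
      rw [Complex.norm_real, Real.norm_of_nonneg hK0]
      have h2 : K * (n / 4) = |C| + 1 := by
        rw [hK]
        field_simp
      rw [h2]
      have := le_abs_self C
      linarith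
    · rw [c3fn_tel h z l hl0]
      have h3 : g.1 (Φ^[n] z) = g.1 z := by
        have h4 := h.pow n g z
        rw [hTn] at h4
        simpa using h4.symm
      have h5 : (l⁻¹) ^ n = 1 := by rw [inv_pow, hl', inv_one]
      rw [h3, h5, mul_one, sub_self, mul_zero, norm_zero]
      exact norm_nonneg g

theorem unit_circle {T : DA →L[ℂ] DA} {Φ : Pt → Pt} (h : IsComp T Φ) (hu : IsUnit T)
    (hinf : ∀ n, 0 < n → T ^ n ≠ 1) : spectrum ℂ T = sphere (0:ℂ) 1 := by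
  apply Set.Subset.antisymm
  · intro l hl
    rw [mem_sphere_zero_iff_norm]
    exact spectrum_sphere h hu l hl
  · intro l hl
    have hln : ‖l‖ = 1 := mem_sphere_zero_iff_norm.1 hl
    have hl0 : l ≠ 0 := by
      intro h
      rw [h, norm_zero] at hln
      exact zero_ne_one hln
    apply mem_spectrum_of_functionals
    intro C
    obtain ⟨N, hN⟩ := exists_nat_gt (8 * C)
    obtain ⟨z, hz1, hz2⟩ := exists_orbit h hu N (fun j hj _ => hinf j hj)
    obtain ⟨f, hf1, hf2⟩ := c3_low z l hln N hz1 hz2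
    refine ⟨c3fn Φ z l N (1 / 2 : ℂ), f, hf1, ?_, fun g => ?_⟩
    · refine lt_of_lt_of_le ?_ (hf2 (1 / 2 : ℂ))
      have e2 : ‖(1 / 2 : ℂ)‖ = 1 / 2 := by norm_num
      rw [e2]
      linarith
    · rw [c3fn_tel h z l hl0, norm_mul]
      have e2 : ‖(1 / 2 : ℂ)‖ = 1 / 2 := by norm_num
      rw [e2]
      have e3 : ‖l * (l⁻¹) ^ N * g.1 (Φ^[N] z)‖ ≤ ‖g‖ := by
        rw [norm_mul, norm_mul, norm_pow, norm_inv, hln, inv_one, one_pow, one_mul, one_mul]
        exact norm_apply_le g _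
      have e4 : ‖l * g.1 z‖ ≤ ‖g‖ := by
        rw [norm_mul, hln, one_mul]
        exact norm_apply_le g _
      have e5 := norm_sub_le (l * (l⁻¹) ^ N * g.1 (Φ^[N] z)) (l * g.1 z)
      linarith

end Pool.Agent.Helper203.DS
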