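import Pool.Agent.KS6_19.DA.L.Helper203.DS.Base

open Metric Set Filter Topology

noncomputable section

namespace Pool.Agent.Helper203.DS

theorem tri_bound (a b d : ℝ) (h1 : a ≤ d) (h2 : -1/2*a - (√3/2)*b ≤ d)
    (h3 : -1/2*a + (√3/2)*b ≤ d) : a^2 + b^2 ≤ (2*d)^2 := by
  have h3' : √3 * √3 = 3 := Real.mul_self_sqrt (by norm_num)
  have ha : 0 ≤ a + 2*d := by linarith
  have h4 : (√3*b)^2 ≤ (2*d+a)^2 := by
    apply sq_le_sq' <;> linarith
  have h5 : (√3*b)^2 = 3 * b^2 := by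
    calc (√3*b)^2 = (√3 * √3) * b^2 := by ring
      _ = 3 * b^2 := by rw [h3']
  rw [h5] at h4
  nlinarith [mul_nonneg (sub_nonneg.2 h1) ha]

/-- a primitive cube root of unity -/
def w1 : ℂ := ⟨-1/2, √3/2⟩

/-- the other primitive cube root of unity -/
def w2 : ℂ := ⟨-1/2, -(√3/2)⟩

theorem norm_w1 : ‖w1‖ = 1 := by
  have h3' : √3 * √3 = 3 := Real.mul_self_sqrt (by norm_num)
  have : ‖w1‖^2 = 1 := by
    rw [← Complex.normSq_eq_norm_sq, Complex.normSq_apply]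
    simp only [w1]
    linear_combination (1/4) * h3'
  have h0 := norm_nonneg w1
  nlinarith

theorem norm_w2 : ‖w2‖ = 1 := by
  have h3' : √3 * √3 = 3 := Real.mul_self_sqrt (by norm_num)
  have : ‖w2‖^2 = 1 := by
    rw [← Complex.normSq_eq_norm_sq, Complex.normSq_apply]
    simp only [w2]
    linear_combination (1/4) * h3'
  have h0 := norm_nonneg w2
  nlinarith

theorem re_bound (z p e : ℂ) (d : ℝ) (he : ‖e‖ = 1) (hz : z = ((1 - d : ℝ) : ℂ) * e)
    (h : ‖z + p‖ ≤ 1) : (p * (starRingEnd ℂ) e).re ≤ d := by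
  have h1 : ((z + p) * (starRingEnd ℂ) e).re ≤ 1 := by
    refine (Complex.re_le_norm _).trans ?_
    rw [norm_mul, RCLike.norm_conj, he, mul_one]
    exact h
  have h2 : (z + p) * (starRingEnd ℂ) e = ((1 - d : ℝ) : ℂ) + p * (starRingEnd ℂ) e := by
    have : e * (starRingEnd ℂ) e = 1 := by
      rw [Complex.mul_conj, Complex.normSq_eq_norm_sq, he]; simp
    rw [hz, add_mul, mul_assoc, this, mul_one]
  rw [h2, Complex.add_re, Complex.ofReal_re] at h1
  linarith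

theorem tri_core (z u e : ℂ) (d : ℝ) (hd : 0 ≤ d) (he : ‖e‖ = 1)
    (hz : z = ((1 - d : ℝ) : ℂ) * e)
    (h1 : ‖z + u‖ ≤ 1) (h2 : ‖z + w1 * u‖ ≤ 1) (h3 : ‖z + w2 * u‖ ≤ 1) : ‖u‖ ≤ 2 * d := by
  have k1 := re_bound z u e d he hz h1
  have k2 := re_bound z (w1 * u) e d he hz h2
  have k3 := re_bound z (w2 * u) e d he hz h3
  rw [mul_assoc] at k2 k3
  have hn : ‖u‖ = ‖u * (starRingEnd ℂ) e‖ := by
    rw [norm_mul, RCLike.norm_conj, he, mul_one]
  rw [hn]
  generalize u * (starRingEnd ℂ) e = v at *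
  rw [Complex.mul_re] at k2 k3
  simp only [w1, w2] at k2 k3
  have k := tri_bound v.re v.im d k1 (by linarith) (by linarith)
  have h6 : ‖v‖^2 ≤ (2*d)^2 := by
    rw [← Complex.normSq_eq_norm_sq, Complex.normSq_apply]
    linarith
  exact abs_le_of_sq_le_sq' h6 (by linarith) |>.2

theorem exists_dir (z : ℂ) : ∃ e : ℂ, ‖e‖ = 1 ∧ z = ((1 - (1 - ‖z‖) : ℝ) : ℂ) * e := by
  by_cases h : z = 0
  · exact ⟨1, by simp, by simp [h]⟩
  · have h' : (‖z‖ : ℂ) ≠ 0 := by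
      simpa using h
    refine ⟨z / ‖z‖, ?_, ?_⟩
    · rw [norm_div, Complex.norm_real, norm_norm]
      exact div_self (by simpa using h)
    · have : (1 - (1 - ‖z‖) : ℝ) = ‖z‖ := by ring
      rw [this]
      field_simp

theorem three_bound {m M a b c : ℝ} (hm : 0 < m) (hmM : m ≤ M) (ha0 : 0 ≤ a) (hb0 : 0 ≤ b)
    (hc0 : 0 ≤ c) (ha : a ≤ M) (hb : b ≤ M) (hc : c ≤ M) (h : a ≤ m ∨ b ≤ m ∨ c ≤ m) :
    a * b * c ≤ m * M ^ 2 := by
  have hM : 0 < M := hm.trans_le hmM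
  rcases h with h | h | h
  · calc a * b * c ≤ m * M * M := by gcongr
      _ = m * M ^ 2 := by ring
  · calc a * b * c ≤ M * m * M := by gcongr
      _ = m * M ^ 2 := by ring
  · calc a * b * c ≤ M * M * m := by gcongr
      _ = m * M ^ 2 := by ring

theorem tc_inner (g : DA) (z : ℂ) (hz : ‖z‖ < 1) (m M : ℝ) (hm : 0 < m) (hmM : m ≤ M)
    (hM : ∀ y : ℂ, ‖y‖ ≤ 1 → ‖y - z‖ ≤ 2 * (1 - ‖z‖) → ‖ext g.1 y‖ ≤ M)
    (hK : ∀ y : ℂ, ‖y‖ = 1 → ‖y - z‖ ≤ 2 * (1 - ‖z‖) → ‖ext g.1 y‖ ≤ m) :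
    ‖ext g.1 z‖ ^ 3 ≤ m * M ^ 2 := by
  obtain ⟨e, he, hze⟩ := exists_dir z
  set N : Set ℂ := {y | ‖z + (y - z)‖ < 1 ∧ ‖z + w1 * (y - z)‖ < 1 ∧ ‖z + w2 * (y - z)‖ < 1}
    with hN
  have c0 : Continuous fun y : ℂ => z + (y - z) := by fun_prop
  have c1 : Continuous fun y : ℂ => z + w1 * (y - z) := by fun_prop
  have c2 : Continuous fun y : ℂ => z + w2 * (y - z) := by fun_prop
  have hNo : IsOpen N := by
    refine (isOpen_lt c0.norm continuous_const).inter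
      ((isOpen_lt c1.norm continuous_const).inter (isOpen_lt c2.norm continuous_const))
  have hNcl : closure N ⊆ {y | ‖z + (y - z)‖ ≤ 1 ∧ ‖z + w1 * (y - z)‖ ≤ 1 ∧
      ‖z + w2 * (y - z)‖ ≤ 1} := by
    refine closure_minimal ?_ ?_
    · intro y hy
      exact ⟨hy.1.le, hy.2.1.le, hy.2.2.le⟩
    · exact (isClosed_le c0.norm continuous_const).inter
        ((isClosed_le c1.norm continuous_const).inter (isClosed_le c2.norm continuous_const))
  have hNb : Bornology.IsBounded N := by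
    refine (Metric.isBounded_ball (x := (0:ℂ)) (r := 1)).subset ?_
    intro y hy
    have := hy.1
    simpa using this
  have hzN : z ∈ N := by
    refine ⟨?_, ?_, ?_⟩ <;> simpa using hz
  have hdiff := differentiableOn_da g
  have hcont := continuousOn_da g
  have key : ∀ l : ℂ, (∀ y ∈ N, ‖z + l * (y - z)‖ < 1) →
      (∀ y ∈ closure N, ‖z + l * (y - z)‖ ≤ 1) →
      DiffContOnCl ℂ (fun y => ext g.1 (z + l * (y - z))) N := by
    intro l hl1 hl2
    refine ⟨?_, ?_⟩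
    · refine hdiff.comp (by fun_prop : DifferentiableOn ℂ (fun y => z + l * (y - z)) N) ?_
      intro y hy
      simpa using hl1 y hy
    · refine hcont.comp (by fun_prop : ContinuousOn (fun y => z + l * (y - z)) (closure N)) ?_
      intro y hy
      simpa using hl2 y hy
  have k0 := key 1 (fun y hy => by simpa using hy.1) (fun y hy => by simpa using (hNcl hy).1)
  have k1 := key w1 (fun y hy => hy.2.1) (fun y hy => (hNcl hy).2.1)
  have k2 := key w2 (fun y hy => hy.2.2) (fun y hy => (hNcl hy).2.2)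
  have kk : DiffContOnCl ℂ (fun y => ext g.1 (z + 1 * (y - z)) * ext g.1 (z + w1 * (y - z)) *
      ext g.1 (z + w2 * (y - z))) N := by
    refine ⟨(k0.1.mul k1.1).mul k2.1, (k0.2.mul k1.2).mul k2.2⟩
  have main := Complex.norm_le_of_forall_mem_frontier_norm_le hNb kk (C := m * M ^ 2) ?_
    (subset_closure hzN)
  · simp only [sub_self, mul_zero, add_zero, norm_mul] at main
    calc ‖ext g.1 z‖ ^ 3 = ‖ext g.1 z‖ * ‖ext g.1 z‖ * ‖ext g.1 z‖ := by ring
      _ ≤ m * M ^ 2 := main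
  · intro y hy
    have hyc : y ∈ closure N := frontier_subset_closure hy
    have hyn : y ∉ N := by
      rw [hNo.frontier_eq] at hy
      exact hy.2
    obtain ⟨q0, q1, q2⟩ := hNcl hyc
    have hu := tri_core z (y - z) e (1 - ‖z‖) (by linarith) he hze q0 q1 q2
    have u0 : ‖(z + 1 * (y - z)) - z‖ ≤ 2 * (1 - ‖z‖) := by
      have : (z + 1 * (y - z)) - z = y - z := by ring
      rw [this]; exact hu
    have u1 : ‖(z + w1 * (y - z)) - z‖ ≤ 2 * (1 - ‖z‖) := by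
      have : (z + w1 * (y - z)) - z = w1 * (y - z) := by ring
      rw [this, norm_mul, norm_w1, one_mul]; exact hu
    have u2 : ‖(z + w2 * (y - z)) - z‖ ≤ 2 * (1 - ‖z‖) := by
      have : (z + w2 * (y - z)) - z = w2 * (y - z) := by ring
      rw [this, norm_mul, norm_w2, one_mul]; exact hu
    have q0' : ‖z + 1 * (y - z)‖ ≤ 1 := by rw [one_mul]; exact q0
    simp only [norm_mul]
    refine three_bound hm hmM (norm_nonneg _) (norm_nonneg _) (norm_nonneg _)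
      (hM _ q0' u0) (hM _ q1 u1) (hM _ q2 u2) ?_
    by_contra hcon
    push Not at hcon
    apply hyn
    refine ⟨?_, ?_, ?_⟩
    · refine lt_of_le_of_ne q0 ?_
      intro heq
      have : ‖z + 1 * (y - z)‖ = 1 := by rw [one_mul]; exact heq
      exact absurd (hK _ this u0) (not_le.2 hcon.1)
    · refine lt_of_le_of_ne q1 ?_
      intro heq
      exact absurd (hK _ heq u1) (not_le.2 hcon.2.1)
    · refine lt_of_le_of_ne q2 ?_
      intro heq
      exact absurd (hK _ heq u2) (not_le.2 hcon.2.2)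

theorem tc_arc (K : Set Pt) (x : Pt) (hx : ‖(x:ℂ)‖ = 1) (ρ : ℝ) (hρ : 0 < ρ)
    (harc : ∀ z : Pt, ‖(z:ℂ)‖ = 1 → dist z x < ρ → z ∈ K) : TC K x := by
  intro ρ₀ hρ₀
  have hr : 0 < min ρ ρ₀ := lt_min hρ hρ₀
  have hr1 : min ρ ρ₀ ≤ ρ := min_le_left _ _
  have hr2 : min ρ ρ₀ ≤ ρ₀ := min_le_right _ _
  generalize min ρ ρ₀ = r at hr hr1 hr2
  refine ⟨r / 8, by positivity, 1, one_pos, ?_⟩
  intro g m M hm hmM hM hK z hz
  rw [one_mul]
  have hz1 : ‖(z:ℂ)‖ ≤ 1 := by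
    exact mem_closedBall_zero_iff.1 z.2
  have hzx : ‖(z:ℂ) - x‖ < r / 8 := by
    have : dist z x = ‖(z:ℂ) - x‖ := by rw [Subtype.dist_eq, dist_eq_norm]
    rw [← this]; exact hz
  rcases hz1.eq_or_lt with h1 | h1
  · have hzK : z ∈ K := harc z h1 (by linarith)
    have h2 : ‖g.1 z‖ ≤ m := hK z hzK (by linarith)
    have h3 : ‖g.1 z‖ ≤ M := h2.trans hmM
    have h4 := three_bound hm hmM (norm_nonneg (g.1 z)) (norm_nonneg (g.1 z))
      (norm_nonneg (g.1 z)) h3 h3 h3 (Or.inl h2)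
    calc ‖g.1 z‖ ^ 3 = ‖g.1 z‖ * ‖g.1 z‖ * ‖g.1 z‖ := by ring
      _ ≤ m * M ^ 2 := h4
  · have hd : 1 - ‖(z:ℂ)‖ ≤ ‖(z:ℂ) - x‖ := by
      have := norm_sub_norm_le (x:ℂ) (z:ℂ)
      rw [hx, norm_sub_rev] at this
      exact this
    have hdist : ∀ y : ℂ, ‖y - z‖ ≤ 2 * (1 - ‖(z:ℂ)‖) → ∀ hy : y ∈ Metric.closedBall (0:ℂ) 1,
        dist (⟨y, hy⟩ : Pt) x < r := by
      intro y hyz hy
      have e1 : dist (⟨y, hy⟩ : Pt) x = ‖y - x‖ := by rw [Subtype.dist_eq, dist_eq_norm]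
      rw [e1]
      have e2 : y - x = (y - z) + (z - x) := by ring
      rw [e2]
      have := norm_add_le (y - (z:ℂ)) ((z:ℂ) - x)
      linarith
    rw [← ext_apply g.1 z]
    refine tc_inner g z h1 m M hm hmM ?_ ?_
    · intro y hy hyz
      have hy' : y ∈ Metric.closedBall (0:ℂ) 1 := by simpa using hy
      rw [ext_of_mem _ hy']
      exact hM _ (lt_of_lt_of_le (hdist y hyz hy') hr2)
    · intro y hy hyz
      have hy' : y ∈ Metric.closedBall (0:ℂ) 1 := by simpa using hy.le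
      rw [ext_of_mem _ hy']
      have hd' := hdist y hyz hy'
      exact hK _ (harc _ hy (lt_of_lt_of_le hd' hr1)) (lt_of_lt_of_le hd' hr2)

end Pool.Agent.Helper203.DS
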