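import Pool.Agent.KS6_19.DA.L.Helper203.DS.Base
import Pool.Agent.KS6_19.DA.L.Helper203.DS.Lagr

open Metric Set Filter Topology

noncomputable section

namespace Pool.Agent.Helper203.DS

theorem tc_interior (K : Set Pt) (hK : IsPreconnected K) (x : Pt) (hx : ‖(x:ℂ)‖ < 1)
    (hxK : x ∈ K) (y : Pt) (hy : y ∈ K) (hxy : y ≠ x) : TC K x := by
  intro ρ hρ
  have hd : 0 < dist y x := dist_pos.2 hxy
  obtain ⟨ρ1, hρ1⟩ : ∃ ρ1 : ℝ, ρ1 = min ρ (min (dist y x) (1 - ‖(x:ℂ)‖)) := ⟨_, rfl⟩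
  have h0 : 0 < ρ1 := by
    rw [hρ1]
    exact lt_min hρ (lt_min hd (by linarith))
  have h1 : ρ1 ≤ ρ := by rw [hρ1]; exact min_le_left _ _
  have h2 : ρ1 ≤ dist y x := by
    rw [hρ1]; exact (min_le_right _ _).trans (min_le_left _ _)
  have h3 : ρ1 ≤ 1 - ‖(x:ℂ)‖ := by
    rw [hρ1]; exact (min_le_right _ _).trans (min_le_right _ _)
  have hsubset : ball (x:ℂ) ρ1 ⊆ ball (0:ℂ) 1 := by
    intro z hz
    rw [mem_ball] at hz
    rw [mem_ball, dist_zero_right]
    have : ‖z‖ ≤ dist z (x:ℂ) + ‖(x:ℂ)‖ := by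
      rw [dist_eq_norm]
      calc ‖z‖ = ‖(z - x) + x‖ := by rw [sub_add_cancel]
        _ ≤ _ := norm_add_le _ _
    linarith
  refine ⟨ρ1 / 256, by positivity, 10 ^ 6, by positivity, ?_⟩
  intro g m M hm hmM hM hmK z hz
  have hM0 : 0 ≤ M := hm.le.trans hmM
  have key := lagrange_two_const ρ1 h0 (x:ℂ) (ext g.1)
    ((differentiableOn_da g).mono hsubset) m M hm hmM
    (by
      intro w hw
      have hw' : w ∈ Metric.closedBall (0:ℂ) 1 := ball_subset_closedBall (hsubset hw)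
      rw [ext_of_mem _ hw']
      refine hM ⟨w, hw'⟩ ?_
      have : dist w (x:ℂ) < ρ1 := hw
      exact lt_of_lt_of_le this h1)
    ((fun z : Pt => (z:ℂ)) '' K)
    (by
      intro t ht0 ht1
      have hiv := hK.intermediate_value hxK hy
        (f := fun z : Pt => dist z x) (by fun_prop)
      have hmem : t ∈ Icc (dist x x) (dist y x) := by
        rw [dist_self]
        exact ⟨ht0, ht1.le.trans h2⟩
      obtain ⟨w, hw, hwt⟩ := hiv hmem
      exact ⟨(w:ℂ), ⟨w, hw, rfl⟩, hwt⟩)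
    (by
      rintro _ ⟨w, hw, rfl⟩ hwb
      have hwd : dist w x < ρ := by
        have : dist (w:ℂ) (x:ℂ) < ρ1 := hwb
        exact lt_of_lt_of_le this h1
      show ‖ext g.1 (w:ℂ)‖ ≤ m
      rw [ext_apply]
      exact hmK w hw hwd)
  have hz1 : (z:ℂ) ∈ ball (x:ℂ) (ρ1 / 256) := hz
  have hk := key (z:ℂ) hz1
  rw [ext_apply] at hk
  have hzM : ‖g.1 z‖ ≤ M := by
    apply hM z
    have : ρ1 / 256 ≤ ρ := by linarith
    exact lt_of_lt_of_le hz this
  calc ‖g.1 z‖ ^ 3 = ‖g.1 z‖ ^ 2 * ‖g.1 z‖ := by ring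
    _ ≤ (10 ^ 6 * m * M) * M := by
        apply mul_le_mul hk hzM (norm_nonneg _)
        positivity
    _ = 10 ^ 6 * m * M ^ 2 := by ring

theorem exists_arc (K : Set Pt) (hK : IsPreconnected K) (hsub : ∀ z ∈ K, ‖(z:ℂ)‖ = 1) (x y : Pt)
    (hx : x ∈ K) (hy : y ∈ K) (hxy : x ≠ y) :
    ∃ x0 ∈ K, ∃ ρ : ℝ, 0 < ρ ∧ ∀ z : Pt, ‖(z:ℂ)‖ = 1 → dist z x0 < ρ → z ∈ K := by
  by_cases hall : ∀ z : Pt, ‖(z:ℂ)‖ = 1 → z ∈ K
  · exact ⟨x, hx, 1, one_pos, fun z hz _ => hall z hz⟩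
  push Not at hall
  obtain ⟨v, hv1, hvK⟩ := hall
  have hv0 : (v:ℂ) ≠ 0 := by
    intro h
    rw [h, norm_zero] at hv1
    exact zero_ne_one hv1
  obtain ⟨f, hf⟩ : ∃ f : Pt → ℝ, f = fun z : Pt => Complex.arg (-((z:ℂ) / (v:ℂ))) := ⟨_, rfl⟩
  have hslit : ∀ z : Pt, z ∈ K → -((z:ℂ) / v) ∈ Complex.slitPlane := by
    intro z hz
    by_contra hns
    have hn : ‖-((z:ℂ) / v)‖ = 1 := by
      rw [norm_neg, norm_div, hsub z hz, hv1, div_one]
    have hvz : (z:ℂ) = v := by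
      rw [Complex.mem_slitPlane_iff] at hns
      push Not at hns
      obtain ⟨hre, him⟩ := hns
      have hsq := Complex.sq_norm (-((z:ℂ) / v))
      rw [hn, Complex.normSq_apply, him] at hsq
      have hre1 : (-((z:ℂ) / v)).re = -1 := by nlinarith
      have hw : -((z:ℂ) / v) = -1 := by
        apply Complex.ext
        · rw [hre1]; simp
        · rw [him]; simp
      have hw2 : (z:ℂ) / v = 1 := neg_injective hw
      rw [div_eq_one_iff_eq hv0] at hw2
      exact hw2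
    apply hvK
    have : z = v := Subtype.ext hvz
    rw [← this]; exact hz
  have hcontAt : ∀ z : Pt, z ∈ K → ContinuousAt f z := by
    intro z hz
    rw [hf]
    have h1 : ContinuousAt (fun z : Pt => -((z:ℂ) / v)) z := by
      apply Continuous.continuousAt
      exact (continuous_subtype_val.div_const _).neg
    exact ContinuousAt.comp (f := fun z : Pt => -((z:ℂ) / v)) (g := Complex.arg)
      (Complex.continuousAt_arg (hslit z hz)) h1
  have hcont : ContinuousOn f K := fun z hz => (hcontAt z hz).continuousWithinAt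
  have hinj : ∀ z w : Pt, ‖(z:ℂ)‖ = 1 → ‖(w:ℂ)‖ = 1 → f z = f w → z = w := by
    intro z w hz hw hfe
    rw [hf] at hfe
    have h1 : -((z:ℂ) / v) = -((w:ℂ) / v) := by
      apply Complex.ext_norm_arg
      · rw [norm_neg, norm_neg, norm_div, norm_div, hz, hw]
      · exact hfe
    have h2 : (z:ℂ) / v = (w:ℂ) / v := neg_injective h1
    have h3 : (z:ℂ) = w := by
      have := congrArg (fun t => t * (v:ℂ)) h2
      simpa [div_mul_cancel₀ _ hv0] using this
    exact Subtype.ext h3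
  -- a lemma for an ordered pair
  have main : ∀ a b : Pt, a ∈ K → b ∈ K → f a < f b →
      ∃ x0 ∈ K, ∃ ρ : ℝ, 0 < ρ ∧ ∀ z : Pt, ‖(z:ℂ)‖ = 1 → dist z x0 < ρ → z ∈ K := by
    intro a b ha hb hab
    have hiv := hK.intermediate_value ha hb hcont
    obtain ⟨x0, hx0, hx0f⟩ := hiv (show (f a + f b) / 2 ∈ Icc (f a) (f b) from
      ⟨by linarith, by linarith⟩)
    have hnb : f ⁻¹' (Ioo (f a) (f b)) ∈ nhds x0 := by
      apply hcontAt x0 hx0
      apply Ioo_mem_nhds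
      · rw [hx0f]; linarith
      · rw [hx0f]; linarith
    obtain ⟨ρ, hρ, hball⟩ := Metric.mem_nhds_iff.1 hnb
    refine ⟨x0, hx0, ρ, hρ, ?_⟩
    intro z hz hzd
    have hzf : f z ∈ Ioo (f a) (f b) := hball hzd
    obtain ⟨w, hw, hwf⟩ := hiv (show f z ∈ Icc (f a) (f b) from ⟨hzf.1.le, hzf.2.le⟩)
    have := hinj w z (hsub w hw) hz hwf
    rw [← this]; exact hw
  have hne : f x ≠ f y := fun h => hxy (hinj x y (hsub x hx) (hsub y hy) h)
  rcases lt_or_gt_of_ne hne with h | h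
  · exact main x y hx hy h
  · exact main y x hy hx h

end Pool.Agent.Helper203.DS
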