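import Pool.Agent.KS6_19.DA.L.Helper203.DS.Base
import Pool.Agent.KS6_19.DA.L.Helper203.DS.Inter
import Pool.Agent.KS6_19.DA.L.Helper203.DS.KKm
import Pool.Agent.KS6_19.DA.L.Helper203.DS.Nhd
import Pool.Agent.KS6_19.DA.L.Helper203.DS.Phi
import Pool.Agent.KS6_19.DA.L.Helper203.DS.Seq
import Pool.Agent.KS6_19.DA.L.Helper203.DS.Spec
import Pool.Agent.KS6_19.DA.L.Helper203.DS.TcArc
import Pool.Agent.KS6_19.DA.L.Helper203.DS.TcInt

open Metric Set Filter Topology

noncomputable section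

namespace Pool.Agent.Helper203.DS

theorem spec_sub_aux {E : Type*} [NormedAddCommGroup E] [NormedSpace ℂ E] [CompleteSpace E]
    (T : E →L[ℂ] E) (hT1 : ‖T‖ ≤ 1) {l : ℂ} (hl : l ∈ spectrum ℂ T) : ‖l‖ ≤ 1 := by
  have h2 := spectrum.norm_le_norm_mul_of_mem hl
  have h3 : ‖(1 : E →L[ℂ] E)‖ ≤ 1 := ContinuousLinearMap.norm_id_le
  have h4 : ‖T‖ * ‖(1 : E →L[ℂ] E)‖ ≤ 1 * 1 :=
    mul_le_mul hT1 h3 (norm_nonneg _) zero_le_one
  linarith

theorem spec_closed_aux {E : Type*} [NormedAddCommGroup E] [NormedSpace ℂ E] [CompleteSpace E]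
    (T : E →L[ℂ] E) : IsClosed (spectrum ℂ T) := spectrum.isClosed T

theorem main_disc {T : DA →L[ℂ] DA} {Φ : Pt → Pt} (h : IsComp T Φ) (hu : ¬ IsUnit T) (x y : Pt)
    (hx : x ∈ KK Φ) (hy : y ∈ KK Φ) (hxy : x ≠ y) :
    spectrum ℂ T = closedBall (0:ℂ) 1 := by
  have hKc := KK_isClosed h.cont
  have hKp := KK_preconnected h.cont
  have hT1 : ‖T‖ ≤ 1 := by
    refine ContinuousLinearMap.opNorm_le_bound T zero_le_one (fun f => ?_)
    rw [one_mul]; exact h.norm_le f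
  apply Set.Subset.antisymm
  · intro l hl
    rw [mem_closedBall_zero_iff]
    exact spec_sub_aux T hT1 hl
  refine (closure_ball (0:ℂ) (one_ne_zero (α := ℝ))).symm.subset.trans ?_
  refine closure_minimal ?_ (spec_closed_aux T)
  intro l hl
  rw [mem_ball_zero_iff] at hl
  by_contra hls
  obtain ⟨S, hS⟩ := exists_res T l hls
  by_cases hint : ∃ x1 ∈ KK Φ, ‖(x1:ℂ)‖ < 1
  · obtain ⟨x1, hx1, hx1n⟩ := hint
    set A : Set ℂ := Subtype.val '' (KK Φ) with hA
    have hAc : IsClosed A :=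
      (Metric.isClosed_closedBall (x := (0:ℂ)) (ε := 1)).isClosedEmbedding_subtypeVal.isClosedMap _ hKc
    have hAball : ball (0:ℂ) 1 ⊆ A ∩ ball (0:ℂ) 1 := by
      apply IsPreconnected.subset_of_closure_inter_subset
      · exact (convex_ball (0:ℂ) 1).isPreconnected
      · rw [Metric.isOpen_iff]
        rintro _ ⟨⟨z, hz, rfl⟩, hzb⟩
        rw [mem_ball_zero_iff] at hzb
        have hTC : TC (KK Φ) z := by
          by_cases hxz : x = z
          · exact tc_interior _ hKp z hzb hz y hy (by rw [← hxz]; exact hxy.symm)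
          · exact tc_interior _ hKp z hzb hz x hx hxz
        obtain ⟨ρ, hρ, hρK⟩ := nhd_subset_KK h l hl S hS z hTC
        refine ⟨min ρ (1 - ‖(z:ℂ)‖), lt_min hρ (by linarith), fun w hw => ?_⟩
        rw [mem_ball] at hw
        have hw1 : dist w (z:ℂ) < ρ := lt_of_lt_of_le hw (min_le_left _ _)
        have hw2 : dist w (z:ℂ) < 1 - ‖(z:ℂ)‖ := lt_of_lt_of_le hw (min_le_right _ _)
        have hwn : ‖w‖ < 1 := by
          have : ‖w‖ ≤ ‖w - z‖ + ‖(z:ℂ)‖ := by
            calc ‖w‖ = ‖(w - z) + z‖ := by rw [sub_add_cancel]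
              _ ≤ _ := norm_add_le _ _
          rw [dist_eq_norm] at hw2
          linarith
        have hwc : w ∈ closedBall (0:ℂ) 1 := by
          rw [mem_closedBall_zero_iff]; exact hwn.le
        exact ⟨⟨⟨w, hwc⟩, hρK ⟨w, hwc⟩ hw1, rfl⟩, by rw [mem_ball_zero_iff]; exact hwn⟩
      · exact ⟨(x1:ℂ), by rw [mem_ball_zero_iff]; exact hx1n, ⟨x1, hx1, rfl⟩,
          by rw [mem_ball_zero_iff]; exact hx1n⟩
      · rintro w ⟨hw1, hw2⟩
        exact ⟨hAc.closure_subset_iff.2 Set.inter_subset_left hw1, hw2⟩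
    have hcl : closedBall (0:ℂ) 1 ⊆ A := by
      refine (closure_ball (0:ℂ) (one_ne_zero (α := ℝ))).symm.subset.trans ?_
      exact closure_minimal (hAball.trans Set.inter_subset_left) hAc
    have hall : ∀ z, z ∈ KK Φ := by
      intro z
      obtain ⟨w, hw, hwz⟩ := hcl z.2
      have : w = z := Subtype.ext hwz
      rw [← this]; exact hw
    exact hu (full_unit h l hl S hS hall)
  · push Not at hint
    have hsub : ∀ z ∈ KK Φ, ‖(z:ℂ)‖ = 1 := fun z hz =>
      le_antisymm (mem_closedBall_zero_iff.1 z.2) (hint z hz)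
    obtain ⟨x0, hx0, ρ, hρ, harc⟩ := exists_arc (KK Φ) hKp hsub x y hx hy hxy
    have hTC := tc_arc (KK Φ) x0 (hsub x0 hx0) ρ hρ harc
    obtain ⟨ρ', hρ', hK⟩ := nhd_subset_KK h l hl S hS x0 hTC
    set t : ℝ := min (ρ' / 2) (1 / 2) with ht
    have ht0 : 0 < t := lt_min (by linarith) (by norm_num)
    have ht1 : t ≤ 1 / 2 := min_le_right _ _
    have ht2 : t ≤ ρ' / 2 := min_le_left _ _
    have hn : ‖((1 - t : ℝ) : ℂ) * (x0:ℂ)‖ = 1 - t := by
      rw [norm_mul, hsub x0 hx0, mul_one, Complex.norm_real, Real.norm_eq_abs, abs_of_pos (by linarith)]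
    have hmem : ((1 - t : ℝ) : ℂ) * (x0:ℂ) ∈ closedBall (0:ℂ) 1 := by
      rw [mem_closedBall_zero_iff, hn]; linarith
    have hd : dist (⟨((1 - t : ℝ) : ℂ) * (x0:ℂ), hmem⟩ : Pt) x0 < ρ' := by
      rw [Subtype.dist_eq, dist_eq_norm]
      have : ((1 - t : ℝ) : ℂ) * (x0:ℂ) - x0 = (-(t:ℂ)) * x0 := by push_cast; ring
      show ‖((1 - t : ℝ) : ℂ) * (x0:ℂ) - x0‖ < ρ'
      rw [this, norm_mul, hsub x0 hx0, mul_one, norm_neg, Complex.norm_real, Real.norm_eq_abs,
        abs_of_pos ht0]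
      linarith
    have := hsub _ (hK _ hd)
    have h2 : ‖((1 - t : ℝ) : ℂ) * (x0:ℂ)‖ = 1 := this
    rw [hn] at h2
    linarith

theorem main_semigroup (T : DA →L[ℂ] DA) (hT : ∀ f g, T (f * g) = T f * T g)
    (hne : ¬ ∃ a : ℂ, ‖a‖ = 1 ∧ Tendsto (fun n => (T ^ n) Z) atTop (𝓝 (algebraMap ℂ DA a))) :
    ∀ l ∈ spectrum ℂ T, ∀ m ∈ spectrum ℂ T, l * m ∈ spectrum ℂ T := by
  rcases T_one_cases T hT with h0 | h1
  · subst h0
    rw [spectrum.zero_eq]
    intro l hl m hm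
    rw [Set.mem_singleton_iff] at hl hm ⊢
    rw [hl, zero_mul]
  obtain ⟨Φ, h⟩ := exists_phi T hT h1
  by_cases hu : IsUnit T
  · by_cases hper : ∃ n, 0 < n ∧ T ^ n = 1
    · classical
      have hspec := unit_roots h hu (Nat.find hper) (Nat.find_spec hper).1 (Nat.find_spec hper).2
        (fun j hj hjn hTj => Nat.find_min hper hjn ⟨hj, hTj⟩)
      rw [hspec]
      intro l hl m hm
      rw [Set.mem_ofPred_eq] at hl hm ⊢
      rw [mul_pow, hl, hm, one_mul]
    · push Not at hper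
      rw [unit_circle h hu hper]
      intro l hl m hm
      rw [mem_sphere_zero_iff_norm] at hl hm ⊢
      rw [norm_mul, hl, hm, one_mul]
  · by_cases hKK : ∃ x ∈ KK Φ, ∃ y ∈ KK Φ, x ≠ y
    · obtain ⟨x, hx, y, hy, hxy⟩ := hKK
      rw [main_disc h hu x y hx hy hxy]
      intro l hl m hm
      rw [mem_closedBall_zero_iff] at hl hm ⊢
      rw [norm_mul]
      exact mul_le_one₀ hl (norm_nonneg _) hm
    · push Not at hKK
      obtain ⟨a, ha⟩ := KK_nonempty h.cont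
      have hsub : KK Φ ⊆ {a} := fun z hz => (hKK a ha z hz).symm ▸ rfl
      have hconv := conv_of_singleton h a hsub
      have han : ‖(a:ℂ)‖ < 1 := by
        refine lt_of_le_of_ne (mem_closedBall_zero_iff.1 a.2) (fun hh => hne ⟨a, hh, hconv⟩)
      obtain ⟨κ, hκ⟩ := interior_case h a han hconv
      rw [hκ]
      intro l hl m hm
      rw [Set.mem_ofPred_eq] at hl hm ⊢
      rcases hl with rfl | ⟨i, rfl⟩
      · left; rw [zero_mul]
      rcases hm with rfl | ⟨j, rfl⟩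
      · left; rw [mul_zero]
      · right; exact ⟨i + j, (pow_add κ i j).symm⟩

end Pool.Agent.Helper203.DS
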