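import Pool.Agent.KS6_19.DA.L.Helper203.DS.Defs3

open Metric Set Filter Topology

noncomputable section

namespace Pool.Agent.Helper203.DS

theorem spiral_resolvent {E : Type*} [NormedAddCommGroup E] [NormedSpace ℂ E] [CompleteSpace E]
    (T : E →L[ℂ] E) (hT : ‖T‖ ≤ 1) (b : ℂ) (hb : 0 < b.re)
    (hbb : ∀ l : ℂ, l ≠ 0 → ‖l‖ ≤ 1 → (¬ ∃ c : ℝ, 0 ≤ c ∧ l = Complex.exp (-(c * b))) →
      ∃ c : ℝ, 0 < c ∧ ∀ f : E, c * ‖f‖ ≤ ‖T f - l • f‖) :
    ∀ l ∈ spectrum ℂ T, l ≠ 0 → ∃ c : ℝ, 0 ≤ c ∧ l = Complex.exp (-(c * b)) := by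
  intro l hl hl0
  by_contra hsp
  set γ : ℝ → ℂ := fun t => l * Complex.exp (t * b) with hγ
  have hγc : Continuous γ := by
    rw [hγ]
    fun_prop
  have hγn : ∀ t, ‖γ t‖ = ‖l‖ * Real.exp (t * b.re) := by
    intro t
    rw [hγ]
    simp only [norm_mul, Complex.norm_exp]
    congr 2
    simp
  have hspn : ∀ μ ∈ spectrum ℂ T, ‖μ‖ ≤ 1 := by
    intro μ hμ
    have h1 := spectrum.norm_le_norm_mul_of_mem hμ
    have h2 : ‖(1 : E →L[ℂ] E)‖ ≤ 1 := ContinuousLinearMap.norm_id_le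
    calc ‖μ‖ ≤ ‖T‖ * ‖(1 : E →L[ℂ] E)‖ := h1
      _ ≤ 1 * 1 := mul_le_mul hT h2 (norm_nonneg _) zero_le_one
      _ = 1 := one_mul 1
  have hl0' : 0 < ‖l‖ := norm_pos_iff.2 hl0
  set A : Set ℝ := {t | 0 ≤ t ∧ γ t ∈ spectrum ℂ T} with hA
  have hAcl : IsClosed A := by
    have h1 : A = Set.Ici 0 ∩ γ ⁻¹' (spectrum ℂ T) := by
      ext t; rfl
    rw [h1]
    exact isClosed_Ici.inter ((spectrum.isClosed T).preimage hγc)
  have hAne : A.Nonempty := by
    refine ⟨0, le_rfl, ?_⟩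
    have h1 : γ 0 = l := by rw [hγ]; simp
    rw [h1]
    exact hl
  have hAbd : BddAbove A := by
    refine ⟨-Real.log ‖l‖ / b.re, ?_⟩
    rintro t ⟨ht0, ht⟩
    have h1 := hspn _ ht
    rw [hγn] at h1
    rw [le_div_iff₀ hb]
    have h2 : Real.log (‖l‖ * Real.exp (t * b.re)) ≤ Real.log 1 :=
      Real.log_le_log (by positivity) h1
    rw [Real.log_mul hl0'.ne' (Real.exp_pos _).ne', Real.log_exp, Real.log_one] at h2
    linarith
  have ht1 : sSup A ∈ A := hAcl.csSup_mem hAne hAbd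
  set t1 := sSup A with ht1def
  obtain ⟨ht10, ht1s⟩ := ht1
  have hgt : ∀ t, t1 < t → γ t ∉ spectrum ℂ T := by
    intro t ht hts
    have h1 : t ∈ A := ⟨by linarith, hts⟩
    have h2 := le_csSup hAbd h1
    linarith
  have hμ0 : γ t1 ≠ 0 := by
    rw [hγ]
    exact mul_ne_zero hl0 (Complex.exp_ne_zero _)
  have hμs : ¬ ∃ c : ℝ, 0 ≤ c ∧ γ t1 = Complex.exp (-(c * b)) := by
    rintro ⟨c, hc, hcc⟩
    apply hsp
    refine ⟨c + t1, by linarith, ?_⟩
    have h1 : l = γ t1 * Complex.exp (-(t1 * b)) := by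
      rw [hγ]
      simp only
      rw [mul_assoc, ← Complex.exp_add]
      simp
    rw [h1, hcc, ← Complex.exp_add]
    congr 1
    push_cast
    ring
  obtain ⟨c, hc, hcb⟩ := hbb (γ t1) hμ0 (hspn _ ht1s) hμs
  -- choose `t > t1` close
  have hev : ∀ᶠ t in 𝓝[>] t1, ‖γ t - γ t1‖ < c / 2 := by
    have h1 : Tendsto (fun t => ‖γ t - γ t1‖) (𝓝[>] t1) (𝓝 0) := by
      have h2 : Tendsto (fun t => ‖γ t - γ t1‖) (𝓝 t1) (𝓝 ‖γ t1 - γ t1‖) :=
        ((hγc.sub continuous_const).norm).tendsto t1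
      rw [sub_self, norm_zero] at h2
      exact h2.mono_left nhdsWithin_le_nhds
    exact h1.eventually (gt_mem_nhds (by linarith))
  obtain ⟨t, htd, htg⟩ := (hev.and self_mem_nhdsWithin).exists
  have hu : IsUnit (algebraMap ℂ (E →L[ℂ] E) (γ t) - T) := by
    by_contra hcon
    exact hgt t htg (spectrum.mem_iff.2 hcon)
  obtain ⟨u, hu⟩ := hu
  set R : E →L[ℂ] E := (↑u⁻¹ : E →L[ℂ] E) with hR
  have huR : (u : E →L[ℂ] E) * R = 1 := u.mul_inv
  have hRn : ‖R‖ ≤ 2 / c := by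
    apply ContinuousLinearMap.opNorm_le_bound _ (by positivity)
    intro g
    have h1 : (u : E →L[ℂ] E) (R g) = g := by
      have h2 := congrArg (fun S : E →L[ℂ] E => S g) huR
      exact h2
    have h2 : γ t • R g - T (R g) = g := by
      rw [hu] at h1
      simpa [Algebra.algebraMap_eq_smul_one] using h1
    have h3 := hcb (R g)
    have h4 : ‖T (R g) - γ t1 • R g‖ ≤ ‖g‖ + ‖γ t - γ t1‖ * ‖R g‖ := by
      have h5 : T (R g) - γ t1 • R g = -g + (γ t - γ t1) • R g := by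
        rw [sub_smul]
        nth_rw 3 [← h2]
        abel
      rw [h5]
      refine (norm_add_le _ _).trans ?_
      rw [norm_neg, norm_smul]
    have h5 : ‖γ t - γ t1‖ * ‖R g‖ ≤ c / 2 * ‖R g‖ :=
      mul_le_mul_of_nonneg_right htd.le (norm_nonneg _)
    have h6 : c / 2 * ‖R g‖ ≤ ‖g‖ := by linarith
    rw [div_mul_eq_mul_div, le_div_iff₀ hc]
    linarith
  have hsmall : ‖(γ t - γ t1) • R‖ < 1 := by
    rw [norm_smul]
    calc ‖γ t - γ t1‖ * ‖R‖ ≤ ‖γ t - γ t1‖ * (2 / c) :=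
          mul_le_mul_of_nonneg_left hRn (norm_nonneg _)
      _ < c / 2 * (2 / c) := mul_lt_mul_of_pos_right htd (by positivity)
      _ = 1 := by field_simp
  have hunit2 : IsUnit (1 - (γ t - γ t1) • R) := isUnit_one_sub_of_norm_lt_one hsmall
  have hprod : (u : E →L[ℂ] E) * (1 - (γ t - γ t1) • R) =
      algebraMap ℂ (E →L[ℂ] E) (γ t1) - T := by
    rw [mul_sub, mul_one, mul_smul_comm, huR, hu, Algebra.algebraMap_eq_smul_one,
      Algebra.algebraMap_eq_smul_one, sub_smul]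
    abel
  exact (spectrum.mem_iff.1 ht1s) (hprod ▸ (u.isUnit.mul hunit2))

end Pool.Agent.Helper203.DS
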