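import Pool.Agent.KS6_19.DA.L.Helper203.DS.Defs3

open Metric Set Filter Topology

noncomputable section

namespace Pool.Agent.Helper203.DS

/-- the punctured neighbourhood filter pulled back to the disc -/
def P2FF (a : ℂ) : Filter Pt := Filter.comap (fun z : Pt => (z:ℂ)) (𝓝[≠] a)

theorem p2_evFF (a : ℂ) (P : Pt → Prop) :
    (∀ᶠ z in P2FF a, P z) ↔ ∃ δ : ℝ, 0 < δ ∧ ∀ z : Pt, (z:ℂ) ≠ a → ‖(z:ℂ) - a‖ < δ → P z := by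
  have hb := ((Metric.nhdsWithin_basis_ball (x := a) (s := {a}ᶜ)).comap (fun z : Pt => (z:ℂ)))
  unfold P2FF
  rw [hb.eventually_iff]
  constructor
  · rintro ⟨δ, hδ, H⟩
    refine ⟨δ, hδ, fun z hz hz' => ?_⟩
    apply H
    refine ⟨?_, ?_⟩
    · rw [Metric.mem_ball, dist_eq_norm]; exact hz'
    · exact hz
  · rintro ⟨δ, hδ, H⟩
    refine ⟨δ, hδ, fun z hz => ?_⟩
    obtain ⟨h1, h2⟩ := hz
    rw [Metric.mem_ball, dist_eq_norm] at h1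
    exact H z h2 h1

theorem p2_tendV (a : ℂ) : Tendsto (fun z : Pt => (z:ℂ) - a) (P2FF a) (𝓝 0) := by
  have h1 : Tendsto (fun z : Pt => (z:ℂ)) (P2FF a) (𝓝 a) :=
    (Filter.tendsto_comap (f := fun z : Pt => (z:ℂ)) (x := 𝓝[≠] a)).mono_right nhdsWithin_le_nhds
  have h2 := h1.sub_const a
  simpa using h2

theorem p2_core (a α : ℂ) (Φ : Pt → Pt)
    (h : ∀ ε : ℝ, 0 < ε → ∃ δ : ℝ, 0 < δ ∧ ∀ z : Pt, ‖(z:ℂ) - a‖ < δ →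
      ‖(Φ z : ℂ) - (z + α * ((z:ℂ) - a) ^ 2)‖ ≤ ε * ‖(z:ℂ) - a‖ ^ 2) :
    ∃ r : Pt → ℂ, Tendsto r (P2FF a) (𝓝 0) ∧ ∀ z : Pt, (z:ℂ) ≠ a →
      (Φ z : ℂ) - a = ((z:ℂ) - a) * (1 + α * ((z:ℂ) - a) + r z * ((z:ℂ) - a)) := by
  refine ⟨fun z => ((Φ z : ℂ) - (z + α * ((z:ℂ) - a) ^ 2)) /
    ((z:ℂ) - a) ^ 2, ?_, ?_⟩
  · rw [Metric.tendsto_nhds]
    intro ε hε
    rw [p2_evFF]
    obtain ⟨δ, hδ, H⟩ := h (ε / 2) (by linarith)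
    refine ⟨δ, hδ, fun z hz hz' => ?_⟩
    have hv : 0 < ‖(z:ℂ) - a‖ := norm_pos_iff.2 (sub_ne_zero.2 hz)
    rw [dist_zero_right, norm_div, norm_pow, div_lt_iff₀ (by positivity)]
    have h1 := H z hz'
    have h2 : 0 < ‖(z:ℂ) - a‖ ^ 2 := by positivity
    nlinarith
  · intro z hz
    have hv : (z:ℂ) - a ≠ 0 := sub_ne_zero.2 hz
    field_simp
    ring

theorem tay2_limB (a : ℂ) (ha : ‖a‖ = 1) (α : ℂ) (Φ : Pt → Pt)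
    (h : ∀ ε : ℝ, 0 < ε → ∃ δ : ℝ, 0 < δ ∧ ∀ z : Pt, ‖(z:ℂ) - a‖ < δ →
      ‖(Φ z : ℂ) - (z + α * ((z:ℂ) - a) ^ 2)‖ ≤ ε * ‖(z:ℂ) - a‖ ^ 2) :
    LimB a (2 * a * α) Φ := by
  obtain ⟨r, hr, hV⟩ := p2_core a α Φ h
  have hv := p2_tendV a
  have hq : Tendsto (fun z : Pt => (1 + α * ((z:ℂ) - a) + r z * ((z:ℂ) - a))) (P2FF a) (𝓝 1) := by
    have h1 : Tendsto (fun z : Pt => (1 + α * ((z:ℂ) - a) + r z * ((z:ℂ) - a))) (P2FF a)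
        (𝓝 (1 + α * 0 + 0 * 0)) :=
      (tendsto_const_nhds.add (hv.const_mul α)).add (hr.mul hv)
    simpa using h1
  intro ε hε
  rw [← p2_evFF a (fun z : Pt => (Φ z : ℂ) ≠ a ∧ ‖Cay a (Φ z) - Cay a z - 2 * a * α‖ < ε)]
  have hq0 : ∀ᶠ z : Pt in P2FF a, (1 + α * ((z:ℂ) - a) + r z * ((z:ℂ) - a)) ≠ 0 :=
    hq.eventually_ne one_ne_zero
  have hne : ∀ᶠ z : Pt in P2FF a, (z:ℂ) ≠ a := by
    rw [p2_evFF]; exact ⟨1, one_pos, fun z hz _ => hz⟩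
  have hf : Tendsto (fun z : Pt => 2 * a * (α + r z) /
      (1 + α * ((z:ℂ) - a) + r z * ((z:ℂ) - a))) (P2FF a)
      (𝓝 (2 * a * α)) := by
    have h1 : Tendsto (fun z : Pt => 2 * a * (α + r z) /
      (1 + α * ((z:ℂ) - a) + r z * ((z:ℂ) - a))) (P2FF a)
      (𝓝 (2 * a * (α + 0) / 1)) :=
      ((tendsto_const_nhds.add hr).const_mul (2 * a)).div hq one_ne_zero
    simpa using h1
  have hf2 := (Metric.tendsto_nhds.1 hf) ε hε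
  filter_upwards [hq0, hne, hf2] with z h1 h2 h3
  have hv0 : (z:ℂ) - a ≠ 0 := sub_ne_zero.2 h2
  have hV0 : (Φ z : ℂ) - a ≠ 0 := by rw [hV z h2]; exact mul_ne_zero hv0 h1
  refine ⟨sub_ne_zero.1 hV0, ?_⟩
  rw [dist_eq_norm] at h3
  have e : Cay a (Φ z) - Cay a z = 2 * a * (α + r z) /
      (1 + α * ((z:ℂ) - a) + r z * ((z:ℂ) - a)) := by
    have e1 : Cay a (Φ z) - Cay a z
        = 2 * a * (((Φ z : ℂ) - a) - ((z:ℂ) - a)) / (((z:ℂ) - a) * ((Φ z : ℂ) - a)) := by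
      unfold Cay
      have g1 : a - (Φ z : ℂ) ≠ 0 := by
        intro hh; apply hV0; rw [← neg_sub, hh, neg_zero]
      have g2 : a - (z : ℂ) ≠ 0 := by
        intro hh; apply hv0; rw [← neg_sub, hh, neg_zero]
      rw [div_sub_div _ _ g1 g2, div_eq_div_iff (mul_ne_zero g1 g2) (mul_ne_zero hv0 hV0)]
      ring
    rw [e1, hV z h2, div_eq_div_iff (mul_ne_zero hv0 (mul_ne_zero hv0 h1)) h1]
    ring
  rw [e]
  exact h3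

end Pool.Agent.Helper203.DS
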