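import Pool.Agent.KS6_19.DA.L.Helper203.DS.Hyper
import Pool.Agent.KS6_19.DA.L.Helper203.DS.BBSp
import Pool.Agent.KS6_19.DA.L.Helper203.DS.SpRes
import Pool.Agent.KS6_19.DA.L.Helper203.DS.SpMem
import Pool.Agent.KS6_19.DA.L.Helper203.DS.ImBB
import Pool.Agent.KS6_19.DA.L.Helper203.DS.CBB2
import Pool.Agent.KS6_19.DA.L.Helper203.DS.Tayl
import Pool.Agent.KS6_19.DA.L.Helper203.DS.LimRe
import Pool.Agent.KS6_19.DA.L.Helper203.DS.LimCne
import Pool.Agent.KS6_19.DA.L.Helper203.DS.ImBB2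
import Pool.Agent.KS6_19.DA.L.Helper203.DS.Julia
import Pool.Agent.KS6_19.DA.L.Helper203.DS.Tay2

open Metric Set Filter Topology

noncomputable section

namespace Pool.Agent.Helper203.DS

theorem fix_a {Φ : Pt → Pt} (hc : Continuous Φ) (a : Pt) (hK : KK Φ ⊆ {a}) : Φ a = a := by
  obtain ⟨x, hx⟩ := KK_nonempty hc
  have hxa : x = a := hK hx
  subst hxa
  have : Φ x ∈ KK Φ := by
    rw [KK, Set.mem_iInter] at hx ⊢
    intro n
    obtain ⟨y, hy⟩ := hx n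
    exact ⟨Φ y, by rw [← Function.iterate_succ_apply, Function.iterate_succ_apply', hy]⟩
  exact hK this

/-- spiral spectrum -/
theorem spiral_spec {T : DA →L[ℂ] DA} {Φ : Pt → Pt} (h : IsComp T Φ) (a : Pt)
    (ha : ‖(a:ℂ)‖ = 1) (hK : KK Φ ⊆ {a}) (hnc : ∀ c : ℂ, T Z ≠ algebraMap ℂ DA c) (N : ℕ)
    (hN : ∀ z : Pt, Φ^[N] z = a ∨ ‖(Φ^[N] z : ℂ)‖ < 1) (b : ℂ) (hb : 0 < b.re)
    (hlim : LimB a b Φ) :
    spectrum ℂ T = {l : ℂ | l = 0 ∨ ∃ c : ℝ, 0 ≤ c ∧ l = Complex.exp (-(c * b))} := by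
  have hT1 : ‖T‖ ≤ 1 := by
    refine ContinuousLinearMap.opNorm_le_bound T zero_le_one (fun f => ?_)
    rw [one_mul]; exact h.norm_le f
  have hin := inner_of_nonconst h hnc
  have hmem : ∀ c : ℝ, 0 ≤ c → Complex.exp (-(c * b)) ∈ spectrum ℂ T := fun c hc =>
    spiral_mem h a ha hK N hN b hb hlim c hc
  apply Set.Subset.antisymm
  · intro l hl
    by_cases hl0 : l = 0
    · exact Or.inl hl0
    · exact Or.inr (spiral_resolvent T hT1 b hb (fun l hl hl1 hns =>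
        bb_spiral h a ha hK N hN hin (fix_a h.cont a hK) b hb hlim l hl hl1 hns) l hl hl0)
  · rintro l (rfl | ⟨c, hc, rfl⟩)
    · have hcl : IsClosed (spectrum ℂ T) := spec_closed_aux T
      have hlim0 : Tendsto (fun n : ℕ => Complex.exp (-(((n:ℝ):ℂ) * b))) atTop (𝓝 0) := by
        rw [tendsto_zero_iff_norm_tendsto_zero]
        have e : ∀ n : ℕ, ‖Complex.exp (-(((n:ℝ):ℂ) * b))‖ = Real.exp (-((n:ℝ) * b.re)) := by
          intro n
          rw [Complex.norm_exp]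
          congr 1
          simp
        simp only [e]
        exact Real.tendsto_exp_neg_atTop_nhds_zero.comp
          ((tendsto_natCast_atTop_atTop (R := ℝ)).atTop_mul_const hb)
      exact hcl.mem_of_tendsto hlim0 (Filter.Eventually.of_forall fun n =>
        hmem n (Nat.cast_nonneg n))
    · exact hmem c hc

/-- if every point of the punctured open disc is in the spectrum then the spectrum is the disc -/
theorem disc_of_punct {T : DA →L[ℂ] DA} {Φ : Pt → Pt} (h : IsComp T Φ)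
    (hpunct : ∀ l : ℂ, 0 < ‖l‖ → ‖l‖ < 1 → l ∈ spectrum ℂ T) :
    spectrum ℂ T = closedBall (0:ℂ) 1 := by
  have hT1 : ‖T‖ ≤ 1 := by
    refine ContinuousLinearMap.opNorm_le_bound T zero_le_one (fun f => ?_)
    rw [one_mul]; exact h.norm_le f
  apply Set.Subset.antisymm
  · intro l hl
    rw [mem_closedBall_zero_iff]
    exact spec_sub_aux T hT1 hl
  intro l hl
  rw [mem_closedBall_zero_iff] at hl
  have hcl : IsClosed (spectrum ℂ T) := spec_closed_aux T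
  by_cases hl0 : l = 0
  · have hlim : Tendsto (fun n : ℕ => ((1 / ((n:ℝ) + 2) : ℝ) : ℂ)) atTop (𝓝 (0:ℂ)) := by
      have h1 : Tendsto (fun n : ℕ => (1 / ((n:ℝ) + 2) : ℝ)) atTop (𝓝 0) := by
        have := (tendsto_one_div_add_atTop_nhds_zero_nat (𝕜 := ℝ)).comp (tendsto_add_atTop_nat 1)
        refine this.congr fun n => ?_
        simp only [Function.comp]
        push_cast
        ring
      exact_mod_cast (Complex.continuous_ofReal.tendsto 0).comp h1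
    rw [hl0]
    refine hcl.mem_of_tendsto hlim (Filter.Eventually.of_forall fun n => ?_)
    have hpos : (0:ℝ) < 1 / ((n:ℝ) + 2) := by positivity
    have hlt : 1 / ((n:ℝ) + 2) < 1 := by
      rw [div_lt_one (by positivity)]
      have : (0:ℝ) ≤ n := Nat.cast_nonneg n
      linarith
    apply hpunct
    · rw [Complex.norm_real, Real.norm_eq_abs, abs_of_pos hpos]; exact hpos
    · rw [Complex.norm_real, Real.norm_eq_abs, abs_of_pos hpos]; exact hlt
  · have hlp : 0 < ‖l‖ := norm_pos_iff.2 hl0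
    have hlim : Tendsto (fun n : ℕ => ((1 - 1 / ((n:ℝ) + 2) : ℝ) : ℂ) * l) atTop (𝓝 l) := by
      have h1 : Tendsto (fun n : ℕ => (1 - 1 / ((n:ℝ) + 2) : ℝ)) atTop (𝓝 (1 - 0)) := by
        have := (tendsto_one_div_add_atTop_nhds_zero_nat (𝕜 := ℝ)).comp (tendsto_add_atTop_nat 1)
        refine Tendsto.sub tendsto_const_nhds (this.congr fun n => ?_)
        simp only [Function.comp]
        push_cast
        ring
      have h2 := ((Complex.continuous_ofReal.tendsto _).comp h1).mul_const l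
      simpa using h2
    refine hcl.mem_of_tendsto hlim (Filter.Eventually.of_forall fun n => ?_)
    have hpos : (0:ℝ) < 1 / ((n:ℝ) + 2) := by positivity
    have hlt : 1 / ((n:ℝ) + 2) < 1 := by
      rw [div_lt_one (by positivity)]
      have : (0:ℝ) ≤ n := Nat.cast_nonneg n
      linarith
    have hn : ‖((1 - 1 / ((n:ℝ) + 2) : ℝ) : ℂ) * l‖ = (1 - 1 / ((n:ℝ) + 2)) * ‖l‖ := by
      rw [norm_mul, Complex.norm_real, Real.norm_eq_abs, abs_of_pos (by linarith)]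
    apply hpunct
    · rw [hn]; exact mul_pos (by linarith) hlp
    · rw [hn]
      calc (1 - 1 / ((n:ℝ) + 2)) * ‖l‖ ≤ (1 - 1 / ((n:ℝ) + 2)) * 1 := by
            apply mul_le_mul_of_nonneg_left hl; linarith
        _ < 1 := by linarith

theorem vert_disc {T : DA →L[ℂ] DA} {Φ : Pt → Pt} (h : IsComp T Φ) (a : Pt)
    (ha : ‖(a:ℂ)‖ = 1) (hK : KK Φ ⊆ {a}) (hnc : ∀ c : ℂ, T Z ≠ algebraMap ℂ DA c) (N : ℕ)
    (hN : ∀ z : Pt, Φ^[N] z = a ∨ ‖(Φ^[N] z : ℂ)‖ < 1)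
    (hbb : ∀ l : ℂ, 0 < ‖l‖ → ‖l‖ < 1 → l ∉ spectrum ℂ T → ∀ m : ℂ, ‖m‖ = ‖l‖ →
      ∃ c : ℝ, 0 < c ∧ ∀ f : DA, c * ‖f‖ ≤ ‖T f - m • f‖) :
    spectrum ℂ T = closedBall (0:ℂ) 1 := by
  apply disc_of_punct h
  intro l hl0 hl1
  by_contra hl
  have hfree := circle_of_bb' T l (hbb l hl0 hl1 hl) hl
  obtain ⟨m, hm, hml⟩ := no_circle_free h a ha hK hnc N hN ‖l‖ hl0 hl1
  exact hfree m hml hm

/-- expansion `w + b + o(1)`, `b ≠ 0`: the spectrum is a spiral or the disc -/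
theorem limB_spec {T : DA →L[ℂ] DA} {Φ : Pt → Pt} (h : IsComp T Φ) (a : Pt)
    (ha : ‖(a:ℂ)‖ = 1) (hK : KK Φ ⊆ {a}) (hnc : ∀ c : ℂ, T Z ≠ algebraMap ℂ DA c) (N : ℕ)
    (hN : ∀ z : Pt, Φ^[N] z = a ∨ ‖(Φ^[N] z : ℂ)‖ < 1) (b : ℂ) (hb : b ≠ 0)
    (hB : LimB a b Φ) :
    (0 < b.re ∧ spectrum ℂ T = {l : ℂ | l = 0 ∨ ∃ c : ℝ, 0 ≤ c ∧ l = Complex.exp (-(c * b))}) ∨
    spectrum ℂ T = closedBall (0:ℂ) 1 := by
  have hin := inner_of_nonconst h hnc
  rcases (limB_re a ha _ Φ hB).eq_or_lt with h0 | hpos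
  · right
    apply vert_disc h a ha hK hnc N hN
    intro l hl0 hl1 hl m hm
    exact imag_bb h a ha N hN hin b h0.symm hb hB l hl0 hl1 hl m hm
  · left
    exact ⟨hpos, spiral_spec h a ha hK hnc N hN _ hpos hB⟩

/-- third order expansion at the attracting boundary point: the spectrum is a spiral or the disc -/
theorem taylor_spec {T : DA →L[ℂ] DA} {Φ : Pt → Pt} (h : IsComp T Φ) (a : Pt)
    (ha : ‖(a:ℂ)‖ = 1) (hK : KK Φ ⊆ {a}) (hnc : ∀ c : ℂ, T Z ≠ algebraMap ℂ DA c) (N : ℕ)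
    (hN : ∀ z : Pt, Φ^[N] z = a ∨ ‖(Φ^[N] z : ℂ)‖ < 1) (α β : ℂ) (ht : Tay a α β Φ) :
    (∃ b : ℂ, 0 < b.re ∧
      spectrum ℂ T = {l : ℂ | l = 0 ∨ ∃ c : ℝ, 0 ≤ c ∧ l = Complex.exp (-(c * b))}) ∨
    spectrum ℂ T = closedBall (0:ℂ) 1 := by
  have hin := inner_of_nonconst h hnc
  by_cases hα : α = 0
  · subst hα
    right
    apply vert_disc h a ha hK hnc N hN
    intro l hl0 hl1 hl m hm
    have hC := tay_limC a ha β Φ ht
    have him := limC_im a ha _ Φ hC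
    have hne := limC_ne h a ha hK hin _ hC
    obtain ⟨c, hc⟩ : ∃ c : ℝ, (c:ℂ) = -4 * (a:ℂ) ^ 2 * β :=
      ⟨(-4 * (a:ℂ) ^ 2 * β).re, Complex.ext (Complex.ofReal_re _)
        (by rw [Complex.ofReal_im]; exact him.symm)⟩
    rw [← hc] at hC hne
    exact imag_bb2 h a ha N hN hin c (by exact_mod_cast hne) hC l hl0 hl1 hl m hm
  · have ha0 : (a:ℂ) ≠ 0 := fun h0 => by rw [h0, norm_zero] at ha; exact zero_ne_one ha
    rcases limB_spec h a ha hK hnc N hN _ (mul_ne_zero (mul_ne_zero two_ne_zero ha0) hα)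
      (tay_limB a ha α β Φ ht) with ⟨h1, h2⟩ | h1
    · exact Or.inl ⟨_, h1, h2⟩
    · exact Or.inr h1

end Pool.Agent.Helper203.DS
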